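import Mathlib

/-!
# The complement of finitely many disjoint disks in the plane is connected
-/

set_option autoImplicit false
open Real Set

namespace Pool.Agent.Work.MP_5c1620_co

/-- factor of the radial push away from a disk -/
noncomputable def pf (R δ ρ : ℝ) : ℝ := max 0 (R / ρ - R / (R + δ))

lemma pf_eq_zero {R δ ρ : ℝ} (hR : 0 < R) (hδ : 0 < δ) (h : R + δ ≤ ρ) : pf R δ ρ = 0 := by
  apply max_eq_left
  have : R / ρ ≤ R / (R + δ) := by
    apply div_le_div_of_nonneg_left hR.le (by linarith) h
  linarith

lemma pf_eq {R δ ρ : ℝ} (hR : 0 < R) (hρ : 0 < ρ) (h : ρ ≤ R + δ) :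
    pf R δ ρ = R / ρ - R / (R + δ) := by
  apply max_eq_right
  have : R / (R + δ) ≤ R / ρ := by
    apply div_le_div_of_nonneg_left hR.le hρ h
  linarith

/-- push radially away from the centres -/
noncomputable def Push {n : ℕ} (c : Fin n → ℂ) (R : Fin n → ℝ) (δ : ℝ) (q : ℂ) : ℂ :=
  q + ∑ i, (pf (R i) δ ‖q - c i‖ : ℝ) • (q - c i)

lemma Push_far {n : ℕ} {c : Fin n → ℂ} {R : Fin n → ℝ} {δ : ℝ} (hδ : 0 < δ) (hR : ∀ i, 0 < R i)
    {q : ℂ} (h : ∀ i, R i + δ ≤ ‖q - c i‖) : Push c R δ q = q := by
  unfold Push
  rw [Finset.sum_eq_zero, add_zero]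
  intro i _
  rw [pf_eq_zero (hR i) hδ (h i), zero_smul]

lemma Push_near {n : ℕ} {c : Fin n → ℂ} {R : Fin n → ℝ} {δ : ℝ} (hδ : 0 < δ) (hR : ∀ i, 0 < R i)
    (hsep : ∀ i j, i ≠ j → R i + R j + 2 * δ ≤ ‖c i - c j‖)
    {q : ℂ} {i : Fin n} (h0 : q ≠ c i) (h : ‖q - c i‖ ≤ R i + δ) :
    Push c R δ q - c i = ((‖q - c i‖ + (R i - R i * ‖q - c i‖ / (R i + δ))) / ‖q - c i‖ : ℝ) •
      (q - c i) := by
  have hρ : 0 < ‖q - c i‖ := norm_pos_iff.2 (sub_ne_zero.2 h0)
  unfold Push
  rw [Finset.sum_eq_single i]
  · rw [pf_eq (hR i) hρ h]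
    have e : ((‖q - c i‖ + (R i - R i * ‖q - c i‖ / (R i + δ))) / ‖q - c i‖ : ℝ) =
        1 + (R i / ‖q - c i‖ - R i / (R i + δ)) := by
      have : R i + δ ≠ 0 := by have := hR i; positivity
      field_simp
    rw [e, add_smul, one_smul]
    ring
  · intro j _ hj
    rw [pf_eq_zero (hR j) hδ, zero_smul]
    have h1 := hsep i j (Ne.symm hj)
    have h2 : ‖c i - c j‖ ≤ ‖q - c i‖ + ‖q - c j‖ := by
      have : c i - c j = (q - c j) - (q - c i) := by ring
      rw [this]
      linarith [norm_sub_le (q - c j) (q - c i)]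
    linarith
  · intro h; exact absurd (Finset.mem_univ _) h

theorem isPreconnected_disks {n : ℕ} (c : Fin n → ℂ) (R : Fin n → ℝ) {δ : ℝ} (hδ : 0 < δ)
    (hR : ∀ i, 0 < R i) (hsep : ∀ i j, i ≠ j → R i + R j + 2 * δ ≤ ‖c i - c j‖) :
    IsPreconnected {q : ℂ | ∀ i, R i < ‖q - c i‖} := by
  have hcount : (range c).Countable := (finite_range c).countable
  have hconn : IsConnected ((range c)ᶜ) :=
    hcount.isConnected_compl_of_one_lt_rank (by simp)
  have hcont : ContinuousOn (Push c R δ) ((range c)ᶜ) := by
    unfold Push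
    apply ContinuousOn.add continuousOn_id
    apply continuousOn_finsetSum
    intro i _
    refine ContinuousOn.smul (f := fun a => pf (R i) δ ‖a - c i‖) (g := fun a => a - c i) ?_ ?_
    · unfold pf
      refine ContinuousOn.sup continuousOn_const ?_
      apply ContinuousOn.sub _ continuousOn_const
      apply ContinuousOn.div continuousOn_const
      · fun_prop
      · intro q hq h
        apply hq
        exact ⟨i, (sub_eq_zero.1 (norm_eq_zero.1 h)).symm⟩
    · fun_prop
  have himg : Push c R δ '' ((range c)ᶜ) = {q : ℂ | ∀ i, R i < ‖q - c i‖} := by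
    apply Subset.antisymm
    · rintro _ ⟨q, hq, rfl⟩
      have hq' : ∀ i, q ≠ c i := fun i h => hq ⟨i, h.symm⟩
      by_cases hfar : ∀ i, R i + δ ≤ ‖q - c i‖
      · rw [Push_far hδ hR hfar]
        intro i
        linarith [hfar i]
      · push Not at hfar
        obtain ⟨i, hi⟩ := hfar
        have hρ : 0 < ‖q - c i‖ := norm_pos_iff.2 (sub_ne_zero.2 (hq' i))
        have hRi := hR i
        have e := Push_near hδ hR hsep (hq' i) hi.le
        have hnorm : ‖Push c R δ q - c i‖ = ‖q - c i‖ + (R i - R i * ‖q - c i‖ / (R i + δ)) := by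
          have h1 : 0 ≤ R i - R i * ‖q - c i‖ / (R i + δ) := by
            rw [sub_nonneg, div_le_iff₀ (by linarith)]
            nlinarith
          rw [e, norm_smul, Real.norm_eq_abs, abs_of_nonneg (by positivity)]
          field_simp
        have h2 : R i * ‖q - c i‖ / (R i + δ) < ‖q - c i‖ := by
          rw [div_lt_iff₀ (by linarith)]
          nlinarith
        have h3 : ‖q - c i‖ + (R i - R i * ‖q - c i‖ / (R i + δ)) ≤ R i + δ := by
          have h4 : R i * ‖q - c i‖ / (R i + δ) ≥ ‖q - c i‖ - δ := by
            rw [ge_iff_le, le_div_iff₀ (by linarith)]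
            nlinarith
          linarith
        intro j
        by_cases hj : j = i
        · subst hj
          rw [hnorm]; linarith
        · have h5 := hsep i j (Ne.symm hj)
          have h6 : ‖c i - c j‖ ≤ ‖Push c R δ q - c i‖ + ‖Push c R δ q - c j‖ := by
            have : c i - c j = (Push c R δ q - c j) - (Push c R δ q - c i) := by ring
            rw [this]
            linarith [norm_sub_le (Push c R δ q - c j) (Push c R δ q - c i)]
          linarith
    · intro y hy
      by_cases hfar : ∀ i, R i + δ ≤ ‖y - c i‖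
      · refine ⟨y, ?_, Push_far hδ hR hfar⟩
        rintro ⟨i, hi⟩
        have := hfar i
        rw [← hi, sub_self, norm_zero] at this
        linarith [hR i]
      · push Not at hfar
        obtain ⟨i, hi⟩ := hfar
        have hRi := hR i
        have hyi := hy i
        have hσ : 0 < ‖y - c i‖ := by linarith
        set σ := ‖y - c i‖ with hσdef
        set ρ := (σ - R i) * (R i + δ) / δ with hρdef
        have hρ : 0 < ρ := by
          apply div_pos (mul_pos (by linarith) (by linarith)) hδ
        have hρ' : ρ ≤ R i + δ := by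
          rw [hρdef, div_le_iff₀ hδ]
          nlinarith
        set q := c i + (ρ / σ : ℝ) • (y - c i) with hq
        have hqc : q - c i = (ρ / σ : ℝ) • (y - c i) := by rw [hq]; ring
        have hqn : ‖q - c i‖ = ρ := by
          rw [hqc, norm_smul, Real.norm_eq_abs, abs_of_pos (div_pos hρ hσ), ← hσdef]
          field_simp
        have hqi : q ≠ c i := by
          intro h
          rw [h, sub_self, norm_zero] at hqn
          linarith
        refine ⟨q, ?_, ?_⟩
        · rintro ⟨j, hj⟩
          by_cases hji : j = i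
          · subst hji; exact hqi hj.symm
          · have h5 := hsep i j (Ne.symm hji)
            rw [hj, norm_sub_rev, hqn] at h5
            linarith [hR j]
        · have e := Push_near hδ hR hsep hqi (by rw [hqn]; exact hρ')
          rw [hqn, hqc, smul_smul] at e
          have e2 : ((ρ + (R i - R i * ρ / (R i + δ))) / ρ) * (ρ / σ) = 1 := by
            have h7 : ρ + (R i - R i * ρ / (R i + δ)) = σ := by
              rw [hρdef]
              have : R i + δ ≠ 0 := by positivity
              field_simp
              ring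
            rw [h7]
            field_simp
          rw [e2, one_smul] at e
          exact sub_left_injective e
  rw [← himg]
  exact (hconn.image _ hcont).isPreconnected

end Pool.Agent.Work.MP_5c1620_co
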