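import Pool.Agent.Work.MP_5c1620_co.Meas2
import Pool.Agent.Work.MP_5c1620_co.Conn1

/-!
# Change of the point from which light is emitted

From the dichotomy (for almost every direction, almost all lines near the centre escape or almost
none does) and the connectedness of the complement of the mirrors: almost all lines escape.
-/

set_option autoImplicit false
open Real Set MeasureTheory Filter Topology

namespace Pool.Agent.Work.MP_5c1620_co

variable {N : ℕ}

/-- escape along a line, from the parameter `t0` on -/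
def EscT (C : Cfg N) (t0 : ℝ) (p : ℝ × ℝ) : Prop :=
  (∀ l : Fin N, t0 < tau C (some l) p → C.R (some l) < |bet C (some l) p|) ∨
  ∃ k : Fin N, t0 < tau C (some k) p ∧ |bet C (some k) p| < C.R (some k) ∧
    (∀ m : Fin N, t0 < tau C (some m) p → tau C (some m) p < tau C (some k) p →
      C.R (some m) < |bet C (some m) p|) ∧ Esc C (some k) (S C k p)

lemma Esc_iff_EscT (C : Cfg N) (p : ℝ × ℝ) : Esc C none p ↔ EscT C (tau C none p) p := by
  constructor
  · rintro ⟨w, h1, h2⟩
    cases w with
    | nil => exact Or.inl h2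
    | cons k w =>
      obtain ⟨⟨h3, h4, h5⟩, h6⟩ := h1
      exact Or.inr ⟨k, h3, h4, h5, w, h6, h2⟩
  · rintro (h | ⟨k, h3, h4, h5, w, h6, h2⟩)
    · exact ⟨[], trivial, h⟩
    · exact ⟨k :: w, ⟨⟨h3, h4, h5⟩, h6⟩, h2⟩

lemma EscT_mono {C : Cfg N} {t0 t1 : ℝ} {p : ℝ × ℝ}
    (h : ∀ m : Fin N, |bet C (some m) p| ≤ C.R (some m) →
      (t0 < tau C (some m) p ↔ t1 < tau C (some m) p)) (hE : EscT C t0 p) : EscT C t1 p := by
  rcases hE with hE | ⟨k, h1, h2, h3, h4⟩
  · left
    intro l hl
    by_contra hcon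
    push Not at hcon
    exact absurd (hE l ((h l hcon).2 hl)) (not_lt.2 hcon)
  · right
    refine ⟨k, (h k h2.le).1 h1, h2, ?_, h4⟩
    intro m hm hmk
    by_contra hcon
    push Not at hcon
    exact absurd (h3 m ((h m hcon).2 hm) hmk) (not_lt.2 hcon)

/-- two configurations with the same mirrors -/
def Same (C C' : Cfg N) : Prop :=
  ∀ i : Fin N, C'.cx (some i) = C.cx (some i) ∧ C'.cy (some i) = C.cy (some i) ∧
    C'.R (some i) = C.R (some i)

namespace Same

variable {C C' : Cfg N}

lemma tau_eq (h : Same C C') (i : Fin N) (p : ℝ × ℝ) : tau C' (some i) p = tau C (some i) p := by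
  simp only [tau, (h i).1, (h i).2.1]

lemma bet_eq (h : Same C C') (i : Fin N) (p : ℝ × ℝ) : bet C' (some i) p = bet C (some i) p := by
  simp only [bet, (h i).1, (h i).2.1]

lemma S_eq (h : Same C C') (i : Fin N) (p : ℝ × ℝ) : S C' i p = S C i p := by
  simp only [S, mk, h.bet_eq, (h i).1, (h i).2.1, (h i).2.2]

lemma Path_iff (h : Same C C') (w : List (Fin N)) (i : Fin N) (p : ℝ × ℝ) :
    Path C' (some i) w p ↔ Path C (some i) w p := by
  induction w generalizing i p with
  | nil => exact Iff.rfl
  | cons k w ih =>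
    simp only [Path, h.S_eq]
    refine and_congr ?_ (ih k _)
    simp only [Nx, h.tau_eq, h.bet_eq, (h _).2.2]

lemma Sw_eq (h : Same C C') (w : List (Fin N)) (p : ℝ × ℝ) : Sw C' w p = Sw C w p := by
  induction w generalizing p with
  | nil => rfl
  | cons k w ih => simp only [Sw, h.S_eq, ih]

lemma Fr_iff (h : Same C C') (i : Fin N) (p : ℝ × ℝ) : Fr C' (some i) p ↔ Fr C (some i) p := by
  simp only [Fr, h.tau_eq, h.bet_eq, (h _).2.2]

lemma lst_some (w : List (Fin N)) (i : Fin N) : ∃ j : Fin N, lst (some i) w = some j := by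
  induction w generalizing i with
  | nil => exact ⟨i, rfl⟩
  | cons k w ih => exact ih k

lemma Esc_iff (h : Same C C') (i : Fin N) (p : ℝ × ℝ) :
    Esc C' (some i) p ↔ Esc C (some i) p := by
  simp only [Esc, h.Path_iff, h.Sw_eq]
  refine exists_congr fun w => and_congr_right fun _ => ?_
  obtain ⟨j, hj⟩ := lst_some w i
  rw [hj]
  exact h.Fr_iff j _

lemma EscT_iff (h : Same C C') (t : ℝ) (p : ℝ × ℝ) : EscT C' t p ↔ EscT C t p := by
  simp only [EscT, h.tau_eq, h.bet_eq, (h _).2.2, h.S_eq, h.Esc_iff]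

end Same

/-! ## points -/

/-- parameter of the foot of the point `q` in direction `a` -/
noncomputable def tq (q : ℂ) (a : ℝ) : ℝ := q.re * cos a + q.im * sin a

/-- offset of the point `q` in direction `a` -/
noncomputable def nq (q : ℂ) (a : ℝ) : ℝ := q.im * cos a - q.re * sin a

lemma abs_tq_le (q : ℂ) (a : ℝ) : |tq q a| ≤ ‖q‖ := by
  apply abs_le_of_sq_le_sq _ (norm_nonneg q)
  rw [Complex.sq_norm, Complex.normSq_apply, tq]
  have h := sin_sq_add_cos_sq a
  nlinarith [sq_nonneg (q.im * cos a - q.re * sin a)]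

lemma abs_nq_le (q : ℂ) (a : ℝ) : |nq q a| ≤ ‖q‖ := by
  apply abs_le_of_sq_le_sq _ (norm_nonneg q)
  rw [Complex.sq_norm, Complex.normSq_apply, nq]
  have h := sin_sq_add_cos_sq a
  nlinarith [sq_nonneg (q.re * cos a + q.im * sin a)]

lemma tq_sub (q q' : ℂ) (a : ℝ) : tq q a - tq q' a = tq (q - q') a := by
  simp only [tq, Complex.sub_re, Complex.sub_im]; ring

lemma nq_sub (q q' : ℂ) (a : ℝ) : nq q a - nq q' a = nq (q - q') a := by
  simp only [nq, Complex.sub_re, Complex.sub_im]; ring

/-- centre of an object as a complex number -/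
def cen (C : Cfg N) (o : Option (Fin N)) : ℂ := ⟨C.cx o, C.cy o⟩

lemma norm_cen_sq (C : Cfg N) (q : ℂ) (o : Option (Fin N)) :
    ‖q - cen C o‖ ^ 2 = (q.re - C.cx o) ^ 2 + (q.im - C.cy o) ^ 2 := by
  rw [Complex.sq_norm, Complex.normSq_apply]
  simp only [cen, Complex.sub_re, Complex.sub_im]
  ring

/-- complement of the mirrors -/
def Om (C : Cfg N) : Set ℂ := {q | ∀ i : Fin N, C.R (some i) < ‖q - cen C (some i)‖}

lemma le_norm_cen (C : Cfg N) {o o' : Option (Fin N)} (h : o ≠ o') :
    C.R o + C.R o' + C.d ≤ ‖cen C o - cen C o'‖ := by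
  have h1 := C.sep o o' h
  have h2 := norm_cen_sq C (cen C o) o'
  have h3 : (C.R o + C.R o' + C.d) ^ 2 ≤ ‖cen C o - cen C o'‖ ^ 2 := by
    rw [h2]; exact h1
  exact (le_abs_self _).trans (abs_le_of_sq_le_sq h3 (norm_nonneg _))

lemma isPreconnected_Om (C : Cfg N) : IsPreconnected (Om C) := by
  have hd := C.dpos
  apply isPreconnected_disks (fun i => cen C (some i)) (fun i => C.R (some i)) (δ := C.d / 2)
    (by linarith) (fun i => C.Rpos _)
  intro i j hij
  have h := le_norm_cen C (o := some i) (o' := some j) (by simpa using hij)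
  linarith

lemma cen_mem_Om (C : Cfg N) : cen C none ∈ Om C := by
  intro i
  have h := le_norm_cen C (o := none) (o' := some i) (by simp)
  linarith [C.Rpos none, C.dpos]

/-- every point outside the mirrors is the centre of a chart -/
lemma exists_chart (C : Cfg N) {q : ℂ} (hq : q ∈ Om C) :
    ∃ C' : Cfg N, Same C C' ∧ C'.cx none = q.re ∧ C'.cy none = q.im := by
  obtain ⟨δ, hδ, h⟩ : ∃ δ : ℝ, 0 < δ ∧ ∀ i : Fin N, C.R (some i) + 2 * δ ≤ ‖q - cen C (some i)‖ := by
    have hA : ∀ s : Finset (Fin N), ∃ δ : ℝ, 0 < δ ∧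
        ∀ i ∈ s, C.R (some i) + 2 * δ ≤ ‖q - cen C (some i)‖ := by
      intro s
      induction s using Finset.induction_on with
      | empty => exact ⟨1, one_pos, by simp⟩
      | insert a s _ ih =>
        obtain ⟨δ, hδ, h⟩ := ih
        refine ⟨min δ ((‖q - cen C (some a)‖ - C.R (some a)) / 2),
          lt_min hδ (by linarith [hq a]), ?_⟩
        intro i hi
        rcases Finset.mem_insert.1 hi with rfl | hi
        · linarith [min_le_right δ ((‖q - cen C (some i)‖ - C.R (some i)) / 2)]
        · linarith [min_le_left δ ((‖q - cen C (some a)‖ - C.R (some a)) / 2), h i hi]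
    obtain ⟨δ, h1, h2⟩ := hA Finset.univ
    exact ⟨δ, h1, fun i => h2 i (Finset.mem_univ _)⟩
  have hdd := C.dpos
  refine ⟨{ cx := fun o => Option.elim o q.re (fun i => C.cx (some i))
            cy := fun o => Option.elim o q.im (fun i => C.cy (some i))
            R := fun o => Option.elim o δ (fun i => C.R (some i))
            d := min δ C.d
            dpos := lt_min hδ C.dpos
            Rpos := ?_
            sep := ?_ }, ?_, rfl, rfl⟩
  · intro o
    cases o with
    | none => exact hδ
    | some i => exact C.Rpos _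
  · have m1 := min_le_left δ C.d
    have m2 := min_le_right δ C.d
    have m3 := lt_min hδ C.dpos
    intro o o' hoo
    cases o with
    | none =>
      cases o' with
      | none => exact absurd rfl hoo
      | some j =>
        simp only [Option.elim]
        have h1 := h j
        have h2 := C.Rpos (some j)
        rw [← norm_cen_sq C q (some j)]
        apply pow_le_pow_left₀ <;> linarith
    | some i =>
      cases o' with
      | none =>
        simp only [Option.elim]
        have h1 := h i
        have h2 := C.Rpos (some i)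
        have h3 := norm_cen_sq C q (some i)
        have h4 : (C.R (some i) + δ + min δ C.d) ^ 2 ≤ ‖q - cen C (some i)‖ ^ 2 := by
          apply pow_le_pow_left₀ <;> linarith
        rw [h3] at h4
        linarith
      | some j =>
        simp only [Option.elim]
        have h1 := C.sep (some i) (some j) hoo
        have h2 := C.Rpos (some i)
        have h3 := C.Rpos (some j)
        refine le_trans ?_ h1
        apply pow_le_pow_left₀ <;> linarith
  · intro i
    exact ⟨rfl, rfl, rfl⟩

/-! ## the relation between points -/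

/-- almost all lines in direction `a` near `q` escape -/
def GG1 (C : Cfg N) (q : ℂ) (a : ℝ) : Prop :=
  ∃ ρ : ℝ, 0 < ρ ∧ ∀ᵐ r : ℝ, |r - nq q a| < ρ → EscT C (tq q a) (a, r)

/-- the dichotomy for a configuration -/
def Dich (C : Cfg N) : Prop :=
  ∀ᵐ a : ℝ, (∀ᵐ b : ℝ, |b| < C.R none / 16 → Esc C none (mk C none a b)) ∨
    (∀ᵐ b : ℝ, |b| < C.R none / 16 → ¬ Esc C none (mk C none a b))

lemma ae_translate {P : ℝ → Prop} (c : ℝ) (h : ∀ᵐ b : ℝ, P b) : ∀ᵐ r : ℝ, P (r - c) :=
  (measurePreserving_sub_right volume c).quasiMeasurePreserving.ae h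

lemma not_ae_false {x ρ : ℝ} (hρ : 0 < ρ) (h : ∀ᵐ r : ℝ, |r - x| < ρ → False) : False := by
  have h1 : volume (Metric.ball x ρ) = 0 := by
    rw [measure_eq_zero_iff_ae_notMem]
    filter_upwards [h] with r hr hmem
    rw [Metric.mem_ball, Real.dist_eq] at hmem
    exact hr hmem
  exact absurd h1 (Metric.measure_ball_pos volume x hρ).ne'

lemma G_local {C : Cfg N} (hD : ∀ C' : Cfg N, Dich C') {q : ℂ} (hq : q ∈ Om C) :
    ∃ ε : ℝ, 0 < ε ∧ ∀ᵐ a : ℝ, ∀ q' : ℂ, ‖q' - q‖ < ε → (GG1 C q a ↔ GG1 C q' a) := by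
  obtain ⟨C', hS, hx, hy⟩ := exists_chart C hq
  have hR := C'.Rpos none
  have hd := C'.dpos
  refine ⟨min (C'.R none / 16) C'.d, lt_min (by linarith) hd, ?_⟩
  filter_upwards [hD C'] with a ha q' hq'
  have hq1 : ‖q' - q‖ < C'.R none / 16 := lt_of_lt_of_le hq' (min_le_left _ _)
  have hq2 : ‖q' - q‖ < C'.d := lt_of_lt_of_le hq' (min_le_right _ _)
  have hmk : ∀ r : ℝ, mk C' none a (r - nq q a) = (a, r) := by
    intro r
    simp only [mk, hx, hy, nq]
    refine Prod.ext rfl ?_
    simp only
    ring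
  have htau : ∀ r : ℝ, tau C' none (a, r) = tq q a := by
    intro r
    simp only [tau, hx, hy, tq]
  have hbet : ∀ r : ℝ, bet C' none (a, r) = r - nq q a := by
    intro r
    simp only [bet, hx, hy, nq]
    ring
  have hesc : ∀ r : ℝ, Esc C' none (mk C' none a (r - nq q a)) ↔ EscT C (tq q a) (a, r) := by
    intro r
    rw [hmk, Esc_iff_EscT, hS.EscT_iff, htau]
  have hn : ∀ r : ℝ, |r - nq q a| ≤ |r - nq q' a| + ‖q' - q‖ := by
    intro r
    have h1 := abs_nq_le (q' - q) a
    rw [← nq_sub] at h1
    have h2 := abs_add_le (r - nq q' a) (nq q' a - nq q a)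
    rw [show r - nq q' a + (nq q' a - nq q a) = r - nq q a by ring] at h2
    linarith
  have hiff : ∀ r : ℝ, |r - nq q a| < C'.R none / 16 → ∀ q'' : ℂ, ‖q'' - q‖ < C'.d →
      (EscT C (tq q a) (a, r) ↔ EscT C (tq q'' a) (a, r)) := by
    intro r hr q'' hq''
    have key : ∀ m : Fin N, |bet C (some m) (a, r)| ≤ C.R (some m) →
        (tq q a < tau C (some m) (a, r) ↔ tq q'' a < tau C (some m) (a, r)) := by
      intro m hm
      have h1 := abs_le.1 ((abs_tq_le (q'' - q) a))
      rw [← tq_sub] at h1
      have hb : |bet C' none (a, r)| ≤ C'.R none := by rw [hbet]; linarith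
      have hm' : |bet C' (some m) (a, r)| ≤ C'.R (some m) := by
        rw [hS.bet_eq, (hS m).2.2]; exact hm
      have e := hS.tau_eq m (a, r)
      have a1 := alp_nonneg C' none (a, r)
      have a2 := alp_nonneg C' (some m) (a, r)
      rcases le_total (tau C' none (a, r)) (tau C' (some m) (a, r)) with h | h
      · have h2 := sep_tau0 C' (by simp) hb hm' h
        rw [htau, e] at h2
        constructor <;> intro _ <;> linarith
      · have h2 := sep_tau0 C' (by simp) hm' hb h
        rw [htau, e] at h2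
        constructor <;> intro _ <;> linarith
    exact ⟨EscT_mono key, EscT_mono fun m hm => (key m hm).symm⟩
  rcases ha with ha | ha
  · have ha' := ae_translate (nq q a) ha
    constructor
    · intro _
      refine ⟨C'.R none / 16 - ‖q' - q‖, by linarith, ?_⟩
      filter_upwards [ha'] with r hr hlt
      have h1 := hn r
      have h2 : |r - nq q a| < C'.R none / 16 := by linarith
      exact (hiff r h2 q' hq2).1 ((hesc r).1 (hr h2))
    · intro _
      refine ⟨C'.R none / 16, by linarith, ?_⟩
      filter_upwards [ha'] with r hr hlt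
      exact (hesc r).1 (hr hlt)
  · have ha' := ae_translate (nq q a) ha
    have hno : ∀ q'' : ℂ, ‖q'' - q‖ < C'.R none / 16 → ‖q'' - q‖ < C'.d → ¬ GG1 C q'' a := by
      rintro q'' h1 h2 ⟨ρ, hρ, h3⟩
      have hn'' : ∀ r : ℝ, |r - nq q a| ≤ |r - nq q'' a| + ‖q'' - q‖ := by
        intro r
        have h1 := abs_nq_le (q'' - q) a
        rw [← nq_sub] at h1
        have h2 := abs_add_le (r - nq q'' a) (nq q'' a - nq q a)
        rw [show r - nq q'' a + (nq q'' a - nq q a) = r - nq q a by ring] at h2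
        linarith
      apply not_ae_false (x := nq q'' a) (ρ := min ρ (C'.R none / 16 - ‖q'' - q‖))
        (lt_min hρ (by linarith))
      filter_upwards [h3, ha'] with r h4 h5 h6
      have h7 := lt_of_lt_of_le h6 (min_le_left _ _)
      have h8 := lt_of_lt_of_le h6 (min_le_right _ _)
      have h9 := hn'' r
      have h10 : |r - nq q a| < C'.R none / 16 := by linarith
      apply h5 h10
      rw [hesc]
      exact (hiff r h10 q'' h2).2 (h4 h7)
    constructor
    · intro h
      exact absurd h (hno q (by rw [sub_self, norm_zero]; linarith) (by rw [sub_self, norm_zero]; exact hd))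
    · intro h
      exact absurd h (hno q' hq1 hq2)

lemma G_all {C : Cfg N} (hD : ∀ C' : Cfg N, Dich C') {q q' : ℂ} (hq : q ∈ Om C)
    (hq' : q' ∈ Om C) : ∀ᵐ a : ℝ, (GG1 C q a ↔ GG1 C q' a) := by
  apply (isPreconnected_Om C).induction₂ (fun q q' => ∀ᵐ a : ℝ, (GG1 C q a ↔ GG1 C q' a))
    _ _ _ hq hq'
  · intro x hx
    obtain ⟨ε, hε, h⟩ := G_local hD hx
    have : Metric.ball x ε ∈ 𝓝[Om C] x := mem_nhdsWithin_of_mem_nhds (Metric.ball_mem_nhds x hε)
    filter_upwards [this] with y hy
    filter_upwards [h] with a ha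
    apply ha y
    rwa [Metric.mem_ball, dist_eq_norm] at hy
  · intro x y z _ _ _ h1 h2
    filter_upwards [h1, h2] with a h3 h4
    exact h3.trans h4
  · intro x y _ _ h
    filter_upwards [h] with a ha
    exact ha.symm

/-- from far away in the direction of the light every line escapes at once -/
lemma G_far {C : Cfg N} {q : ℂ} {a : ℝ} (h : ∀ i : Fin N, tq (cen C (some i)) a < tq q a) :
    GG1 C q a := by
  refine ⟨1, one_pos, Filter.Eventually.of_forall fun r _ => Or.inl ?_⟩
  intro l hl
  have h1 := h l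
  simp only [tau, tq, cen] at h1 hl
  linarith

lemma exists_bound (C : Cfg N) : ∃ M : ℝ, 0 < M ∧ ∀ i : Fin N,
    ‖cen C (some i)‖ + C.R (some i) < M := by
  have hA : ∀ s : Finset (Fin N), ∃ M : ℝ, 0 < M ∧ ∀ i ∈ s, ‖cen C (some i)‖ + C.R (some i) < M := by
    intro s
    induction s using Finset.induction_on with
    | empty => exact ⟨1, one_pos, by simp⟩
    | insert a s _ ih =>
      obtain ⟨M, hM, h⟩ := ih
      refine ⟨max M (‖cen C (some a)‖ + C.R (some a) + 1), lt_max_of_lt_left hM, ?_⟩
      intro i hi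
      rcases Finset.mem_insert.1 hi with rfl | hi
      · exact lt_max_of_lt_right (by linarith)
      · exact lt_max_of_lt_left (h i hi)
  obtain ⟨M, h1, h2⟩ := hA Finset.univ
  exact ⟨M, h1, fun i => h2 i (Finset.mem_univ _)⟩

lemma G_ae {C : Cfg N} (hD : ∀ C' : Cfg N, Dich C') {q : ℂ} (hq : q ∈ Om C) :
    ∀ᵐ a : ℝ, GG1 C q a := by
  obtain ⟨M, hM, hb⟩ := exists_bound C
  have hfar : ∀ q' : ℂ, M ≤ ‖q'‖ → q' ∈ Om C := by
    intro q' h i
    have h1 := hb i
    have h2 : ‖q'‖ ≤ ‖q' - cen C (some i)‖ + ‖cen C (some i)‖ := by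
      have := norm_add_le (q' - cen C (some i)) (cen C (some i))
      rwa [sub_add_cancel] at this
    linarith
  have hlt : ∀ (q' : ℂ) (a : ℝ), M ≤ tq q' a → ∀ i : Fin N, tq (cen C (some i)) a < tq q' a := by
    intro q' a h i
    have h1 := le_abs_self (tq (cen C (some i)) a)
    have h2 := abs_tq_le (cen C (some i)) a
    have h3 := hb i
    have h4 := C.Rpos (some i)
    linarith
  have n1 : ‖((2 * M : ℝ) : ℂ)‖ = 2 * M := by
    rw [Complex.norm_real, Real.norm_eq_abs, abs_of_pos (by linarith)]
  have n2 : ‖((2 * M : ℝ) : ℂ) * Complex.I‖ = 2 * M := by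
    rw [norm_mul, Complex.norm_I, mul_one, n1]
  have e1 := G_all hD hq (hfar ((2 * M : ℝ) : ℂ) (by rw [n1]; linarith))
  have e2 := G_all hD hq (hfar (-((2 * M : ℝ) : ℂ)) (by rw [norm_neg, n1]; linarith))
  have e3 := G_all hD hq (hfar (((2 * M : ℝ) : ℂ) * Complex.I) (by rw [n2]; linarith))
  have e4 := G_all hD hq (hfar (-(((2 * M : ℝ) : ℂ) * Complex.I)) (by rw [norm_neg, n2]; linarith))
  filter_upwards [e1, e2, e3, e4] with a h1 h2 h3 h4
  have hsc := sin_sq_add_cos_sq a
  by_cases c1 : 1 / 2 ≤ cos a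
  · apply h1.2
    apply G_far
    apply hlt
    simp only [tq, Complex.ofReal_re, Complex.ofReal_im]
    nlinarith
  by_cases c2 : cos a ≤ -(1 / 2)
  · apply h2.2
    apply G_far
    apply hlt
    simp only [tq, Complex.neg_re, Complex.neg_im, Complex.ofReal_re, Complex.ofReal_im]
    nlinarith
  by_cases c3 : 1 / 2 ≤ sin a
  · apply h3.2
    apply G_far
    apply hlt
    simp only [tq, Complex.mul_re, Complex.mul_im, Complex.ofReal_re, Complex.ofReal_im,
      Complex.I_re, Complex.I_im]
    nlinarith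
  by_cases c4 : sin a ≤ -(1 / 2)
  · apply h4.2
    apply G_far
    apply hlt
    simp only [tq, Complex.neg_re, Complex.neg_im, Complex.mul_re, Complex.mul_im,
      Complex.ofReal_re, Complex.ofReal_im, Complex.I_re, Complex.I_im]
    nlinarith
  exfalso
  push Not at c1 c2 c3 c4
  nlinarith

/-- **Change of chart**: the dichotomy in all configurations implies that almost every line in
every chart escapes. -/
theorem esc_ae_of_dich (hD : ∀ C' : Cfg N, Dich C') (C : Cfg N) :
    ∀ᵐ p : ℝ × ℝ, |bet C none p| < C.R none / 16 → Esc C none p := by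
  have hR := C.Rpos none
  have h1 := G_ae hD (cen_mem_Om C)
  have h2 : ∀ᵐ a : ℝ, ∀ᵐ b : ℝ, |b| < C.R none / 16 → Esc C none (mk C none a b) := by
    filter_upwards [h1, hD C] with a ha hda
    rcases hda with hda | hda
    · exact hda
    · exfalso
      obtain ⟨ρ, hρ, h3⟩ := ha
      have h4 := ae_translate (nq (cen C none) a) hda
      apply not_ae_false (x := nq (cen C none) a) (ρ := min ρ (C.R none / 16))
        (lt_min hρ (by linarith))
      filter_upwards [h3, h4] with r h5 h6 h7
      apply h6 (lt_of_lt_of_le h7 (min_le_right _ _))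
      rw [Esc_iff_EscT]
      have h8 := h5 (lt_of_lt_of_le h7 (min_le_left _ _))
      have e : mk C none a (r - nq (cen C none) a) = (a, r) := by
        simp only [mk, nq, cen]
        refine Prod.ext rfl ?_
        simp only
        ring
      rw [e]
      exact h8
  have hm : MeasurableSet {p : ℝ × ℝ | |p.2| < C.R none / 16 → Esc C none (mk C none p.1 p.2)} := by
    have m1 : MeasurableSet {p : ℝ × ℝ | |p.2| < C.R none / 16} :=
      measurableSet_lt (by fun_prop) measurable_const
    have m2 : MeasurableSet {p : ℝ × ℝ | Esc C none (mk C none p.1 p.2)} :=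
      (continuous_mk C none).measurable (measurableSet_Esc C none)
    have : {p : ℝ × ℝ | |p.2| < C.R none / 16 → Esc C none (mk C none p.1 p.2)} =
        {p : ℝ × ℝ | |p.2| < C.R none / 16}ᶜ ∪ {p : ℝ × ℝ | Esc C none (mk C none p.1 p.2)} := by
      ext p
      simp only [Set.mem_ofPred_eq, mem_union, mem_compl_iff]
      tauto
    rw [this]
    exact m1.compl.union m2
  have h3 : ∀ᵐ p : ℝ × ℝ, |p.2| < C.R none / 16 → Esc C none (mk C none p.1 p.2) := by
    rw [Measure.volume_eq_prod]
    exact (Measure.ae_prod_iff_ae_ae hm).2 h2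
  have h4 := (mp_bet C none).quasiMeasurePreserving.ae h3
  filter_upwards [h4] with p hp hlt
  have := hp hlt
  rwa [mk_bet] at this

end Pool.Agent.Work.MP_5c1620_co
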