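import Pool.Agent.Work.MP_5c1620_co.Bridge

/-!
# Strict version of the bridge: transversal reflections, no tangencies at all
-/

set_option autoImplicit false
open Real Set MeasureTheory

namespace Pool.Agent.Work.MP_5c1620_co

variable {N : ℕ}

lemma lt_dist_pt (C : Cfg N) (o : Option (Fin N)) (p : ℝ × ℝ) (t : ℝ)
    (h : C.R o < |bet C o p| ∨ alp C o p < |t - tau C o p|) :
    C.R o < dist (pt p t) (ctr C o) := by
  have hR := C.Rpos o
  apply lt_of_pow_lt_pow_left₀ 2 dist_nonneg
  rw [dist_pt_sq]
  have h3 := alp_nonneg C o p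
  have h2 := sq_abs (bet C o p)
  have h4 := sq_abs (t - tau C o p)
  rcases h with h | h
  · nlinarith [sq_nonneg (t - tau C o p), abs_nonneg (bet C o p)]
  · rcases le_or_gt |bet C o p| (C.R o) with h1 | h1
    · have h5 := alp_sq C o h1
      nlinarith
    · nlinarith [sq_nonneg (t - tau C o p), abs_nonneg (bet C o p)]

lemma not_between_lt {C : Cfg N} {o : Option (Fin N)} {p : ℝ × ℝ}
    (ho : |bet C o p| ≤ C.R o) {i : Fin N} (hi : tau C (some i) p ≤ tau C o p) {t : ℝ}
    (ht : pos C o p < t) : C.R (some i) < dist (pt p t) (ctr C (some i)) := by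
  apply lt_dist_pt
  right
  have hd := C.dpos
  have hpos := tau_le_pos C o p
  rcases le_or_gt (C.R (some i)) |bet C (some i) p| with h1 | h1
  · rw [alp_eq_zero C (some i) h1, abs_of_pos (by linarith)]; linarith
  · by_cases hio : some i = o
    · subst hio
      simp only [pos] at ht
      rw [abs_of_nonneg (by linarith [alp_nonneg C (some i) p])]
      linarith
    · have h2 := sep_tau0 C hio h1.le ho hi
      have h3 := alp_nonneg C o p
      have h4 := alp_nonneg C (some i) p
      rw [abs_of_nonneg (by linarith)]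
      linarith

lemma seg_free_lt {C : Cfg N} {o : Option (Fin N)} {k : Fin N} {p : ℝ × ℝ}
    (ho : |bet C o p| ≤ C.R o) (h : Nx C o k p) (i : Fin N) {t : ℝ}
    (ht : pos C o p < t) (ht' : t < tau C (some k) p - alp C (some k) p) :
    C.R (some i) < dist (pt p t) (ctr C (some i)) := by
  have hd := C.dpos
  have hk := alp_nonneg C (some k) p
  rcases le_or_gt (tau C (some i) p) (tau C o p) with hi | hi
  · exact not_between_lt ho hi ht
  · apply lt_dist_pt
    rcases lt_or_ge (tau C (some i) p) (tau C (some k) p) with h0 | h0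
    · exact Or.inl (h.2.2 i hi h0)
    · right
      rcases le_or_gt (C.R (some i)) |bet C (some i) p| with h1 | h1
      · rw [alp_eq_zero C (some i) h1, abs_of_neg (by linarith)]
        linarith
      · by_cases hik : k = i
        · subst hik
          rw [abs_of_nonpos (by linarith)]
          linarith
        · have h2 := sep_tau0 C (o := some k) (o' := some i) (by simpa using hik) h.2.1.le h1.le h0
          have h4 := alp_nonneg C (some i) p
          rw [abs_of_nonpos (by linarith)]
          linarith

lemma dist_pt_pt (p : ℝ × ℝ) (s t : ℝ) : pt p s + t • dirv p = pt p (s + t) := by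
  apply Pl.ext'
  · simp; ring
  · simp; ring

lemma norm_dirv (p : ℝ × ℝ) : ‖dirv p‖ = 1 := by
  have h : ‖dirv p‖ ^ 2 = 1 := by
    rw [EuclideanSpace.norm_eq, sq_sqrt (Finset.sum_nonneg fun i _ => sq_nonneg _),
      Fin.sum_univ_two]
    simp only [dirv_zero, dirv_one, Real.norm_eq_abs, sq_abs]
    have := sin_sq_add_cos_sq p.1
    linarith
  have h0 := norm_nonneg (dirv p)
  nlinarith

/-- transversality of the reflection -/
lemma inner_dirv_neg (C : Cfg N) (k : Fin N) {p : ℝ × ℝ} (h : |bet C (some k) p| < C.R (some k))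
    {ν : Pl} (hν : ν = pt p (tau C (some k) p - alp C (some k) p) - ctr C (some k)) :
    inner ℝ (dirv p) ν = - alp C (some k) p ∧ 0 < alp C (some k) p := by
  have h6 := sin_sq_add_cos_sq p.1
  have n0 : ν 0 = -(bet C (some k) p * sin p.1) - alp C (some k) p * cos p.1 := by
    rw [hν, PiLp.sub_apply, ctr_zero, pt_sub_ctr_zero]
    ring
  have n1 : ν 1 = bet C (some k) p * cos p.1 - alp C (some k) p * sin p.1 := by
    rw [hν, PiLp.sub_apply, ctr_one, pt_sub_ctr_one]
    ring
  constructor
  · rw [inner_Pl, n0, n1, dirv_zero, dirv_one]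
    linear_combination (-alp C (some k) p) * h6
  · have h1 := alp_sq C (some k) h.le
    have h2 := alp_nonneg C (some k) p
    have h3 := sq_abs (bet C (some k) p)
    have h4 := C.Rpos (some k)
    have h5 := abs_nonneg (bet C (some k) p)
    have h7 : 0 < alp C (some k) p ^ 2 := by rw [h1]; nlinarith
    exact lt_of_le_of_ne h2 fun h => by rw [← h] at h7; norm_num at h7

/-- the successive lines of the light path along a word -/
noncomputable def lns (C : Cfg N) : List (Fin N) → ℝ × ℝ → ℕ → ℝ × ℝ
  | [], p, _ => p
  | _ :: _, p, 0 => p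
  | k :: w, p, j + 1 => lns C w (S C k p) j

lemma lns_zero (C : Cfg N) (w : List (Fin N)) (p : ℝ × ℝ) : lns C w p 0 = p := by
  cases w <;> rfl

lemma lns_cons (C : Cfg N) (k : Fin N) (w : List (Fin N)) (p : ℝ × ℝ) (j : ℕ) :
    lns C (k :: w) p (j + 1) = lns C w (S C k p) j := rfl

/-- the vertices of an escaping itinerary, strict form -/
lemma pts_strict {C : Cfg N} (w : List (Fin N)) : ∀ (o : Option (Fin N)) (p : ℝ × ℝ),
    |bet C o p| ≤ C.R o → Path C o w p → Fr C (lst o w) (Sw C w p) →
    (∀ j, j < w.length → ∃ T : ℝ, 0 < T ∧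
      pts C o w p (j + 1) = pts C o w p j + T • dirv (lns C w p j) ∧
      (∀ i : Fin N, ∀ t : ℝ, 0 < t → t < T →
        C.R (some i) < dist (pts C o w p j + t • dirv (lns C w p j)) (ctr C (some i))) ∧
      ∃ k : Fin N, dist (pts C o w p (j + 1)) (ctr C (some k)) = C.R (some k) ∧
        inner ℝ (dirv (lns C w p j)) (pts C o w p (j + 1) - ctr C (some k)) < 0 ∧
        dirv (lns C w p (j + 1)) = dirv (lns C w p j) -
          (2 * inner ℝ (dirv (lns C w p j)) (pts C o w p (j + 1) - ctr C (some k)) /
            inner ℝ (pts C o w p (j + 1) - ctr C (some k))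
              (pts C o w p (j + 1) - ctr C (some k))) •
            (pts C o w p (j + 1) - ctr C (some k))) ∧
    (∀ i : Fin N, ∀ t : ℝ, 0 < t → C.R (some i) <
      dist (pts C o w p w.length + t • dirv (lns C w p w.length)) (ctr C (some i))) := by
  induction w with
  | nil =>
    intro o p ho hP hF
    simp only [lst, Sw] at hF
    refine ⟨?_, ?_⟩
    · intro j hj; simp at hj
    · intro i t ht
      rw [List.length_nil, pts_nil]
      simp only [lns]
      rw [dist_pt_pt]
      have ht' : pos C o p < pos C o p + ((0 : ℕ) : ℝ) + t := by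
        push_cast; linarith
      rcases le_or_gt (tau C (some i) p) (tau C o p) with hi | hi
      · exact not_between_lt ho hi ht'
      · exact lt_dist_pt C _ _ _ (Or.inl (hF i hi))
  | cons k w ih =>
    intro o p ho hP hF
    have hP0 := hP
    obtain ⟨h1, h2⟩ := hP
    have hb : |bet C (some k) (S C k p)| ≤ C.R (some k) := by rw [bet_S]; exact h1.2.1.le
    obtain ⟨A, B⟩ := ih (some k) (S C k p) hb h2 hF
    obtain ⟨T, hT, hT1, hT2⟩ := pts_one ho hP0
    have hT2 := hT2 k w rfl
    have hz : pts C o (k :: w) p 0 = pt p (pos C o p) := rfl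
    refine ⟨?_, ?_⟩
    · intro j hj
      cases j with
      | zero =>
        refine ⟨T, hT, ?_, ?_, k, ?_, ?_, ?_⟩
        · rw [zero_add, hz, hT1, lns_zero, dist_pt_pt]
        · intro i t ht ht'
          rw [hz, lns_zero, dist_pt_pt]
          apply seg_free_lt ho h1 i
          · linarith
          · rw [← hT2]; linarith
        · rw [zero_add, hT1, hT2]
          apply dist_pt_eq C (some k) p _ h1.2.1.le
          ring
        · rw [zero_add, hT1, hT2, lns_zero]
          obtain ⟨a1, a2⟩ := inner_dirv_neg C k h1.2.1 rfl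
          rw [a1]; linarith
        · rw [lns_cons, lns_zero, lns_zero, zero_add, hT1, hT2]
          exact dirv_S C k h1.2.1.le rfl
      | succ j =>
        rw [pts_cons, pts_cons, lns_cons, lns_cons]
        exact A j (by simpa using hj)
    · intro i t ht
      rw [List.length_cons, pts_cons, lns_cons]
      exact B i t ht

/-- every family of disjoint closed disks and every point outside is a configuration -/
lemma exists_cfg (n : ℕ) (c : Fin n → Pl) (r : Fin n → ℝ) (hr : ∀ i, 0 < r i)
    (hsep : ∀ i j, i ≠ j → r i + r j < dist (c i) (c j)) (x : Pl) (hx : ∀ i, r i < dist x (c i)) :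
    ∃ C : Cfg n, (∀ i, ctr C (some i) = c i) ∧ (∀ i, C.R (some i) = r i) ∧ ctr C none = x := by
  obtain ⟨δ, hδ, h1, h2⟩ : ∃ δ : ℝ, 0 < δ ∧ (∀ i, r i + δ ≤ dist x (c i)) ∧
      (∀ i j, i ≠ j → r i + r j + δ ≤ dist (c i) (c j)) := by
    have hA : ∀ s : Finset (Fin n), ∃ δ : ℝ, 0 < δ ∧ ∀ i ∈ s, r i + δ ≤ dist x (c i) := by
      intro s
      induction s using Finset.induction_on with
      | empty => exact ⟨1, one_pos, by simp⟩
      | insert a s _ ih =>
        obtain ⟨δ, hδ, h⟩ := ih
        refine ⟨min δ (dist x (c a) - r a), lt_min hδ (by linarith [hx a]), ?_⟩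
        intro i hi
        rcases Finset.mem_insert.1 hi with rfl | hi
        · linarith [min_le_right δ (dist x (c i) - r i)]
        · linarith [min_le_left δ (dist x (c a) - r a), h i hi]
    have hB : ∀ s : Finset (Fin n × Fin n), ∃ δ : ℝ, 0 < δ ∧ ∀ i ∈ s, i.1 ≠ i.2 →
        r i.1 + r i.2 + δ ≤ dist (c i.1) (c i.2) := by
      intro s
      induction s using Finset.induction_on with
      | empty => exact ⟨1, one_pos, by simp⟩
      | insert a s _ ih =>
        obtain ⟨δ, hδ, h⟩ := ih
        by_cases ha : a.1 = a.2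
        · refine ⟨δ, hδ, ?_⟩
          intro i hi hne
          rcases Finset.mem_insert.1 hi with rfl | hi
          · exact absurd ha hne
          · exact h i hi hne
        · refine ⟨min δ (dist (c a.1) (c a.2) - r a.1 - r a.2),
            lt_min hδ (by linarith [hsep a.1 a.2 ha]), ?_⟩
          intro i hi hne
          rcases Finset.mem_insert.1 hi with rfl | hi
          · linarith [min_le_right δ (dist (c i.1) (c i.2) - r i.1 - r i.2)]
          · linarith [min_le_left δ (dist (c a.1) (c a.2) - r a.1 - r a.2), h i hi hne]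
    obtain ⟨δ1, h1, h1'⟩ := hA Finset.univ
    obtain ⟨δ2, h2, h2'⟩ := hB Finset.univ
    refine ⟨min δ1 δ2, lt_min h1 h2, ?_, ?_⟩
    · intro i
      linarith [h1' i (Finset.mem_univ _), min_le_left δ1 δ2]
    · intro i j hij
      have := h2' (i, j) (Finset.mem_univ _) hij
      simp only at this
      linarith [min_le_right δ1 δ2]
  let C : Cfg n :=
    { cx := fun o => (Option.elim o x c) 0
      cy := fun o => (Option.elim o x c) 1
      R := fun o => Option.elim o (δ / 2) r
      d := δ / 2
      dpos := by linarith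
      Rpos := by
        intro o
        cases o with
        | none => simp only [Option.elim]; linarith
        | some i => simp only [Option.elim]; exact hr i
      sep := by
        intro o o' hoo
        rw [← dist_sq]
        apply pow_le_pow_left₀
        · have : ∀ o : Option (Fin n), 0 < Option.elim o (δ / 2) r := by
            intro o
            cases o with
            | none => simp only [Option.elim]; linarith
            | some i => simp only [Option.elim]; exact hr i
          linarith [this o, this o']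
        · cases o with
          | none =>
            cases o' with
            | none => exact absurd rfl hoo
            | some j => simp only [Option.elim]; linarith [h1 j]
          | some i =>
            cases o' with
            | none => simp only [Option.elim]; rw [dist_comm]; linarith [h1 i]
            | some j =>
              simp only [Option.elim]
              linarith [h2 i j (by rintro rfl; exact hoo rfl)] }
  exact ⟨C, fun i => Pl.ext' rfl rfl, fun i => rfl, Pl.ext' rfl rfl⟩

/-- The strict form of the escape statement. -/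
theorem strict_of_main (H : ∀ (N : ℕ) (C : Cfg N), ∃ a : ℝ, Esc C none (mk C none a 0))
    (n : ℕ) (c : Fin n → Pl) (r : Fin n → ℝ) (hr : ∀ i, 0 < r i)
    (hsep : ∀ i j, i ≠ j → r i + r j < dist (c i) (c j)) (x : Pl)
    (hx : ∀ i, r i < dist x (c i)) :
    ∃ (m : ℕ) (p v : ℕ → Pl) (T : ℕ → ℝ),
      p 0 = x ∧ ‖v 0‖ = 1 ∧
      (∀ k, k < m → 0 < T k ∧ p (k + 1) = p k + T k • v k ∧
        (∀ i, ∀ t : ℝ, 0 < t → t < T k → r i < dist (p k + t • v k) (c i)) ∧
        ∃ i, dist (p (k + 1)) (c i) = r i ∧ inner ℝ (v k) (p (k + 1) - c i) < 0 ∧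
          v (k + 1) = v k - (2 * inner ℝ (v k) (p (k + 1) - c i) /
            inner ℝ (p (k + 1) - c i) (p (k + 1) - c i)) • (p (k + 1) - c i)) ∧
      (∀ i, ∀ t : ℝ, 0 < t → r i < dist (p m + t • v m) (c i)) := by
  obtain ⟨C, hctr, hR, hctr0⟩ := exists_cfg n c r hr hsep x hx
  obtain ⟨a, w, hw1, hw2⟩ := H n C
  have hb : bet C none (mk C none a 0) = 0 := by simp
  have hb' : |bet C none (mk C none a 0)| ≤ C.R none := by
    rw [hb, abs_zero]; exact (C.Rpos none).le
  obtain ⟨A, B⟩ := pts_strict w none _ hb' hw1 hw2
  choose! T hT using A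
  refine ⟨w.length, pts C none w (mk C none a 0), fun j => dirv (lns C w (mk C none a 0) j), T,
    ?_, norm_dirv _, ?_, ?_⟩
  · rw [pts_zero, ← hctr0]
    have h3 := dist_pt_sq C none (mk C none a 0) (pos C none (mk C none a 0))
    rw [hb] at h3
    simp only [pos, sub_self] at h3
    have h4 : dist (pt (mk C none a 0) (tau C none (mk C none a 0))) (ctr C none) ^ 2 = 0 := by
      rw [h3]; norm_num
    exact dist_eq_zero.1 (pow_eq_zero_iff (two_ne_zero) |>.1 h4)
  · intro k hk
    obtain ⟨h1, h2, h3, i, h4, h5, h6⟩ := hT k hk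
    refine ⟨h1, h2, ?_, i, ?_, ?_, ?_⟩
    · intro i t ht ht'
      have := h3 i t ht ht'
      rwa [hctr i, hR i] at this
    · rwa [hctr i, hR i] at h4
    · rwa [hctr i] at h5
    · rwa [hctr i] at h6
  · intro i t ht
    have := B i t ht
    rwa [hctr i, hR i] at this

end Pool.Agent.Work.MP_5c1620_co
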