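import Pool.Agent.Work.MP_5c1620_co.Per

/-!
# From escaping lines to light paths in the frozen statement
-/

set_option autoImplicit false
open Real Set MeasureTheory

namespace Pool.Agent.Work.MP_5c1620_co

variable {N : ℕ}

/-- the plane -/
abbrev Pl := EuclideanSpace ℝ (Fin 2)

/-- the point with parameter `t` on the line `p` -/
noncomputable def pt (p : ℝ × ℝ) (t : ℝ) : Pl :=
  !₂[-(p.2 * sin p.1) + t * cos p.1, p.2 * cos p.1 + t * sin p.1]

/-- the direction of a line -/
noncomputable def dirv (p : ℝ × ℝ) : Pl := !₂[cos p.1, sin p.1]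

/-- the centre of an object -/
noncomputable def ctr (C : Cfg N) (o : Option (Fin N)) : Pl := !₂[C.cx o, C.cy o]

@[simp] lemma pt_zero (p : ℝ × ℝ) (t : ℝ) : pt p t 0 = -(p.2 * sin p.1) + t * cos p.1 := rfl
@[simp] lemma pt_one (p : ℝ × ℝ) (t : ℝ) : pt p t 1 = p.2 * cos p.1 + t * sin p.1 := rfl
@[simp] lemma dirv_zero (p : ℝ × ℝ) : dirv p 0 = cos p.1 := rfl
@[simp] lemma dirv_one (p : ℝ × ℝ) : dirv p 1 = sin p.1 := rfl
@[simp] lemma ctr_zero (C : Cfg N) (o : Option (Fin N)) : ctr C o 0 = C.cx o := rfl
@[simp] lemma ctr_one (C : Cfg N) (o : Option (Fin N)) : ctr C o 1 = C.cy o := rfl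

lemma Pl.ext' {x y : Pl} (h0 : x 0 = y 0) (h1 : x 1 = y 1) : x = y := by
  ext i
  fin_cases i
  · exact h0
  · exact h1

lemma dist_sq (x y : Pl) : dist x y ^ 2 = (x 0 - y 0) ^ 2 + (x 1 - y 1) ^ 2 := by
  rw [EuclideanSpace.dist_eq, sq_sqrt (Finset.sum_nonneg fun i _ => sq_nonneg _),
    Fin.sum_univ_two, Real.dist_eq, Real.dist_eq, sq_abs, sq_abs]

lemma dist_pt_sq (C : Cfg N) (o : Option (Fin N)) (p : ℝ × ℝ) (t : ℝ) :
    dist (pt p t) (ctr C o) ^ 2 = (t - tau C o p) ^ 2 + bet C o p ^ 2 := by
  rw [dist_sq]
  simp only [pt_zero, pt_one, ctr_zero, ctr_one, tau, bet]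
  have h := sin_sq_add_cos_sq p.1
  linear_combination (p.2 ^ 2 + t ^ 2 - C.cx o ^ 2 - C.cy o ^ 2) * h

lemma le_dist_pt (C : Cfg N) (o : Option (Fin N)) (p : ℝ × ℝ) (t : ℝ)
    (h : alp C o p ≤ |t - tau C o p|) : C.R o ≤ dist (pt p t) (ctr C o) := by
  have hR := C.Rpos o
  apply le_of_sq_le_sq _ dist_nonneg
  rw [dist_pt_sq]
  rcases le_or_gt |bet C o p| (C.R o) with h1 | h1
  · have h2 := alp_sq C o h1
    have h3 := alp_nonneg C o p
    have h4 := sq_abs (t - tau C o p)
    nlinarith
  · have h2 := sq_abs (bet C o p)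
    nlinarith [sq_nonneg (t - tau C o p), abs_nonneg (bet C o p)]

lemma dist_pt_eq (C : Cfg N) (o : Option (Fin N)) (p : ℝ × ℝ) (t : ℝ)
    (hb : |bet C o p| ≤ C.R o)
    (h : (t - tau C o p) ^ 2 = alp C o p ^ 2) : dist (pt p t) (ctr C o) = C.R o := by
  have hR := C.Rpos o
  have h2 := alp_sq C o hb
  have h3 := dist_pt_sq C o p t
  have h4 : dist (pt p t) (ctr C o) ^ 2 = C.R o ^ 2 := by rw [h3, h, h2]; ring
  exact (sq_eq_sq₀ dist_nonneg hR.le).1 h4

lemma pt_sub_pt (p : ℝ × ℝ) (s t : ℝ) : pt p s - pt p t = (s - t) • dirv p := by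
  apply Pl.ext'
  · simp; ring
  · simp; ring

lemma pt_lin (p : ℝ × ℝ) (s T t : ℝ) :
    pt p s + t • (pt p (s + T) - pt p s) = pt p (s + t * T) := by
  rw [pt_sub_pt]
  apply Pl.ext'
  · simp; ring
  · simp; ring

lemma inner_Pl (x y : Pl) : inner ℝ x y = x 0 * y 0 + x 1 * y 1 := by
  simp [PiLp.inner_apply, Fin.sum_univ_two, mul_comm]

/-- half angle data of a reflection -/
lemma cos_arcsin_bet (C : Cfg N) (k : Fin N) {p : ℝ × ℝ} (h : |bet C (some k) p| ≤ C.R (some k)) :
    C.R (some k) * cos (arcsin (bet C (some k) p / C.R (some k))) = alp C (some k) p ∧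
    C.R (some k) * sin (arcsin (bet C (some k) p / C.R (some k))) = bet C (some k) p := by
  have hR := C.Rpos (some k)
  have h1 := abs_le.1 h
  constructor
  · rw [cos_arcsin, alp]
    have e : 1 - (bet C (some k) p / C.R (some k)) ^ 2 =
        (C.R (some k) ^ 2 - bet C (some k) p ^ 2) / C.R (some k) ^ 2 := by
      field_simp
    rw [e, Real.sqrt_div' _ (sq_nonneg _), Real.sqrt_sq hR.le]
    field_simp
  · rw [sin_arcsin]
    · field_simp
    · rw [le_div_iff₀ hR]; linarith
    · rw [div_le_one hR]; exact h1.2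

lemma pt_sub_ctr_zero (C : Cfg N) (o : Option (Fin N)) (p : ℝ × ℝ) (t : ℝ) :
    pt p t 0 - C.cx o = -(bet C o p * sin p.1) + (t - tau C o p) * cos p.1 := by
  simp only [pt_zero, tau, bet]
  have h := sin_sq_add_cos_sq p.1
  linear_combination (C.cx o) * h

lemma pt_sub_ctr_one (C : Cfg N) (o : Option (Fin N)) (p : ℝ × ℝ) (t : ℝ) :
    pt p t 1 - C.cy o = bet C o p * cos p.1 + (t - tau C o p) * sin p.1 := by
  simp only [pt_one, tau, bet]
  have h := sin_sq_add_cos_sq p.1
  linear_combination (C.cy o) * h

lemma S_cos_sin (C : Cfg N) (k : Fin N) (p : ℝ × ℝ) :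
    cos (S C k p).1 = -(cos p.1 * (2 * cos (arcsin (bet C (some k) p / C.R (some k))) ^ 2 - 1)
      + sin p.1 * (2 * sin (arcsin (bet C (some k) p / C.R (some k))) *
        cos (arcsin (bet C (some k) p / C.R (some k))))) ∧
    sin (S C k p).1 = -(sin p.1 * (2 * cos (arcsin (bet C (some k) p / C.R (some k))) ^ 2 - 1)
      - cos p.1 * (2 * sin (arcsin (bet C (some k) p / C.R (some k))) *
        cos (arcsin (bet C (some k) p / C.R (some k))))) := by
  have e : (S C k p).1 = (p.1 - 2 * arcsin (bet C (some k) p / C.R (some k))) + π := by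
    rw [S_fst]; ring
  constructor
  · rw [e, cos_add_pi, cos_sub, cos_two_mul, sin_two_mul]
  · rw [e, sin_add_pi, sin_sub, cos_two_mul, sin_two_mul]

/-- the reflection point, seen from the incoming and from the outgoing line -/
lemma pt_S (C : Cfg N) (k : Fin N) {p : ℝ × ℝ} (h : |bet C (some k) p| ≤ C.R (some k)) :
    pt (S C k p) (pos C (some k) (S C k p)) =
      pt p (tau C (some k) p - alp C (some k) p) := by
  obtain ⟨h1, h2⟩ := cos_arcsin_bet C k h
  obtain ⟨h3, h4⟩ := S_cos_sin C k p
  have ha : alp C (some k) (S C k p) = alp C (some k) p := alp_congr C _ (bet_S C k p)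
  set c := cos (arcsin (bet C (some k) p / C.R (some k))) with hc
  set s := sin (arcsin (bet C (some k) p / C.R (some k))) with hs
  have h5 : s ^ 2 + c ^ 2 = 1 := sin_sq_add_cos_sq _
  apply Pl.ext'
  · have e1 := pt_sub_ctr_zero C (some k) (S C k p) (pos C (some k) (S C k p))
    have e2 := pt_sub_ctr_zero C (some k) p (tau C (some k) p - alp C (some k) p)
    simp only [pos] at e1 ⊢
    rw [bet_S, ha, h3, h4, ← h1, ← h2] at e1
    rw [← h1, ← h2] at e2
    rw [ha, ← h1]
    linear_combination e1 - e2 - 2 * C.R (some k) * c * cos p.1 * h5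
  · have e1 := pt_sub_ctr_one C (some k) (S C k p) (pos C (some k) (S C k p))
    have e2 := pt_sub_ctr_one C (some k) p (tau C (some k) p - alp C (some k) p)
    simp only [pos] at e1 ⊢
    rw [bet_S, ha, h3, h4, ← h1, ← h2] at e1
    rw [← h1, ← h2] at e2
    rw [ha, ← h1]
    linear_combination e1 - e2 - 2 * C.R (some k) * c * sin p.1 * h5

/-- the reflection law -/
lemma dirv_S (C : Cfg N) (k : Fin N) {p : ℝ × ℝ} (h : |bet C (some k) p| ≤ C.R (some k))
    {ν : Pl} (hν : ν = pt p (tau C (some k) p - alp C (some k) p) - ctr C (some k)) :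
    dirv (S C k p) = dirv p - (2 * inner ℝ (dirv p) ν / inner ℝ ν ν) • ν := by
  obtain ⟨h1, h2⟩ := cos_arcsin_bet C k h
  obtain ⟨h3, h4⟩ := S_cos_sin C k p
  set c := cos (arcsin (bet C (some k) p / C.R (some k))) with hc
  set s := sin (arcsin (bet C (some k) p / C.R (some k))) with hs
  have h5 : s ^ 2 + c ^ 2 = 1 := sin_sq_add_cos_sq _
  have h6 := sin_sq_add_cos_sq p.1
  have hR := C.Rpos (some k)
  have n0 : ν 0 = -(C.R (some k) * (s * sin p.1 + c * cos p.1)) := by
    rw [hν, PiLp.sub_apply, ctr_zero, pt_sub_ctr_zero, ← h1, ← h2]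
    ring
  have n1 : ν 1 = C.R (some k) * (s * cos p.1 - c * sin p.1) := by
    rw [hν, PiLp.sub_apply, ctr_one, pt_sub_ctr_one, ← h1, ← h2]
    ring
  have i1 : inner ℝ ν ν = C.R (some k) ^ 2 := by
    rw [inner_Pl, n0, n1]
    linear_combination C.R (some k) ^ 2 * (s ^ 2 + c ^ 2) * h6 + C.R (some k) ^ 2 * h5
  have i2 : inner ℝ (dirv p) ν = - (C.R (some k) * c) := by
    rw [inner_Pl, n0, n1, dirv_zero, dirv_one]
    linear_combination (-(C.R (some k) * c)) * h6
  have i3 : 2 * inner ℝ (dirv p) ν / inner ℝ ν ν = - (2 * c) / C.R (some k) := by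
    rw [i1, i2]
    field_simp
  rw [i3]
  apply Pl.ext'
  · simp only [dirv_zero, PiLp.sub_apply, PiLp.smul_apply, smul_eq_mul, h3, n0]
    field_simp
    ring
  · simp only [dirv_one, PiLp.sub_apply, PiLp.smul_apply, smul_eq_mul, h4, n1]
    field_simp
    ring

/-- the vertices of the light path along a word -/
noncomputable def pts (C : Cfg N) : Option (Fin N) → List (Fin N) → ℝ × ℝ → ℕ → Pl
  | o, [], p, j => pt p (pos C o p + j)
  | o, _ :: _, p, 0 => pt p (pos C o p)
  | _, k :: w, p, j + 1 => pts C (some k) w (S C k p) j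

lemma pts_zero (C : Cfg N) (o : Option (Fin N)) (w : List (Fin N)) (p : ℝ × ℝ) :
    pts C o w p 0 = pt p (pos C o p) := by
  cases w with
  | nil => simp [pts]
  | cons k w => rfl

lemma pts_nil (C : Cfg N) (o : Option (Fin N)) (p : ℝ × ℝ) (j : ℕ) :
    pts C o [] p j = pt p (pos C o p + j) := rfl

lemma pts_cons (C : Cfg N) (o : Option (Fin N)) (k : Fin N) (w : List (Fin N)) (p : ℝ × ℝ)
    (j : ℕ) : pts C o (k :: w) p (j + 1) = pts C (some k) w (S C k p) j := rfl

/-- the second vertex lies strictly ahead on the line -/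
lemma pts_one {C : Cfg N} {o : Option (Fin N)} {w : List (Fin N)} {p : ℝ × ℝ}
    (ho : |bet C o p| ≤ C.R o) (h : Path C o w p) :
    ∃ T, 0 < T ∧ pts C o w p 1 = pt p (pos C o p + T) ∧
      ∀ k w', w = k :: w' → pos C o p + T = tau C (some k) p - alp C (some k) p := by
  cases w with
  | nil =>
    refine ⟨1, one_pos, ?_, ?_⟩
    · rw [pts_nil]; norm_num
    · intro k w' h; cases h
  | cons k w =>
    obtain ⟨h1, h2⟩ := h
    have hT := h1.flight ho
    have hd := C.dpos
    refine ⟨tau C (some k) p - alp C (some k) p - pos C o p, by linarith, ?_, ?_⟩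
    · rw [show (1 : ℕ) = 0 + 1 from rfl, pts_cons, pts_zero, pt_S C k h1.2.1.le]
      congr 1
      ring
    · intro k' w' h'
      obtain ⟨rfl, rfl⟩ := List.cons.inj h'
      ring

lemma not_between {C : Cfg N} {o : Option (Fin N)} {p : ℝ × ℝ}
    (ho : |bet C o p| ≤ C.R o) {i : Fin N} (hi : tau C (some i) p ≤ tau C o p) {t : ℝ}
    (ht : pos C o p ≤ t) : C.R (some i) ≤ dist (pt p t) (ctr C (some i)) := by
  apply le_dist_pt
  have hd := C.dpos
  have hpos := tau_le_pos C o p
  rcases le_or_gt (C.R (some i)) |bet C (some i) p| with h1 | h1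
  · rw [alp_eq_zero C (some i) h1]; exact abs_nonneg _
  · by_cases hio : some i = o
    · subst hio
      simp only [pos] at ht
      rw [abs_of_nonneg (by linarith [alp_nonneg C (some i) p])]
      linarith
    · have h2 := sep_tau0 C hio h1.le ho hi
      have h3 := alp_nonneg C o p
      have h4 := alp_nonneg C (some i) p
      rw [abs_of_nonneg (by linarith)]
      linarith

lemma seg_free {C : Cfg N} {o : Option (Fin N)} {k : Fin N} {p : ℝ × ℝ}
    (ho : |bet C o p| ≤ C.R o) (h : Nx C o k p) (i : Fin N) {t : ℝ}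
    (ht : pos C o p ≤ t) (ht' : t ≤ tau C (some k) p - alp C (some k) p) :
    C.R (some i) ≤ dist (pt p t) (ctr C (some i)) := by
  have hd := C.dpos
  rcases le_or_gt (tau C (some i) p) (tau C o p) with hi | hi
  · exact not_between ho hi ht
  · apply le_dist_pt
    rcases le_or_gt (C.R (some i)) |bet C (some i) p| with h1 | h1
    · rw [alp_eq_zero C (some i) h1]; exact abs_nonneg _
    · have h0 : tau C (some k) p ≤ tau C (some i) p := by
        by_contra hcon
        push Not at hcon
        exact absurd (h.2.2 i hi hcon) (not_lt.2 h1.le)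
      by_cases hik : k = i
      · subst hik
        have h4 := alp_nonneg C (some k) p
        rw [abs_of_nonpos (by linarith)]
        linarith
      · have h2 := sep_tau0 C (o := some k) (o' := some i) (by simpa using hik) h.2.1.le h1.le h0
        have h3 := alp_nonneg C (some k) p
        have h4 := alp_nonneg C (some i) p
        rw [abs_of_nonpos (by linarith)]
        linarith

/-- the vertices of an escaping itinerary satisfy all conditions of a light path -/
lemma pts_spec {C : Cfg N} (w : List (Fin N)) : ∀ (o : Option (Fin N)) (p : ℝ × ℝ),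
    |bet C o p| ≤ C.R o → Path C o w p → Fr C (lst o w) (Sw C w p) →
    (∀ j, j ≤ w.length → pts C o w p j ≠ pts C o w p (j + 1)) ∧
    (∀ j, j < w.length → ∀ i : Fin N, ∀ t : ℝ, 0 ≤ t → t ≤ 1 → C.R (some i) ≤
      dist (pts C o w p j + t • (pts C o w p (j + 1) - pts C o w p j)) (ctr C (some i))) ∧
    (∀ i : Fin N, ∀ t : ℝ, 0 ≤ t → C.R (some i) ≤
      dist (pts C o w p w.length + t • (pts C o w p (w.length + 1) - pts C o w p w.length))
        (ctr C (some i))) ∧
    (∀ j, j < w.length → ∃ i : Fin N, dist (pts C o w p (j + 1)) (ctr C (some i)) = C.R (some i) ∧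
      ∃ s : ℝ, 0 < s ∧ pts C o w p (j + 2) - pts C o w p (j + 1) =
        s • ((pts C o w p (j + 1) - pts C o w p j) -
          (2 * inner ℝ (pts C o w p (j + 1) - pts C o w p j)
              (pts C o w p (j + 1) - ctr C (some i)) /
            inner ℝ (pts C o w p (j + 1) - ctr C (some i))
              (pts C o w p (j + 1) - ctr C (some i))) •
            (pts C o w p (j + 1) - ctr C (some i)))) := by
  induction w with
  | nil =>
    intro o p ho hP hF
    simp only [lst, Sw] at hF
    refine ⟨?_, ?_, ?_, ?_⟩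
    · intro j _ h
      have h1 : pts C o [] p (j + 1) - pts C o [] p j = 0 := by rw [h]; simp
      rw [pts_nil, pts_nil, pt_sub_pt] at h1
      have h2 : (pos C o p + ((j + 1 : ℕ) : ℝ) - (pos C o p + (j : ℕ))) = 1 := by
        push_cast; ring
      rw [h2, one_smul] at h1
      have h3 : cos p.1 = 0 := by
        have := congrArg (fun v : Pl => v 0) h1
        simpa using this
      have h4 : sin p.1 = 0 := by
        have := congrArg (fun v : Pl => v 1) h1
        simpa using this
      have := sin_sq_add_cos_sq p.1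
      rw [h3, h4] at this
      norm_num at this
    · intro j hj; simp at hj
    · intro i t ht
      rw [List.length_nil, pts_nil, pts_nil]
      have e : pos C o p + ((0 + 1 : ℕ) : ℝ) = (pos C o p + ((0 : ℕ) : ℝ)) + 1 := by
        push_cast; ring
      rw [e, pt_lin]
      have ht' : pos C o p ≤ pos C o p + ((0 : ℕ) : ℝ) + t * 1 := by
        push_cast; linarith
      rcases le_or_gt (tau C (some i) p) (tau C o p) with hi | hi
      · exact not_between ho hi ht'
      · have h1 := hF i hi
        apply le_dist_pt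
        rw [alp_eq_zero C (some i) h1.le]
        exact abs_nonneg _
    · intro j hj; simp at hj
  | cons k w ih =>
    intro o p ho hP hF
    have hP0 := hP
    obtain ⟨h1, h2⟩ := hP
    have hb : |bet C (some k) (S C k p)| ≤ C.R (some k) := by rw [bet_S]; exact h1.2.1.le
    obtain ⟨A, B, D, E⟩ := ih (some k) (S C k p) hb h2 hF
    obtain ⟨T, hT, hT1, hT2⟩ := pts_one ho hP0
    have hT2 := hT2 k w rfl
    obtain ⟨T', hT', hT1', -⟩ := pts_one hb h2
    have hz : pts C o (k :: w) p 0 = pt p (pos C o p) := rfl
    have hdir : dirv p ≠ 0 := by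
      intro h
      have h3 : cos p.1 = 0 := by
        have := congrArg (fun v : Pl => v 0) h
        simpa using this
      have h4 : sin p.1 = 0 := by
        have := congrArg (fun v : Pl => v 1) h
        simpa using this
      have := sin_sq_add_cos_sq p.1
      rw [h3, h4] at this
      norm_num at this
    refine ⟨?_, ?_, ?_, ?_⟩
    · intro j hj
      cases j with
      | zero =>
        rw [zero_add, hz, hT1]
        intro h
        have h3 : pt p (pos C o p + T) - pt p (pos C o p) = 0 := by rw [← h]; simp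
        rw [pt_sub_pt] at h3
        rcases smul_eq_zero.1 h3 with h4 | h4
        · linarith
        · exact hdir h4
      | succ j =>
        rw [pts_cons, pts_cons]
        exact A j (by simpa using hj)
    · intro j hj i t ht ht'
      cases j with
      | zero =>
        rw [zero_add, hz, hT1, pt_lin]
        apply seg_free ho h1 i
        · nlinarith
        · rw [← hT2]; nlinarith
      | succ j =>
        rw [pts_cons, pts_cons]
        exact B j (by simpa using hj) i t ht ht'
    · intro i t ht
      rw [List.length_cons, pts_cons, pts_cons]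
      exact D i t ht
    · intro j hj
      cases j with
      | zero =>
        refine ⟨k, ?_, T' / T, div_pos hT' hT, ?_⟩
        · rw [zero_add, hT1, hT2]
          apply dist_pt_eq C (some k) p _ h1.2.1.le
          ring
        · have e2 : pts C o (k :: w) p (0 + 2) = pt (S C k p) (pos C (some k) (S C k p) + T') := by
            rw [← hT1']; rfl
          have e1 : pts C o (k :: w) p (0 + 1) = pt (S C k p) (pos C (some k) (S C k p)) := by
            rw [pts_cons, pts_zero]
          have e3 : pts C o (k :: w) p (0 + 1) = pt p (tau C (some k) p - alp C (some k) p) := by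
            rw [zero_add, hT1, hT2]
          have d1 : pts C o (k :: w) p (0 + 2) - pts C o (k :: w) p (0 + 1) =
              T' • dirv (S C k p) := by
            rw [e1, e2, pt_sub_pt]; congr 1; ring
          have d2 : pts C o (k :: w) p (0 + 1) - pts C o (k :: w) p 0 = T • dirv p := by
            rw [hz, zero_add, hT1, pt_sub_pt]; congr 1; ring
          have key : ∀ ν : Pl, T' • (dirv p - (2 * inner ℝ (dirv p) ν / inner ℝ ν ν) • ν) =
              (T' / T) • (T • dirv p - (2 * inner ℝ (T • dirv p) ν / inner ℝ ν ν) • ν) := by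
            intro ν
            have i4 : inner ℝ (T • dirv p) ν = T * inner ℝ (dirv p) ν := by
              rw [inner_smul_left]; simp
            rw [i4]
            have e5 : 2 * (T * inner ℝ (dirv p) ν) / inner ℝ ν ν =
                T * (2 * inner ℝ (dirv p) ν / inner ℝ ν ν) := by ring
            rw [e5, smul_sub, smul_sub, smul_smul, smul_smul, smul_smul]
            congr 1
            · congr 1; field_simp
            · congr 1; field_simp
          rw [d1, d2, dirv_S C k h1.2.1.le rfl, e3]
          exact key _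
      | succ j =>
        rw [show j + 1 + 2 = (j + 2) + 1 from rfl, pts_cons, pts_cons, pts_cons]
        exact E j (by simpa using hj)

/-- If in every configuration some line through the centre of the chart escapes, then light
escapes in the sense of the frozen statement. -/
theorem frozen_of_main (H : ∀ (N : ℕ) (C : Cfg N), ∃ a : ℝ, Esc C none (mk C none a 0)) :
    ∀ (n : ℕ) (c : Fin n → EuclideanSpace ℝ (Fin 2)) (r : Fin n → ℝ),
      (∀ i, 0 < r i) →
      (∀ i j, i ≠ j → r i + r j < dist (c i) (c j)) →
      ∀ x : EuclideanSpace ℝ (Fin 2), (∀ i, r i < dist x (c i)) →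
        ∃ (m : ℕ) (p : ℕ → EuclideanSpace ℝ (Fin 2)),
          p 0 = x ∧
          (∀ k, k ≤ m → p k ≠ p (k + 1)) ∧
          (∀ k, k < m → ∀ i, ∀ t : ℝ, 0 ≤ t → t ≤ 1 →
              r i ≤ dist (p k + t • (p (k + 1) - p k)) (c i)) ∧
          (∀ i, ∀ t : ℝ, 0 ≤ t →
              r i ≤ dist (p m + t • (p (m + 1) - p m)) (c i)) ∧
          (∀ k, 1 ≤ k → k ≤ m → ∃ i, dist (p k) (c i) = r i ∧
              ∃ s : ℝ, 0 < s ∧
                p (k + 1) - p k =
                  s • ((p k - p (k - 1)) -
                    (2 * inner ℝ (p k - p (k - 1)) (p k - c i) /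
                        inner ℝ (p k - c i) (p k - c i)) • (p k - c i))) := by
  intro n c r hr hsep x hx
  -- a positive lower bound for all gaps
  obtain ⟨δ, hδ, h1, h2⟩ : ∃ δ : ℝ, 0 < δ ∧ (∀ i, r i + δ ≤ dist x (c i)) ∧
      (∀ i j, i ≠ j → r i + r j + δ ≤ dist (c i) (c j)) := by
    have hA : ∀ s : Finset (Fin n), ∃ δ : ℝ, 0 < δ ∧ ∀ i ∈ s, r i + δ ≤ dist x (c i) := by
      intro s
      induction s using Finset.induction_on with
      | empty => exact ⟨1, one_pos, by simp⟩
      | insert a s _ ih =>
        obtain ⟨δ, hδ, h⟩ := ih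
        refine ⟨min δ (dist x (c a) - r a), lt_min hδ (by linarith [hx a]), ?_⟩
        intro i hi
        rcases Finset.mem_insert.1 hi with rfl | hi
        · linarith [min_le_right δ (dist x (c i) - r i)]
        · linarith [min_le_left δ (dist x (c a) - r a), h i hi]
    have hB : ∀ s : Finset (Fin n × Fin n), ∃ δ : ℝ, 0 < δ ∧ ∀ i ∈ s, i.1 ≠ i.2 →
        r i.1 + r i.2 + δ ≤ dist (c i.1) (c i.2) := by
      intro s
      induction s using Finset.induction_on with
      | empty => exact ⟨1, one_pos, by simp⟩
      | insert a s _ ih =>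
        obtain ⟨δ, hδ, h⟩ := ih
        by_cases ha : a.1 = a.2
        · refine ⟨δ, hδ, ?_⟩
          intro i hi hne
          rcases Finset.mem_insert.1 hi with rfl | hi
          · exact absurd ha hne
          · exact h i hi hne
        · refine ⟨min δ (dist (c a.1) (c a.2) - r a.1 - r a.2),
            lt_min hδ (by linarith [hsep a.1 a.2 ha]), ?_⟩
          intro i hi hne
          rcases Finset.mem_insert.1 hi with rfl | hi
          · linarith [min_le_right δ (dist (c i.1) (c i.2) - r i.1 - r i.2)]
          · linarith [min_le_left δ (dist (c a.1) (c a.2) - r a.1 - r a.2), h i hi hne]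
    obtain ⟨δ1, h1, h1'⟩ := hA Finset.univ
    obtain ⟨δ2, h2, h2'⟩ := hB Finset.univ
    refine ⟨min δ1 δ2, lt_min h1 h2, ?_, ?_⟩
    · intro i
      linarith [h1' i (Finset.mem_univ _), min_le_left δ1 δ2]
    · intro i j hij
      have := h2' (i, j) (Finset.mem_univ _) hij
      simp only at this
      linarith [min_le_right δ1 δ2]
  let C : Cfg n :=
    { cx := fun o => (Option.elim o x c) 0
      cy := fun o => (Option.elim o x c) 1
      R := fun o => Option.elim o (δ / 2) r
      d := δ / 2
      dpos := by linarith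
      Rpos := by
        intro o
        cases o with
        | none => simp only [Option.elim]; linarith
        | some i => simp only [Option.elim]; exact hr i
      sep := by
        intro o o' hoo
        rw [← dist_sq]
        apply pow_le_pow_left₀
        · have : ∀ o : Option (Fin n), 0 < Option.elim o (δ / 2) r := by
            intro o
            cases o with
            | none => simp only [Option.elim]; linarith
            | some i => simp only [Option.elim]; exact hr i
          linarith [this o, this o']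
        · cases o with
          | none =>
            cases o' with
            | none => exact absurd rfl hoo
            | some j => simp only [Option.elim]; linarith [h1 j]
          | some i =>
            cases o' with
            | none => simp only [Option.elim]; rw [dist_comm]; linarith [h1 i]
            | some j =>
              simp only [Option.elim]
              linarith [h2 i j (by rintro rfl; exact hoo rfl)] }
  obtain ⟨a, w, hw1, hw2⟩ := H n C
  have hctr : ∀ i, ctr C (some i) = c i := by
    intro i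
    apply Pl.ext' <;> rfl
  have hctr0 : ctr C none = x := by
    apply Pl.ext' <;> rfl
  have hb : bet C none (mk C none a 0) = 0 := by simp
  have hb' : |bet C none (mk C none a 0)| ≤ C.R none := by
    rw [hb, abs_zero]; exact (C.Rpos none).le
  obtain ⟨A, B, D, E⟩ := pts_spec w none _ hb' hw1 hw2
  refine ⟨w.length, pts C none w (mk C none a 0), ?_, A, ?_, ?_, ?_⟩
  · rw [pts_zero, ← hctr0]
    have h3 := dist_pt_sq C none (mk C none a 0) (pos C none (mk C none a 0))
    rw [hb] at h3
    simp only [pos, sub_self] at h3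
    have h4 : dist (pt (mk C none a 0) (tau C none (mk C none a 0))) (ctr C none) ^ 2 = 0 := by
      rw [h3]; norm_num
    exact dist_eq_zero.1 (pow_eq_zero_iff (two_ne_zero) |>.1 h4)
  · intro k hk i t ht ht'
    have := B k hk i t ht ht'
    rw [hctr i] at this
    exact this
  · intro i t ht
    have := D i t ht
    rw [hctr i] at this
    exact this
  · intro k hk hk'
    obtain ⟨j, rfl⟩ : ∃ j, k = j + 1 := ⟨k - 1, by omega⟩
    obtain ⟨i, h3, s, hs, h4⟩ := E j (by omega)
    refine ⟨i, ?_, s, hs, ?_⟩
    · rw [← hctr i]; exact h3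
    · rw [hctr i] at h4
      simpa using h4

end Pool.Agent.Work.MP_5c1620_co
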