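import Pool.Agent.Work.MP_5c1620_co.Per

/-!
# Mirror symmetry
-/

set_option autoImplicit false
open Real Set MeasureTheory

namespace Pool.Agent.Work.MP_5c1620_co

variable {N : ℕ}

/-- the configuration reflected in the horizontal axis -/
def Cfg.mir (C : Cfg N) : Cfg N where
  cx := C.cx
  cy := fun o => - C.cy o
  R := C.R
  d := C.d
  dpos := C.dpos
  Rpos := C.Rpos
  sep := fun o o' h => by
    have := C.sep o o' h
    have e : (- C.cy o - - C.cy o') ^ 2 = (C.cy o - C.cy o') ^ 2 := by ring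
    rw [e]; exact this

@[simp] lemma Cfg.mir_R (C : Cfg N) : C.mir.R = C.R := rfl
@[simp] lemma Cfg.mir_d (C : Cfg N) : C.mir.d = C.d := rfl
@[simp] lemma Cfg.mir_cx (C : Cfg N) : C.mir.cx = C.cx := rfl
lemma Cfg.mir_cy (C : Cfg N) (o : Option (Fin N)) : C.mir.cy o = - C.cy o := rfl

lemma Cfg.mir_mir (C : Cfg N) : C.mir.mir = C := by
  cases C; simp [Cfg.mir]

/-- the line reflected in the horizontal axis -/
def mir (p : ℝ × ℝ) : ℝ × ℝ := (-p.1, -p.2)

@[simp] lemma mir_fst (p : ℝ × ℝ) : (mir p).1 = -p.1 := rfl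
@[simp] lemma mir_snd (p : ℝ × ℝ) : (mir p).2 = -p.2 := rfl
@[simp] lemma mir_mir (p : ℝ × ℝ) : mir (mir p) = p := by simp [mir]

lemma continuous_mir : Continuous mir := by unfold mir; fun_prop

@[simp] lemma bet_mir (C : Cfg N) (o : Option (Fin N)) (p : ℝ × ℝ) :
    bet C.mir o (mir p) = - bet C o p := by
  simp only [bet, mir, Cfg.mir_cx, Cfg.mir_cy, sin_neg, cos_neg]; ring

@[simp] lemma tau_mir (C : Cfg N) (o : Option (Fin N)) (p : ℝ × ℝ) :
    tau C.mir o (mir p) = tau C o p := by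
  simp only [tau, mir, Cfg.mir_cx, Cfg.mir_cy, sin_neg, cos_neg]; ring

@[simp] lemma alp_mir (C : Cfg N) (o : Option (Fin N)) (p : ℝ × ℝ) :
    alp C.mir o (mir p) = alp C o p := by simp [alp]

@[simp] lemma pos_mir (C : Cfg N) (o : Option (Fin N)) (p : ℝ × ℝ) :
    pos C.mir o (mir p) = pos C o p := by cases o <;> simp [pos]

lemma mk_mir (C : Cfg N) (o : Option (Fin N)) (a b : ℝ) :
    mk C.mir o (-a) (-b) = mir (mk C o a b) := by
  apply eq_of_fst_bet C.mir o
  · simp
  · simp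

lemma S_mir (C : Cfg N) (k : Fin N) (p : ℝ × ℝ) :
    S C.mir k (mir p) = ((mir (S C k p)).1 + 2 * π, (mir (S C k p)).2) := by
  apply eq_of_fst_bet C.mir (some k)
  · rw [S_fst, bet_mir, Cfg.mir_R, neg_div, arcsin_neg, mir_fst, mir_fst, S_fst]
    ring
  · rw [bet_S, bet_shift, bet_mir, bet_mir, bet_S]

lemma Si_mir (C : Cfg N) (k : Fin N) (p : ℝ × ℝ) :
    Si C.mir k (mir p) = ((mir (Si C k p)).1 - 2 * π, (mir (Si C k p)).2) := by
  have h := S_mir C k (Si C k p)
  rw [S_Si] at h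
  have h2 := Si_S C.mir k (mir (Si C k p))
  rw [h, Si_shift] at h2
  rw [← h2]
  simp

lemma mir_rev (p : ℝ × ℝ) : rev (mir p) = ((mir (rev p)).1 + 2 * π, (mir (rev p)).2) := by
  refine Prod.ext ?_ ?_
  · simp only [rev, mir]; ring
  · simp only [rev, mir]

lemma mir_add (p : ℝ × ℝ) (h : ℝ) : mir (p.1, p.2 + h) = ((mir p).1, (mir p).2 - h) := by
  refine Prod.ext rfl ?_
  simp only [mir]; ring

lemma Free_mir (C : Cfg N) (o l : Option (Fin N)) (p : ℝ × ℝ) :
    Free C.mir o l (mir p) ↔ Free C o l p := by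
  simp [Free]

lemma W_mir (C : Cfg N) (o : Option (Fin N)) (k : Fin N) (p : ℝ × ℝ) :
    W C.mir o k (mir p) ↔ W C o k p := by
  simp [W, Free_mir]

lemma Nx_mir (C : Cfg N) (o : Option (Fin N)) (k : Fin N) (p : ℝ × ℝ) :
    Nx C.mir o k (mir p) ↔ Nx C o k p := by
  simp [Nx]

lemma Fr_mir (C : Cfg N) (o : Option (Fin N)) (p : ℝ × ℝ) :
    Fr C.mir o (mir p) ↔ Fr C o p := by
  simp [Fr]

lemma Kill_mir (C : Cfg N) (j : ℕ) (o : Option (Fin N)) (e ε : ℝ) (p : ℝ × ℝ) :
    Kill C.mir j o e ε (mir p) ↔ Kill C j o (-e) ε p := by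
  induction j generalizing o e p with
  | zero =>
    simp only [Kill, tau_mir, bet_mir, Free_mir, Cfg.mir_R]
    refine exists_congr fun l => and_congr_right fun _ => and_congr_right fun _ =>
      and_congr_left fun _ => ?_
    have e1 : -bet C (some l) p + e * C.R (some l) = -(bet C (some l) p + -e * C.R (some l)) := by
      ring
    rw [e1, abs_neg]
  | succ j ih =>
    simp only [Kill]
    refine exists_congr fun k => and_congr (W_mir C o k p) ?_
    rw [S_mir, Kill_shift, ih]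

lemma Path_mir (C : Cfg N) (o : Option (Fin N)) (w : List (Fin N)) (p : ℝ × ℝ) :
    Path C.mir o w (mir p) ↔ Path C o w p := by
  induction w generalizing o p with
  | nil => simp [Path]
  | cons k w ih =>
    simp only [Path, Nx_mir]
    rw [S_mir, Path_shift, ih]

/-- the composition of reflections of the mirrored configuration, up to full turns -/
lemma Sw_mir (C : Cfg N) (w : List (Fin N)) (p : ℝ × ℝ) :
    ∃ n : ℤ, Sw C.mir w (mir p) = ((mir (Sw C w p)).1 + n * (2 * π), (mir (Sw C w p)).2) := by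
  induction w generalizing p with
  | nil => exact ⟨0, by simp [Sw, mir]⟩
  | cons k w ih =>
    obtain ⟨n, hn⟩ := ih (S C k p)
    refine ⟨n + 1, ?_⟩
    simp only [Sw]
    rw [S_mir, Sw_shift, hn]
    refine Prod.ext ?_ rfl
    simp only
    push_cast
    ring

lemma Fr_Sw_mir (C : Cfg N) (o : Option (Fin N)) (w : List (Fin N)) (p : ℝ × ℝ) :
    Fr C.mir o (Sw C.mir w (mir p)) ↔ Fr C o (Sw C w p) := by
  obtain ⟨n, hn⟩ := Sw_mir C w p
  rw [hn, shift_int (P := Fr C.mir o) (fun q => Fr_shift C.mir o q) n (mir (Sw C w p)), Fr_mir]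

lemma Esc_mir (C : Cfg N) (o : Option (Fin N)) (p : ℝ × ℝ) :
    Esc C.mir o (mir p) ↔ Esc C o p := by
  simp only [Esc]
  exact exists_congr fun w => and_congr (Path_mir C o w p) (Fr_Sw_mir C _ w p)

lemma Esc_mir_rev (C : Cfg N) (o : Option (Fin N)) (p : ℝ × ℝ) :
    Esc C.mir o (rev (mir p)) ↔ Esc C o (rev p) := by
  rw [mir_rev, Esc_shift, Esc_mir]

lemma Kill_mir_rev (C : Cfg N) (j : ℕ) (o : Option (Fin N)) (e ε : ℝ) (p : ℝ × ℝ) :
    Kill C.mir j o e ε (rev (mir p)) ↔ Kill C j o (-e) ε (rev p) := by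
  rw [mir_rev, Kill_shift, Kill_mir]

/-- `mir` preserves Lebesgue measure -/
lemma measurePreserving_mir : MeasurePreserving mir (volume : Measure (ℝ × ℝ)) volume := by
  have h := (Measure.measurePreserving_neg (volume : Measure (ℝ × ℝ)))
  exact h

end Pool.Agent.Work.MP_5c1620_co
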