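import Pool.Agent.Work.MP_5c1620_co.Low3
import Pool.Agent.Work.MP_5c1620_co.Mir

/-!
# M6.2: local constancy of the escape property from the crossing property
-/

set_option autoImplicit false
open Real Set MeasureTheory Topology Filter

namespace Pool.Agent.Work.MP_5c1620_co

variable {N : ℕ}

/-- the crossing property -/
def CROSS (C : Cfg N) : Prop :=
  ∃ h0 : ℝ, 0 < h0 ∧ ∀ᵐ z : (ℝ × ℝ) × ℝ, |bet C none z.1| ≤ C.R none / 2 → 0 < z.2 → z.2 ≤ h0 →
    Esc C none (rev z.1) → ¬ Esc C none (z.1.1, z.1.2 + z.2) →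
    (∀ j : ℕ, ¬ Kill C j none (-1) (2 * (C.C1 * (z.2 / C.lam ^ j))) (rev z.1)) →
    (∀ j : ℕ, ¬ Kill C j none (-1) (2 * (C.C1 * (z.2 / C.lam ^ j))) (z.1.1, z.1.2 + z.2)) → False

/-- almost every line of the chart disk escapes forward iff it escapes backward -/
lemma esc_rev_iff (C : Cfg N) : ∀ᵐ p : ℝ × ℝ, |bet C none p| < C.R none →
    (Esc C none (rev p) ↔ Esc C none p) := by
  have h1 := ae_trap C
  have h2 := mp_rev.quasiMeasurePreserving.ae (ae_trap C)
  filter_upwards [h1, h2] with p p1 p2 hp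
  refine ⟨p1 hp, fun h => p2 (by rw [bet_rev, abs_neg]; exact hp) ?_⟩
  have e : rev (rev p) = (p.1 + 2 * π, p.2) := by
    simp only [rev]
    refine Prod.ext ?_ ?_
    · simp only; ring
    · simp
  rw [e, Esc_shift]
  exact h

lemma rev_rev (p : ℝ × ℝ) : rev (rev p) = (p.1 + 2 * π, p.2) := by
  simp only [rev]
  refine Prod.ext ?_ ?_
  · simp only; ring
  · simp

lemma Unk_shift (C : Cfg N) (p : ℝ × ℝ) (e h : ℝ) :
    Unk C (p.1 + 2 * π, p.2) e h ↔ Unk C p e h := by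
  simp only [Unk, Kill_shift]

lemma claim1 {C : Cfg N} (hX : CROSS C) : ∃ h0 : ℝ, 0 < h0 ∧ ∀ᵐ h : ℝ, 0 < h → h ≤ h0 →
    ∀ᵐ l : ℝ × ℝ, |bet C none l| ≤ C.R none / 2 → |bet C none l + h| ≤ C.R none / 2 →
      Unk C (rev l) (-1) h → Unk C (l.1, l.2 + h) (-1) h →
      (Esc C none l ↔ Esc C none (l.1, l.2 + h)) := by
  obtain ⟨h0, hh0, hX⟩ := hX
  refine ⟨h0, hh0, ?_⟩
  have hX' := (Measure.measurePreserving_swap (μ := (volume : Measure ℝ))
    (ν := (volume : Measure (ℝ × ℝ)))).quasiMeasurePreserving.ae hX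
  have hX2 := Measure.ae_ae_of_ae_prod hX'
  have hR := C.Rpos none
  filter_upwards [hX2] with h hh hp hl0
  have g1 := hh
  have g2 := (mp_rev.comp (mp_add_snd h)).quasiMeasurePreserving.ae hh
  have g3 := esc_rev_iff C
  have g4 := (mp_add_snd h).quasiMeasurePreserving.ae (esc_rev_iff C)
  filter_upwards [g1, g2, g3, g4] with l f1 f2 f3 f4 b1 b2 u1 u2
  simp only [Prod.swap, Function.comp_apply] at f1 f2 f4
  have b3 : |bet C none (l.1, l.2 + h)| ≤ C.R none / 2 := by rw [bet_add_snd]; exact b2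
  constructor
  · intro hE
    by_contra hE'
    exact f1 b1 hp hl0 ((f3 (by linarith)).2 hE) hE' u1 u2
  · intro hE'
    by_contra hE
    have e1 : ((rev (l.1, l.2 + h)).1, (rev (l.1, l.2 + h)).2 + h) = rev l := by
      simp only [rev]
      refine Prod.ext rfl ?_
      simp only; ring
    rw [e1, rev_rev] at f2
    refine f2 ?_ hp hl0 ?_ ?_ ?_ ?_
    · rw [bet_rev, abs_neg]; exact b3
    · rw [Esc_shift]; exact hE'
    · intro h'; exact hE ((f3 (by linarith)).1 h')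
    · exact (Unk_shift C (l.1, l.2 + h) (-1) h).2 u2
    · exact u1

lemma mir_C1 (C : Cfg N) : C.mir.C1 = C.C1 := by
  simp only [Cfg.C1, Cfg.D0, Cfg.Cm, Cfg.Rm, Cfg.mir_R, Cfg.mir_d, Cfg.mir_cx, Cfg.mir_cy, abs_neg]

lemma mir_lam (C : Cfg N) : C.mir.lam = C.lam := by
  simp only [Cfg.lam, Cfg.L, Cfg.Rm, Cfg.mir_R, Cfg.mir_d]

lemma claim2 {C : Cfg N} (hX : CROSS C.mir) : ∃ h0 : ℝ, 0 < h0 ∧ ∀ᵐ h : ℝ, 0 < h → h ≤ h0 →
    ∀ᵐ l : ℝ × ℝ, |bet C none l| ≤ C.R none / 2 → |bet C none l + h| ≤ C.R none / 2 →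
      Unk C l 1 h → Unk C (rev (l.1, l.2 + h)) 1 h →
      (Esc C none l ↔ Esc C none (l.1, l.2 + h)) := by
  obtain ⟨h0, hh0, hh⟩ := claim1 hX
  refine ⟨h0, hh0, ?_⟩
  filter_upwards [hh] with h hh hp hl0
  have g := (measurePreserving_mir.comp (mp_add_snd h)).quasiMeasurePreserving.ae (hh hp hl0)
  filter_upwards [g] with l f b1 b2 u1 u2
  simp only [Function.comp_apply] at f
  have e1 : ((mir (l.1, l.2 + h)).1, (mir (l.1, l.2 + h)).2 + h) = mir l := by
    simp only [mir]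
    refine Prod.ext rfl ?_
    simp only; ring
  rw [e1, bet_mir, Cfg.mir_R, Esc_mir, Esc_mir, bet_add_snd] at f
  refine (f ?_ ?_ ?_ ?_).symm
  · rw [abs_neg]; exact b2
  · have : -(bet C none l + h) + h = - bet C none l := by ring
    rw [this, abs_neg]; exact b1
  · intro j
    rw [Kill_mir_rev, mir_C1, mir_lam, neg_neg]
    exact u2 j
  · intro j
    rw [Kill_mir, mir_C1, mir_lam, neg_neg]
    exact u1 j

/-- the symmetric difference of the escape set and its translate -/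
def Dif (C : Cfg N) (r h : ℝ) : Set (ℝ × ℝ) :=
  {l | |bet C none l| ≤ r ∧ ¬ (Esc C none l ↔ Esc C none (l.1, l.2 + h))}

lemma per_Dif (C : Cfg N) (r h : ℝ) : Per (Dif C r h) := by
  intro p
  have := Esc_shift C none (p.1, p.2 + h)
  simp only at this
  simp only [Dif, mem_ofPred_eq, bet_shift, Esc_shift, this]

lemma measurableSet_Dif (C : Cfg N) (r h : ℝ) : MeasurableSet (Dif C r h) := by
  have h1 : MeasurableSet {l : ℝ × ℝ | |bet C none l| ≤ r} :=
    measurableSet_le (continuous_bet C none).measurable.abs measurable_const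
  have h2 := measurableSet_Esc C none
  have h3 : MeasurableSet {l : ℝ × ℝ | Esc C none (l.1, l.2 + h)} :=
    (mp_add_snd h).measurable h2
  have e : Dif C r h = {l : ℝ × ℝ | |bet C none l| ≤ r} ∩
      (({l | Esc C none l} ∩ {l : ℝ × ℝ | Esc C none (l.1, l.2 + h)}) ∪
        ({l | Esc C none l}ᶜ ∩ {l : ℝ × ℝ | Esc C none (l.1, l.2 + h)}ᶜ))ᶜ := by
    ext l
    simp only [Dif, mem_ofPred_eq, mem_inter_iff, mem_compl_iff, mem_union]
    tauto
  rw [e]
  exact h1.inter ((h2.inter h3).union (h2.compl.inter h3.compl)).compl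

lemma dif_small (hX : ∀ C : Cfg N, CROSS C) (C : Cfg N) (ε : ℝ) (hε : 0 < ε) :
    ∃ h0 : ℝ, 0 < h0 ∧ ∀ᵐ h : ℝ, 0 < h → h < h0 →
      volume (Dif C (3 * C.R none / 8) h ∩ strip 0) ≤ ENNReal.ofReal (ε * h) := by
  obtain ⟨h1, hh1, H1⟩ := claim1 (hX C)
  obtain ⟨h2, hh2, H2⟩ := claim2 (C := C) (hX C.mir)
  obtain ⟨h3, hh3, H3⟩ := two_kills C 0 ε hε
  have hR := C.Rpos none
  refine ⟨min (min h1 h2) (min h3 (C.R none / 8)), by positivity, ?_⟩
  filter_upwards [H1, H2] with h k1 k2 hp hl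
  have l1 : h < h1 := hl.trans_le ((min_le_left _ _).trans (min_le_left _ _))
  have l2 : h < h2 := hl.trans_le ((min_le_left _ _).trans (min_le_right _ _))
  have l3 : h < h3 := hl.trans_le ((min_le_right _ _).trans (min_le_left _ _))
  have l4 : h < C.R none / 8 := hl.trans_le ((min_le_right _ _).trans (min_le_right _ _))
  refine le_trans (measure_mono_ae ?_) (H3 h hp l3)
  filter_upwards [k1 hp l1.le, k2 hp l2.le] with l m1 m2
  rintro ⟨⟨n1, n2⟩, n3⟩
  have n4 : |bet C none l| ≤ C.R none / 2 := by linarith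
  have n5 : |bet C none l + h| ≤ C.R none / 2 := by
    have := abs_add_le (bet C none l) h
    rw [abs_of_pos hp] at this
    linarith
  refine ⟨⟨n4, ?_, ?_⟩, n3⟩
  · by_contra hcon
    push Not at hcon
    exact n2 (m1 n4 n5 hcon.1 hcon.2)
  · by_contra hcon
    push Not at hcon
    exact n2 (m2 n4 n5 hcon.1 hcon.2)

/-- telescoping -/
lemma dif_tele (C : Cfg N) {δ : ℝ} (hδ : 0 < δ) (hδ1 : δ ≤ 3 * C.R none / 16) (M : ℕ)
    (hM : 0 < M) : volume (Dif C (3 * C.R none / 16) δ ∩ strip 0) ≤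
      M * volume (Dif C (3 * C.R none / 8) (δ / M) ∩ strip 0) := by
  have hM' : (0 : ℝ) < M := by exact_mod_cast hM
  have key : ∀ l : ℝ × ℝ, (∀ i < M, (Esc C none (l.1, l.2 + i * (δ / M)) ↔
      Esc C none (l.1, l.2 + i * (δ / M) + δ / M))) →
      ∀ i ≤ M, (Esc C none l ↔ Esc C none (l.1, l.2 + i * (δ / M))) := by
    intro l h i
    induction i with
    | zero => intro _; simp
    | succ i ih =>
      intro hi
      rw [ih (by omega), h i (by omega)]
      have e : l.2 + i * (δ / M) + δ / M = l.2 + ((i + 1 : ℕ) : ℝ) * (δ / M) := by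
        push_cast; ring
      rw [e]
  have hsub : Dif C (3 * C.R none / 16) δ ∩ strip 0 ⊆ ⋃ i ∈ Finset.range M,
      ((fun p : ℝ × ℝ => (p.1, p.2 + i * (δ / M))) ⁻¹' Dif C (3 * C.R none / 8) (δ / M) ∩
        strip 0) := by
    rintro l ⟨⟨h1, h2⟩, h3⟩
    by_contra hcon
    apply h2
    have h4 : ∀ i < M, (Esc C none (l.1, l.2 + i * (δ / M)) ↔
      Esc C none (l.1, l.2 + i * (δ / M) + δ / M)) := by
      intro i hi
      by_contra hne
      apply hcon
      refine mem_biUnion (x := i) (by simpa using hi) ⟨⟨?_, hne⟩, h3⟩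
      rw [bet_add_snd]
      have h5 := abs_add_le (bet C none l) (i * (δ / M))
      have h6 : |(i : ℝ) * (δ / M)| ≤ δ := by
        rw [abs_of_nonneg (by positivity)]
        have h7 : (i : ℝ) ≤ M := by exact_mod_cast hi.le
        calc (i : ℝ) * (δ / M) ≤ M * (δ / M) := by gcongr
          _ = δ := by field_simp
      linarith
    have h5 := key l h4 M le_rfl
    have e : l.2 + M * (δ / M) = l.2 + δ := by field_simp
    rw [e] at h5
    exact h5
  calc volume (Dif C (3 * C.R none / 16) δ ∩ strip 0)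
      ≤ ∑ i ∈ Finset.range M, volume ((fun p : ℝ × ℝ => (p.1, p.2 + i * (δ / M))) ⁻¹'
          Dif C (3 * C.R none / 8) (δ / M) ∩ strip 0) :=
        (measure_mono hsub).trans (measure_biUnion_finset_le _ _)
    _ = ∑ _i ∈ Finset.range M, volume (Dif C (3 * C.R none / 8) (δ / M) ∩ strip 0) := by
        refine Finset.sum_congr rfl fun i _ => ?_
        exact (per_Dif C _ _).preimage_strip (measurableSet_Dif C _ _) (mp_add_snd _)
          (comm_add_snd _) 0 0
    _ = M * volume (Dif C (3 * C.R none / 8) (δ / M) ∩ strip 0) := by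
        rw [Finset.sum_const, Finset.card_range, nsmul_eq_mul]

lemma ae_div {P : ℝ → Prop} (h : ∀ᵐ x : ℝ, P x) {M : ℝ} (hM : M ≠ 0) : ∀ᵐ x : ℝ, P (x / M) := by
  rw [ae_iff] at h ⊢
  have e : {a : ℝ | ¬ P (a / M)} = (fun x : ℝ => M⁻¹ • x) ⁻¹' {a | ¬ P a} := by
    ext a
    simp only [mem_ofPred_eq, mem_preimage, smul_eq_mul]
    rw [div_eq_inv_mul]
  rw [e, Measure.addHaar_preimage_smul volume (inv_ne_zero hM), h, mul_zero]

/-- for almost every small translation the escape set is invariant near the centre -/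
lemma dif_zero (hX : ∀ C : Cfg N, CROSS C) (C : Cfg N) :
    ∀ᵐ δ : ℝ, 0 < δ → δ ≤ 3 * C.R none / 16 → volume (Dif C (3 * C.R none / 16) δ) = 0 := by
  have h1 : ∀ n : ℕ, ∃ h0 : ℝ, 0 < h0 ∧ ∀ᵐ h : ℝ, 0 < h → h < h0 →
      volume (Dif C (3 * C.R none / 8) h ∩ strip 0) ≤ ENNReal.ofReal (1 / (n + 1 : ℝ) * h) :=
    fun n => dif_small hX C (1 / (n + 1 : ℝ)) (by positivity)
  choose h0 hh0 H using h1
  have H' : ∀ᵐ δ : ℝ, ∀ n M : ℕ, 0 < δ / ((M + 1 : ℕ) : ℝ) → δ / ((M + 1 : ℕ) : ℝ) < h0 n →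
      volume (Dif C (3 * C.R none / 8) (δ / ((M + 1 : ℕ) : ℝ)) ∩ strip 0) ≤
        ENNReal.ofReal (1 / (n + 1 : ℝ) * (δ / ((M + 1 : ℕ) : ℝ))) := by
    rw [ae_all_iff]
    intro n
    rw [ae_all_iff]
    intro M
    exact ae_div (H n) (by positivity)
  filter_upwards [H'] with δ hδ hp hl
  apply (per_Dif C _ _).null 0
  have h2 : ∀ n : ℕ, volume (Dif C (3 * C.R none / 16) δ ∩ strip 0) ≤
      ENNReal.ofReal (1 / (n + 1 : ℝ) * δ) := by
    intro n
    obtain ⟨M, hM⟩ := exists_nat_gt (δ / h0 n)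
    have hM1 : (0 : ℝ) < ((M + 1 : ℕ) : ℝ) := by positivity
    have hM2 : δ / ((M + 1 : ℕ) : ℝ) < h0 n := by
      rw [div_lt_iff₀ hM1]
      rw [div_lt_iff₀ (hh0 n)] at hM
      have := hh0 n
      push_cast
      nlinarith
    have h3 := hδ n M (by positivity) hM2
    calc volume (Dif C (3 * C.R none / 16) δ ∩ strip 0)
        ≤ ((M + 1 : ℕ) : ENNReal) *
            volume (Dif C (3 * C.R none / 8) (δ / ((M + 1 : ℕ) : ℝ)) ∩ strip 0) :=
          dif_tele C hp hl (M + 1) (Nat.succ_pos M)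
      _ ≤ ((M + 1 : ℕ) : ENNReal) *
            ENNReal.ofReal (1 / (n + 1 : ℝ) * (δ / ((M + 1 : ℕ) : ℝ))) := by gcongr
      _ = ENNReal.ofReal (((M + 1 : ℕ) : ℝ) * (1 / (n + 1 : ℝ) * (δ / ((M + 1 : ℕ) : ℝ)))) := by
          rw [ENNReal.ofReal_mul hM1.le, ENNReal.ofReal_natCast]
      _ = ENNReal.ofReal (1 / (n + 1 : ℝ) * δ) := by
          congr 1
          field_simp
  have hlim : Tendsto (fun n : ℕ => ENNReal.ofReal (1 / (n + 1 : ℝ) * δ)) atTop (𝓝 0) := by
    have h3 : Tendsto (fun n : ℕ => 1 / (n + 1 : ℝ) * δ) atTop (𝓝 0) := by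
      have := (tendsto_one_div_add_atTop_nhds_zero_nat (𝕜 := ℝ)).mul_const δ
      simpa using this
    have := ENNReal.tendsto_ofReal h3
    simpa using this
  exact le_antisymm (ge_of_tendsto' hlim h2) (by positivity)

/-- local constancy of the escape property -/
theorem loc_const (hX : ∀ C : Cfg N, CROSS C) (C : Cfg N) :
    ∀ᵐ a : ℝ, (∀ᵐ b : ℝ, |b| < C.R none / 16 → Esc C none (mk C none a b)) ∨
      (∀ᵐ b : ℝ, |b| < C.R none / 16 → ¬ Esc C none (mk C none a b)) := by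
  have hR := C.Rpos none
  -- the good set
  set G : Set (ℝ × (ℝ × ℝ)) := {z | 0 < z.1 → z.1 ≤ 3 * C.R none / 16 →
    |z.2.2| ≤ 3 * C.R none / 16 →
      (Esc C none (mk C none z.2.1 z.2.2) ↔ Esc C none (mk C none z.2.1 (z.2.2 + z.1)))} with hG
  have hE := measurableSet_Esc C none
  have hmk := (continuous_mk C none).measurable
  have hGm : MeasurableSet G := by
    have m1 : MeasurableSet {z : ℝ × (ℝ × ℝ) | 0 < z.1} := measurableSet_lt measurable_const
      measurable_fst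
    have m2 : MeasurableSet {z : ℝ × (ℝ × ℝ) | z.1 ≤ 3 * C.R none / 16} :=
      measurableSet_le measurable_fst measurable_const
    have m3 : MeasurableSet {z : ℝ × (ℝ × ℝ) | |z.2.2| ≤ 3 * C.R none / 16} :=
      measurableSet_le measurable_snd.snd.abs measurable_const
    have m4 : MeasurableSet {z : ℝ × (ℝ × ℝ) | Esc C none (mk C none z.2.1 z.2.2)} :=
      (hmk.comp measurable_snd) hE
    have m5 : MeasurableSet {z : ℝ × (ℝ × ℝ) | Esc C none (mk C none z.2.1 (z.2.2 + z.1))} :=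
      (hmk.comp (measurable_snd.fst.prodMk (measurable_snd.snd.add measurable_fst))) hE
    have e : G = {z : ℝ × (ℝ × ℝ) | 0 < z.1}ᶜ ∪ ({z : ℝ × (ℝ × ℝ) | z.1 ≤ 3 * C.R none / 16}ᶜ ∪
        ({z : ℝ × (ℝ × ℝ) | |z.2.2| ≤ 3 * C.R none / 16}ᶜ ∪
        (({z : ℝ × (ℝ × ℝ) | Esc C none (mk C none z.2.1 z.2.2)} ∩
          {z : ℝ × (ℝ × ℝ) | Esc C none (mk C none z.2.1 (z.2.2 + z.1))}) ∪
        ({z : ℝ × (ℝ × ℝ) | Esc C none (mk C none z.2.1 z.2.2)}ᶜ ∩
          {z : ℝ × (ℝ × ℝ) | Esc C none (mk C none z.2.1 (z.2.2 + z.1))}ᶜ)))) := by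
      ext z
      simp only [hG, mem_ofPred_eq, mem_union, mem_compl_iff, mem_inter_iff]
      tauto
    rw [e]
    exact m1.compl.union (m2.compl.union (m3.compl.union
      ((m4.inter m5).union (m4.compl.inter m5.compl))))
  have h1 : ∀ᵐ z : ℝ × (ℝ × ℝ), z ∈ G := by
    rw [Measure.volume_eq_prod, Measure.ae_prod_mem_iff_ae_ae_mem hGm]
    filter_upwards [dif_zero hX C] with δ hδ
    by_cases hp : 0 < δ ∧ δ ≤ 3 * C.R none / 16
    · have h2 := hδ hp.1 hp.2
      have h3 : ∀ᵐ l : ℝ × ℝ, l ∉ Dif C (3 * C.R none / 16) δ := by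
        rw [ae_iff]; simpa using h2
      have h4 := (mp_mk C none).quasiMeasurePreserving.ae h3
      filter_upwards [h4] with ab hab
      intro _ _ k3
      by_contra hcon
      apply hab
      refine ⟨by rw [bet_mk]; exact k3, ?_⟩
      have e : ((mk C none ab.1 ab.2).1, (mk C none ab.1 ab.2).2 + δ) =
          mk C none ab.1 (ab.2 + δ) := by
        refine Prod.ext rfl ?_
        simp only [mk]; ring
      rw [e]
      exact hcon
    · exact Eventually.of_forall fun ab k1 k2 => absurd ⟨k1, k2⟩ hp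
  have h2 := (Measure.measurePreserving_swap (μ := (volume : Measure (ℝ × ℝ)))
    (ν := (volume : Measure ℝ))).quasiMeasurePreserving.ae h1
  have h3 := Measure.ae_ae_of_ae_prod h2
  rw [Measure.volume_eq_prod] at h3
  have h4 := Measure.ae_ae_of_ae_prod h3
  filter_upwards [h4] with a ha
  obtain ⟨b0, hb0, hb1⟩ := (Measure.dense_of_ae ha).exists_mem_open isOpen_Ioo
    (⟨-(3 * C.R none / 32), by constructor <;> linarith⟩ :
      (Ioo (-(C.R none / 8)) (-(C.R none / 16))).Nonempty)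
  have hb2 : |b0| ≤ 3 * C.R none / 16 := by
    rw [abs_le]; constructor <;> linarith [hb1.1, hb1.2]
  have h5 : ∀ᵐ b : ℝ, |b| < C.R none / 16 →
      (Esc C none (mk C none a b0) ↔ Esc C none (mk C none a b)) := by
    have h6 := (measurePreserving_add_right (volume : Measure ℝ) (-b0)).quasiMeasurePreserving.ae
      hb0
    filter_upwards [h6] with b hb hbl
    have h7 := abs_lt.1 hbl
    have h8 := hb (show (0 : ℝ) < b + -b0 by linarith [hb1.2])
      (show b + -b0 ≤ 3 * C.R none / 16 by linarith [hb1.1]) hb2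
    have e : b0 + (b + -b0) = b := by ring
    simp only [Prod.swap, e] at h8
    exact h8
  by_cases hEb : Esc C none (mk C none a b0)
  · left
    filter_upwards [h5] with b hb hbl
    exact (hb hbl).1 hEb
  · right
    filter_upwards [h5] with b hb hbl
    exact fun h => hEb ((hb hbl).2 h)

end Pool.Agent.Work.MP_5c1620_co
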