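import Pool.Agent.Work.MP_5c1620_co.Area5
import Pool.Agent.Work.MP_5c1620_co.Glob1

/-!
# 6.4: a dark point is impossible if almost every line escapes
-/

set_option autoImplicit false
open Real Set MeasureTheory Filter Topology

namespace Pool.Agent.Work.MP_5c1620_co

variable {N : ℕ}

/-- an uncut line near the source whose line escapes produces an escaping line through the
source -/
lemma fan_of_unk {C : Cfg N} {p : ℝ × ℝ} {h : ℝ} (hh : 0 < h) (hh0 : h ≤ C.h0)
    (hp0 : 0 < bet C none p) (hph : bet C none p < h) (hE : Esc C none p) (hu : unk C p h) :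
    ∃ a, Esc C none (mk C none a 0) := by
  obtain ⟨v, hv1, hv2⟩ := hE
  have hR := C.Rpos none
  have hR0 := h0_le_R C
  obtain ⟨b, hb, _, _, a2, _, _, _, a6⟩ := leaf_pkg (p := p) hh hh0
    (by rw [abs_of_pos hp0]; linarith) hv1 hu
  have a7 := a6 hv2
  set F := Lf C v (Sw C v p) (sg v) with hF
  have hF0 : F 0 = p := by rw [hF, Lf_zero]
  have hcont : ContinuousOn (fun s => bet C none (F s)) (Icc 0 b) :=
    ((continuous_bet C none).comp (continuous_Lf C v _ _)).continuousOn
  have hiv := intermediate_value_Icc' hb.le hcont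
  have hmem : (0 : ℝ) ∈ Icc (bet C none (F b)) (bet C none (F 0)) := by
    rw [a2, hF0]; exact ⟨by linarith, hp0.le⟩
  obtain ⟨s, hs, hs0⟩ := hiv hmem
  simp only at hs0
  refine ⟨(F s).1, ?_⟩
  have e : mk C none (F s).1 0 = F s := by
    conv_rhs => rw [← mk_bet C none (F s), hs0]
  rw [e]
  have := a7 s hs
  exact ⟨v, this.2.1, this.2.2⟩

/-- CROSS in the form used in Glob1 -/
theorem CROSS_holds (C : Cfg N) : CROSS C := ⟨C.h0, h0_pos C, cross C⟩

/-- 6.4 -/
theorem no_dark (C : Cfg N) {r0 : ℝ} (hr0 : 0 < r0)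
    (hnull : ∀ᵐ p : ℝ × ℝ, |bet C none p| < r0 → Esc C none p) :
    ∃ a, Esc C none (mk C none a 0) := by
  by_contra hdark
  obtain ⟨h1, hh1, hkill⟩ := fan_kills C 0 1 one_pos
  set h := min (h1 / 2) (min C.h0 r0) with hh
  have hpos : 0 < h := lt_min (by linarith) (lt_min (h0_pos C) hr0)
  have hlt : h < h1 := lt_of_le_of_lt (min_le_left _ _) (by linarith)
  have hle : h ≤ C.h0 := (min_le_right _ _).trans (min_le_left _ _)
  have hler : h ≤ r0 := (min_le_right _ _).trans (min_le_right _ _)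
  have hkill := hkill h hpos hlt
  have hslab := volume_slab C none 0 (Ioo (-h) 0) measurableSet_Ioo
  have hnull' := mp_rev.quasiMeasurePreserving.ae hnull
  have hcov : ({p : ℝ × ℝ | bet C none p ∈ Ioo (-h) 0} ∩ strip 0 : Set (ℝ × ℝ)) ≤ᵐ[volume]
      ({l | |bet C none l| ≤ h ∧ ¬ Unk C (rev l) (-1) h} ∩ strip 0 : Set (ℝ × ℝ)) := by
    filter_upwards [hnull'] with p hp
    rintro ⟨hb, hs⟩
    have hb1 : -h < bet C none p := hb.1
    have hb2 : bet C none p < 0 := hb.2
    have habs : |bet C none p| < h := by rw [abs_of_neg hb2]; linarith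
    have hE := hp (by rw [bet_rev, abs_neg]; linarith)
    refine ⟨⟨habs.le, fun hu => hdark ?_⟩, hs⟩
    exact fan_of_unk hpos hle (by rw [bet_rev]; linarith) (by rw [bet_rev]; linarith) hE hu
  have hmain := measure_mono_ae hcov
  rw [hslab, Real.volume_Ioo, zero_sub, neg_neg] at hmain
  have h3 : ENNReal.ofReal (2 * π) * ENNReal.ofReal h ≤ ENNReal.ofReal (1 * h) :=
    hmain.trans hkill
  rw [← ENNReal.ofReal_mul (by positivity),
    ENNReal.ofReal_le_ofReal_iff (by positivity)] at h3
  have := pi_gt_three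
  nlinarith

end Pool.Agent.Work.MP_5c1620_co
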