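import Pool.Agent.Work.MP_5c1620_co.Meas2

/-!
# Invariance of the measure: kill sets are small, the past of a trapped line is trapped
-/

set_option autoImplicit false
open Real Set MeasureTheory Function

namespace Pool.Agent.Work.MP_5c1620_co

variable {N : ℕ}

/-! ## the preimage inequality -/

/-- one piece of the preimage -/
def pre (C : Cfg N) (o : Option (Fin N)) (k : Fin N) (B : Set (ℝ × ℝ)) : Set (ℝ × ℝ) :=
  dom C o ∩ ({p | W C o k p} ∩ (dom C (some k) ∩ S C k ⁻¹' B))

lemma measurableSet_pre (C : Cfg N) (o : Option (Fin N)) (k : Fin N) {B : Set (ℝ × ℝ)}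
    (hB : MeasurableSet B) : MeasurableSet (pre C o k B) :=
  (measurableSet_dom C o).inter ((measurableSet_W C o k).inter ((measurableSet_dom C (some k)).inter
    ((continuous_S C k).measurable hB)))

lemma S_mem_dom {C : Cfg N} {k : Fin N} {p : ℝ × ℝ} :
    S C k p ∈ dom C (some k) ↔ p ∈ dom C (some k) := by
  simp only [dom, mem_ofPred_eq, bet_S]

lemma volume_pre_le (C : Cfg N) (o : Option (Fin N)) (k : Fin N) {B : Set (ℝ × ℝ)}
    (hB : MeasurableSet B) (hP : Per B) (a : ℝ) :
    volume (pre C o k B ∩ strip a) ≤ volume ((B ∩ dom C (some k)) ∩ strip a) := by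
  rw [← (hP.inter (per_dom C (some k))).preimage_strip (hB.inter (measurableSet_dom C (some k)))
    (mp_S C k) (comm_S C k) a a]
  apply measure_mono
  rintro p ⟨⟨_, _, h1, h2⟩, h3⟩
  exact ⟨⟨h2, S_mem_dom.2 h1⟩, h3⟩

/-- the pieces of the preimage over different mirrors are disjoint -/
lemma sum_volume_pre_le (C : Cfg N) (k : Fin N) {B : Set (ℝ × ℝ)}
    (hB : MeasurableSet B) (hP : Per B) (a : ℝ) :
    ∑ o : Fin N, volume (pre C (some o) k B ∩ strip a) ≤
      volume ((B ∩ dom C (some k)) ∩ strip a) := by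
  classical
  have hdisj : Pairwise (Function.onFun Disjoint
      (fun o : Fin N => pre C (some o) k B ∩ strip a)) := by
    intro o o' hne
    rw [Function.onFun, Set.disjoint_left]
    rintro p ⟨⟨h1, h2, _⟩, _⟩ ⟨⟨h1', h2', _⟩, _⟩
    exact hne (W_unique h1 h1' h2 h2')
  have hm : ∀ o : Fin N, MeasurableSet (pre C (some o) k B ∩ strip a) := fun o =>
    (measurableSet_pre C (some o) k hB).inter (measurableSet_strip a)
  rw [← measure_biUnion_finset (s := Finset.univ) (fun o _ o' _ h => hdisj h) (fun o _ => hm o)]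
  rw [← (hP.inter (per_dom C (some k))).preimage_strip (hB.inter (measurableSet_dom C (some k)))
    (mp_S C k) (comm_S C k) a a]
  apply measure_mono
  intro p hp
  simp only [Finset.mem_univ, iUnion_true, mem_iUnion] at hp
  obtain ⟨o, ⟨_, _, h1, h2⟩, h3⟩ := hp
  exact ⟨⟨h2, S_mem_dom.2 h1⟩, h3⟩

/-- the preimage inequality over all mirrors -/
lemma pre_ineq (C : Cfg N) {A B : Fin N → Set (ℝ × ℝ)} (hB : ∀ k, MeasurableSet (B k))
    (hP : ∀ k, Per (B k)) (a : ℝ) (hA : ∀ o, A o ≤ᵐ[volume] ⋃ k, pre C (some o) k (B k)) :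
    ∑ o : Fin N, volume (A o ∩ strip a) ≤ ∑ k : Fin N, volume ((B k ∩ dom C (some k)) ∩ strip a) := by
  calc ∑ o : Fin N, volume (A o ∩ strip a)
      ≤ ∑ o : Fin N, ∑ k : Fin N, volume (pre C (some o) k (B k) ∩ strip a) := by
        refine Finset.sum_le_sum fun o _ => ?_
        have h1 : volume (A o ∩ strip a) ≤ volume ((⋃ k, pre C (some o) k (B k)) ∩ strip a) := by
          apply measure_mono_ae
          filter_upwards [hA o] with p hp
          intro h
          exact ⟨hp h.1, h.2⟩
        refine h1.trans ?_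
        rw [iUnion_inter]
        exact measure_iUnion_fintype_le _ _
    _ = ∑ k : Fin N, ∑ o : Fin N, volume (pre C (some o) k (B k) ∩ strip a) :=
        Finset.sum_comm
    _ ≤ ∑ k : Fin N, volume ((B k ∩ dom C (some k)) ∩ strip a) :=
        Finset.sum_le_sum fun k _ => sum_volume_pre_le C k (hB k) (hP k) a

/-- the preimage inequality from the chart disk -/
lemma pre_ineq_none (C : Cfg N) {A : Set (ℝ × ℝ)} {B : Fin N → Set (ℝ × ℝ)}
    (hB : ∀ k, MeasurableSet (B k)) (hP : ∀ k, Per (B k)) (a : ℝ)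
    (hA : A ≤ᵐ[volume] ⋃ k, pre C none k (B k)) :
    volume (A ∩ strip a) ≤ ∑ k : Fin N, volume ((B k ∩ dom C (some k)) ∩ strip a) := by
  calc volume (A ∩ strip a)
      ≤ ∑ k : Fin N, volume (pre C none k (B k) ∩ strip a) := by
        have h1 : volume (A ∩ strip a) ≤ volume ((⋃ k, pre C none k (B k)) ∩ strip a) := by
          apply measure_mono_ae
          filter_upwards [hA] with p hp
          intro h
          exact ⟨hp h.1, h.2⟩
        refine h1.trans ?_
        rw [iUnion_inter]
        exact measure_iUnion_fintype_le _ _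
    _ ≤ ∑ k : Fin N, volume ((B k ∩ dom C (some k)) ∩ strip a) :=
        Finset.sum_le_sum fun k _ => volume_pre_le C none k (hB k) (hP k) a

/-! ## the growth lemma -/

lemma kill_succ_ae (C : Cfg N) (j : ℕ) (o : Option (Fin N)) (e ε : ℝ) :
    (dom C o ∩ {p | Kill C (j + 1) o e ε p} : Set (ℝ × ℝ)) ≤ᵐ[volume]
      ⋃ k, pre C o k {p | Kill C j (some k) (-e) ε p} := by
  filter_upwards [ae_generic C] with p hg
  rintro ⟨h1, k, h2, h3⟩
  refine mem_iUnion.2 ⟨k, h1, h2, ?_, h3⟩
  exact lt_of_le_of_ne h2.2.2.1 (hg.bet_ne k)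

lemma volume_kill_zero (C : Cfg N) (o : Option (Fin N)) (e ε a : ℝ) :
    volume ({p | Kill C 0 o e ε p} ∩ strip a) ≤
      N * (ENNReal.ofReal (2 * π) * ENNReal.ofReal (2 * ε)) := by
  calc volume ({p | Kill C 0 o e ε p} ∩ strip a)
      ≤ volume (⋃ l : Fin N, ({p | |bet C (some l) p + e * C.R (some l)| ≤ ε} ∩ strip a)) := by
        apply measure_mono
        rintro p ⟨⟨l, _, _, h, _⟩, h2⟩
        exact mem_iUnion.2 ⟨l, h, h2⟩
    _ ≤ ∑ l : Fin N, volume ({p | |bet C (some l) p + e * C.R (some l)| ≤ ε} ∩ strip a) :=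
        measure_iUnion_fintype_le _ _
    _ = N * (ENNReal.ofReal (2 * π) * ENNReal.ofReal (2 * ε)) := by
        simp only [volume_near, Finset.sum_const, Finset.card_univ, Fintype.card_fin,
          nsmul_eq_mul]

lemma sum_volume_kill (C : Cfg N) (j : ℕ) (e ε a : ℝ) :
    ∑ o : Fin N, volume ((dom C (some o) ∩ {p | Kill C j (some o) e ε p}) ∩ strip a) ≤
      N * (N * (ENNReal.ofReal (2 * π) * ENNReal.ofReal (2 * ε))) := by
  induction j generalizing e with
  | zero =>
    calc ∑ o : Fin N, volume ((dom C (some o) ∩ {p | Kill C 0 (some o) e ε p}) ∩ strip a)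
        ≤ ∑ _o : Fin N, (N : ENNReal) * (ENNReal.ofReal (2 * π) * ENNReal.ofReal (2 * ε)) := by
          refine Finset.sum_le_sum fun o _ => ?_
          refine le_trans (measure_mono ?_) (volume_kill_zero C (some o) e ε a)
          rintro p ⟨⟨_, h⟩, h2⟩
          exact ⟨h, h2⟩
      _ = _ := by
          simp only [Finset.sum_const, Finset.card_univ, Fintype.card_fin, nsmul_eq_mul]
  | succ j ih =>
    refine le_trans (pre_ineq C (B := fun k => {p | Kill C j (some k) (-e) ε p})
      (fun k => measurableSet_Kill C j (some k) (-e) ε) (fun k => per_Kill C j (some k) (-e) ε) a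
      (fun o => kill_succ_ae C j (some o) e ε)) ?_
    refine le_trans (le_of_eq ?_) (ih (-e))
    refine Finset.sum_congr rfl fun k _ => ?_
    rw [inter_comm (dom C (some k))]

lemma volume_kill_none (C : Cfg N) (j : ℕ) (e ε a : ℝ) :
    volume ((dom C none ∩ {p | Kill C j none e ε p}) ∩ strip a) ≤
      (N + 1) * ((N + 1) * (ENNReal.ofReal (2 * π) * ENNReal.ofReal (2 * ε))) := by
  set x := ENNReal.ofReal (2 * π) * ENNReal.ofReal (2 * ε)
  have h1 : (N : ENNReal) * x ≤ (N + 1) * ((N + 1) * x) := by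
    calc (N : ENNReal) * x ≤ (N + 1) * x := by gcongr; exact le_self_add
      _ ≤ (N + 1) * ((N + 1) * x) := by
        gcongr
        calc x = 1 * x := (one_mul x).symm
          _ ≤ (N + 1) * x := by gcongr; exact le_add_self
  have h2 : (N : ENNReal) * (N * x) ≤ (N + 1) * ((N + 1) * x) := by
    gcongr <;> exact le_self_add
  cases j with
  | zero =>
    refine le_trans (measure_mono ?_) ((volume_kill_zero C none e ε a).trans h1)
    rintro p ⟨⟨_, h⟩, h2⟩
    exact ⟨h, h2⟩
  | succ j =>
    refine le_trans (pre_ineq_none C (B := fun k => {p | Kill C j (some k) (-e) ε p})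
      (fun k => measurableSet_Kill C j (some k) (-e) ε) (fun k => per_Kill C j (some k) (-e) ε) a
      (kill_succ_ae C j none e ε)) ?_
    refine le_trans (le_of_eq ?_) ((sum_volume_kill C j (-e) ε a).trans h2)
    refine Finset.sum_congr rfl fun k _ => ?_
    rw [inter_comm (dom C (some k))]

/-- the growth lemma -/
lemma kill_bound (C : Cfg N) : ∃ CM : ℝ, 0 < CM ∧ ∀ (a : ℝ) (j : ℕ) (e ε : ℝ), 0 < ε →
    volume {p : ℝ × ℝ | p.1 ∈ Ioc a (a + 2 * π) ∧ |bet C none p| < C.R none ∧
      Kill C j none e ε p} ≤ ENNReal.ofReal (CM * ε) := by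
  refine ⟨(N + 1) * ((N + 1) * (2 * π * 2)), by positivity, ?_⟩
  intro a j e ε hε
  have h := volume_kill_none C j e ε a
  have e1 : {p : ℝ × ℝ | p.1 ∈ Ioc a (a + 2 * π) ∧ |bet C none p| < C.R none ∧
      Kill C j none e ε p} = (dom C none ∩ {p | Kill C j none e ε p}) ∩ strip a := by
    ext p
    simp only [mem_ofPred_eq, mem_inter_iff, dom, strip]
    tauto
  rw [e1]
  refine h.trans (le_of_eq ?_)
  have e2 : (N + 1) * ((N + 1) * (2 * π * 2)) * ε =
      ((N : ℝ) + 1) * (((N : ℝ) + 1) * ((2 * π) * (2 * ε))) := by ring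
  have e3 : ENNReal.ofReal ((N : ℝ) + 1) = (N : ENNReal) + 1 := by
    rw [ENNReal.ofReal_add (by positivity) (by positivity)]
    simp
  have hN : (0 : ℝ) ≤ (N : ℝ) + 1 := by positivity
  rw [e2, ENNReal.ofReal_mul hN, ENNReal.ofReal_mul hN,
    ENNReal.ofReal_mul (by positivity : (0 : ℝ) ≤ 2 * π), e3]

/-! ## the past of a trapped line is trapped -/

/-- trapped lines leaving mirror k with a past of length n -/
def XX (C : Cfg N) (n : ℕ) (k : Fin N) : Set (ℝ × ℝ) :=
  dom C (some k) ∩ ({p | Esc C (some k) p}ᶜ ∩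
    {p | ∃ w : List (Fin N), w.length = n ∧ Path C (some k) w (rev (Si C k p))})

lemma measurableSet_XX (C : Cfg N) (n : ℕ) (k : Fin N) : MeasurableSet (XX C n k) := by
  refine (measurableSet_dom C (some k)).inter ((measurableSet_Esc C (some k)).compl.inter ?_)
  have h : {p : ℝ × ℝ | ∃ w : List (Fin N), w.length = n ∧ Path C (some k) w (rev (Si C k p))} =
      ⋃ w : List (Fin N), ⋃ _ : w.length = n,
        (fun p => rev (Si C k p)) ⁻¹' {p | Path C (some k) w p} := by
    ext p
    simp only [mem_ofPred_eq, mem_iUnion, mem_preimage, exists_prop]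
  rw [h]
  refine MeasurableSet.iUnion fun w => MeasurableSet.iUnion fun _ => ?_
  exact (continuous_rev.comp (continuous_Si C k)).measurable (measurableSet_Path C (some k) w)

lemma per_XX (C : Cfg N) (n : ℕ) (k : Fin N) : Per (XX C n k) := by
  refine (per_dom C (some k)).inter ((per_Esc C (some k)).compl.inter ?_)
  intro p
  simp only [mem_ofPred_eq, Si_shift, rev_shift (Si C k p)]
  refine exists_congr fun w => and_congr_right fun _ => ?_
  exact Path_shift C (some k) w (rev (Si C k p))

lemma path_take {C : Cfg N} {o : Option (Fin N)} {w : List (Fin N)} {p : ℝ × ℝ} (n : ℕ)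
    (h : Path C o w p) : Path C o (w.take n) p := by
  induction w generalizing o p n with
  | nil => simpa using h
  | cons k w ih =>
    cases n with
    | zero => simp only [List.take_zero]; trivial
    | succ n =>
      simp only [List.take_succ_cons]
      exact ⟨h.1, ih n h.2⟩

lemma XX_succ_subset (C : Cfg N) (n : ℕ) (k : Fin N) : XX C (n + 1) k ⊆ XX C n k := by
  rintro p ⟨h1, h2, w, h3, h4⟩
  exact ⟨h1, h2, w.take n, by simp [h3], path_take n h4⟩

lemma XX_ae (C : Cfg N) (n : ℕ) (o : Fin N) :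
    (XX C n o : Set (ℝ × ℝ)) ≤ᵐ[volume] ⋃ k, pre C (some o) k (XX C (n + 1) k) := by
  filter_upwards [ae_generic C] with p hg
  rintro ⟨h1, h2, w, h3, h4⟩
  obtain ⟨k, hk⟩ := exists_Nx_of_not_esc hg h2
  refine mem_iUnion.2 ⟨k, h1, hk.toW, hk.2.1, S_mem_dom.2 hk.2.1, ?_, o :: w, by simp [h3], ?_⟩
  · intro h
    exact h2 (Esc.cons hk h)
  · rw [Si_S]
    refine ⟨Nx_rev hk h1, ?_⟩
    rw [S_rev]
    exact (Path_shift C (some o) w (rev (Si C o p))).2 h4

lemma XX_diff_null (C : Cfg N) (n : ℕ) (k : Fin N) : volume (XX C n k \ XX C (n + 1) k) = 0 := by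
  have hper : Per (XX C n k \ XX C (n + 1) k) := by
    intro p
    rw [mem_sdiff, mem_sdiff, per_XX C n k, per_XX C (n + 1) k]
  apply hper.null 0
  have h1 := pre_ineq C (A := XX C n) (B := XX C (n + 1)) (measurableSet_XX C (n + 1))
    (per_XX C (n + 1)) 0 (XX_ae C n)
  have h2 : ∑ k : Fin N, volume ((XX C (n + 1) k ∩ dom C (some k)) ∩ strip 0) ≤
      ∑ k : Fin N, volume (XX C (n + 1) k ∩ strip 0) := by
    refine Finset.sum_le_sum fun k _ => measure_mono ?_
    rintro p ⟨⟨h, _⟩, h'⟩
    exact ⟨h, h'⟩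
  have h3 : ∀ k : Fin N, volume (XX C n k ∩ strip 0) = volume (XX C (n + 1) k ∩ strip 0) +
      volume ((XX C n k \ XX C (n + 1) k) ∩ strip 0) := by
    intro k
    have := measure_inter_add_sdiff (μ := volume) (XX C n k ∩ strip 0)
      ((measurableSet_XX C (n + 1) k))
    rw [← this]
    congr 2
    · ext p
      simp only [mem_inter_iff]
      constructor
      · rintro ⟨⟨_, h⟩, h'⟩; exact ⟨h', h⟩
      · rintro ⟨h, h'⟩; exact ⟨⟨XX_succ_subset C n k h, h'⟩, h⟩
    · ext p
      simp only [mem_inter_iff, mem_sdiff]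
      tauto
  have h4 : ∑ k : Fin N, volume (XX C (n + 1) k ∩ strip 0) +
      ∑ k : Fin N, volume ((XX C n k \ XX C (n + 1) k) ∩ strip 0) ≤
      ∑ k : Fin N, volume (XX C (n + 1) k ∩ strip 0) := by
    rw [← Finset.sum_add_distrib]
    calc ∑ k : Fin N, (volume (XX C (n + 1) k ∩ strip 0) +
          volume ((XX C n k \ XX C (n + 1) k) ∩ strip 0))
        = ∑ k : Fin N, volume (XX C n k ∩ strip 0) :=
          Finset.sum_congr rfl fun k _ => (h3 k).symm
      _ ≤ _ := h1.trans h2
  have h5 : ∑ k : Fin N, volume (XX C (n + 1) k ∩ strip 0) ≠ ⊤ := by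
    refine ENNReal.sum_ne_top.2 fun k _ => ?_
    refine ne_top_of_le_ne_top (volume_dom_ne_top C (some k) 0) (measure_mono ?_)
    rintro p ⟨h, h'⟩
    exact ⟨h.1, h'⟩
  have h6 : ∑ k : Fin N, volume ((XX C n k \ XX C (n + 1) k) ∩ strip 0) = 0 := by
    have := (ENNReal.add_le_add_iff_left h5 (b := ∑ k : Fin N,
      volume ((XX C n k \ XX C (n + 1) k) ∩ strip 0)) (c := 0)).1 (by simpa using h4)
    simpa using this
  exact (Finset.sum_eq_zero_iff.1 h6) k (Finset.mem_univ k)

/-- almost every trapped line leaving a mirror has a trapped past -/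
lemma ae_past (C : Cfg N) : ∀ᵐ p : ℝ × ℝ, ∀ k : Fin N, |bet C (some k) p| < C.R (some k) →
    ¬ Esc C (some k) p → ¬ Esc C (some k) (rev (Si C k p)) := by
  have h : ∀ᵐ p : ℝ × ℝ, ∀ (n : ℕ) (k : Fin N), p ∈ XX C n k → p ∈ XX C (n + 1) k := by
    rw [ae_all_iff]
    intro n
    rw [ae_all_iff]
    intro k
    rw [ae_iff]
    refine measure_mono_null ?_ (XX_diff_null C n k)
    intro p hp
    simpa [mem_sdiff] using hp
  filter_upwards [h] with p hp
  intro k hk hE
  apply not_esc_of_paths
  intro n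
  have hn : ∀ n, p ∈ XX C n k := by
    intro n
    induction n with
    | zero => exact ⟨hk, hE, [], rfl, trivial⟩
    | succ n ih => exact hp n k ih
  exact (hn n).2.2

/-! ## light coming in through the chart disk -/

/-- a backward escape from the chart disk is a backward escape from the next mirror -/
lemma esc_back {C : Cfg N} {k : Fin N} {p : ℝ × ℝ} (hp : |bet C none p| < C.R none)
    (hk : Nx C none k p) (h : Esc C none (rev p)) : Esc C (some k) (rev p) := by
  have hd := C.dpos
  have side : ∀ m : Fin N, tau C (some m) p < tau C (some k) p →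
      (tau C none (rev p) < tau C (some m) (rev p) → C.R (some m) < |bet C (some m) (rev p)|) →
      C.R (some m) < |bet C (some m) (rev p)| := by
    intro m hm hF
    rcases lt_trichotomy (tau C none p) (tau C (some m) p) with h1 | h1 | h1
    · rw [bet_rev, abs_neg]
      exact hk.2.2 m h1 hm
    · rw [bet_rev, abs_neg]
      by_contra hcon
      have hs := sep_tau0 C (p := p) (o := none) (o' := some m) (by simp) hp.le (not_lt.1 hcon)
        h1.le
      have n1 := alp_nonneg C none p
      have n2 := alp_nonneg C (some m) p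
      linarith
    · apply hF
      rw [tau_rev, tau_rev]
      linarith
  obtain ⟨w, h1, h2⟩ := h
  cases w with
  | nil =>
    refine ⟨[], trivial, ?_⟩
    intro m hm
    apply side m
    · have : tau C (some k) (rev p) < tau C (some m) (rev p) := hm
      rw [tau_rev, tau_rev] at this
      linarith
    · exact h2 m
  | cons i w =>
    refine ⟨i :: w, ⟨⟨?_, h1.1.2.1, ?_⟩, h1.2⟩, h2⟩
    · have := h1.1.1
      have := hk.1
      rw [tau_rev, tau_rev] at *
      linarith
    · intro m m1 m2
      apply side m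
      · rw [tau_rev, tau_rev] at m1
        linarith
      · intro m3
        exact h1.1.2.2 m m3 m2

/-- almost every line of the chart disk which escapes backward escapes forward -/
lemma ae_trap (C : Cfg N) : ∀ᵐ p : ℝ × ℝ, |bet C none p| < C.R none → Esc C none (rev p) →
    Esc C none p := by
  have h : ∀ k : Fin N, ∀ᵐ p : ℝ × ℝ, |bet C (some k) (S C k p)| < C.R (some k) →
      ¬ Esc C (some k) (S C k p) → ¬ Esc C (some k) (rev (Si C k (S C k p))) := by
    intro k
    exact (mp_S C k).quasiMeasurePreserving.ae ((ae_past C).mono fun p hp => hp k)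
  have h' := (ae_all_iff.2 h)
  filter_upwards [h', ae_generic C] with p hp hg h1 h2
  by_contra hE
  obtain ⟨k, hk⟩ := exists_Nx_of_not_esc hg hE
  have h3 := hp k (by rw [bet_S]; exact hk.2.1) (fun h => hE (Esc.cons hk h))
  rw [Si_S] at h3
  exact h3 (esc_back h1 hk h2)

end Pool.Agent.Work.MP_5c1620_co
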