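import Pool.Agent.Work.MP_5c1620_co.Leaf5
import Pool.Agent.Work.MP_5c1620_co.Meas3

/-!
# M4, part 1: uniqueness of itineraries, derivative of the final direction, measurability,
one-dimensional fibre estimate
-/

set_option autoImplicit false
open Real Set MeasureTheory Filter Topology

namespace Pool.Agent.Work.MP_5c1620_co

variable {N : ℕ}

/-! ## uniqueness -/

lemma Path_unique {C : Cfg N} {w w' : List (Fin N)} {o : Option (Fin N)} {p : ℝ × ℝ}
    (h : Path C o w p) (h' : Path C o w' p) (hl : w.length = w'.length) : w = w' := by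
  induction w generalizing o w' p with
  | nil => exact (List.length_eq_zero_iff.1 hl.symm).symm
  | cons k w ih =>
    cases w' with
    | nil => simp at hl
    | cons k' w' =>
      have hk := Nx_unique h.1 h'.1
      subst hk
      rw [ih h.2 h'.2 (by simpa using hl)]

lemma Path_append {C : Cfg N} {w v : List (Fin N)} {o : Option (Fin N)} {p : ℝ × ℝ} :
    Path C o (w ++ v) p ↔ Path C o w p ∧ Path C (lst o w) v (Sw C w p) := by
  induction w generalizing o p with
  | nil => simp [Path, lst, Sw]
  | cons k w ih =>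
    simp only [List.cons_append, Path, ih, lst, Sw]
    tauto

/-! ## derivative of the final line along a curve -/

lemma hd_Sw {C : Cfg N} (w : List (Fin N)) : ∀ (o : Option (Fin N)) (g : ℝ → ℝ × ℝ)
    (a b x : ℝ), HasDerivAt g (a, b) x → Path C o w (g x) →
    ∃ D, HasDerivAt (fun t => Sw C w (g t))
      ((-1) ^ w.length * (a * (PD C w (g x)).2 + b * (PD C w (g x)).1), D) x := by
  induction w with
  | nil =>
    intro o g a b x hg _
    refine ⟨b, ?_⟩
    simpa [PD, Sw] using hg
  | cons k w ih =>
    intro o g a b x hg hP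
    obtain ⟨hN, hP⟩ := hP
    have hk := hN.2.1
    obtain ⟨D, hD⟩ := ih (some k) (fun t => S C k (g t)) _ _ x (hd_S C k hg hk) hP
    refine ⟨D, ?_⟩
    refine hD.congr_deriv ?_
    refine Prod.ext ?_ rfl
    simp only
    have ha := alp_pos C (some k) hk
    have e1 := PD_cons_fst C k w (g x)
    have e2 := PD_cons_snd C k w (g x)
    have e3 : St C (some k) w (S C k (g x)) = (PD C w (S C k (g x))).2 -
      (tau C (some k) (S C k (g x)) + alp C (some k) (g x)) *
        (PD C w (S C k (g x))).1 := by
      rw [← alp_S]; rfl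
    rw [e2, e1, e3]
    set A := alp C (some k) (g x)
    set P1 := (PD C w (S C k (g x))).1
    set D1 := (PD C w (S C k (g x))).2
    set t1 := tau C (some k) (S C k (g x))
    set t2 := tau C (some k) (g x)
    rw [List.length_cons, pow_succ]
    field_simp
    ring

/-! ## open sets of itineraries -/

/-- chart lines with a given strict itinerary -/
def OP (C : Cfg N) (w : List (Fin N)) : Set (ℝ × ℝ) :=
  {p | |bet C none p| < C.R none ∧ Path C none w p}

/-- chart lines which escape with a given strict itinerary -/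
def OE (C : Cfg N) (w : List (Fin N)) : Set (ℝ × ℝ) :=
  {p | |bet C none p| < C.R none ∧ Path C none w p ∧ Fr C (lst none w) (Sw C w p)}

lemma isOpen_OP (C : Cfg N) (w : List (Fin N)) : IsOpen (OP C w) := by
  rw [isOpen_iff_mem_nhds]
  intro p hp
  have h1 : ∀ᶠ q in 𝓝 p, |bet C none q| < C.R none :=
    (isOpen_lt (continuous_bet C none).abs continuous_const).mem_nhds hp.1
  filter_upwards [h1, Path_open hp.1.le hp.2] with q a1 a2 using ⟨a1, a2⟩

lemma bet_lst_le {C : Cfg N} {w : List (Fin N)} {o : Option (Fin N)} {p : ℝ × ℝ}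
    (ho : |bet C o p| ≤ C.R o) (h : Path C o w p) :
    |bet C (lst o w) (Sw C w p)| ≤ C.R (lst o w) := by
  induction w generalizing o p with
  | nil => exact ho
  | cons k w ih =>
    exact ih (o := some k) (p := S C k p) (by rw [bet_S]; exact h.1.2.1.le) h.2

lemma isOpen_OE (C : Cfg N) (w : List (Fin N)) : IsOpen (OE C w) := by
  rw [isOpen_iff_mem_nhds]
  intro p hp
  have h1 : ∀ᶠ q in 𝓝 p, |bet C none q| < C.R none :=
    (isOpen_lt (continuous_bet C none).abs continuous_const).mem_nhds hp.1
  have h2 := Fr_open (bet_lst_le hp.1.le hp.2.1) hp.2.2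
  have h3 := (continuous_Sw C w).continuousAt.eventually h2
  filter_upwards [h1, Path_open hp.1.le hp.2.1, h3] with q a1 a2 a3 using ⟨a1, a2, a3⟩

/-! ## measurability of the width functions -/

lemma measurable_PD (C : Cfg N) (w : List (Fin N)) : Measurable (PD C w) := by
  induction w with
  | nil => exact measurable_const
  | cons k w ih =>
    have h1 : Measurable (fun p => PD C w (S C k p)) := ih.comp (continuous_S C k).measurable
    have hp : Measurable (fun p => pos C (some k) (S C k p)) :=
      (continuous_pos C _).measurable.comp (continuous_S C k).measurable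
    have ha : Measurable (alp C (some k)) := (continuous_alp C _).measurable
    have ht : Measurable (tau C (some k)) := (continuous_tau C _).measurable
    have hE : Measurable (fun p => (PD C w (S C k p)).2 -
        pos C (some k) (S C k p) * (PD C w (S C k p)).1) := h1.snd.sub (hp.mul h1.fst)
    have hP : Measurable (fun p => (PD C w (S C k p)).1 + 2 * ((PD C w (S C k p)).2 -
        pos C (some k) (S C k p) * (PD C w (S C k p)).1) / alp C (some k) p) :=
      h1.fst.add ((hE.const_mul 2).div ha)
    exact hP.prodMk (hE.add ((ht.sub ha).mul hP))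

lemma measurable_St (C : Cfg N) (o : Option (Fin N)) (w : List (Fin N)) :
    Measurable (St C o w) :=
  (measurable_PD C w).snd.sub ((continuous_pos C o).measurable.mul (measurable_PD C w).fst)

/-! ## one-dimensional fibre estimate -/

lemma fiber_measure {ψ ψ' : ℝ → ℝ} {B : Set ℝ} {a c h : ℝ} (hB : MeasurableSet B)
    (hd : ∀ s ∈ B, HasDerivAt ψ (ψ' s) s) (hinj : InjOn ψ B) (hc : 0 < c)
    (hlow : ∀ s ∈ B, c ≤ ψ' s) (hr : ∀ s ∈ B, ψ s ∈ Icc a (a + h)) :
    volume B ≤ ENNReal.ofReal (h / c) := by
  have h1 := lintegral_image_eq_lintegral_abs_deriv_mul hB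
    (fun x hx => (hd x hx).hasDerivWithinAt) hinj (fun _ => 1)
  simp only [mul_one, lintegral_const, one_mul, Measure.restrict_apply MeasurableSet.univ,
    univ_inter] at h1
  have h2 : volume (ψ '' B) ≤ ENNReal.ofReal h := by
    have h5 : ψ '' B ⊆ Icc a (a + h) := by
      rintro _ ⟨s, hs, rfl⟩; exact hr s hs
    refine (measure_mono h5).trans ?_
    rw [Real.volume_Icc]; simp
  have h3 : ENNReal.ofReal c * volume B ≤ ∫⁻ x in B, ENNReal.ofReal |ψ' x| := by
    rw [← setLIntegral_const]
    apply setLIntegral_mono' hB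
    intro x hx
    exact ENNReal.ofReal_le_ofReal ((hlow x hx).trans (le_abs_self _))
  have h4 : ENNReal.ofReal c * volume B ≤ ENNReal.ofReal h := by
    rw [← h1] at h3; exact h3.trans h2
  have hc' : ENNReal.ofReal c ≠ 0 := by simpa using hc
  rw [ENNReal.ofReal_div_of_pos hc, ENNReal.le_div_iff_mul_le (Or.inl hc')
    (Or.inl ENNReal.ofReal_ne_top), mul_comm]
  exact h4

/-! ## the two-dimensional image estimate for triangular maps -/

lemma image_triangular {f g f' : ℝ → ℝ} {τ : ℝ} (hτ : |τ| = 1) {T : Set (ℝ × ℝ)}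
    (hT : MeasurableSet T)
    (hf : ∀ z ∈ T, HasDerivAt f (f' z.1) z.1 ∧ ∃ g', HasDerivAt g g' z.1) :
    volume ((fun z : ℝ × ℝ => (f z.1, g z.1 + τ * z.2)) '' T) ≤
      ∫⁻ z in T, ENNReal.ofReal |f' z.1| := by
  choose! h1 g' h2 using hf
  have key : ∀ z ∈ T, HasFDerivWithinAt (fun z : ℝ × ℝ => (f z.1, g z.1 + τ * z.2))
      (LinearMap.toContinuousLinearMap (Matrix.toLin (Module.Basis.finTwoProd ℝ)
        (Module.Basis.finTwoProd ℝ) !![f' z.1, 0; g' z, τ])) T z := by
    intro z hz
    rw [Matrix.toLin_finTwoProd_toContinuousLinearMap]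
    apply HasFDerivAt.hasFDerivWithinAt
    have a1 : HasFDerivAt (fun z : ℝ × ℝ => f z.1)
        ((f' z.1) • ContinuousLinearMap.fst ℝ ℝ ℝ) z :=
      (h1 z hz).comp_hasFDerivAt z hasFDerivAt_fst
    have a2 : HasFDerivAt (fun z : ℝ × ℝ => g z.1)
        ((g' z) • ContinuousLinearMap.fst ℝ ℝ ℝ) z :=
      (h2 z hz).comp_hasFDerivAt z hasFDerivAt_fst
    have a3 : HasFDerivAt (fun z : ℝ × ℝ => τ * z.2)
        (τ • ContinuousLinearMap.snd ℝ ℝ ℝ) z := hasFDerivAt_snd.const_mul τ
    refine (a1.prodMk (a2.add a3)).congr_fderiv ?_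
    rw [zero_smul, add_zero]
  refine (addHaar_image_le_lintegral_abs_det_fderiv volume hT key).trans ?_
  apply le_of_eq
  refine setLIntegral_congr_fun hT ?_
  intro z _
  simp only [LinearMap.det_toContinuousLinearMap, LinearMap.det_toLin, Matrix.det_fin_two_of]
  rw [zero_mul, sub_zero, abs_mul, hτ, mul_one]

end Pool.Agent.Work.MP_5c1620_co
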