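import Pool.Agent.Work.MP_5c1620_co.Area1

/-!
# M4, part 2: the area swept by stable leaves attached to an unstable leaf
-/

set_option autoImplicit false
open Real Set MeasureTheory Filter Topology

namespace Pool.Agent.Work.MP_5c1620_co

variable {N : ℕ}

/-- distortion constant -/
noncomputable def Cfg.CD (C : Cfg N) : ℝ := exp (2 * C.K')

lemma CD_pos (C : Cfg N) : 0 < C.CD := exp_pos _

lemma one_le_CD (C : Cfg N) : 1 ≤ C.CD := one_le_exp (by have := K'_pos C; positivity)

/-- unstable leaf: lines whose past, after the word v, has direction ζ -/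
noncomputable def gam (C : Cfg N) (v : List (Fin N)) (ζ x : ℝ) : ℝ × ℝ := unrev (Siw C v (ζ, x))

lemma continuous_gam (C : Cfg N) (v : List (Fin N)) (ζ : ℝ) : Continuous (gam C v ζ) :=
  continuous_unrev.comp ((continuous_Siw C v).comp (by fun_prop))

@[simp] lemma rev_gam (C : Cfg N) (v : List (Fin N)) (ζ x : ℝ) :
    rev (gam C v ζ x) = Siw C v (ζ, x) := by simp [gam]

lemma hd_Siw {C : Cfg N} {v : List (Fin N)} {ζ x : ℝ} (h : Path C none v (Siw C v (ζ, x))) :
    HasDerivAt (fun t => Siw C v (ζ, t))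
      (-((-1) ^ v.length * (PD C v (Siw C v (ζ, x))).1),
        (-1) ^ v.length * (PD C v (Siw C v (ζ, x))).2) x := by
  have e : (fun t => Siw C v (ζ, t)) = Lf C v (ζ, 0) 1 := by
    funext t; simp [Lf]
  have e2 : Siw C v (ζ, x) = Lf C v (ζ, 0) 1 x := by simp [Lf]
  rw [e2] at h ⊢
  rw [e]
  refine (hasDerivAt_Lf C none v (ζ, 0) 1 x h).congr_deriv ?_
  refine Prod.ext ?_ ?_ <;> simp

lemma hd_gam {C : Cfg N} {v : List (Fin N)} {ζ x : ℝ} (h : Path C none v (Siw C v (ζ, x))) :
    HasDerivAt (gam C v ζ)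
      (-((-1) ^ v.length * (PD C v (Siw C v (ζ, x))).1),
        -((-1) ^ v.length * (PD C v (Siw C v (ζ, x))).2)) x := by
  have h1 := hd_Siw h
  have a1 : HasDerivAt (fun t => (Siw C v (ζ, t)).1)
    (-((-1) ^ v.length * (PD C v (Siw C v (ζ, x))).1)) x := h1.fst
  have a2 : HasDerivAt (fun t => (Siw C v (ζ, t)).2)
    ((-1) ^ v.length * (PD C v (Siw C v (ζ, x))).2) x := h1.snd
  exact (a1.sub_const π).prodMk a2.neg

/-- admissible parameters on the unstable leaf -/
def AA (C : Cfg N) (v : List (Fin N)) (ζ M : ℝ) : Set ℝ :=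
  {x | |x| ≤ M ∧ Siw C v (ζ, x) ∈ OE C v ∧ St C none v (Siw C v (ζ, x)) ≤ M}

lemma measurableSet_AA (C : Cfg N) (v : List (Fin N)) (ζ M : ℝ) :
    MeasurableSet (AA C v ζ M) := by
  have hc : Continuous (fun x => Siw C v (ζ, x)) := (continuous_Siw C v).comp (by fun_prop)
  refine (measurableSet_le continuous_abs.measurable measurable_const).inter
    ((hc.measurable (isOpen_OE C v).measurableSet).inter ?_)
  exact measurableSet_le ((measurable_St C none v).comp hc.measurable) measurable_const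

/-- the stable leaf map attached to the unstable leaf -/
noncomputable def Phi (C : Cfg N) (v : List (Fin N)) (ζ : ℝ) (w : List (Fin N)) (z : ℝ × ℝ) :
    ℝ × ℝ := Lf C w (Sw C w (gam C v ζ z.1)) ((-1) ^ w.length) z.2

lemma continuous_Phi (C : Cfg N) (v : List (Fin N)) (ζ : ℝ) (w : List (Fin N)) :
    Continuous (Phi C v ζ w) := by
  unfold Phi Lf
  have h : Continuous (fun z : ℝ × ℝ => Sw C w (gam C v ζ z.1)) :=
    (continuous_Sw C w).comp ((continuous_gam C v ζ).comp continuous_fst)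
  exact (continuous_Siw C w).comp (by fun_prop)

lemma Phi_zero (C : Cfg N) (v : List (Fin N)) (ζ : ℝ) (w : List (Fin N)) (x : ℝ) :
    Phi C v ζ w (x, 0) = gam C v ζ x := by simp [Phi, Lf_zero]

/-- the admissible domain of Phi -/
def SS (C : Cfg N) (v : List (Fin N)) (ζ M h : ℝ) (w : List (Fin N)) : Set (ℝ × ℝ) :=
  {z | z.1 ∈ AA C v ζ M ∧ 0 ≤ z.2 ∧ (∀ t ∈ Icc (0 : ℝ) 1, Phi C v ζ w (z.1, t * z.2) ∈ OP C w) ∧
    bet C none (Phi C v ζ w z) - bet C none (gam C v ζ z.1) ≤ h ∧
    St C none w (gam C v ζ z.1) ≤ C.CD * St C none w (Phi C v ζ w z)}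

lemma isOpen_seg {U : Set (ℝ × ℝ)} (hU : IsOpen U) {f : ℝ × ℝ → ℝ × ℝ} (hf : Continuous f) :
    IsOpen {z : ℝ × ℝ | ∀ t ∈ Icc (0 : ℝ) 1, f (z.1, t * z.2) ∈ U} := by
  rw [isOpen_iff_mem_nhds]
  intro z hz
  refine IsCompact.eventually_forall_of_forall_eventually (isCompact_Icc (a := (0 : ℝ)) (b := 1))
    (P := fun (z : ℝ × ℝ) t => f (z.1, t * z.2) ∈ U) ?_
  intro t ht
  have hc : Continuous (fun q : (ℝ × ℝ) × ℝ => f (q.1.1, q.2 * q.1.2)) := hf.comp (by fun_prop)
  exact hc.continuousAt.eventually (hU.mem_nhds (hz t ht))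

lemma measurableSet_SS (C : Cfg N) (v : List (Fin N)) (ζ M h : ℝ) (w : List (Fin N)) :
    MeasurableSet (SS C v ζ M h w) := by
  have h1 : Measurable (fun z : ℝ × ℝ => gam C v ζ z.1) :=
    (continuous_gam C v ζ).measurable.comp measurable_fst
  have h2 : Measurable (Phi C v ζ w) := (continuous_Phi C v ζ w).measurable
  have e : SS C v ζ M h w = {z | z.1 ∈ AA C v ζ M} ∩ ({z | 0 ≤ z.2} ∩
      ({z | ∀ t ∈ Icc (0 : ℝ) 1, Phi C v ζ w (z.1, t * z.2) ∈ OP C w} ∩
      ({z | bet C none (Phi C v ζ w z) - bet C none (gam C v ζ z.1) ≤ h} ∩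
      {z | St C none w (gam C v ζ z.1) ≤ C.CD * St C none w (Phi C v ζ w z)}))) := rfl
  rw [e]
  refine (measurable_fst (measurableSet_AA C v ζ M)).inter
    ((measurableSet_le measurable_const measurable_snd).inter
      ((isOpen_seg (isOpen_OP C w) (continuous_Phi C v ζ w)).measurableSet.inter
        ((measurableSet_le ?_ measurable_const).inter (measurableSet_le ?_ ?_))))
  · exact ((continuous_bet C none).measurable.comp h2).sub
      ((continuous_bet C none).measurable.comp h1)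
  · exact (measurable_St C none w).comp h1
  · exact ((measurable_St C none w).comp h2).const_mul _

/-- fibres of SS are short -/
lemma fiber_SS (C : Cfg N) (v : List (Fin N)) (ζ M h : ℝ) (w : List (Fin N)) (x : ℝ)
    (hx : gam C v ζ x ∈ OP C w) :
    volume {s | (x, s) ∈ SS C v ζ M h w} ≤
      ENNReal.ofReal (h / (St C none w (gam C v ζ x) / C.CD)) := by
  set q0 := Sw C w (gam C v ζ x) with hq0
  set τ : ℝ := (-1) ^ w.length with hτ
  have hτ2 : τ ^ 2 = 1 := by
    rw [hτ, ← pow_mul, mul_comm, pow_mul]; simp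
  have hτ3 : τ * (-1) ^ w.length = 1 := by rw [← hτ, ← sq]; exact hτ2
  have hPhi : ∀ s, Phi C v ζ w (x, s) = Lf C w q0 τ s := fun s => rfl
  have h1S : 1 ≤ St C none w (gam C v ζ x) := one_le_St hx.1.le hx.2
  have hCD := CD_pos C
  -- path along the segment
  have hseg : ∀ s, (x, s) ∈ SS C v ζ M h w → ∀ s' ∈ Icc 0 s, Lf C w q0 τ s' ∈ OP C w := by
    intro s hs s' hs'
    rw [← hPhi]
    rcases eq_or_lt_of_le (hs.2.1 : 0 ≤ s) with h0 | h0
    · have : s' = 0 := le_antisymm (by rw [h0]; exact hs'.2) hs'.1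
      rw [this, Phi_zero]; exact hx
    · have := hs.2.2.1 (s' / s) ⟨div_nonneg hs'.1 h0.le, (div_le_one h0).2 hs'.2⟩
      simp only at this
      rwa [div_mul_cancel₀ _ h0.ne'] at this
  have hder : ∀ s, Lf C w q0 τ s ∈ OP C w →
      HasDerivAt (fun t => bet C none (Lf C w q0 τ t)) (St C none w (Lf C w q0 τ s)) s := by
    intro s hs
    have := hd_chart C w q0 hτ2 s hs.2
    rw [hτ3] at this
    simpa using this
  have hmono : ∀ s, (x, s) ∈ SS C v ζ M h w → ∀ s' ∈ Icc 0 s,
      s - s' ≤ bet C none (Lf C w q0 τ s) - bet C none (Lf C w q0 τ s') := by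
    intro s hs s' hs'
    have m : MonotoneOn (fun t => bet C none (Lf C w q0 τ t) - t) (Icc s' s) := by
      apply mono_of_hd
        (((continuous_bet C none).comp (continuous_Lf C w q0 τ)).sub continuous_id).continuousOn
      intro r hr
      have hr' := hseg s hs r ⟨hs'.1.trans hr.1.le, hr.2.le⟩
      refine ⟨_, (hder r hr').sub (hasDerivAt_id r), ?_⟩
      have := one_le_St hr'.1.le hr'.2
      linarith
    have := m (⟨le_rfl, hs'.2⟩ : s' ∈ Icc s' s) (⟨hs'.2, le_rfl⟩ : s ∈ Icc s' s) hs'.2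
    simp only at this
    linarith
  refine fiber_measure (ψ := fun t => bet C none (Lf C w q0 τ t))
    (ψ' := fun s => St C none w (Lf C w q0 τ s)) (a := bet C none (gam C v ζ x))
    (measurable_prodMk_left (measurableSet_SS C v ζ M h w)) ?_ ?_ (by positivity) ?_ ?_
  · intro s hs
    exact hder s (hseg s hs s ⟨hs.2.1, le_rfl⟩)
  · intro s hs t ht hst
    simp only at hst
    rcases le_total s t with h1 | h1
    · have := hmono t ht s ⟨hs.2.1, h1⟩
      exact le_antisymm h1 (by linarith)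
    · have := hmono s hs t ⟨ht.2.1, h1⟩
      exact le_antisymm (by linarith) h1
  · intro s hs
    have h2 : St C none w (gam C v ζ x) ≤ C.CD * St C none w (Lf C w q0 τ s) := hs.2.2.2.2
    rw [div_le_iff₀ hCD]; linarith
  · intro s hs
    have h2 : bet C none (Lf C w q0 τ s) - bet C none (gam C v ζ x) ≤ h := hs.2.2.2.1
    have h3 := hmono s hs 0 ⟨le_rfl, hs.2.1⟩
    have e : Lf C w q0 τ 0 = gam C v ζ x := by rw [hq0, Lf_zero]
    rw [e] at h3
    have h4 : 0 ≤ s := hs.2.1
    exact ⟨by linarith, by linarith⟩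

/-- derivative of the final direction along the unstable leaf -/
lemma hd_zeta {C : Cfg N} {v : List (Fin N)} {ζ x : ℝ} {w : List (Fin N)}
    (hv : Siw C v (ζ, x) ∈ OP C v) (hw : gam C v ζ x ∈ OP C w) :
    ∃ D' D, HasDerivAt (fun t => Sw C w (gam C v ζ t)) (D', D) x ∧
      |D'| ≤ 2 / C.d * St C none v (Siw C v (ζ, x)) * St C none w (gam C v ζ x) := by
  obtain ⟨D, hD⟩ := hd_Sw w none _ _ _ x (hd_gam hv.2) hw.2
  refine ⟨_, D, hD, ?_⟩
  have e1 : (PD C w (gam C v ζ x)).2 = St C none w (gam C v ζ x) +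
      tau C none (gam C v ζ x) * (PD C w (gam C v ζ x)).1 := by
    unfold St pos; ring
  have e2 : (PD C v (Siw C v (ζ, x))).2 = St C none v (Siw C v (ζ, x)) -
      tau C none (gam C v ζ x) * (PD C v (Siw C v (ζ, x))).1 := by
    have : tau C none (gam C v ζ x) = - tau C none (Siw C v (ζ, x)) := by
      rw [gam, tau_unrev]
    rw [this]; unfold St pos; ring
  rw [e1, e2]
  have p1 := Psi_nonneg hw.1.le hw.2
  have p2 := Psi_nonneg hv.1.le hv.2
  have s1 := one_le_St hw.1.le hw.2
  have s2 := one_le_St hv.1.le hv.2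
  have d1 := d_Psi_le hw.1.le hw.2
  have d2 := d_Psi_le hv.1.le hv.2
  set A := St C none w (gam C v ζ x)
  set P := (PD C w (gam C v ζ x)).1
  set A' := St C none v (Siw C v (ζ, x))
  set P' := (PD C v (Siw C v (ζ, x))).1
  set t := tau C none (gam C v ζ x)
  have e3 : (-1) ^ w.length * (-((-1) ^ v.length * P') * (A + t * P) +
      -((-1) ^ v.length * (A' - t * P')) * P) =
      -((-1) ^ w.length * (-1) ^ v.length * (P' * A + A' * P)) := by ring
  rw [e3, abs_neg, abs_mul, abs_mul, abs_pow, abs_pow, abs_neg, abs_one, one_pow, one_pow,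
    one_mul, one_mul, abs_of_nonneg (by positivity)]
  have hd := C.dpos
  have k1 : P' * A ≤ A' / C.d * A := by
    apply mul_le_mul_of_nonneg_right _ (by linarith)
    rw [le_div_iff₀ hd]; linarith
  have k2 : A' * P ≤ A' * (A / C.d) := by
    apply mul_le_mul_of_nonneg_left _ (by linarith)
    rw [le_div_iff₀ hd]; linarith
  calc P' * A + A' * P ≤ A' / C.d * A + A' * (A / C.d) := add_le_add k1 k2
    _ = _ := by ring

lemma volume_image_Siw_le (C : Cfg N) (w : List (Fin N)) (T : Set (ℝ × ℝ)) :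
    volume (Siw C w '' T) ≤ volume T := by
  have h1 : Siw C w '' T ⊆ Sw C w ⁻¹' (toMeasurable volume T) := by
    rintro _ ⟨p, hp, rfl⟩
    rw [mem_preimage, Sw_Siw]
    exact subset_toMeasurable _ _ hp
  refine (measure_mono h1).trans ?_
  rw [(mp_Sw C w).measure_preimage (measurableSet_toMeasurable _ _).nullMeasurableSet,
    measure_toMeasurable]

/-- area swept for one word -/
lemma volume_image_SS (C : Cfg N) (v : List (Fin N)) {ζ M h : ℝ} (hh : 0 ≤ h) (hM : 0 ≤ M)
    (w : List (Fin N)) :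
    volume (Phi C v ζ w '' SS C v ζ M h w) ≤
      ENNReal.ofReal (2 / C.d * M * (h * C.CD)) *
        volume {x | x ∈ AA C v ζ M ∧ gam C v ζ x ∈ OP C w} := by
  set T := SS C v ζ M h w with hT
  set τ : ℝ := (-1) ^ w.length with hτ
  have hTm : MeasurableSet T := measurableSet_SS C v ζ M h w
  have hgamT : ∀ z ∈ T, gam C v ζ z.1 ∈ OP C w := by
    intro z hz
    have := hz.2.2.1 0 ⟨le_rfl, zero_le_one⟩
    rwa [zero_mul, Phi_zero] at this
  have hvT : ∀ z ∈ T, Siw C v (ζ, z.1) ∈ OP C v := fun z hz => ⟨hz.1.2.1.1, hz.1.2.1.2.1⟩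
  have h1 : Phi C v ζ w '' T = Siw C w '' ((fun z : ℝ × ℝ =>
      ((Sw C w (gam C v ζ z.1)).1, (Sw C w (gam C v ζ z.1)).2 + τ * z.2)) '' T) := by
    rw [image_image]; rfl
  have hex : ∀ x, (Siw C v (ζ, x) ∈ OP C v ∧ gam C v ζ x ∈ OP C w) → ∃ D' D,
      HasDerivAt (fun t => Sw C w (gam C v ζ t)) (D', D) x ∧
      |D'| ≤ 2 / C.d * St C none v (Siw C v (ζ, x)) * St C none w (gam C v ζ x) :=
    fun x hx => hd_zeta hx.1 hx.2
  choose! D' D hD hD' using hex
  have h2 : volume ((fun z : ℝ × ℝ =>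
      ((Sw C w (gam C v ζ z.1)).1, (Sw C w (gam C v ζ z.1)).2 + τ * z.2)) '' T) ≤
      ∫⁻ z in T, ENNReal.ofReal |D' z.1| := by
    apply image_triangular (f := fun x => (Sw C w (gam C v ζ x)).1)
      (g := fun x => (Sw C w (gam C v ζ x)).2) (f' := D') (by rw [hτ]; simp) hTm
    intro z hz
    have := hD z.1 ⟨hvT z hz, hgamT z hz⟩
    exact ⟨this.fst, _, this.snd⟩
  set φ : ℝ → ENNReal := fun x => ENNReal.ofReal (2 / C.d * M * St C none w (gam C v ζ x)) with hφ
  have hφm : Measurable φ :=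
    ENNReal.measurable_ofReal.comp
      (((measurable_St C none w).comp (continuous_gam C v ζ).measurable).const_mul _)
  have hd := C.dpos
  have h3 : ∫⁻ z in T, ENNReal.ofReal |D' z.1| ≤ ∫⁻ z in T, φ z.1 := by
    apply setLIntegral_mono' hTm
    intro z hz
    apply ENNReal.ofReal_le_ofReal
    refine (hD' z.1 ⟨hvT z hz, hgamT z hz⟩).trans ?_
    have s1 := one_le_St (hgamT z hz).1.le (hgamT z hz).2
    have s2 : St C none v (Siw C v (ζ, z.1)) ≤ M := hz.1.2.2
    apply mul_le_mul_of_nonneg_right _ (by linarith)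
    exact mul_le_mul_of_nonneg_left s2 (by positivity)
  have h4 : ∫⁻ z in T, φ z.1 = ∫⁻ x, φ x * volume {s | (x, s) ∈ T} := by
    rw [← lintegral_indicator hTm]
    have : Measurable (T.indicator fun z : ℝ × ℝ => φ z.1) :=
      (hφm.comp measurable_fst).indicator hTm
    rw [Measure.volume_eq_prod, lintegral_prod _ this.aemeasurable]
    apply lintegral_congr
    intro x
    have : (fun s => T.indicator (fun z : ℝ × ℝ => φ z.1) (x, s)) =
        {s | (x, s) ∈ T}.indicator (fun _ => φ x) := by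
      funext s
      by_cases hs : (x, s) ∈ T
      · rw [indicator_of_mem hs, indicator_of_mem (show s ∈ {s | (x, s) ∈ T} from hs)]
      · rw [indicator_of_notMem hs, indicator_of_notMem (show s ∉ {s | (x, s) ∈ T} from hs)]
    have hm : MeasurableSet {s | (x, s) ∈ T} := measurable_prodMk_left hTm
    rw [this, lintegral_indicator hm, setLIntegral_const]
  set A : Set ℝ := {x | x ∈ AA C v ζ M ∧ gam C v ζ x ∈ OP C w} with hA
  have hAm : MeasurableSet A := (measurableSet_AA C v ζ M).inter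
    ((continuous_gam C v ζ).measurable (isOpen_OP C w).measurableSet)
  have h5 : ∫⁻ x, φ x * volume {s | (x, s) ∈ T} ≤
      ∫⁻ x, A.indicator (fun _ => ENNReal.ofReal (2 / C.d * M * (h * C.CD))) x := by
    apply lintegral_mono
    intro x
    simp only
    by_cases hx : x ∈ A
    · rw [indicator_of_mem hx]
      have s1 := one_le_St hx.2.1.le hx.2.2
      have hCD := CD_pos C
      refine (mul_le_mul' le_rfl (fiber_SS C v ζ M h w x hx.2)).trans ?_
      rw [hφ]
      simp only
      rw [← ENNReal.ofReal_mul (by positivity)]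
      apply ENNReal.ofReal_le_ofReal
      apply le_of_eq
      field_simp
    · rw [indicator_of_notMem hx]
      have : {s | (x, s) ∈ T} = ∅ := by
        rw [eq_empty_iff_forall_notMem]
        intro s hs
        exact hx ⟨hs.1, hgamT (x, s) hs⟩
      rw [this]; simp
  rw [h1]
  refine (volume_image_Siw_le C w _).trans (h2.trans (h3.trans ?_))
  rw [h4]
  refine h5.trans ?_
  rw [lintegral_indicator hAm, setLIntegral_const]

end Pool.Agent.Work.MP_5c1620_co
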