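import Pool.Agent.Work.MP_5c1620_co.Area2

/-!
# M4, part 3: the limit n → ∞ of the swept areas is null for almost every unstable leaf
-/

set_option autoImplicit false
open Real Set MeasureTheory Filter Topology

namespace Pool.Agent.Work.MP_5c1620_co

variable {N : ℕ}

/-- admissible parameters whose line has a future itinerary of length n -/
def Tn (C : Cfg N) (v : List (Fin N)) (ζ M : ℝ) (n : ℕ) : Set ℝ :=
  {x | x ∈ AA C v ζ M ∧ ∃ w : List (Fin N), w.length = n ∧ gam C v ζ x ∈ OP C w}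

/-- lines whose stable n-leaf meets the unstable leaf -/
def Bn (C : Cfg N) (v : List (Fin N)) (ζ M h : ℝ) (n : ℕ) : Set (ℝ × ℝ) :=
  {p | ∃ w : List (Fin N), w.length = n ∧ p ∈ Phi C v ζ w '' SS C v ζ M h w}

lemma measurableSet_Tn (C : Cfg N) (v : List (Fin N)) (ζ M : ℝ) (n : ℕ) :
    MeasurableSet (Tn C v ζ M n) := by
  have e : Tn C v ζ M n = AA C v ζ M ∩ ⋃ w : List (Fin N), ⋃ _ : w.length = n,
      (gam C v ζ) ⁻¹' OP C w := by
    ext x; simp [Tn]
  rw [e]
  refine (measurableSet_AA C v ζ M).inter (MeasurableSet.iUnion fun w =>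
    MeasurableSet.iUnion fun _ => ?_)
  exact (continuous_gam C v ζ).measurable (isOpen_OP C w).measurableSet

lemma Tn_anti (C : Cfg N) (v : List (Fin N)) (ζ M : ℝ) : Antitone (Tn C v ζ M) := by
  apply antitone_nat_of_succ_le
  rintro n x ⟨h1, w, h2, h3⟩
  exact ⟨h1, w.take n, by simp [h2], h3.1, path_take n h3.2⟩

lemma volume_Tn_ne_top (C : Cfg N) (v : List (Fin N)) (ζ M : ℝ) (n : ℕ) :
    volume (Tn C v ζ M n) ≠ ⊤ := by
  have h : Tn C v ζ M n ⊆ Icc (-M) M := fun x hx => abs_le.1 hx.1.1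
  refine ((measure_mono h).trans_lt ?_).ne
  rw [Real.volume_Icc]; exact ENNReal.ofReal_lt_top

lemma volume_Bn_le (C : Cfg N) (v : List (Fin N)) {ζ M h : ℝ} (hh : 0 ≤ h) (hM : 0 ≤ M)
    (n : ℕ) : volume (Bn C v ζ M h n) ≤
      ENNReal.ofReal (2 / C.d * M * (h * C.CD)) * volume (Tn C v ζ M n) := by
  set A : {w : List (Fin N) // w.length = n} → Set ℝ := fun w =>
    {x | x ∈ AA C v ζ M ∧ gam C v ζ x ∈ OP C w.1} with hA
  have hAm : ∀ w, MeasurableSet (A w) := fun w => (measurableSet_AA C v ζ M).inter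
    ((continuous_gam C v ζ).measurable (isOpen_OP C w.1).measurableSet)
  have hAd : Pairwise (Function.onFun Disjoint A) := by
    intro w w' hne
    rw [Function.onFun, Set.disjoint_left]
    intro x hx hx'
    exact hne (Subtype.ext (Path_unique hx.2.2 hx'.2.2 (by rw [w.2, w'.2])))
  have hAU : (⋃ w, A w) = Tn C v ζ M n := by
    ext x
    simp only [hA, mem_iUnion, mem_ofPred_eq, Tn, Subtype.exists, exists_prop]
    constructor
    · rintro ⟨w, h1, h2, h3⟩; exact ⟨h2, w, h1, h3⟩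
    · rintro ⟨h2, w, h1, h3⟩; exact ⟨w, h1, h2, h3⟩
  have hBU : Bn C v ζ M h n ⊆
      ⋃ w : {w : List (Fin N) // w.length = n}, Phi C v ζ w.1 '' SS C v ζ M h w.1 := by
    rintro p ⟨w, h1, h2⟩
    exact mem_iUnion.2 ⟨⟨w, h1⟩, h2⟩
  refine (measure_mono hBU).trans ((measure_iUnion_le _).trans ?_)
  rw [← hAU, measure_iUnion hAd hAm, ← ENNReal.tsum_mul_left]
  exact ENNReal.tsum_le_tsum fun w => volume_image_SS C v hh hM w.1

lemma null_Bn (C : Cfg N) (v : List (Fin N)) {ζ M h : ℝ} (hh : 0 ≤ h) (hM : 0 ≤ M)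
    (hζ : ∀ᵐ x : ℝ, Siw C v (ζ, x) ∈ OE C v → Esc C none (gam C v ζ x)) :
    volume (⋂ n, Bn C v ζ M h n) = 0 := by
  have h0 : volume (⋂ n, Tn C v ζ M n) = 0 := by
    refine measure_mono_null ?_ hζ
    intro x hx hcon
    rw [mem_iInter] at hx
    exact not_esc_of_paths (fun n => by
      obtain ⟨_, w, h1, h2⟩ := hx n
      exact ⟨w, h1, h2.2⟩) (hcon (hx 0).1.2.1)
  have hlim : Tendsto (fun n => volume (Tn C v ζ M n)) atTop (𝓝 0) := by
    rw [← h0]
    exact tendsto_measure_iInter_atTop (fun n => (measurableSet_Tn C v ζ M n).nullMeasurableSet)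
      (Tn_anti C v ζ M) ⟨0, volume_Tn_ne_top C v ζ M 0⟩
  have hlim2 : Tendsto (fun n => ENNReal.ofReal (2 / C.d * M * (h * C.CD)) *
      volume (Tn C v ζ M n)) atTop (𝓝 0) := by
    have := ENNReal.Tendsto.const_mul (a := ENNReal.ofReal (2 / C.d * M * (h * C.CD))) hlim
      (Or.inr ENNReal.ofReal_ne_top)
    simpa using this
  apply le_antisymm _ (zero_le)
  refine ge_of_tendsto' hlim2 fun n => ?_
  exact (measure_mono (iInter_subset _ n)).trans (volume_Bn_le C v hh hM n)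

lemma ae_zeta (C : Cfg N) (v : List (Fin N)) :
    ∀ᵐ ζ : ℝ, ∀ᵐ x : ℝ, Siw C v (ζ, x) ∈ OE C v → Esc C none (gam C v ζ x) := by
  have h1 : ∀ᵐ z : ℝ × ℝ, |bet C none (unrev (Siw C v z))| < C.R none →
      Esc C none (rev (unrev (Siw C v z))) → Esc C none (unrev (Siw C v z)) :=
    (mp_unrev.comp (mp_Siw C v)).quasiMeasurePreserving.ae (ae_trap C)
  have h2 := Measure.ae_ae_of_ae_prod (μ := (volume : Measure ℝ)) (ν := (volume : Measure ℝ)) h1
  filter_upwards [h2] with ζ hζ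
  filter_upwards [hζ] with x hx hE
  refine hx ?_ ?_
  · rw [bet_unrev, abs_neg]; exact hE.1
  · rw [rev_unrev]; exact ⟨v, hE.2.1, hE.2.2⟩

/-! ## nonsingularity of (x, h) ↦ gam x + (0, h) -/

lemma null_preimage {f f' : ℝ → ℝ} {U Z : Set ℝ} (hU : IsOpen U) (hf' : Measurable f')
    (hfm : Measurable f) {s : ℝ}
    (hd : ∀ x ∈ U, HasDerivAt f (f' x) x) (hs : ∀ x ∈ U, 0 < s * f' x) (hZ : volume Z = 0) :
    volume {x | x ∈ U ∧ f x ∈ Z} = 0 := by
  set Z1 := toMeasurable volume Z with hZ1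
  have hZ1m : MeasurableSet Z1 := measurableSet_toMeasurable _ _
  have hZ10 : volume Z1 = 0 := by rw [hZ1, measure_toMeasurable, hZ]
  have hcov : {x | x ∈ U ∧ f x ∈ Z} ⊆ ⋃ p : ℚ × ℚ, {x | Icc (p.1 : ℝ) p.2 ⊆ U ∧
      x ∈ Icc (p.1 : ℝ) p.2 ∧ f x ∈ Z1} := by
    rintro x ⟨hx, hxZ⟩
    obtain ⟨δ, hδ, hball⟩ := Metric.isOpen_iff.1 hU x hx
    obtain ⟨p, hp1, hp2⟩ := exists_rat_btwn (show x - δ < x by linarith)
    obtain ⟨q, hq1, hq2⟩ := exists_rat_btwn (show x < x + δ by linarith)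
    refine mem_iUnion.2 ⟨(p, q), ?_, ⟨hp2.le, hq1.le⟩, subset_toMeasurable _ _ hxZ⟩
    intro y hy
    apply hball
    rw [Metric.mem_ball, Real.dist_eq, abs_lt]
    simp only [mem_Icc] at hy
    constructor <;> linarith
  refine measure_mono_null hcov (measure_iUnion_null fun p => ?_)
  by_cases hpU : Icc (p.1 : ℝ) p.2 ⊆ U
  swap
  · have : {x | Icc (p.1 : ℝ) p.2 ⊆ U ∧ x ∈ Icc (p.1 : ℝ) p.2 ∧ f x ∈ Z1} = ∅ := by
      rw [eq_empty_iff_forall_notMem]; rintro x ⟨h1, _⟩; exact hpU h1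
    rw [this]; simp
  set A : Set ℝ := {x | x ∈ Icc (p.1 : ℝ) p.2 ∧ f x ∈ Z1} with hA
  have hAe : {x | Icc (p.1 : ℝ) p.2 ⊆ U ∧ x ∈ Icc (p.1 : ℝ) p.2 ∧ f x ∈ Z1} ⊆ A :=
    fun x hx => hx.2
  refine measure_mono_null hAe ?_
  have hAm : MeasurableSet A := measurableSet_Icc.inter (hfm hZ1m)
  have hmono : StrictMonoOn (fun x => s * f x) (Icc (p.1 : ℝ) p.2) := by
    apply strictMonoOn_of_deriv_pos (convex_Icc _ _)
    · intro x hx
      exact ((hd x (hpU hx)).continuousAt.const_mul s).continuousWithinAt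
    · intro x hx
      rw [interior_Icc] at hx
      have hxU := hpU ⟨hx.1.le, hx.2.le⟩
      rw [((hd x hxU).const_mul s).deriv]
      exact hs x hxU
  have hinj : InjOn f A := by
    intro x hx y hy hxy
    exact hmono.injOn hx.1 hy.1 (by simp only [hxy])
  have h1 := lintegral_image_eq_lintegral_abs_deriv_mul hAm
    (fun x hx => (hd x (hpU hx.1)).hasDerivWithinAt) hinj (fun _ => 1)
  simp only [mul_one, lintegral_const, one_mul, Measure.restrict_apply MeasurableSet.univ,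
    univ_inter] at h1
  have h2 : volume (f '' A) = 0 := by
    refine measure_mono_null ?_ hZ10
    rintro _ ⟨x, hx, rfl⟩; exact hx.2
  rw [h2] at h1
  have h3 := (lintegral_eq_zero_iff (hf'.abs.ennreal_ofReal)).1 h1.symm
  have h4 := (ae_restrict_iff' hAm).1 h3
  have h5 : ∀ᵐ x : ℝ, x ∉ A := by
    filter_upwards [h4] with x hx hxA
    have h6 := hx hxA
    have h7 := hs x (hpU hxA.1)
    simp only [Pi.zero_apply, ENNReal.ofReal_eq_zero] at h6
    have : f' x = 0 := abs_eq_zero.1 (le_antisymm h6 (abs_nonneg _))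
    rw [this] at h7; simp at h7
  rw [ae_iff] at h5
  simpa using h5

lemma null_pairs {C : Cfg N} {k : Fin N} {v : List (Fin N)} {ζ : ℝ} {Z : Set (ℝ × ℝ)}
    (hZ : volume Z = 0) :
    volume {z : ℝ × ℝ | Siw C (k :: v) (ζ, z.1) ∈ OE C (k :: v) ∧
      ((gam C (k :: v) ζ z.1).1, (gam C (k :: v) ζ z.1).2 + z.2) ∈ Z} = 0 := by
  set Z1 := toMeasurable volume Z with hZ1
  have hZ1m : MeasurableSet Z1 := measurableSet_toMeasurable _ _
  have hZ10 : volume Z1 = 0 := by rw [hZ1, measure_toMeasurable, hZ]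
  set U : Set ℝ := {x | Siw C (k :: v) (ζ, x) ∈ OE C (k :: v)} with hU
  have hcS : Continuous (fun x => Siw C (k :: v) (ζ, x)) :=
    (continuous_Siw C (k :: v)).comp (by fun_prop)
  have hUo : IsOpen U := (isOpen_OE C (k :: v)).preimage hcS
  have hcg := continuous_gam C (k :: v) ζ
  set Q : Set (ℝ × ℝ) := {z | z.1 ∈ U ∧
      ((gam C (k :: v) ζ z.1).1, (gam C (k :: v) ζ z.1).2 + z.2) ∈ Z1} with hQ
  have hcm : Continuous (fun z : ℝ × ℝ =>
      ((gam C (k :: v) ζ z.1).1, (gam C (k :: v) ζ z.1).2 + z.2)) := by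
    have := hcg.comp (continuous_fst (X := ℝ) (Y := ℝ))
    exact (continuous_fst.comp this).prodMk ((continuous_snd.comp this).add continuous_snd)
  have hQm : MeasurableSet Q :=
    (measurable_fst hUo.measurableSet).inter (hcm.measurable hZ1m)
  have hsub : {z : ℝ × ℝ | Siw C (k :: v) (ζ, z.1) ∈ OE C (k :: v) ∧
      ((gam C (k :: v) ζ z.1).1, (gam C (k :: v) ζ z.1).2 + z.2) ∈ Z} ⊆ Q :=
    fun z hz => ⟨hz.1, subset_toMeasurable _ _ hz.2⟩
  refine measure_mono_null hsub ?_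
  rw [Measure.volume_eq_prod, Measure.measure_prod_null hQm]
  -- a.e. angle has null section
  rw [Measure.volume_eq_prod, Measure.measure_prod_null hZ1m] at hZ10
  have hZ0 : volume {a : ℝ | volume (Prod.mk a ⁻¹' Z1) ≠ 0} = 0 := by
    have := ae_iff.1 hZ10
    simpa using this
  have hnull := null_preimage (f := fun x => (gam C (k :: v) ζ x).1)
    (f' := fun x => -((-1) ^ (k :: v).length * (PD C (k :: v) (Siw C (k :: v) (ζ, x))).1))
    (s := -(-1) ^ (k :: v).length) hUo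
    (((measurable_PD C (k :: v)).comp hcS.measurable).fst.const_mul _).neg
    hcg.measurable.fst
    (fun x hx => (hd_gam hx.2.1).fst) ?_ hZ0
  · have h2 : ∀ᵐ x : ℝ, ¬ (x ∈ U ∧ (gam C (k :: v) ζ x).1 ∈
        {a : ℝ | volume (Prod.mk a ⁻¹' Z1) ≠ 0}) := by
      rw [ae_iff]; simpa using hnull
    filter_upwards [h2] with x hx
    simp only [Pi.zero_apply]
    by_cases hxU : x ∈ U
    · have h3 : volume (Prod.mk (gam C (k :: v) ζ x).1 ⁻¹' Z1) = 0 := by
        by_contra hne; exact hx ⟨hxU, hne⟩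
      have e : Prod.mk x ⁻¹' Q = (fun t => (gam C (k :: v) ζ x).2 + t) ⁻¹'
          (Prod.mk (gam C (k :: v) ζ x).1 ⁻¹' Z1) := by
        ext t; simp [hQ, hxU]
      rw [e, measure_preimage_add, h3]
    · have e : Prod.mk x ⁻¹' Q = ∅ := by
        rw [eq_empty_iff_forall_notMem]; intro t ht; exact hxU ht.1
      rw [e]; simp
  · intro x hx
    have := Psi_pos hx.2.1
    have e : -(-1) ^ (k :: v).length * -((-1) ^ (k :: v).length *
        (PD C (k :: v) (Siw C (k :: v) (ζ, x))).1) =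
        ((-1) ^ (k :: v).length) ^ 2 * (PD C (k :: v) (Siw C (k :: v) (ζ, x))).1 := by ring
    rw [e, ← pow_mul, mul_comm (k :: v).length 2, pow_mul]
    simpa using this

end Pool.Agent.Work.MP_5c1620_co
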