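import Pool.Agent.Work.MP_5c1620_co.Area3

/-!
# M4, part 4: the leaf package, crossing of leaves
-/

set_option autoImplicit false
open Real Set MeasureTheory Filter Topology

namespace Pool.Agent.Work.MP_5c1620_co

variable {N : ℕ}

/-- admissible displacement -/
noncomputable def Cfg.h0 (C : Cfg N) : ℝ := min 1 (min (C.d / 2 / C.C1) (C.R none / 8))

lemma h0_pos (C : Cfg N) : 0 < C.h0 := by
  unfold Cfg.h0
  have := C.dpos
  have := C1_ge_one C
  have := C.Rpos none
  refine lt_min one_pos (lt_min (by positivity) (by positivity))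

lemma h0_le_one (C : Cfg N) : C.h0 ≤ 1 := min_le_left _ _

lemma h0_le_R (C : Cfg N) : C.h0 ≤ C.R none / 8 := (min_le_right _ _).trans (min_le_right _ _)

lemma h0_le_d (C : Cfg N) : C.C1 * C.h0 ≤ C.d / 2 := by
  have h1 : C.h0 ≤ C.d / 2 / C.C1 := (min_le_right _ _).trans (min_le_left _ _)
  have := C1_ge_one C
  rw [le_div_iff₀ (by linarith)] at h1
  linarith

/-- the stable leaf of p, moving towards smaller bet none, is not cut within displacement h -/
def unk (C : Cfg N) (p : ℝ × ℝ) (h : ℝ) : Prop :=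
  ∀ j, ¬ Kill C j none (-1) (2 * (C.C1 * (h / C.lam ^ j))) p

lemma thr_le {C : Cfg N} {h : ℝ} (hh : 0 < h) (j : ℕ) :
    2 * (C.C1 * (h / C.L ^ j)) ≤ 2 * (C.C1 * (h / C.lam ^ j)) := by
  have h1 := lam_gt_one C
  have h2 : C.lam ≤ C.L := by rw [← lam_sq]; nlinarith
  have h3 : C.lam ^ j ≤ C.L ^ j := pow_le_pow_left₀ (by linarith) h2 j
  have h4 : h / C.L ^ j ≤ h / C.lam ^ j :=
    div_le_div_of_nonneg_left hh.le (pow_pos (by linarith) j) h3
  have := C1_ge_one C
  have := mul_le_mul_of_nonneg_left h4 (by linarith : 0 ≤ C.C1)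
  linarith

/-- the sign of the stable leaf moving towards smaller bet none -/
noncomputable def sg (w : List (Fin N)) : ℝ := -(-1) ^ w.length

lemma sg_sq (w : List (Fin N)) : sg w ^ 2 = 1 := by
  unfold sg
  rw [neg_sq, ← pow_mul, mul_comm, pow_mul]; simp

lemma sg_mul (w : List (Fin N)) : sg w * (-1) ^ w.length = -1 := by
  have := sg_sq w
  have e : sg w * (-1) ^ w.length = -(sg w ^ 2) := by unfold sg; ring
  rw [e, this]

/-- the leaf package -/
theorem leaf_pkg {C : Cfg N} {w : List (Fin N)} {p : ℝ × ℝ} {h : ℝ} (hh : 0 < h)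
    (hh0 : h ≤ C.h0) (hp : |bet C none p| + h < C.R none) (hP : Path C none w p)
    (hK : unk C p h) :
    ∃ b, 0 < b ∧ b ≤ h ∧ (∀ s ∈ Icc 0 b, Lf C w (Sw C w p) (sg w) s ∈ OP C w) ∧
      bet C none (Lf C w (Sw C w p) (sg w) b) = bet C none p - h ∧
      StrictAntiOn (fun s => bet C none (Lf C w (Sw C w p) (sg w) s)) (Icc 0 b) ∧
      MonotoneOn (fun s => (Lf C w (Sw C w p) (sg w) s).1) (Icc 0 b) ∧
      (∀ s ∈ Icc 0 b, St C none w (Lf C w (Sw C w p) (sg w) s) ≤ C.CD * St C none w p) ∧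
      (Fr C (lst none w) (Sw C w p) →
        ∀ s ∈ Icc 0 b, Lf C w (Sw C w p) (sg w) s ∈ OE C w) := by
  have hR := C.Rpos none
  have hC1 := C1_ge_one C
  have hd0 : C.C1 * h ≤ C.d / 2 := by
    have := h0_le_d C
    have : C.C1 * h ≤ C.C1 * C.h0 := mul_le_mul_of_nonneg_left hh0 (by linarith)
    linarith
  have hR0 := h0_le_R C
  have hK' : ∀ j, ¬ Kill C j none (sg w * (-1) ^ w.length) (2 * (C.C1 * (h / C.L ^ j))) p := by
    intro j hj
    rw [sg_mul] at hj
    exact hK j (Kill_mono C j none _ (thr_le hh j) p hj)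
  obtain ⟨b, hb, hbl, h1, h2, h3⟩ := leaf_exists (sg_sq w) hh hd0 (by linarith) hP
    (fun j _ => hK' j)
  set F := Lf C w (Sw C w p) (sg w) with hF
  have hF0 : F 0 = p := by rw [hF, Lf_zero]
  have hX : ∀ s, Xf C w (Sw C w p) (sg w) s = - bet C none (F s) := by
    intro s; unfold Xf; rw [sg_mul]; ring
  have hder : ∀ s ∈ Icc 0 b, HasDerivAt (fun t => - bet C none (F t)) (St C none w (F s)) s := by
    intro s hs
    have := hd_chart C w (Sw C w p) (sg_sq w) s (h1 s hs)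
    rw [sg_mul] at this
    simpa using this
  rw [hX, hX, hF0] at h2
  have hL := L_gt_one C
  have hLp : 1 ≤ C.L ^ w.length := one_le_pow₀ hL.le
  have hbh : b ≤ h := by nlinarith
  have hcont : Continuous (fun s => bet C none (F s)) :=
    (continuous_bet C none).comp (continuous_Lf C w _ _)
  have hanti : StrictAntiOn (fun s => bet C none (F s)) (Icc 0 b) := by
    have hm : StrictMonoOn (fun s => - bet C none (F s)) (Icc 0 b) := by
      apply strictMonoOn_of_deriv_pos (convex_Icc _ _) hcont.neg.continuousOn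
      intro s hs
      rw [interior_Icc] at hs
      have hs' : s ∈ Icc 0 b := ⟨hs.1.le, hs.2.le⟩
      change 0 < deriv (fun t => - bet C none (F t)) s
      rw [(hder s hs').deriv]
      linarith [one_le_St (h3.dom s hs') (h1 s hs')]
    intro x hx y hy hxy
    have := hm hx hy hxy
    simp only at this ⊢
    linarith
  have hrange : ∀ s ∈ Icc 0 b, |bet C none (F s)| < C.R none := by
    intro s hs
    have a1 := hanti.antitoneOn (⟨le_rfl, hb.le⟩ : (0 : ℝ) ∈ Icc 0 b) hs hs.1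
    have a2 := hanti.antitoneOn hs (⟨hb.le, le_rfl⟩ : b ∈ Icc 0 b) hs.2
    simp only [hF0] at a1 a2
    have := abs_lt.1 (show |bet C none p| < C.R none - h by linarith)
    rw [abs_lt]; constructor <;> linarith
  have hOP : ∀ s ∈ Icc 0 b, F s ∈ OP C w := fun s hs => ⟨hrange s hs, h1 s hs⟩
  refine ⟨b, hb, hbh, hOP, by linarith, hanti, ?_, ?_, ?_⟩
  · -- the angle is monotone
    have hc : Continuous (fun s => (F s).1) := (continuous_Lf C w _ _).fst
    apply mono_of_hd hc.continuousOn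
    intro s hs
    have hs' : s ∈ Icc 0 b := ⟨hs.1.le, hs.2.le⟩
    have hd' := hasDerivAt_Lf C none w (Sw C w p) (sg w) s (h1 s hs')
    refine ⟨_, hd'.fst, ?_⟩
    rw [sg_mul]
    have := Psi_nonneg (h3.dom s hs') (h1 s hs')
    show 0 ≤ - -1 * (PD C w (Lf C w (Sw C w p) (sg w) s)).1
    rw [← hF]; linarith
  · -- distortion
    intro s hs
    have hh1 : h ≤ 1 := hh0.trans (h0_le_one C)
    obtain ⟨_, r2⟩ := Ctl.dist (sg_sq w) hs.1 hh hh1 w none _ h 1 one_pos le_rfl (by simp)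
      (h3.restrict hs) (h1 s hs) (by
        intro j _ hj
        rw [← hF, hF0, sg_mul, one_mul] at hj
        exact hK j hj)
    rw [← hF, hF0, mul_one] at r2
    exact r2
  · intro hFr s hs
    refine ⟨hrange s hs, h1 s hs, ?_⟩
    rw [hF, Sw_Lf]
    have hLp0 : 0 < C.L ^ w.length := by linarith
    refine Fr_persist (sg_sq w) hs.1 (c := 2 * (C.C1 * (h / C.L ^ w.length))) ?_ hFr ?_
    · have k1 : b ≤ h / C.L ^ w.length := by rw [le_div_iff₀ hLp0]; linarith
      have k0 : 0 ≤ h / C.L ^ w.length := by positivity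
      have := hs.2
      nlinarith
    · intro hk
      have := Kill_of_path hP 0 hk
      exact hK' _ (by simpa using this)

/-! ## crossing of two monotone curves -/

lemma crossing {a1 a2 c1 c2 : ℝ → ℝ} {b b' ω β h : ℝ} (hb : 0 ≤ b) (hb' : 0 ≤ b')
    (ha1 : ContinuousOn a1 (Icc 0 b)) (ha2 : ContinuousOn a2 (Icc 0 b))
    (hc1 : ContinuousOn c1 (Icc 0 b')) (hc2 : ContinuousOn c2 (Icc 0 b'))
    (hm : StrictMonoOn a2 (Icc 0 b)) (ha20 : a2 0 = β) (ha2b : a2 b = β + h)
    (hc20 : c2 0 = β + h) (hc2b : c2 b' = β) (hc2r : ∀ t ∈ Icc 0 b', c2 t ∈ Icc β (β + h))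
    (ha10 : a1 0 = ω) (ha1b : ω ≤ a1 b) (hc10 : c1 0 = ω) (hc1b : ω ≤ c1 b') :
    ∃ s ∈ Icc 0 b, ∃ t ∈ Icc 0 b', a1 s = c1 t ∧ a2 s = c2 t := by
  -- inverse of a2 as a homeomorphism of compact intervals
  have hmaps : MapsTo a2 (Icc 0 b) (Icc β (β + h)) := by
    intro s hs
    have k1 := hm.monotoneOn (⟨le_rfl, hb⟩ : (0 : ℝ) ∈ Icc 0 b) hs hs.1
    have k2 := hm.monotoneOn hs (⟨hb, le_rfl⟩ : b ∈ Icc 0 b) hs.2
    rw [ha20] at k1; rw [ha2b] at k2
    exact ⟨k1, k2⟩
  let f : Icc (0 : ℝ) b → Icc β (β + h) := hmaps.restrict a2 _ _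
  have hf : Continuous f := by
    apply Continuous.subtype_mk
    exact continuousOn_iff_continuous_domRestrict.1 ha2
  have hfb : Function.Bijective f := by
    constructor
    · intro x y hxy
      have : a2 x = a2 y := congrArg Subtype.val hxy
      exact Subtype.ext (hm.injOn x.2 y.2 this)
    · intro y
      have := intermediate_value_Icc hb ha2
      rw [ha20, ha2b] at this
      obtain ⟨x, hx, hxy⟩ := this y.2
      exact ⟨⟨x, hx⟩, Subtype.ext hxy⟩
  let e := Equiv.ofBijective f hfb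
  have he : Continuous e.symm := by
    have := (Continuous.homeoOfEquivCompactToT2 (f := e) hf).continuous_symm
    exact this
  -- the function whose zero is a crossing
  let g : Icc (0 : ℝ) b' → ℝ := fun t =>
    a1 (e.symm ⟨c2 t, hc2r t t.2⟩ : Icc (0 : ℝ) b) - c1 t
  have hg : Continuous g := by
    have h1 : Continuous (fun t : Icc (0 : ℝ) b' => e.symm ⟨c2 t, hc2r t t.2⟩) :=
      he.comp (Continuous.subtype_mk (continuousOn_iff_continuous_domRestrict.1 hc2) _)
    exact ((continuousOn_iff_continuous_domRestrict.1 ha1).comp h1).sub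
      (continuousOn_iff_continuous_domRestrict.1 hc1)
  have key : ∀ (t : Icc (0 : ℝ) b'), a2 (e.symm ⟨c2 t, hc2r t t.2⟩ : Icc (0 : ℝ) b) = c2 t := by
    intro t
    have : e (e.symm ⟨c2 t, hc2r t t.2⟩) = ⟨c2 t, hc2r t t.2⟩ := e.apply_symm_apply _
    exact congrArg Subtype.val this
  have g0 : 0 ≤ g ⟨0, ⟨le_rfl, hb'⟩⟩ := by
    have k := key ⟨0, ⟨le_rfl, hb'⟩⟩
    simp only [hc20] at k
    have : (e.symm ⟨c2 0, hc2r 0 ⟨le_rfl, hb'⟩⟩ : Icc (0 : ℝ) b) = ⟨b, ⟨hb, le_rfl⟩⟩ := by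
      apply Subtype.ext
      apply hm.injOn (Subtype.property _) ⟨hb, le_rfl⟩
      rw [ha2b]; simpa [hc20] using k
    simp only [g]
    rw [this, hc10]; linarith
  have gb : g ⟨b', ⟨hb', le_rfl⟩⟩ ≤ 0 := by
    have k := key ⟨b', ⟨hb', le_rfl⟩⟩
    simp only [hc2b] at k
    have : (e.symm ⟨c2 b', hc2r b' ⟨hb', le_rfl⟩⟩ : Icc (0 : ℝ) b) = ⟨0, ⟨le_rfl, hb⟩⟩ := by
      apply Subtype.ext
      apply hm.injOn (Subtype.property _) ⟨le_rfl, hb⟩
      rw [ha20]; simpa [hc2b] using k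
    simp only [g]
    rw [this, ha10]; linarith
  have hpc : IsPreconnected (univ : Set (Icc (0 : ℝ) b')) := by
    have : PreconnectedSpace (Icc (0 : ℝ) b') :=
      Subtype.preconnectedSpace isPreconnected_Icc
    exact isPreconnected_univ
  obtain ⟨t, _, ht⟩ := hpc.intermediate_value (mem_univ ⟨b', ⟨hb', le_rfl⟩⟩)
    (mem_univ ⟨0, ⟨le_rfl, hb'⟩⟩) hg.continuousOn ⟨gb, g0⟩
  refine ⟨(e.symm ⟨c2 t, hc2r t t.2⟩ : Icc (0 : ℝ) b), Subtype.property _, t, t.2, ?_, key t⟩
  simp only [g] at ht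
  linarith

end Pool.Agent.Work.MP_5c1620_co
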