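import Pool.Agent.Work.MP_5c1620_co.Area4

/-!
# M4, part 5: the crossing theorem (4.5)
-/

set_option autoImplicit false
open Real Set MeasureTheory Filter Topology

namespace Pool.Agent.Work.MP_5c1620_co

variable {N : ℕ}

lemma abs_sg (w : List (Fin N)) : |sg w| = 1 := by unfold sg; simp

/-- if both leaves are long, the shifted line lies in the swept set -/
lemma mem_Bn {C : Cfg N} {p : ℝ × ℝ} {h M : ℝ} {v w : List (Fin N)} (hh : 0 < h)
    (hh0 : h ≤ C.h0) (hp : |bet C none p| ≤ C.R none / 2) (hv : Path C none v (rev p))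
    (hF : Fr C (lst none v) (Sw C v (rev p))) (hu : unk C (rev p) h)
    (hu' : unk C (p.1, p.2 + h) h) (hw : Path C none w (p.1, p.2 + h))
    (hM1 : |(Sw C v (rev p)).2| + 1 ≤ M) (hM2 : C.CD * St C none v (rev p) ≤ M) :
    (p.1, p.2 + h) ∈ Bn C v (Sw C v (rev p)).1 M C.h0 w.length := by
  set p' : ℝ × ℝ := (p.1, p.2 + h) with hp'
  have hR := C.Rpos none
  have hR0 := h0_le_R C
  have hbp' : bet C none p' = bet C none p + h := bet_add_snd C none p h
  have hbr : bet C none (rev p) = - bet C none p := bet_rev C none p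
  have hab := abs_le.1 hp
  obtain ⟨b, hb, hbh, a1, a2, a3, a4, a5, a6⟩ := leaf_pkg (p := rev p) hh hh0
    (by rw [hbr, abs_neg]; linarith) hv hu
  obtain ⟨b', hb', hbh', c1, c2, c3, c4, c5, _⟩ := leaf_pkg (p := p') hh hh0
    (by
      have : |bet C none p'| ≤ C.R none / 2 + h := by
        rw [hbp', abs_le]; constructor <;> linarith
      linarith) hw hu'
  have a7 := a6 hF
  set q1 := Sw C v (rev p) with hq1
  set q2 := Sw C w p' with hq2
  set F1 := Lf C v q1 (sg v) with hF1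
  set F2 := Lf C w q2 (sg w) with hF2
  have hF10 : F1 0 = rev p := by rw [hF1, hq1, Lf_zero]
  have hF20 : F2 0 = p' := by rw [hF2, hq2, Lf_zero]
  have hF1c : Continuous F1 := continuous_Lf C v q1 (sg v)
  have hF2c : Continuous F2 := continuous_Lf C w q2 (sg w)
  have m0 : (0 : ℝ) ∈ Icc 0 b := ⟨le_rfl, hb.le⟩
  have mb : b ∈ Icc 0 b := ⟨hb.le, le_rfl⟩
  have m0' : (0 : ℝ) ∈ Icc 0 b' := ⟨le_rfl, hb'.le⟩
  have mb' : b' ∈ Icc 0 b' := ⟨hb'.le, le_rfl⟩
  obtain ⟨s, hs, t, ht, e1, e2⟩ := crossing (a1 := fun s => (F1 s).1 - π)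
    (a2 := fun s => - bet C none (F1 s)) (c1 := fun t => (F2 t).1)
    (c2 := fun t => bet C none (F2 t)) (ω := p.1) (β := bet C none p) (h := h) hb.le hb'.le
    (hF1c.fst.sub continuous_const).continuousOn
    (((continuous_bet C none).comp hF1c).neg).continuousOn
    hF2c.fst.continuousOn ((continuous_bet C none).comp hF2c).continuousOn
    (by
      intro x hx y hy hxy
      have := a3 hx hy hxy
      simp only at this ⊢
      linarith)
    (by simp only [hF10, hbr, neg_neg])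
    (by simp only [a2, hbr]; ring)
    (by simp only [hF20, hbp'])
    (by simp only [c2, hbp']; ring)
    (by
      intro r hr
      have k1 := c3.antitoneOn m0' hr hr.1
      have k2 := c3.antitoneOn hr mb' hr.2
      simp only [hF20] at k1
      simp only [c2] at k2
      rw [hbp'] at k1 k2
      exact ⟨by linarith, by linarith⟩)
    (by simp only [hF10, rev]; ring)
    (by
      have := a4 m0 mb hb.le
      simp only [hF10, rev] at this
      linarith)
    (by simp only [hF20, hp'])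
    (by
      have := c4 m0' mb' hb'.le
      simp only [hF20, hp'] at this
      exact this)
  have hc : unrev (F1 s) = F2 t := by
    apply eq_of_fst_bet C none
    · simpa [unrev] using e1
    · rw [bet_unrev]; exact e2
  set x := q1.2 + sg v * s with hx
  have hSx : Siw C v (q1.1, x) = F1 s := rfl
  have hgx : gam C v q1.1 x = F2 t := by rw [gam, hSx, hc]
  have hPhi : ∀ r, Phi C v q1.1 w (x, r) = F2 (t - r) := by
    intro r
    unfold Phi
    simp only [hgx]
    have : Sw C w (F2 t) = (q2.1, q2.2 + sg w * t) := Sw_Lf C w q2 (sg w) t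
    rw [this, hF2]
    unfold Lf
    simp only
    congr 2
    unfold sg; ring
  refine ⟨w, rfl, (x, t), ?_, ?_⟩
  · refine ⟨⟨?_, ?_, ?_⟩, ht.1, ?_, ?_, ?_⟩
    · have k := abs_add_le q1.2 (sg v * s)
      have k2 : |sg v * s| = s := by rw [abs_mul, abs_sg, one_mul, abs_of_nonneg hs.1]
      have k3 := h0_le_one C
      have := hs.2
      simp only [← hx] at k
      simp only
      linarith
    · simp only [hSx]; exact a7 s hs
    · simp only [hSx]; exact (a5 s hs).trans hM2
    · intro r hr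
      simp only
      rw [hPhi]
      apply c1
      have := ht.1
      have k1 : r * t ≤ t := by nlinarith [hr.2]
      have k2 : 0 ≤ r * t := mul_nonneg hr.1 ht.1
      exact ⟨by linarith, by linarith [ht.2]⟩
    · rw [hPhi, sub_self, hF20]
      simp only
      rw [hgx]
      have k2 := c3.antitoneOn ht mb' ht.2
      simp only [c2] at k2
      linarith
    · rw [hPhi, sub_self, hF20]
      simp only
      rw [hgx]
      exact c5 t ht
  · rw [hPhi, sub_self, hF20]

/-- the exceptional set for a given past itinerary -/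
def BP (C : Cfg N) (v : List (Fin N)) : Set ((ℝ × ℝ) × ℝ) :=
  {z | |bet C none z.1| ≤ C.R none / 2 ∧ 0 < z.2 ∧ z.2 ≤ C.h0 ∧ rev z.1 ∈ OE C v ∧
    ¬ Esc C none (z.1.1, z.1.2 + z.2) ∧ unk C (rev z.1) z.2 ∧
    unk C (z.1.1, z.1.2 + z.2) z.2}

lemma continuous_T : Continuous (fun z : (ℝ × ℝ) × ℝ => (z.1.1, z.1.2 + z.2)) := by fun_prop

lemma measurableSet_unk (C : Cfg N) {f : (ℝ × ℝ) × ℝ → ℝ × ℝ} (hf : Continuous f) :
    MeasurableSet {z : (ℝ × ℝ) × ℝ | unk C (f z) z.2} := by
  have e : {z : (ℝ × ℝ) × ℝ | unk C (f z) z.2} = ⋂ j : ℕ,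
      ((fun z : (ℝ × ℝ) × ℝ => (f z, 2 * (C.C1 * (z.2 / C.lam ^ j)))) ⁻¹'
        {q : (ℝ × ℝ) × ℝ | Kill C j none (-1) q.2 q.1})ᶜ := by
    ext z; simp [unk]
  rw [e]
  refine MeasurableSet.iInter fun j => MeasurableSet.compl ?_
  have hc : Continuous (fun z : (ℝ × ℝ) × ℝ => (f z, 2 * (C.C1 * (z.2 / C.lam ^ j)))) := by
    fun_prop
  exact ((isClosed_Kill C j none (-1)).preimage hc).measurableSet

lemma measurableSet_BP (C : Cfg N) (v : List (Fin N)) : MeasurableSet (BP C v) := by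
  have e : BP C v = {z | |bet C none z.1| ≤ C.R none / 2} ∩ ({z | 0 < z.2} ∩ ({z | z.2 ≤ C.h0} ∩
    ((fun z : (ℝ × ℝ) × ℝ => rev z.1) ⁻¹' OE C v ∩
    (((fun z : (ℝ × ℝ) × ℝ => (z.1.1, z.1.2 + z.2)) ⁻¹' {p | Esc C none p})ᶜ ∩
    ({z | unk C (rev z.1) z.2} ∩ {z | unk C (z.1.1, z.1.2 + z.2) z.2}))))) := rfl
  rw [e]
  have hb : Continuous (fun z : (ℝ × ℝ) × ℝ => |bet C none z.1|) :=
    ((continuous_bet C none).comp continuous_fst).abs
  have hr : Continuous (fun z : (ℝ × ℝ) × ℝ => rev z.1) := continuous_rev.comp continuous_fst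
  exact (measurableSet_le hb.measurable measurable_const).inter
    ((measurableSet_lt measurable_const measurable_snd).inter
    ((measurableSet_le measurable_snd measurable_const).inter
    ((hr.measurable (isOpen_OE C v).measurableSet).inter
    ((continuous_T.measurable (measurableSet_Esc C none)).compl.inter
    ((measurableSet_unk C hr).inter (measurableSet_unk C continuous_T))))))

/-- the shifted line is absolutely continuous -/
lemma qmp_T : Measure.QuasiMeasurePreserving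
    (fun z : (ℝ × ℝ) × ℝ => (z.1.1, z.1.2 + z.2)) volume volume := by
  have h1 : MeasurePreserving (fun z : ℝ × (ℝ × ℝ) => (z.1, (z.2.1, z.2.2 + z.1)))
      ((volume : Measure ℝ).prod (volume : Measure (ℝ × ℝ)))
      ((volume : Measure ℝ).prod (volume : Measure (ℝ × ℝ))) :=
    MeasurePreserving.skew_product (f := id) (MeasurePreserving.id (volume : Measure ℝ))
      (g := fun (a : ℝ) (p : ℝ × ℝ) => (p.1, p.2 + a)) (by fun_prop)
      (Filter.Eventually.of_forall fun a => (mp_add_snd a).map_eq)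
  have h2 : MeasurePreserving (Prod.swap : (ℝ × ℝ) × ℝ → ℝ × (ℝ × ℝ))
      ((volume : Measure (ℝ × ℝ)).prod (volume : Measure ℝ))
      ((volume : Measure ℝ).prod (volume : Measure (ℝ × ℝ))) := Measure.measurePreserving_swap
  exact (Measure.quasiMeasurePreserving_snd.comp h1.quasiMeasurePreserving).comp
    h2.quasiMeasurePreserving

lemma bet_shifted_lt {C : Cfg N} {p : ℝ × ℝ} {h : ℝ} (hh : 0 < h)
    (hh0 : h ≤ C.h0) (hp : |bet C none p| ≤ C.R none / 2) :
    |bet C none (p.1, p.2 + h)| < C.R none := by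
  rw [bet_add_snd]
  have := abs_le.1 hp
  have := h0_le_R C
  have := C.Rpos none
  rw [abs_lt]; constructor <;> linarith

lemma null_BP_nil (C : Cfg N) : volume (BP C []) = 0 := by
  have h1 := qmp_T.ae (ae_trap C)
  refine measure_mono_null ?_ h1
  rintro z ⟨z1, z2, z3, z4, z5, z6, _⟩ hcon
  refine z5 (hcon (bet_shifted_lt z2 z3 z1) ⟨[], trivial, ?_⟩)
  have h2 : Fr C none ((rev z.1).1, (rev z.1).2 + (-1) * z.2) := by
    refine Fr_persist (c := 2 * (C.C1 * (z.2 / C.lam ^ 0))) (by norm_num) z2.le ?_ z4.2.2 (z6 0)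
    have := C1_ge_one C
    rw [pow_zero, div_one]; nlinarith
  have e : rev (z.1.1, z.1.2 + z.2) = ((rev z.1).1, (rev z.1).2 + (-1) * z.2) := by
    refine Prod.ext rfl ?_
    simp only [rev]; ring
  simp only [lst, Sw]
  rw [e]; exact h2

lemma null_BP_cons (C : Cfg N) (k : Fin N) (v : List (Fin N)) : volume (BP C (k :: v)) = 0 := by
  set Θ : ℝ × (ℝ × ℝ) → (ℝ × ℝ) × ℝ := fun q => (gam C (k :: v) q.1 q.2.1, q.2.2) with hΘ
  have hΘm : MeasurePreserving Θ := by
    have h1 : MeasurePreserving (MeasurableEquiv.prodAssoc.symm : ℝ × (ℝ × ℝ) ≃ᵐ (ℝ × ℝ) × ℝ)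
        volume volume := (volume_preserving_prodAssoc (α₁ := ℝ) (β₁ := ℝ) (γ₁ := ℝ)).symm
    have h2 : MeasurePreserving (Prod.map (fun q : ℝ × ℝ => unrev (Siw C (k :: v) q)) (id : ℝ → ℝ))
        ((volume : Measure (ℝ × ℝ)).prod (volume : Measure ℝ))
        ((volume : Measure (ℝ × ℝ)).prod (volume : Measure ℝ)) :=
      (mp_unrev.comp (mp_Siw C (k :: v))).prod (MeasurePreserving.id _)
    exact h2.comp h1
  rw [← hΘm.measure_preimage (measurableSet_BP C (k :: v)).nullMeasurableSet]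
  have hm : MeasurableSet (Θ ⁻¹' BP C (k :: v)) := hΘm.measurable (measurableSet_BP C (k :: v))
  rw [Measure.volume_eq_prod, Measure.measure_prod_null hm]
  filter_upwards [ae_zeta C (k :: v)] with ζ hζ
  simp only [Pi.zero_apply]
  set Z : Set (ℝ × ℝ) := (⋃ M : ℕ, ⋂ n, Bn C (k :: v) ζ M C.h0 n) ∪ {p | ¬ Gen C p} with hZ
  have hZ0 : volume Z = 0 := by
    apply measure_union_null
    · exact measure_iUnion_null fun M => null_Bn C (k :: v) (h0_pos C).le (Nat.cast_nonneg M) hζ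
    · exact ae_generic C
  refine measure_mono_null ?_ (null_pairs (C := C) (k := k) (v := v) (ζ := ζ) hZ0)
  rintro ⟨x, h⟩ hz
  obtain ⟨z1, z2, z3, z4, z5, z6, z7⟩ := hz
  simp only [hΘ] at z1 z2 z3 z4 z5 z6 z7
  have hrev : rev (gam C (k :: v) ζ x) = Siw C (k :: v) (ζ, x) := rev_gam C (k :: v) ζ x
  refine ⟨by simpa [hrev] using z4, ?_⟩
  simp only
  by_cases hg : Gen C ((gam C (k :: v) ζ x).1, (gam C (k :: v) ζ x).2 + h)
  · left
    set p := gam C (k :: v) ζ x with hp
    obtain ⟨M, hM⟩ := exists_nat_ge (max (|(Sw C (k :: v) (rev p)).2| + 1)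
      (C.CD * St C none (k :: v) (rev p)))
    refine mem_iUnion.2 ⟨M, mem_iInter.2 fun n => ?_⟩
    obtain ⟨w, hw1, hw2⟩ := exists_path_of_not_esc hg z5 n
    have := mem_Bn (M := M) z2 z3 z1 z4.2.1 z4.2.2 z6 z7 hw2
      ((le_max_left _ _).trans hM) ((le_max_right _ _).trans hM)
    rw [hw1] at this
    have e : (Sw C (k :: v) (rev p)).1 = ζ := by rw [hp, rev_gam, Sw_Siw]
    rw [e] at this
    exact this
  · right; exact hg

/-- CROSS (4.5) -/
theorem cross (C : Cfg N) : ∀ᵐ z : (ℝ × ℝ) × ℝ, |bet C none z.1| ≤ C.R none / 2 → 0 < z.2 →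
    z.2 ≤ C.h0 → Esc C none (rev z.1) → ¬ Esc C none (z.1.1, z.1.2 + z.2) →
    (∀ j, ¬ Kill C j none (-1) (2 * (C.C1 * (z.2 / C.lam ^ j))) (rev z.1)) →
    (∀ j, ¬ Kill C j none (-1) (2 * (C.C1 * (z.2 / C.lam ^ j))) (z.1.1, z.1.2 + z.2)) →
    False := by
  have h0 : volume (⋃ v, BP C v) = 0 := by
    refine measure_iUnion_null fun v => ?_
    cases v with
    | nil => exact null_BP_nil C
    | cons k v => exact null_BP_cons C k v
  have h1 : ∀ᵐ z : (ℝ × ℝ) × ℝ, z ∉ ⋃ v, BP C v := measure_eq_zero_iff_ae_notMem.1 h0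
  filter_upwards [h1] with z hz a1 a2 a3 a4 a5 a6 a7
  obtain ⟨v, hv1, hv2⟩ := a4
  apply hz
  refine mem_iUnion.2 ⟨v, a1, a2, a3, ⟨?_, hv1, hv2⟩, a5, a6, a7⟩
  rw [bet_rev, abs_neg]
  have := C.Rpos none
  linarith

end Pool.Agent.Work.MP_5c1620_co
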