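import Mathlib

/-!
# Light among reflecting disks: definitions

Oriented lines are pairs p = (w, r) : the line {r n + t v : t real} with v = (cos w, sin w),
n = (-sin w, cos w).  Objects are `none` (a transparent chart disk, whose centre is the point
from which light is emitted) and `some i` (the mirrors).
-/

set_option autoImplicit false
open Real Set MeasureTheory

namespace Pool.Agent.Work.MP_5c1620_co

/-- A configuration of N mirrors (objects `some i`) and one transparent chart disk (`none`),
pairwise at distance at least d. -/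
structure Cfg (N : ℕ) where
  cx : Option (Fin N) → ℝ
  cy : Option (Fin N) → ℝ
  R : Option (Fin N) → ℝ
  d : ℝ
  dpos : 0 < d
  Rpos : ∀ o, 0 < R o
  sep : ∀ o o', o ≠ o' → (R o + R o' + d) ^ 2 ≤ (cx o - cx o') ^ 2 + (cy o - cy o') ^ 2

variable {N : ℕ}

/-- position (parameter t) of the foot of the centre of object o on the line -/
noncomputable def tau (C : Cfg N) (o : Option (Fin N)) (p : ℝ × ℝ) : ℝ :=
  C.cx o * cos p.1 + C.cy o * sin p.1

/-- signed distance of the line from the centre of object o -/
noncomputable def bet (C : Cfg N) (o : Option (Fin N)) (p : ℝ × ℝ) : ℝ :=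
  p.2 + C.cx o * sin p.1 - C.cy o * cos p.1

/-- half chord -/
noncomputable def alp (C : Cfg N) (o : Option (Fin N)) (p : ℝ × ℝ) : ℝ :=
  √(C.R o ^ 2 - bet C o p ^ 2)

/-- the line with direction angle a and signed distance b from the centre of o -/
noncomputable def mk (C : Cfg N) (o : Option (Fin N)) (a b : ℝ) : ℝ × ℝ :=
  (a, b - C.cx o * sin a + C.cy o * cos a)

/-- reflection in mirror k -/
noncomputable def S (C : Cfg N) (k : Fin N) (p : ℝ × ℝ) : ℝ × ℝ :=
  mk C (some k) (p.1 + π - 2 * arcsin (bet C (some k) p / C.R (some k))) (bet C (some k) p)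

/-- inverse of the reflection in mirror k -/
noncomputable def Si (C : Cfg N) (k : Fin N) (p : ℝ × ℝ) : ℝ × ℝ :=
  mk C (some k) (p.1 - π + 2 * arcsin (bet C (some k) p / C.R (some k))) (bet C (some k) p)

/-- reversal of orientation and its inverse (the two differ by a full turn) -/
noncomputable def rev (p : ℝ × ℝ) : ℝ × ℝ := (p.1 + π, -p.2)
noncomputable def unrev (p : ℝ × ℝ) : ℝ × ℝ := (p.1 - π, -p.2)

/-- start position of a flight leaving object o -/
noncomputable def pos (C : Cfg N) : Option (Fin N) → ℝ × ℝ → ℝ
  | none, p => tau C none p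
  | some i, p => tau C (some i) p + alp C (some i) p

/-- no mirror is hit strictly between o and l -/
def Free (C : Cfg N) (o l : Option (Fin N)) (p : ℝ × ℝ) : Prop :=
  ∀ m : Fin N, ¬ (tau C o p < tau C (some m) p ∧ tau C (some m) p < tau C l p ∧
    |bet C (some m) p| < C.R (some m))

/-- weak next mirror -/
def W (C : Cfg N) (o : Option (Fin N)) (k : Fin N) (p : ℝ × ℝ) : Prop :=
  some k ≠ o ∧ tau C o p ≤ tau C (some k) p ∧ |bet C (some k) p| ≤ C.R (some k) ∧
    Free C o (some k) p

/-- strict next mirror -/
def Nx (C : Cfg N) (o : Option (Fin N)) (k : Fin N) (p : ℝ × ℝ) : Prop :=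
  tau C o p < tau C (some k) p ∧ |bet C (some k) p| < C.R (some k) ∧
    ∀ m : Fin N, tau C o p < tau C (some m) p → tau C (some m) p < tau C (some k) p →
      C.R (some m) < |bet C (some m) p|

/-- kill set: closed conditions.  Kill j o e ε p: along some weak itinerary of length j from o
one reaches a line which is ε-close to the tangency bet = - e' R (e' = (-1)^j e) with an
unobstructed mirror ahead. -/
def Kill (C : Cfg N) : ℕ → Option (Fin N) → ℝ → ℝ → ℝ × ℝ → Prop
  | 0, o, e, ε, p => ∃ l : Fin N, some l ≠ o ∧ tau C o p ≤ tau C (some l) p ∧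
      |bet C (some l) p + e * C.R (some l)| ≤ ε ∧ Free C o (some l) p
  | j + 1, o, e, ε, p => ∃ k : Fin N, W C o k p ∧ Kill C j (some k) (-e) ε (S C k p)

/-- strict itinerary -/
def Path (C : Cfg N) : Option (Fin N) → List (Fin N) → ℝ × ℝ → Prop
  | _, [], _ => True
  | o, k :: w, p => Nx C o k p ∧ Path C (some k) w (S C k p)

/-- composition of reflections along a word and its inverse -/
noncomputable def Sw (C : Cfg N) : List (Fin N) → ℝ × ℝ → ℝ × ℝ
  | [], p => p
  | k :: w, p => Sw C w (S C k p)
noncomputable def Siw (C : Cfg N) : List (Fin N) → ℝ × ℝ → ℝ × ℝ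
  | [], p => p
  | k :: w, p => Si C k (Siw C w p)

/-- last object of a word -/
def lst : Option (Fin N) → List (Fin N) → Option (Fin N)
  | o, [] => o
  | _, k :: w => lst (some k) w

/-- strictly free from object o on -/
def Fr (C : Cfg N) (o : Option (Fin N)) (p : ℝ × ℝ) : Prop :=
  ∀ l : Fin N, tau C o p < tau C (some l) p → C.R (some l) < |bet C (some l) p|

/-- strict escape after finitely many transversal reflections -/
def Esc (C : Cfg N) (o : Option (Fin N)) (p : ℝ × ℝ) : Prop :=
  ∃ w, Path C o w p ∧ Fr C (lst o w) (Sw C w p)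

/-- (Psi, Dr): the stable vector at p pulled back from the parallel front (0,1) after the word w
is (-1)^|w| (-Psi, Dr) -/
noncomputable def PD (C : Cfg N) : List (Fin N) → ℝ × ℝ → ℝ × ℝ
  | [], _ => (0, 1)
  | k :: w, p =>
      let q := PD C w (S C k p)
      let E := q.2 - pos C (some k) (S C k p) * q.1
      let P := q.1 + 2 * E / alp C (some k) p
      (P, E + (tau C (some k) p - alp C (some k) p) * P)

/-- width of the stable vector at the start of the flight from o -/
noncomputable def St (C : Cfg N) (o : Option (Fin N)) (w : List (Fin N)) (p : ℝ × ℝ) : ℝ :=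
  (PD C w p).2 - pos C o p * (PD C w p).1

end Pool.Agent.Work.MP_5c1620_co
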