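import Pool.Agent.Work.MP_5c1620_co.Defs

/-!
# Elementary geometry of lines and disks
-/

set_option autoImplicit false
open Real Set MeasureTheory

namespace Pool.Agent.Work.MP_5c1620_co

variable {N : ℕ}

/-! ## coordinates -/

@[simp] lemma mk_fst (C : Cfg N) (o : Option (Fin N)) (a b : ℝ) : (mk C o a b).1 = a := rfl

@[simp] lemma bet_mk (C : Cfg N) (o : Option (Fin N)) (a b : ℝ) : bet C o (mk C o a b) = b := by
  simp only [bet, mk]; ring

lemma mk_bet (C : Cfg N) (o : Option (Fin N)) (p : ℝ × ℝ) : mk C o p.1 (bet C o p) = p := by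
  refine Prod.ext rfl ?_
  simp only [bet, mk]; ring

lemma eq_of_fst_bet (C : Cfg N) (o : Option (Fin N)) {p q : ℝ × ℝ} (h1 : p.1 = q.1)
    (h2 : bet C o p = bet C o q) : p = q := by
  rw [← mk_bet C o p, ← mk_bet C o q, h1, h2]

lemma bet_sub_bet (C : Cfg N) (o : Option (Fin N)) {p q : ℝ × ℝ} (h1 : p.1 = q.1) :
    bet C o p - bet C o q = p.2 - q.2 := by
  simp [bet, h1]

lemma bet_add_snd (C : Cfg N) (o : Option (Fin N)) (p : ℝ × ℝ) (h : ℝ) :
    bet C o (p.1, p.2 + h) = bet C o p + h := by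
  simp [bet]; ring

lemma tau_congr (C : Cfg N) (o : Option (Fin N)) {p q : ℝ × ℝ} (h1 : p.1 = q.1) :
    tau C o p = tau C o q := by
  simp [tau, h1]

lemma dist_id (C : Cfg N) (o o' : Option (Fin N)) (p : ℝ × ℝ) :
    (tau C o p - tau C o' p) ^ 2 + (bet C o p - bet C o' p) ^ 2 =
      (C.cx o - C.cx o') ^ 2 + (C.cy o - C.cy o') ^ 2 := by
  have h := sin_sq_add_cos_sq p.1
  unfold tau bet
  have e1 : C.cx o * cos p.1 + C.cy o * sin p.1 - (C.cx o' * cos p.1 + C.cy o' * sin p.1) =
    (C.cx o - C.cx o') * cos p.1 + (C.cy o - C.cy o') * sin p.1 := by ring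
  have e2 : p.2 + C.cx o * sin p.1 - C.cy o * cos p.1 -
      (p.2 + C.cx o' * sin p.1 - C.cy o' * cos p.1) =
    (C.cx o - C.cx o') * sin p.1 - (C.cy o - C.cy o') * cos p.1 := by ring
  rw [e1, e2]
  linear_combination ((C.cx o - C.cx o') ^ 2 + (C.cy o - C.cy o') ^ 2) * h

/-! ## half chords -/

lemma alp_nonneg (C : Cfg N) (o : Option (Fin N)) (p : ℝ × ℝ) : 0 ≤ alp C o p := sqrt_nonneg _

lemma alp_sq (C : Cfg N) (o : Option (Fin N)) {p : ℝ × ℝ} (h : |bet C o p| ≤ C.R o) :
    alp C o p ^ 2 = C.R o ^ 2 - bet C o p ^ 2 := by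
  unfold alp
  rw [sq_sqrt]
  have := sq_abs (bet C o p)
  nlinarith [abs_nonneg (bet C o p)]

lemma alp_eq_zero (C : Cfg N) (o : Option (Fin N)) {p : ℝ × ℝ} (h : C.R o ≤ |bet C o p|) :
    alp C o p = 0 := by
  unfold alp
  apply sqrt_eq_zero_of_nonpos
  have := sq_abs (bet C o p)
  have := C.Rpos o
  nlinarith [abs_nonneg (bet C o p)]

lemma alp_pos (C : Cfg N) (o : Option (Fin N)) {p : ℝ × ℝ} (h : |bet C o p| < C.R o) :
    0 < alp C o p := by
  unfold alp
  apply sqrt_pos.2
  have := sq_abs (bet C o p)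
  nlinarith [abs_nonneg (bet C o p)]

lemma alp_le (C : Cfg N) (o : Option (Fin N)) (p : ℝ × ℝ) : alp C o p ≤ C.R o := by
  unfold alp
  rw [sqrt_le_left (C.Rpos o).le]
  nlinarith [sq_nonneg (bet C o p)]

lemma alp_sq_add (C : Cfg N) (o : Option (Fin N)) {p : ℝ × ℝ} {g : ℝ} (hg : 0 ≤ g)
    (h : |bet C o p| ≤ C.R o + g) : alp C o p ^ 2 + bet C o p ^ 2 ≤ (C.R o + g) ^ 2 := by
  have hR := C.Rpos o
  have h2 := sq_abs (bet C o p)
  rcases le_or_gt |bet C o p| (C.R o) with h1 | h1
  · rw [alp_sq C o h1]; nlinarith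
  · rw [alp_eq_zero C o h1.le]; nlinarith [abs_nonneg (bet C o p)]

/-- the separation estimate -/
lemma sep_tau_sq (C : Cfg N) {o o' : Option (Fin N)} (hoo : o ≠ o') {p : ℝ × ℝ} {g g' : ℝ}
    (hg : 0 ≤ g) (hg' : 0 ≤ g') (hgd : g + g' ≤ C.d)
    (h : |bet C o p| ≤ C.R o + g) (h' : |bet C o' p| ≤ C.R o' + g') :
    (alp C o p + alp C o' p + (C.d - g - g')) ^ 2 ≤ (tau C o' p - tau C o p) ^ 2 := by
  have hid := dist_id C o o' p
  have hsep := C.sep o o' hoo
  have hR := C.Rpos o
  have hR' := C.Rpos o'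
  have a1 := alp_sq_add C o hg h
  have a2 := alp_sq_add C o' hg' h'
  have n1 := alp_nonneg C o p
  have n2 := alp_nonneg C o' p
  set a := alp C o p
  set a' := alp C o' p
  set b := bet C o p
  set b' := bet C o' p
  set ρ := C.R o + g with hρ
  set ρ' := C.R o' + g' with hρ'
  set u := C.d - g - g' with hu
  have hu0 : 0 ≤ u := by rw [hu]; linarith
  have hρ0 : 0 ≤ ρ := by rw [hρ]; linarith
  have hρ0' : 0 ≤ ρ' := by rw [hρ']; linarith
  have cs : a * a' - b * b' ≤ ρ * ρ' := by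
    apply le_of_sq_le_sq _ (mul_nonneg hρ0 hρ0')
    have e : (a * a' - b * b') ^ 2 + (a * b' + b * a') ^ 2 = (a ^ 2 + b ^ 2) * (a' ^ 2 + b' ^ 2) := by
      ring
    have m : (a ^ 2 + b ^ 2) * (a' ^ 2 + b' ^ 2) ≤ ρ ^ 2 * ρ' ^ 2 :=
      mul_le_mul a1 a2 (by positivity) (by positivity)
    nlinarith [sq_nonneg (a * b' + b * a')]
  have l1 : a ≤ ρ := by
    apply le_of_sq_le_sq _ hρ0
    nlinarith [sq_nonneg b]
  have l2 : a' ≤ ρ' := by
    apply le_of_sq_le_sq _ hρ0'
    nlinarith [sq_nonneg b']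
  have tot : C.R o + C.R o' + C.d = ρ + ρ' + u := by rw [hρ, hρ', hu]; ring
  rw [tot] at hsep
  have k1 : u * a ≤ u * ρ := mul_le_mul_of_nonneg_left l1 hu0
  have k2 : u * a' ≤ u * ρ' := mul_le_mul_of_nonneg_left l2 hu0
  nlinarith

lemma sep_tau (C : Cfg N) {o o' : Option (Fin N)} (hoo : o ≠ o') {p : ℝ × ℝ} {g g' : ℝ}
    (hg : 0 ≤ g) (hg' : 0 ≤ g') (hgd : g + g' ≤ C.d)
    (h : |bet C o p| ≤ C.R o + g) (h' : |bet C o' p| ≤ C.R o' + g')
    (ht : tau C o p ≤ tau C o' p) :
    alp C o p + alp C o' p + (C.d - g - g') ≤ tau C o' p - tau C o p := by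
  apply le_of_sq_le_sq (sep_tau_sq C hoo hg hg' hgd h h') (by linarith)

/-- separation without margins -/
lemma sep_tau0 (C : Cfg N) {o o' : Option (Fin N)} (hoo : o ≠ o') {p : ℝ × ℝ}
    (h : |bet C o p| ≤ C.R o) (h' : |bet C o' p| ≤ C.R o') (ht : tau C o p ≤ tau C o' p) :
    alp C o p + alp C o' p + C.d ≤ tau C o' p - tau C o p := by
  have := sep_tau C hoo le_rfl le_rfl (by linarith [C.dpos]) (p := p) (by simpa using h)
    (by simpa using h') ht
  linarith

lemma pos_le (C : Cfg N) (o : Option (Fin N)) (p : ℝ × ℝ) : pos C o p ≤ tau C o p + alp C o p := by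
  cases o with
  | none => simp [pos, alp_nonneg]
  | some i => simp [pos]

lemma tau_le_pos (C : Cfg N) (o : Option (Fin N)) (p : ℝ × ℝ) : tau C o p ≤ pos C o p := by
  cases o with
  | none => simp [pos]
  | some i => simp [pos, alp_nonneg]

/-- flight length at least d -/
lemma flight_le (C : Cfg N) {o : Option (Fin N)} {k : Fin N} (hok : some k ≠ o) {p : ℝ × ℝ}
    (h : |bet C o p| ≤ C.R o) (h' : |bet C (some k) p| ≤ C.R (some k))
    (ht : tau C o p ≤ tau C (some k) p) :
    pos C o p + C.d ≤ tau C (some k) p - alp C (some k) p := by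
  have := sep_tau0 C (Ne.symm hok) h h' ht
  have := pos_le C o p
  linarith

lemma Nx.ne {C : Cfg N} {o : Option (Fin N)} {k : Fin N} {p : ℝ × ℝ} (h : Nx C o k p) :
    some k ≠ o := by
  rintro rfl
  exact lt_irrefl _ h.1

lemma Nx.flight {C : Cfg N} {o : Option (Fin N)} {k : Fin N} {p : ℝ × ℝ} (h : Nx C o k p)
    (ho : |bet C o p| ≤ C.R o) : pos C o p + C.d ≤ tau C (some k) p - alp C (some k) p :=
  flight_le C h.ne ho h.2.1.le h.1.le

lemma Nx.toW {C : Cfg N} {o : Option (Fin N)} {k : Fin N} {p : ℝ × ℝ} (h : Nx C o k p) :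
    W C o k p := by
  refine ⟨h.ne, h.1.le, h.2.1.le, ?_⟩
  rintro m ⟨h1, h2, h3⟩
  exact absurd (h.2.2 m h1 h2) (not_lt.2 h3.le)

/-! ## reflections -/

@[simp] lemma bet_S (C : Cfg N) (k : Fin N) (p : ℝ × ℝ) :
    bet C (some k) (S C k p) = bet C (some k) p := by simp [S]

@[simp] lemma bet_Si (C : Cfg N) (k : Fin N) (p : ℝ × ℝ) :
    bet C (some k) (Si C k p) = bet C (some k) p := by simp [Si]

lemma alp_congr (C : Cfg N) (o : Option (Fin N)) {p q : ℝ × ℝ} (h : bet C o p = bet C o q) :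
    alp C o p = alp C o q := by unfold alp; rw [h]

@[simp] lemma alp_S (C : Cfg N) (k : Fin N) (p : ℝ × ℝ) :
    alp C (some k) (S C k p) = alp C (some k) p := alp_congr C _ (bet_S C k p)

@[simp] lemma alp_Si (C : Cfg N) (k : Fin N) (p : ℝ × ℝ) :
    alp C (some k) (Si C k p) = alp C (some k) p := alp_congr C _ (bet_Si C k p)

lemma S_fst (C : Cfg N) (k : Fin N) (p : ℝ × ℝ) :
    (S C k p).1 = p.1 + π - 2 * arcsin (bet C (some k) p / C.R (some k)) := rfl

lemma Si_fst (C : Cfg N) (k : Fin N) (p : ℝ × ℝ) :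
    (Si C k p).1 = p.1 - π + 2 * arcsin (bet C (some k) p / C.R (some k)) := rfl

@[simp] lemma Si_S (C : Cfg N) (k : Fin N) (p : ℝ × ℝ) : Si C k (S C k p) = p := by
  apply eq_of_fst_bet C (some k)
  · rw [Si_fst, bet_S, S_fst]; ring
  · simp

@[simp] lemma S_Si (C : Cfg N) (k : Fin N) (p : ℝ × ℝ) : S C k (Si C k p) = p := by
  apply eq_of_fst_bet C (some k)
  · rw [S_fst, bet_Si, Si_fst]; ring
  · simp

@[simp] lemma Siw_Sw (C : Cfg N) (w : List (Fin N)) (p : ℝ × ℝ) : Siw C w (Sw C w p) = p := by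
  induction w generalizing p with
  | nil => rfl
  | cons k w ih => simp [Siw, Sw, ih]

@[simp] lemma Sw_Siw (C : Cfg N) (w : List (Fin N)) (p : ℝ × ℝ) : Sw C w (Siw C w p) = p := by
  induction w generalizing p with
  | nil => rfl
  | cons k w ih => simp [Siw, Sw, ih]

/-! ## continuity -/

lemma continuous_tau (C : Cfg N) (o : Option (Fin N)) : Continuous (tau C o) := by
  unfold tau; fun_prop

lemma continuous_bet (C : Cfg N) (o : Option (Fin N)) : Continuous (bet C o) := by
  unfold bet; fun_prop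

lemma continuous_alp (C : Cfg N) (o : Option (Fin N)) : Continuous (alp C o) := by
  unfold alp
  exact Continuous.sqrt (continuous_const.sub ((continuous_bet C o).pow 2))

lemma continuous_pos (C : Cfg N) (o : Option (Fin N)) : Continuous (pos C o) := by
  cases o with
  | none => exact continuous_tau C none
  | some i => exact (continuous_tau C (some i)).add (continuous_alp C (some i))

lemma continuous_mk (C : Cfg N) (o : Option (Fin N)) :
    Continuous (fun q : ℝ × ℝ => mk C o q.1 q.2) := by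
  unfold mk; fun_prop

lemma continuous_S (C : Cfg N) (k : Fin N) : Continuous (S C k) := by
  have h : Continuous (fun p : ℝ × ℝ =>
      (p.1 + π - 2 * arcsin (bet C (some k) p / C.R (some k)), bet C (some k) p)) := by
    have hb := continuous_bet C (some k)
    refine Continuous.prodMk ?_ hb
    exact (continuous_fst.add continuous_const).sub
      (continuous_const.mul (continuous_arcsin.comp (hb.div_const _)))
  exact (continuous_mk C (some k)).comp h

lemma continuous_Si (C : Cfg N) (k : Fin N) : Continuous (Si C k) := by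
  have h : Continuous (fun p : ℝ × ℝ =>
      (p.1 - π + 2 * arcsin (bet C (some k) p / C.R (some k)), bet C (some k) p)) := by
    have hb := continuous_bet C (some k)
    refine Continuous.prodMk ?_ hb
    exact (continuous_fst.sub continuous_const).add
      (continuous_const.mul (continuous_arcsin.comp (hb.div_const _)))
  exact (continuous_mk C (some k)).comp h

lemma continuous_Sw (C : Cfg N) (w : List (Fin N)) : Continuous (Sw C w) := by
  induction w with
  | nil => exact continuous_id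
  | cons k w ih => exact ih.comp (continuous_S C k)

lemma continuous_Siw (C : Cfg N) (w : List (Fin N)) : Continuous (Siw C w) := by
  induction w with
  | nil => exact continuous_id
  | cons k w ih => exact (continuous_Si C k).comp ih

lemma continuous_rev : Continuous rev := by unfold rev; fun_prop
lemma continuous_unrev : Continuous unrev := by unfold unrev; fun_prop

/-! ## reversal -/

@[simp] lemma rev_unrev (p : ℝ × ℝ) : rev (unrev p) = p := by simp [rev, unrev]
@[simp] lemma unrev_rev (p : ℝ × ℝ) : unrev (rev p) = p := by simp [rev, unrev]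

@[simp] lemma bet_rev (C : Cfg N) (o : Option (Fin N)) (p : ℝ × ℝ) :
    bet C o (rev p) = - bet C o p := by
  simp [bet, rev]; ring

@[simp] lemma tau_rev (C : Cfg N) (o : Option (Fin N)) (p : ℝ × ℝ) :
    tau C o (rev p) = - tau C o p := by
  simp [tau, rev]; ring

@[simp] lemma bet_unrev (C : Cfg N) (o : Option (Fin N)) (p : ℝ × ℝ) :
    bet C o (unrev p) = - bet C o p := by
  simp [bet, unrev, sin_sub, cos_sub]; ring

@[simp] lemma tau_unrev (C : Cfg N) (o : Option (Fin N)) (p : ℝ × ℝ) :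
    tau C o (unrev p) = - tau C o p := by
  simp [tau, unrev, sin_sub, cos_sub]; ring

@[simp] lemma alp_rev (C : Cfg N) (o : Option (Fin N)) (p : ℝ × ℝ) :
    alp C o (rev p) = alp C o p := by simp [alp]

@[simp] lemma alp_unrev (C : Cfg N) (o : Option (Fin N)) (p : ℝ × ℝ) :
    alp C o (unrev p) = alp C o p := by simp [alp]

end Pool.Agent.Work.MP_5c1620_co
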