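import Pool.Agent.Work.MP_5c1620_co.Glob1
import Pool.Agent.Work.MP_5c1620_co.Area5

/-!
# Local constancy of the escape property
-/

set_option autoImplicit false
open Real Set MeasureTheory Topology Filter

namespace Pool.Agent.Work.MP_5c1620_co

variable {N : ℕ}

lemma cross_holds (C : Cfg N) : CROSS C := ⟨C.h0, h0_pos C, cross C⟩

/-- local constancy of the escape property (unconditional) -/
theorem loc_const' (C : Cfg N) :
    ∀ᵐ a : ℝ, (∀ᵐ b : ℝ, |b| < C.R none / 16 → Esc C none (mk C none a b)) ∨
      (∀ᵐ b : ℝ, |b| < C.R none / 16 → ¬ Esc C none (mk C none a b)) :=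
  loc_const cross_holds C

end Pool.Agent.Work.MP_5c1620_co
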