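import Pool.Agent.Work.MP_5c1620_co.Geo

/-!
# M3, part 1: constants, derivatives along curves, growth
-/

set_option autoImplicit false
open Real Set MeasureTheory

namespace Pool.Agent.Work.MP_5c1620_co

variable {N : ℕ}

/-! ## constants -/

noncomputable def Cfg.Rm (C : Cfg N) : ℝ := ∑ o, C.R o
noncomputable def Cfg.Cm (C : Cfg N) : ℝ := ∑ o, (|C.cx o| + |C.cy o|)
noncomputable def Cfg.D0 (C : Cfg N) : ℝ := 2 * C.Cm + C.Rm
/-- expansion factor per flight -/
noncomputable def Cfg.L (C : Cfg N) : ℝ := 1 + 2 * C.d / C.Rm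
noncomputable def Cfg.lam (C : Cfg N) : ℝ := √C.L
noncomputable def Cfg.C1 (C : Cfg N) : ℝ := 1 + C.D0 / C.d

lemma R_le_Rm (C : Cfg N) (o : Option (Fin N)) : C.R o ≤ C.Rm :=
  Finset.single_le_sum (f := C.R) (fun i _ => (C.Rpos i).le) (Finset.mem_univ o)

lemma Rm_pos (C : Cfg N) : 0 < C.Rm := lt_of_lt_of_le (C.Rpos none) (R_le_Rm C none)

lemma c_le_Cm (C : Cfg N) (o : Option (Fin N)) : |C.cx o| + |C.cy o| ≤ C.Cm :=
  Finset.single_le_sum (f := fun o => |C.cx o| + |C.cy o|) (fun i _ => by positivity)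
    (Finset.mem_univ o)

lemma Cm_nonneg (C : Cfg N) : 0 ≤ C.Cm := le_trans (by positivity) (c_le_Cm C none)

lemma D0_pos (C : Cfg N) : 0 < C.D0 := by
  unfold Cfg.D0; linarith [Rm_pos C, Cm_nonneg C]

lemma L_gt_one (C : Cfg N) : 1 < C.L := by
  unfold Cfg.L
  have := Rm_pos C
  have := C.dpos
  have : 0 < 2 * C.d / C.Rm := by positivity
  linarith

lemma lam_gt_one (C : Cfg N) : 1 < C.lam := by
  unfold Cfg.lam
  rw [show (1 : ℝ) = √1 by simp]
  exact sqrt_lt_sqrt zero_le_one (L_gt_one C)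

lemma lam_sq (C : Cfg N) : C.lam ^ 2 = C.L := sq_sqrt (by linarith [L_gt_one C])

lemma C1_ge_one (C : Cfg N) : 1 ≤ C.C1 := by
  unfold Cfg.C1
  have := D0_pos C
  have := C.dpos
  have : 0 < C.D0 / C.d := by positivity
  linarith

lemma abs_tau_le (C : Cfg N) (o : Option (Fin N)) (p : ℝ × ℝ) : |tau C o p| ≤ C.Cm := by
  refine le_trans ?_ (c_le_Cm C o)
  unfold tau
  refine (abs_add_le _ _).trans ?_
  rw [abs_mul, abs_mul]
  have h1 := abs_cos_le_one p.1
  have h2 := abs_sin_le_one p.1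
  have h3 := abs_nonneg (C.cx o)
  have h4 := abs_nonneg (C.cy o)
  nlinarith

lemma abs_tau_deriv_le (C : Cfg N) (o : Option (Fin N)) (p : ℝ × ℝ) :
    |-C.cx o * sin p.1 + C.cy o * cos p.1| ≤ C.Cm := by
  refine le_trans ?_ (c_le_Cm C o)
  refine (abs_add_le _ _).trans ?_
  rw [abs_mul, abs_mul, abs_neg]
  have h1 := abs_cos_le_one p.1
  have h2 := abs_sin_le_one p.1
  have h3 := abs_nonneg (C.cx o)
  have h4 := abs_nonneg (C.cy o)
  nlinarith

lemma abs_tau_sub_pos_le (C : Cfg N) (l o : Option (Fin N)) (p : ℝ × ℝ) :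
    |tau C l p - pos C o p| ≤ C.D0 := by
  have h1 := abs_le.1 (abs_tau_le C l p)
  have h2 := abs_le.1 (abs_tau_le C o p)
  have h3 := pos_le C o p
  have h4 := tau_le_pos C o p
  have h5 := (alp_le C o p).trans (R_le_Rm C o)
  have h6 := Rm_pos C
  unfold Cfg.D0
  rw [abs_le]; constructor <;> linarith

/-! ## derivatives along curves -/

section deriv
variable (C : Cfg N) {F : ℝ → ℝ × ℝ} {a b s : ℝ}

lemma hd_tau (o : Option (Fin N)) (hF : HasDerivAt F (a, b) s) :
    HasDerivAt (fun t => tau C o (F t))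
      ((-C.cx o * sin (F s).1 + C.cy o * cos (F s).1) * a) s := by
  have h1 : HasDerivAt (fun t => (F t).1) a s := hF.fst
  have := ((h1.cos).const_mul (C.cx o)).add ((h1.sin).const_mul (C.cy o))
  refine this.congr_deriv ?_
  ring

lemma hd_bet (o : Option (Fin N)) (hF : HasDerivAt F (a, b) s) :
    HasDerivAt (fun t => bet C o (F t)) (b + tau C o (F s) * a) s := by
  have h1 : HasDerivAt (fun t => (F t).1) a s := hF.fst
  have h2 : HasDerivAt (fun t => (F t).2) b s := hF.snd
  have := (h2.add ((h1.sin).const_mul (C.cx o))).sub ((h1.cos).const_mul (C.cy o))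
  refine this.congr_deriv ?_
  unfold tau
  ring

lemma hd_mk (o : Option (Fin N)) {f g : ℝ → ℝ} (hf : HasDerivAt f a s) (hg : HasDerivAt g b s) :
    HasDerivAt (fun t => mk C o (f t) (g t)) (a, b - tau C o (mk C o (f s) (g s)) * a) s := by
  have := (hg.sub ((hf.sin).const_mul (C.cx o))).add ((hf.cos).const_mul (C.cy o))
  have h2 := hf.prodMk this
  refine h2.congr_deriv ?_
  refine Prod.ext rfl ?_
  simp only [tau, mk_fst]
  ring

lemma hd_arc (o : Option (Fin N)) (hF : HasDerivAt F (a, b) s)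
    (h : |bet C o (F s)| < C.R o) :
    HasDerivAt (fun t => arcsin (bet C o (F t) / C.R o))
      ((b + tau C o (F s) * a) / alp C o (F s)) s := by
  have hR := C.Rpos o
  have h1 := (hd_bet C o hF).div_const (C.R o)
  have hlt := abs_lt.1 h
  have hx1 : bet C o (F s) / C.R o ≠ 1 := by
    intro h2; rw [div_eq_iff hR.ne'] at h2; linarith
  have hx2 : bet C o (F s) / C.R o ≠ -1 := by
    intro h2; rw [div_eq_iff hR.ne'] at h2; linarith
  have h3 := (hasDerivAt_arcsin hx2 hx1).comp s h1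
  refine h3.congr_deriv ?_
  have e : √(1 - (bet C o (F s) / C.R o) ^ 2) = alp C o (F s) / C.R o := by
    unfold alp
    rw [show 1 - (bet C o (F s) / C.R o) ^ 2 = (C.R o ^ 2 - bet C o (F s) ^ 2) / C.R o ^ 2 by
      field_simp]
    rw [sqrt_div' _ (by positivity), sqrt_sq hR.le]
  rw [e]
  have ha := alp_pos C o h
  field_simp

lemma hd_S (k : Fin N) (hF : HasDerivAt F (a, b) s)
    (h : |bet C (some k) (F s)| < C.R (some k)) :
    HasDerivAt (fun t => S C k (F t))
      (a - 2 * ((b + tau C (some k) (F s) * a) / alp C (some k) (F s)),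
        (b + tau C (some k) (F s) * a) - tau C (some k) (S C k (F s)) *
          (a - 2 * ((b + tau C (some k) (F s) * a) / alp C (some k) (F s)))) s := by
  have h1 : HasDerivAt (fun t => (F t).1) a s := hF.fst
  have h2 := (h1.add_const π).sub ((hd_arc C (some k) hF h).const_mul 2)
  exact hd_mk C (some k) h2 (hd_bet C (some k) hF)

lemma hd_Si (k : Fin N) (hF : HasDerivAt F (a, b) s)
    (h : |bet C (some k) (F s)| < C.R (some k)) :
    HasDerivAt (fun t => Si C k (F t))
      (a + 2 * ((b + tau C (some k) (F s) * a) / alp C (some k) (F s)),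
        (b + tau C (some k) (F s) * a) - tau C (some k) (Si C k (F s)) *
          (a + 2 * ((b + tau C (some k) (F s) * a) / alp C (some k) (F s)))) s := by
  have h1 : HasDerivAt (fun t => (F t).1) a s := hF.fst
  have h2 := (h1.sub_const π).add ((hd_arc C (some k) hF h).const_mul 2)
  exact hd_mk C (some k) h2 (hd_bet C (some k) hF)

end deriv

/-! ## the stable curves and their derivatives -/

/-- the curve of lines which after the word w are parallel to q0 -/
noncomputable def Lf (C : Cfg N) (w : List (Fin N)) (q0 : ℝ × ℝ) (σ s : ℝ) : ℝ × ℝ :=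
  Siw C w (q0.1, q0.2 + σ * s)

lemma Lf_nil (C : Cfg N) (q0 : ℝ × ℝ) (σ s : ℝ) : Lf C [] q0 σ s = (q0.1, q0.2 + σ * s) := rfl

lemma Lf_cons (C : Cfg N) (k : Fin N) (w : List (Fin N)) (q0 : ℝ × ℝ) (σ s : ℝ) :
    Lf C (k :: w) q0 σ s = Si C k (Lf C w q0 σ s) := rfl

@[simp] lemma S_Lf_cons (C : Cfg N) (k : Fin N) (w : List (Fin N)) (q0 : ℝ × ℝ) (σ s : ℝ) :
    S C k (Lf C (k :: w) q0 σ s) = Lf C w q0 σ s := by
  rw [Lf_cons, S_Si]

lemma Lf_zero (C : Cfg N) (w : List (Fin N)) (p : ℝ × ℝ) (σ : ℝ) :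
    Lf C w (Sw C w p) σ 0 = p := by
  simp [Lf]

lemma Sw_Lf (C : Cfg N) (w : List (Fin N)) (q0 : ℝ × ℝ) (σ s : ℝ) :
    Sw C w (Lf C w q0 σ s) = (q0.1, q0.2 + σ * s) := by simp [Lf]

lemma continuous_Lf (C : Cfg N) (w : List (Fin N)) (q0 : ℝ × ℝ) (σ : ℝ) :
    Continuous (Lf C w q0 σ) := by
  unfold Lf
  exact (continuous_Siw C w).comp (by fun_prop)

lemma PD_cons_fst (C : Cfg N) (k : Fin N) (w : List (Fin N)) (p : ℝ × ℝ) :
    (PD C (k :: w) p).1 =
      (PD C w (S C k p)).1 + 2 * St C (some k) w (S C k p) / alp C (some k) p := rfl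

lemma PD_cons_snd (C : Cfg N) (k : Fin N) (w : List (Fin N)) (p : ℝ × ℝ) :
    (PD C (k :: w) p).2 =
      St C (some k) w (S C k p) +
        (tau C (some k) p - alp C (some k) p) * (PD C (k :: w) p).1 := rfl

lemma St_cons (C : Cfg N) (o : Option (Fin N)) (k : Fin N) (w : List (Fin N)) (p : ℝ × ℝ) :
    St C o (k :: w) p =
      St C (some k) w (S C k p) +
        (tau C (some k) p - alp C (some k) p - pos C o p) * (PD C (k :: w) p).1 := by
  conv_lhs => unfold St
  rw [PD_cons_snd]; ring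

lemma St_nil (C : Cfg N) (o : Option (Fin N)) (p : ℝ × ℝ) : St C o [] p = 1 := by
  simp [St, PD]

lemma hasDerivAt_Lf (C : Cfg N) (o : Option (Fin N)) (w : List (Fin N)) (q0 : ℝ × ℝ) (σ s : ℝ)
    (h : Path C o w (Lf C w q0 σ s)) :
    HasDerivAt (Lf C w q0 σ)
      (-(σ * (-1) ^ w.length) * (PD C w (Lf C w q0 σ s)).1,
        (σ * (-1) ^ w.length) * (PD C w (Lf C w q0 σ s)).2) s := by
  induction w generalizing o with
  | nil =>
    have h1 : HasDerivAt (fun t : ℝ => q0.2 + σ * t) σ s := by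
      simpa using ((hasDerivAt_id s).const_mul σ).const_add q0.2
    have h2 := (hasDerivAt_const s q0.1).prodMk h1
    refine h2.congr_deriv ?_
    simp [PD]
  | cons k w ih =>
    obtain ⟨hN, hP⟩ := h
    have hk := hN.2.1
    rw [S_Lf_cons] at hP
    have hd := ih (some k) hP
    have hb : bet C (some k) (Lf C (k :: w) q0 σ s) = bet C (some k) (Lf C w q0 σ s) := by
      rw [Lf_cons, bet_Si]
    have hal : alp C (some k) (Lf C (k :: w) q0 σ s) = alp C (some k) (Lf C w q0 σ s) :=
      alp_congr C _ hb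
    rw [hb] at hk
    have h3 := hd_Si C k hd hk
    have ha := alp_pos C (some k) hk
    refine h3.congr_deriv ?_
    rw [← Lf_cons]
    have e1 := PD_cons_fst C k w (Lf C (k :: w) q0 σ s)
    have e2 := PD_cons_snd C k w (Lf C (k :: w) q0 σ s)
    rw [S_Lf_cons] at e1 e2
    rw [hal] at e1 e2
    have e3 : St C (some k) w (Lf C w q0 σ s) = (PD C w (Lf C w q0 σ s)).2 -
      (tau C (some k) (Lf C w q0 σ s) + alp C (some k) (Lf C w q0 σ s)) *
        (PD C w (Lf C w q0 σ s)).1 := rfl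
    rw [e2, e1, e3]
    set A := alp C (some k) (Lf C w q0 σ s)
    set P1 := (PD C w (Lf C w q0 σ s)).1
    set D1 := (PD C w (Lf C w q0 σ s)).2
    set t1 := tau C (some k) (Lf C w q0 σ s)
    set t2 := tau C (some k) (Lf C (k :: w) q0 σ s)
    rw [List.length_cons, pow_succ]
    set ε : ℝ := (-1) ^ w.length
    refine Prod.ext ?_ ?_
    · simp only; field_simp; ring
    · simp only; field_simp; ring

/-! ## growth -/

lemma St_growth_aux (C : Cfg N) (w : List (Fin N)) (o : Option (Fin N)) (p : ℝ × ℝ)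
    (ho : |bet C o p| ≤ C.R o) (h : Path C o w p) :
    1 ≤ St C o w p ∧ 0 ≤ (PD C w p).1 ∧ C.d * (PD C w p).1 ≤ St C o w p := by
  induction w generalizing o p with
  | nil => simp [St_nil, PD]
  | cons k w ih =>
    obtain ⟨hN, hP⟩ := h
    have hk := hN.2.1
    obtain ⟨i1, i2, i3⟩ := ih (some k) (S C k p) (by rw [bet_S]; exact hk.le) hP
    have ha := alp_pos C (some k) hk
    have hT := hN.flight ho
    have e1 := PD_cons_fst C k w p
    have e2 := St_cons C o k w p
    have hP1 : 0 ≤ (PD C (k :: w) p).1 := by rw [e1]; positivity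
    have hd := C.dpos
    refine ⟨?_, hP1, ?_⟩
    · rw [e2]; nlinarith
    · rw [e2]; nlinarith

lemma one_le_St {C : Cfg N} {w : List (Fin N)} {o : Option (Fin N)} {p : ℝ × ℝ}
    (ho : |bet C o p| ≤ C.R o) (h : Path C o w p) : 1 ≤ St C o w p :=
  (St_growth_aux C w o p ho h).1

lemma Psi_nonneg {C : Cfg N} {w : List (Fin N)} {o : Option (Fin N)} {p : ℝ × ℝ}
    (ho : |bet C o p| ≤ C.R o) (h : Path C o w p) : 0 ≤ (PD C w p).1 :=
  (St_growth_aux C w o p ho h).2.1

lemma d_Psi_le {C : Cfg N} {w : List (Fin N)} {o : Option (Fin N)} {p : ℝ × ℝ}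
    (ho : |bet C o p| ≤ C.R o) (h : Path C o w p) : C.d * (PD C w p).1 ≤ St C o w p :=
  (St_growth_aux C w o p ho h).2.2

lemma Psi_pos {C : Cfg N} {k : Fin N} {w : List (Fin N)} {o : Option (Fin N)} {p : ℝ × ℝ}
    (h : Path C o (k :: w) p) : 0 < (PD C (k :: w) p).1 := by
  obtain ⟨hN, hP⟩ := h
  have hk := hN.2.1
  have hk' : |bet C (some k) (S C k p)| ≤ C.R (some k) := by rw [bet_S]; exact hk.le
  have i1 := one_le_St hk' hP
  have i2 := Psi_nonneg hk' hP
  have ha := alp_pos C (some k) hk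
  rw [PD_cons_fst]; positivity

lemma St_expand {C : Cfg N} {k : Fin N} {w : List (Fin N)} {o : Option (Fin N)} {p : ℝ × ℝ}
    (ho : |bet C o p| ≤ C.R o) (h : Path C o (k :: w) p) :
    C.L * St C (some k) w (S C k p) ≤ St C o (k :: w) p := by
  obtain ⟨hN, hP⟩ := h
  have hk := hN.2.1
  have hk' : |bet C (some k) (S C k p)| ≤ C.R (some k) := by rw [bet_S]; exact hk.le
  have i1 := one_le_St hk' hP
  have i2 := Psi_nonneg hk' hP
  have ha := alp_pos C (some k) hk
  have hT := hN.flight ho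
  have e1 := PD_cons_fst C k w p
  have e2 := St_cons C o k w p
  have hd := C.dpos
  have hRm := Rm_pos C
  have hale : alp C (some k) p ≤ C.Rm := (alp_le C _ p).trans (R_le_Rm C _)
  rw [e2, e1]
  unfold Cfg.L
  have h1 : 2 * St C (some k) w (S C k p) / C.Rm ≤
      (PD C w (S C k p)).1 + 2 * St C (some k) w (S C k p) / alp C (some k) p := by
    have : 2 * St C (some k) w (S C k p) / C.Rm ≤ 2 * St C (some k) w (S C k p) / alp C (some k) p :=
      div_le_div_of_nonneg_left (by linarith) ha hale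
    linarith
  have h0 : 0 ≤ 2 * St C (some k) w (S C k p) / C.Rm := by positivity
  have h2 : C.d * (2 * St C (some k) w (S C k p) / C.Rm) ≤
    (tau C (some k) p - alp C (some k) p - pos C o p) *
      ((PD C w (S C k p)).1 + 2 * St C (some k) w (S C k p) / alp C (some k) p) :=
    mul_le_mul (by linarith) h1 h0 (by linarith)
  have e : (1 + 2 * C.d / C.Rm) * St C (some k) w (S C k p) =
    St C (some k) w (S C k p) + C.d * (2 * St C (some k) w (S C k p) / C.Rm) := by ring
  rw [e]; linarith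

lemma pow_le_St {C : Cfg N} {w : List (Fin N)} {o : Option (Fin N)} {p : ℝ × ℝ}
    (ho : |bet C o p| ≤ C.R o) (h : Path C o w p) : C.L ^ w.length ≤ St C o w p := by
  induction w generalizing o p with
  | nil => simp [St_nil]
  | cons k w ih =>
    have h1 := St_expand ho h
    have hk := h.1.2.1
    have h2 := ih (o := some k) (p := S C k p) (by rw [bet_S]; exact hk.le) h.2
    rw [List.length_cons, pow_succ]
    have := L_gt_one C
    nlinarith

/-- the width at any position is at most C1 times the width at the start -/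
lemma abs_width_le {C : Cfg N} {w : List (Fin N)} {o : Option (Fin N)} {p : ℝ × ℝ}
    (ho : |bet C o p| ≤ C.R o) (h : Path C o w p) (l : Option (Fin N)) :
    |(PD C w p).2 - tau C l p * (PD C w p).1| ≤ C.C1 * St C o w p := by
  have h1 := one_le_St ho h
  have h2 := Psi_nonneg ho h
  have h3 := d_Psi_le ho h
  have h4 := abs_tau_sub_pos_le C l o p
  have e : (PD C w p).2 - tau C l p * (PD C w p).1 =
      St C o w p - (tau C l p - pos C o p) * (PD C w p).1 := by unfold St; ring
  rw [e]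
  have hd := C.dpos
  have h5 : |(tau C l p - pos C o p) * (PD C w p).1| ≤ C.D0 * (St C o w p / C.d) := by
    rw [abs_mul, abs_of_nonneg h2]
    apply mul_le_mul h4 _ h2 (D0_pos C).le
    rw [le_div_iff₀ hd]; linarith
  have h6 := abs_sub (St C o w p) ((tau C l p - pos C o p) * (PD C w p).1)
  rw [abs_of_nonneg (by linarith : 0 ≤ St C o w p)] at h6
  have e2 : C.C1 * St C o w p = St C o w p + C.D0 * (St C o w p / C.d) := by
    unfold Cfg.C1; ring
  rw [e2]; linarith

end Pool.Agent.Work.MP_5c1620_co
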