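import Pool.Agent.Work.MP_5c1620_co.Leaf1

/-!
# M3, part 2: persistence of the itinerary along stable curves
-/

set_option autoImplicit false
open Real Set MeasureTheory

namespace Pool.Agent.Work.MP_5c1620_co

variable {N : ℕ}

lemma mono_of_hd {g : ℝ → ℝ} {a b : ℝ} (hc : ContinuousOn g (Icc a b))
    (hd : ∀ s ∈ Ioo a b, ∃ g', HasDerivAt g g' s ∧ 0 ≤ g') : MonotoneOn g (Icc a b) := by
  apply monotoneOn_of_deriv_nonneg (convex_Icc a b) hc
  · intro s hs
    rw [interior_Icc] at hs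
    obtain ⟨g', h1, _⟩ := hd s hs
    exact h1.differentiableAt.differentiableWithinAt
  · intro s hs
    rw [interior_Icc] at hs
    obtain ⟨g', h1, h2⟩ := hd s hs
    rw [h1.deriv]; exact h2

/-- Control data along the stable curve F(s) = Lf w q0 σ s, 0 ≤ s ≤ b. -/
structure Ctl (C : Cfg N) (o : Option (Fin N)) (w : List (Fin N)) (q0 : ℝ × ℝ) (σ b : ℝ)
    (X : ℝ → ℝ) (ℓ : ℝ) : Prop where
  path : ∀ s ∈ Ico 0 b, Path C o w (Lf C w q0 σ s)
  dom : ∀ s ∈ Icc 0 b, |bet C o (Lf C w q0 σ s)| ≤ C.R o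
  Xc : ContinuousOn X (Icc 0 b)
  Xd : ∀ s ∈ Ioo 0 b, ∃ x', HasDerivAt X x' s ∧ St C o w (Lf C w q0 σ s) ≤ x'
  Xl : X b - X 0 ≤ ℓ

section
variable {C : Cfg N} {o : Option (Fin N)} {w : List (Fin N)} {q0 : ℝ × ℝ} {σ b : ℝ}
  {X : ℝ → ℝ} {ℓ : ℝ}

lemma Ctl.mono (h : Ctl C o w q0 σ b X ℓ) : MonotoneOn X (Icc 0 b) := by
  apply mono_of_hd h.Xc
  intro s hs
  obtain ⟨x', h1, h2⟩ := h.Xd s hs
  have h3 := one_le_St (h.dom s ⟨hs.1.le, hs.2.le⟩) (h.path s ⟨hs.1.le, hs.2⟩)
  exact ⟨x', h1, by linarith⟩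

lemma Ctl.le (h : Ctl C o w q0 σ b X ℓ) {s : ℝ} (hs : s ∈ Icc 0 b) : X s - X 0 ≤ ℓ := by
  have := h.mono hs (⟨hs.1.trans hs.2, le_rfl⟩ : b ∈ Icc 0 b) hs.2
  linarith [h.Xl]

lemma Ctl.nonneg (h : Ctl C o w q0 σ b X ℓ) {s : ℝ} (hs : s ∈ Icc 0 b) : 0 ≤ X s - X 0 := by
  have := h.mono (⟨le_rfl, hs.1.trans hs.2⟩ : (0 : ℝ) ∈ Icc 0 b) hs hs.1
  linarith

/-- derivative of bet along the curve, multiplied by the sign of motion -/
lemma Ctl.hd (hσ : σ ^ 2 = 1) (h : Ctl C o w q0 σ b X ℓ) (l : Option (Fin N)) {s : ℝ}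
    (hs : s ∈ Ioo 0 b) :
    HasDerivAt (fun t => (σ * (-1) ^ w.length) * bet C l (Lf C w q0 σ t))
      ((PD C w (Lf C w q0 σ s)).2 - tau C l (Lf C w q0 σ s) * (PD C w (Lf C w q0 σ s)).1) s := by
  have h1 := hd_bet C l (hasDerivAt_Lf C o w q0 σ s (h.path s ⟨hs.1.le, hs.2⟩))
  refine (h1.const_mul (σ * (-1) ^ w.length)).congr_deriv ?_
  have e : (σ * (-1) ^ w.length) * (σ * (-1) ^ w.length) = (1 : ℝ) := by
    have : ((-1 : ℝ) ^ w.length) * (-1) ^ w.length = 1 := by
      rw [← mul_pow]; simp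
    calc (σ * (-1) ^ w.length) * (σ * (-1) ^ w.length)
        = σ ^ 2 * (((-1 : ℝ) ^ w.length) * (-1) ^ w.length) := by ring
      _ = 1 := by rw [hσ, this]; ring
  linear_combination ((PD C w (Lf C w q0 σ s)).2 -
    tau C l (Lf C w q0 σ s) * (PD C w (Lf C w q0 σ s)).1) * e

lemma Ctl.bet_cont (l : Option (Fin N)) (c : ℝ) :
    ContinuousOn (fun t => c * bet C l (Lf C w q0 σ t)) (Icc 0 b) :=
  (continuous_const.mul ((continuous_bet C l).comp (continuous_Lf C w q0 σ))).continuousOn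

/-- sign of motion -/
lemma sgn_sq (hσ : σ ^ 2 = 1) (n : ℕ) : (σ * (-1) ^ n) ^ 2 = 1 := by
  rw [mul_pow, hσ, ← pow_mul, mul_comm n 2, pow_mul]; simp

lemma abs_sgn (hσ : σ ^ 2 = 1) (n : ℕ) : |σ * (-1) ^ n| = 1 := by
  have h := sgn_sq hσ n
  have : |σ * (-1) ^ n| ^ 2 = 1 := by rw [sq_abs]; exact h
  have h0 := abs_nonneg (σ * (-1) ^ n)
  nlinarith

/-- variation of bet is controlled by X -/
lemma Ctl.abs_bet (hσ : σ ^ 2 = 1) (h : Ctl C o w q0 σ b X ℓ) (l : Option (Fin N))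
    {s t : ℝ} (hs : s ∈ Icc 0 b) (ht : t ∈ Icc 0 b) (hst : s ≤ t) :
    |bet C l (Lf C w q0 σ t) - bet C l (Lf C w q0 σ s)| ≤ C.C1 * (X t - X s) := by
  set κ := σ * (-1) ^ w.length with hκ
  have hκ1 : |κ| = 1 := abs_sgn hσ _
  have m1 : MonotoneOn (fun t => C.C1 * X t - κ * bet C l (Lf C w q0 σ t)) (Icc 0 b) := by
    apply mono_of_hd ((continuousOn_const.mul h.Xc).sub (Ctl.bet_cont l κ))
    intro r hr
    obtain ⟨x', h1, h2⟩ := h.Xd r hr
    refine ⟨_, (h1.const_mul C.C1).sub (h.hd hσ l hr), ?_⟩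
    have h3 := abs_le.1 (abs_width_le (h.dom r ⟨hr.1.le, hr.2.le⟩) (h.path r ⟨hr.1.le, hr.2⟩) l)
    have := C1_ge_one C
    nlinarith
  have m2 : MonotoneOn (fun t => C.C1 * X t + κ * bet C l (Lf C w q0 σ t)) (Icc 0 b) := by
    apply mono_of_hd ((continuousOn_const.mul h.Xc).add (Ctl.bet_cont l κ))
    intro r hr
    obtain ⟨x', h1, h2⟩ := h.Xd r hr
    refine ⟨_, (h1.const_mul C.C1).add (h.hd hσ l hr), ?_⟩
    have h3 := abs_le.1 (abs_width_le (h.dom r ⟨hr.1.le, hr.2.le⟩) (h.path r ⟨hr.1.le, hr.2⟩) l)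
    have := C1_ge_one C
    nlinarith
  have k1 := m1 hs ht hst
  have k2 := m2 hs ht hst
  simp only at k1 k2
  have e : |bet C l (Lf C w q0 σ t) - bet C l (Lf C w q0 σ s)| =
      |κ * (bet C l (Lf C w q0 σ t) - bet C l (Lf C w q0 σ s))| := by
    rw [abs_mul, hκ1, one_mul]
  rw [e, abs_le]
  constructor <;> linarith

/-- variation of tau is controlled by X -/
lemma Ctl.abs_tau (hσ : σ ^ 2 = 1) (h : Ctl C o w q0 σ b X ℓ) (l : Option (Fin N))
    {s t : ℝ} (hs : s ∈ Icc 0 b) (ht : t ∈ Icc 0 b) (hst : s ≤ t) :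
    |tau C l (Lf C w q0 σ t) - tau C l (Lf C w q0 σ s)| ≤ C.Cm / C.d * (X t - X s) := by
  have hd := C.dpos
  have key : ∀ r ∈ Ioo 0 b, |(-C.cx l * sin (Lf C w q0 σ r).1 + C.cy l * cos (Lf C w q0 σ r).1) *
      (-(σ * (-1) ^ w.length) * (PD C w (Lf C w q0 σ r)).1)| ≤
        C.Cm / C.d * St C o w (Lf C w q0 σ r) := by
    intro r hr
    have hp := h.path r ⟨hr.1.le, hr.2⟩
    have hdm := h.dom r ⟨hr.1.le, hr.2.le⟩
    have h1 := abs_tau_deriv_le C l (Lf C w q0 σ r)
    have h2 := Psi_nonneg hdm hp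
    have h3 := d_Psi_le hdm hp
    rw [abs_mul, abs_mul, abs_neg, abs_sgn hσ, one_mul, abs_of_nonneg h2]
    have h4 : (PD C w (Lf C w q0 σ r)).1 ≤ St C o w (Lf C w q0 σ r) / C.d := by
      rw [le_div_iff₀ hd]; linarith
    calc _ ≤ C.Cm * (St C o w (Lf C w q0 σ r) / C.d) := mul_le_mul h1 h4 h2 (Cm_nonneg C)
      _ = _ := by ring
  have hc : ContinuousOn (fun t => tau C l (Lf C w q0 σ t)) (Icc 0 b) :=
    ((continuous_tau C l).comp (continuous_Lf C w q0 σ)).continuousOn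
  have hcd : 0 ≤ C.Cm / C.d := div_nonneg (Cm_nonneg C) hd.le
  have m1 : MonotoneOn (fun t => C.Cm / C.d * X t - tau C l (Lf C w q0 σ t)) (Icc 0 b) := by
    apply mono_of_hd ((continuousOn_const.mul h.Xc).sub hc)
    intro r hr
    obtain ⟨x', h1, h2⟩ := h.Xd r hr
    refine ⟨_, (h1.const_mul _).sub (hd_tau C l
      (hasDerivAt_Lf C o w q0 σ r (h.path r ⟨hr.1.le, hr.2⟩))), ?_⟩
    have h3 := (abs_le.1 (key r hr)).2
    have := mul_le_mul_of_nonneg_left h2 hcd
    linarith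
  have m2 : MonotoneOn (fun t => C.Cm / C.d * X t + tau C l (Lf C w q0 σ t)) (Icc 0 b) := by
    apply mono_of_hd ((continuousOn_const.mul h.Xc).add hc)
    intro r hr
    obtain ⟨x', h1, h2⟩ := h.Xd r hr
    refine ⟨_, (h1.const_mul _).add (hd_tau C l
      (hasDerivAt_Lf C o w q0 σ r (h.path r ⟨hr.1.le, hr.2⟩))), ?_⟩
    have h3 := (abs_le.1 (key r hr)).1
    have := mul_le_mul_of_nonneg_left h2 hcd
    linarith
  have k1 := m1 hs ht hst
  have k2 := m2 hs ht hst
  simp only at k1 k2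
  rw [abs_le]
  constructor <;> linarith

end

section first
variable {C : Cfg N} {o : Option (Fin N)} {k : Fin N} {w : List (Fin N)} {q0 : ℝ × ℝ} {σ b : ℝ}
  {X : ℝ → ℝ} {ℓ : ℝ}

/-- the hit mirror moves in the direction opposite to the sign of motion -/
lemma Ctl.anti_hit (hσ : σ ^ 2 = 1) (h : Ctl C o (k :: w) q0 σ b X ℓ) :
    AntitoneOn (fun t => (σ * (-1) ^ (k :: w).length) * bet C (some k) (Lf C (k :: w) q0 σ t))
      (Icc 0 b) := by
  have : MonotoneOn (fun t => -((σ * (-1) ^ (k :: w).length) *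
      bet C (some k) (Lf C (k :: w) q0 σ t))) (Icc 0 b) := by
    apply mono_of_hd (Ctl.bet_cont (some k) _).neg
    intro r hr
    refine ⟨_, (h.hd hσ (some k) hr).neg, ?_⟩
    obtain ⟨hN, hP⟩ := h.path r ⟨hr.1.le, hr.2⟩
    have hk := hN.2.1
    have hk' : |bet C (some k) (S C k (Lf C (k :: w) q0 σ r))| ≤ C.R (some k) := by
      rw [bet_S]; exact hk.le
    have i1 := one_le_St hk' hP
    have i2 := Psi_nonneg hk' hP
    have ha := alp_pos C (some k) hk
    rw [PD_cons_snd]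
    have e : alp C (some k) (Lf C (k :: w) q0 σ r) * (PD C (k :: w) (Lf C (k :: w) q0 σ r)).1 =
      alp C (some k) (Lf C (k :: w) q0 σ r) * (PD C w (S C k (Lf C (k :: w) q0 σ r))).1 +
        2 * St C (some k) w (S C k (Lf C (k :: w) q0 σ r)) := by
      rw [PD_cons_fst]; field_simp
    have := mul_nonneg ha.le i2
    nlinarith
  intro x hx y hy hxy
  have := this hx hy hxy
  simp only at this ⊢
  linarith

/-- First flight persistence. -/
lemma Ctl.first (hσ : σ ^ 2 = 1) (hb : 0 < b) (hℓ : 0 < ℓ) (hℓd : C.C1 * ℓ ≤ C.d / 2)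
    (h : Ctl C o (k :: w) q0 σ b X ℓ)
    (hK : ¬ Kill C 0 o (σ * (-1) ^ (k :: w).length) (2 * (C.C1 * ℓ)) (Lf C (k :: w) q0 σ 0)) :
    Nx C o k (Lf C (k :: w) q0 σ b) := by
  set κ := σ * (-1) ^ (k :: w).length with hκ
  set F := Lf C (k :: w) q0 σ with hF
  have hκ2 : κ ^ 2 = 1 := sgn_sq hσ _
  have hκ1 : |κ| = 1 := abs_sgn hσ _
  have hC1 := C1_ge_one C
  have hd := C.dpos
  have h0m : (0 : ℝ) ∈ Icc 0 b := ⟨le_rfl, hb.le⟩
  have hbm : b ∈ Icc 0 b := ⟨hb.le, le_rfl⟩
  have hFc : Continuous F := continuous_Lf C _ q0 σ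
  have hN0 : Nx C o k (F 0) := (h.path 0 ⟨le_rfl, hb⟩).1
  have hko := hN0.ne
  -- bound on variations
  have hvar : ∀ l, ∀ s ∈ Icc 0 b, |bet C l (F s) - bet C l (F 0)| ≤ C.C1 * ℓ := by
    intro l s hs
    refine (h.abs_bet hσ l h0m hs hs.1).trans ?_
    exact mul_le_mul_of_nonneg_left (h.le hs) (by linarith)
  -- κ * (κ * x) = x
  have hκκ : ∀ x : ℝ, κ * (κ * x) = x := by
    intro x; calc κ * (κ * x) = κ ^ 2 * x := by ring
      _ = x := by rw [hκ2, one_mul]
  have habsκ : ∀ x : ℝ, |κ * x| = |x| := by intro x; rw [abs_mul, hκ1, one_mul]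
  -- the hit mirror
  have hkb : |bet C (some k) (F b)| < C.R (some k) := by
    have hanti := h.anti_hit hσ h0m hbm hb.le
    simp only at hanti
    rw [← hκ, ← hF] at hanti
    have hv := abs_le.1 (hvar (some k) b hbm)
    have hv' : |κ * bet C (some k) (F b) - κ * bet C (some k) (F 0)| ≤ C.C1 * ℓ := by
      rw [← mul_sub, habsκ]; exact hvar (some k) b hbm
    have hv2 := abs_le.1 hv'
    have h0 := hN0.2.1
    rw [← habsκ] at h0
    have h02 := abs_lt.1 h0
    have hnk : 2 * (C.C1 * ℓ) < |bet C (some k) (F 0) + κ * C.R (some k)| := by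
      by_contra hcon
      exact hK ⟨k, hko, hN0.1.le, not_lt.1 hcon, hN0.toW.2.2.2⟩
    have e1 : κ * (bet C (some k) (F 0) + κ * C.R (some k)) =
        κ * bet C (some k) (F 0) + C.R (some k) := by
      linear_combination C.R (some k) * hκ2
    rw [← habsκ, e1, abs_of_pos (by linarith)] at hnk
    rw [← habsκ, abs_lt]
    have : 0 < C.C1 * ℓ := by positivity
    constructor <;> linarith
  -- order of o and k at b
  have htk : tau C o (F b) < tau C (some k) (F b) := by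
    have hle : tau C o (F b) ≤ tau C (some k) (F b) := by
      have hcl : IsClosed {s : ℝ | tau C o (F s) ≤ tau C (some k) (F s)} :=
        isClosed_le ((continuous_tau C o).comp hFc) ((continuous_tau C _).comp hFc)
      have : b ∈ closure (Ico 0 b) := by
        rw [closure_Ico hb.ne]; exact hbm
      exact hcl.closure_subset_iff.2 (fun s hs => (h.path s hs).1.1.le) this
    have := sep_tau0 C (Ne.symm hko) (h.dom b hbm) hkb.le hle
    have := alp_nonneg C o (F b)
    have := alp_nonneg C (some k) (F b)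
    rw [← hF] at *
    linarith
  refine ⟨htk, hkb, ?_⟩
  intro m hm1 hm2
  by_contra hcon
  push Not at hcon
  have hmo : (some m : Option (Fin N)) ≠ o := by
    rintro rfl; exact lt_irrefl _ hm1
  have hmk : (some m : Option (Fin N)) ≠ some k := by
    intro hh; rw [hh] at hm2; exact lt_irrefl _ hm2
  -- |bet m| ≤ R m + C1 ℓ everywhere... with margin d/2 * 2
  have hmb : ∀ s ∈ Icc 0 b, |bet C (some m) (F s)| ≤ C.R (some m) + C.C1 * ℓ := by
    intro s hs
    have hv := h.abs_bet hσ (some m) hs hbm hs.2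
    have hXs := h.nonneg hs
    have hXb := h.le hbm
    have h3 : C.C1 * (X b - X s) ≤ C.C1 * ℓ :=
      mul_le_mul_of_nonneg_left (by linarith) (by linarith)
    rw [← hF] at hv
    have := abs_sub_abs_le_abs_sub (bet C (some m) (F s)) (bet C (some m) (F b))
    rw [abs_sub_comm] at this
    linarith
  have hkR : ∀ s ∈ Icc 0 b, |bet C (some k) (F s)| ≤ C.R (some k) := by
    intro s hs
    rcases eq_or_lt_of_le hs.2 with h1 | h1
    · rw [h1]; exact hkb.le
    · exact (h.path s ⟨hs.1, h1⟩).1.2.1.le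
  -- order of o, m, k is constant
  have ho1 : ∀ s ∈ Icc 0 b, tau C o (F s) < tau C (some m) (F s) := by
    by_contra hcon2
    push Not at hcon2
    obtain ⟨s, hs, hs2⟩ := hcon2
    have hcont : ContinuousOn (fun t => tau C (some m) (F t) - tau C o (F t)) (Icc s b) :=
      (((continuous_tau C _).comp hFc).sub ((continuous_tau C _).comp hFc)).continuousOn
    have := intermediate_value_Icc hs.2 hcont
    have hz : (0 : ℝ) ∈ Icc (tau C (some m) (F s) - tau C o (F s))
        (tau C (some m) (F b) - tau C o (F b)) := ⟨by linarith, by linarith⟩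
    obtain ⟨r, hr, hr2⟩ := this hz
    simp only at hr2
    have hrm : r ∈ Icc 0 b := ⟨hs.1.trans hr.1, hr.2⟩
    have h5 := sep_tau C (Ne.symm hmo) (p := F r) (g := 0) (g' := C.C1 * ℓ) le_rfl (by positivity)
      (by linarith) (by simpa using h.dom r hrm) (hmb r hrm) (by linarith)
    have := alp_nonneg C o (F r)
    have := alp_nonneg C (some m) (F r)
    linarith
  have ho2 : ∀ s ∈ Icc 0 b, tau C (some m) (F s) < tau C (some k) (F s) := by
    by_contra hcon2
    push Not at hcon2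
    obtain ⟨s, hs, hs2⟩ := hcon2
    have hcont : ContinuousOn (fun t => tau C (some k) (F t) - tau C (some m) (F t)) (Icc s b) :=
      (((continuous_tau C _).comp hFc).sub ((continuous_tau C _).comp hFc)).continuousOn
    have := intermediate_value_Icc hs.2 hcont
    have hz : (0 : ℝ) ∈ Icc (tau C (some k) (F s) - tau C (some m) (F s))
        (tau C (some k) (F b) - tau C (some m) (F b)) := ⟨by linarith, by linarith⟩
    obtain ⟨r, hr, hr2⟩ := this hz
    simp only at hr2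
    have hrm : r ∈ Icc 0 b := ⟨hs.1.trans hr.1, hr.2⟩
    have h5 := sep_tau C hmk (p := F r) (g := C.C1 * ℓ) (g' := 0) (by positivity) le_rfl
      (by linarith) (hmb r hrm) (by simpa using hkR r hrm) (by linarith)
    have := alp_nonneg C (some k) (F r)
    have := alp_nonneg C (some m) (F r)
    linarith
  -- passing before b
  have hpass : ∀ s ∈ Ico 0 b, C.R (some m) < |bet C (some m) (F s)| := by
    intro s hs
    exact (h.path s hs).1.2.2 m (ho1 s ⟨hs.1, hs.2.le⟩) (ho2 s ⟨hs.1, hs.2.le⟩)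
  -- monotone in the direction κ
  have hmono : MonotoneOn (fun t => κ * bet C (some m) (F t)) (Icc 0 b) := by
    apply mono_of_hd (Ctl.bet_cont (some m) κ)
    intro r hr
    refine ⟨_, h.hd hσ (some m) hr, ?_⟩
    have hrm : r ∈ Icc 0 b := ⟨hr.1.le, hr.2.le⟩
    obtain ⟨hN, hP⟩ := h.path r ⟨hr.1.le, hr.2⟩
    have hk := hN.2.1
    have hk' : |bet C (some k) (S C k (Lf C (k :: w) q0 σ r))| ≤ C.R (some k) := by
      rw [bet_S]; exact hk.le
    have i1 := one_le_St hk' hP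
    have i2 := Psi_nonneg (h.dom r hrm) (h.path r ⟨hr.1.le, hr.2⟩)
    have h5 := sep_tau C hmk (p := F r) (g := C.C1 * ℓ) (g' := 0) (by positivity) le_rfl
      (by linarith) (hmb r hrm) (by simpa using hkR r hrm) (ho2 r hrm).le
    have := alp_nonneg C (some m) (F r)
    rw [PD_cons_snd]
    have h6 : 0 ≤ (tau C (some k) (F r) - alp C (some k) (F r) - tau C (some m) (F r)) *
        (PD C (k :: w) (F r)).1 := mul_nonneg (by linarith) i2
    rw [← hF] at *
    nlinarith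
  -- conclude
  have hub : κ * bet C (some m) (F b) ≤ C.R (some m) := by
    have := le_abs_self (κ * bet C (some m) (F b))
    rw [habsκ] at this; linarith
  have hlt : ∀ s ∈ Ico 0 b, κ * bet C (some m) (F s) < - C.R (some m) := by
    intro s hs
    have h1 := hmono ⟨hs.1, hs.2.le⟩ hbm hs.2.le
    simp only at h1
    have h2 := hpass s hs
    rw [← habsκ] at h2
    rcases lt_abs.1 h2 with h3 | h3
    · linarith
    · linarith
  have hub2 : κ * bet C (some m) (F b) ≤ - C.R (some m) := by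
    have hcl : IsClosed {s : ℝ | κ * bet C (some m) (F s) ≤ - C.R (some m)} :=
      isClosed_le (continuous_const.mul ((continuous_bet C _).comp hFc)) continuous_const
    have : b ∈ closure (Ico 0 b) := by
      rw [closure_Ico hb.ne]; exact hbm
    exact hcl.closure_subset_iff.2 (fun s hs => (hlt s hs).le) this
  have hlb : - C.R (some m) ≤ κ * bet C (some m) (F b) := by
    have := neg_abs_le (κ * bet C (some m) (F b))
    rw [habsκ] at this; linarith
  have heq : κ * bet C (some m) (F b) = - C.R (some m) := le_antisymm hub2 hlb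
  apply hK
  refine ⟨m, hmo, (ho1 0 h0m).le, ?_, ?_⟩
  · have e1 : κ * (bet C (some m) (F 0) + κ * C.R (some m)) =
        κ * bet C (some m) (F 0) + C.R (some m) := by
      linear_combination C.R (some m) * hκ2
    rw [← habsκ, e1]
    have hv' : |κ * bet C (some m) (F b) - κ * bet C (some m) (F 0)| ≤ C.C1 * ℓ := by
      rw [← mul_sub, habsκ]; exact hvar (some m) b hbm
    rw [heq] at hv'
    have hv2 := abs_le.1 hv'
    have hp : 0 < C.C1 * ℓ := by positivity
    rw [abs_le]; constructor <;> linarith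
  · intro m' ⟨h1, h2, h3⟩
    exact absurd (hN0.2.2 m' h1 (h2.trans (ho2 0 h0m))) (not_lt.2 h3.le)

end first

end Pool.Agent.Work.MP_5c1620_co
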