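import Pool.Agent.Work.MP_5c1620_co.Leaf2

/-!
# M3, part 3: persistence by induction, openness of itineraries, existence of stable leaves
-/

set_option autoImplicit false
open Real Set MeasureTheory Filter Topology

namespace Pool.Agent.Work.MP_5c1620_co

variable {N : ℕ}

lemma Kill_mono (C : Cfg N) (j : ℕ) (o : Option (Fin N)) (e : ℝ) {ε ε' : ℝ} (h : ε ≤ ε')
    (p : ℝ × ℝ) (hK : Kill C j o e ε p) : Kill C j o e ε' p := by
  induction j generalizing o e p with
  | zero =>
    obtain ⟨l, h1, h2, h3, h4⟩ := hK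
    exact ⟨l, h1, h2, h3.trans h, h4⟩
  | succ j ih =>
    obtain ⟨k, h1, h2⟩ := hK
    exact ⟨k, h1, ih _ _ _ h2⟩

section
variable {C : Cfg N} {o : Option (Fin N)} {k : Fin N} {w : List (Fin N)} {q0 : ℝ × ℝ} {σ b : ℝ}
  {X : ℝ → ℝ} {ℓ : ℝ}

lemma Ctl.restrict (h : Ctl C o w q0 σ b X ℓ) {s : ℝ} (hs : s ∈ Icc 0 b) :
    Ctl C o w q0 σ s X ℓ where
  path r hr := h.path r ⟨hr.1, lt_of_lt_of_le hr.2 hs.2⟩
  dom r hr := h.dom r ⟨hr.1, hr.2.trans hs.2⟩
  Xc := h.Xc.mono (Icc_subset_Icc le_rfl hs.2)
  Xd r hr := h.Xd r ⟨hr.1, lt_of_lt_of_le hr.2 hs.2⟩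
  Xl := h.le hs

/-- passing to the next flight -/
lemma Ctl.next (h : Ctl C o (k :: w) q0 σ b X ℓ)
    (hk : |bet C (some k) (Lf C (k :: w) q0 σ b)| < C.R (some k)) :
    Ctl C (some k) w q0 σ b (fun s => X s / C.L) (ℓ / C.L) where
  path s hs := by
    have := (h.path s hs).2
    rwa [S_Lf_cons] at this
  dom s hs := by
    have e : bet C (some k) (Lf C w q0 σ s) = bet C (some k) (Lf C (k :: w) q0 σ s) := by
      rw [Lf_cons, bet_Si]
    rw [e]
    rcases eq_or_lt_of_le hs.2 with h1 | h1
    · rw [h1]; exact hk.le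
    · exact (h.path s ⟨hs.1, h1⟩).1.2.1.le
  Xc := h.Xc.div_const _
  Xd s hs := by
    obtain ⟨x', h1, h2⟩ := h.Xd s hs
    refine ⟨x' / C.L, h1.div_const _, ?_⟩
    have hL : 0 < C.L := by linarith [L_gt_one C]
    have h3 := St_expand (h.dom s ⟨hs.1.le, hs.2.le⟩) (h.path s ⟨hs.1.le, hs.2⟩)
    rw [S_Lf_cons] at h3
    rw [le_div_iff₀ hL]; linarith
  Xl := by
    have hL : 0 < C.L := by linarith [L_gt_one C]
    rw [← sub_div]
    exact div_le_div_of_nonneg_right h.Xl hL.le

end

lemma neg_sgn_cons (σ : ℝ) (k : ℕ) : -(σ * (-1) ^ (k + 1)) = σ * (-1) ^ k := by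
  rw [pow_succ]; ring

/-- Persistence of the whole itinerary (3.5). -/
theorem Ctl.persist {C : Cfg N} {q0 : ℝ × ℝ} {σ b : ℝ} (hσ : σ ^ 2 = 1) (hb : 0 < b)
    (w : List (Fin N)) : ∀ (o : Option (Fin N)) (X : ℝ → ℝ) (ℓ : ℝ), 0 < ℓ →
    C.C1 * ℓ ≤ C.d / 2 → Ctl C o w q0 σ b X ℓ →
    (∀ j < w.length, ¬ Kill C j o (σ * (-1) ^ w.length) (2 * (C.C1 * (ℓ / C.L ^ j)))
      (Lf C w q0 σ 0)) → Path C o w (Lf C w q0 σ b) := by
  induction w with
  | nil => intros; trivial
  | cons k w ih =>
    intro o X ℓ hℓ hℓd h hK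
    have hN := h.first hσ hb hℓ hℓd (by simpa using hK 0 (by simp))
    have hL := L_gt_one C
    have hL0 : 0 < C.L := by linarith
    refine ⟨hN, ?_⟩
    rw [S_Lf_cons]
    have hnx := h.next hN.2.1
    have hle : ℓ / C.L ≤ ℓ := by
      rw [div_le_iff₀ hL0]; nlinarith
    have hC1 := C1_ge_one C
    refine ih (some k) _ _ (by positivity) ?_ hnx ?_
    · calc C.C1 * (ℓ / C.L) ≤ C.C1 * ℓ := mul_le_mul_of_nonneg_left hle (by linarith)
        _ ≤ _ := hℓd
    · intro j hj hKj
      apply hK (j + 1) (by simpa using hj)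
      refine ⟨k, (h.path 0 ⟨le_rfl, hb⟩).1.toW, ?_⟩
      rw [S_Lf_cons, List.length_cons, neg_sgn_cons]
      have e : ℓ / C.L ^ (j + 1) = ℓ / C.L / C.L ^ j := by
        rw [pow_succ]; field_simp
      rw [e]; exact hKj

/-! ## openness -/

lemma Nx_open {C : Cfg N} {o : Option (Fin N)} {k : Fin N} {p : ℝ × ℝ}
    (ho : |bet C o p| ≤ C.R o) (h : Nx C o k p) : ∀ᶠ q in 𝓝 p, Nx C o k q := by
  have ct := fun l => (continuous_tau C l)
  have cb := fun l => (continuous_bet C l).abs
  have h1 : ∀ᶠ q in 𝓝 p, tau C o q < tau C (some k) q :=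
    (isOpen_lt (ct o) (ct _)).mem_nhds h.1
  have h2 : ∀ᶠ q in 𝓝 p, |bet C (some k) q| < C.R (some k) :=
    (isOpen_lt (cb _) continuous_const).mem_nhds h.2.1
  have h3 : ∀ᶠ q in 𝓝 p, ∀ m : Fin N, tau C o q < tau C (some m) q →
      tau C (some m) q < tau C (some k) q → C.R (some m) < |bet C (some m) q| := by
    rw [eventually_all]
    intro m
    by_cases hm : C.R (some m) < |bet C (some m) p|
    · have : ∀ᶠ q in 𝓝 p, C.R (some m) < |bet C (some m) q| :=
        (isOpen_lt continuous_const (cb _)).mem_nhds hm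
      filter_upwards [this] with q hq _ _ using hq
    · push Not at hm
      by_cases hmo : (some m : Option (Fin N)) = o
      · filter_upwards with q h4
        rw [hmo] at h4; exact absurd h4 (lt_irrefl _)
      by_cases hmk : (some m : Option (Fin N)) = some k
      · filter_upwards with q _ h4
        rw [hmk] at h4; exact absurd h4 (lt_irrefl _)
      by_cases h5 : tau C o p < tau C (some m) p
      · have h6 : tau C (some k) p ≤ tau C (some m) p := by
          by_contra hcon
          push Not at hcon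
          exact absurd (h.2.2 m h5 hcon) (not_lt.2 hm)
        have h7 := sep_tau0 C (Ne.symm hmk) h.2.1.le hm h6
        have := alp_nonneg C (some k) p
        have := alp_nonneg C (some m) p
        have := C.dpos
        have h8 : tau C (some k) p < tau C (some m) p := by linarith
        have : ∀ᶠ q in 𝓝 p, tau C (some k) q < tau C (some m) q :=
          (isOpen_lt (ct _) (ct _)).mem_nhds h8
        filter_upwards [this] with q hq _ h9
        exact absurd h9 (not_lt.2 hq.le)
      · push Not at h5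
        have h7 := sep_tau0 C hmo hm ho h5
        have := alp_nonneg C o p
        have := alp_nonneg C (some m) p
        have := C.dpos
        have h8 : tau C (some m) p < tau C o p := by linarith
        have : ∀ᶠ q in 𝓝 p, tau C (some m) q < tau C o q :=
          (isOpen_lt (ct _) (ct _)).mem_nhds h8
        filter_upwards [this] with q hq h9
        exact absurd h9 (not_lt.2 hq.le)
  filter_upwards [h1, h2, h3] with q a1 a2 a3 using ⟨a1, a2, a3⟩

lemma Path_open {C : Cfg N} {w : List (Fin N)} {o : Option (Fin N)} {p : ℝ × ℝ}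
    (ho : |bet C o p| ≤ C.R o) (h : Path C o w p) : ∀ᶠ q in 𝓝 p, Path C o w q := by
  induction w generalizing o p with
  | nil => exact Eventually.of_forall fun _ => trivial
  | cons k w ih =>
    have h1 := Nx_open ho h.1
    have h2 := ih (o := some k) (p := S C k p) (by rw [bet_S]; exact h.1.2.1.le) h.2
    have h3 := (continuous_S C k).continuousAt.eventually h2
    filter_upwards [h1, h3] with q a1 a2 using ⟨a1, a2⟩

lemma Fr_open {C : Cfg N} {o : Option (Fin N)} {p : ℝ × ℝ}
    (ho : |bet C o p| ≤ C.R o) (h : Fr C o p) : ∀ᶠ q in 𝓝 p, Fr C o q := by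
  have ct := fun l => (continuous_tau C l)
  have cb := fun l => (continuous_bet C l).abs
  unfold Fr
  rw [eventually_all]
  intro m
  by_cases hm : C.R (some m) < |bet C (some m) p|
  · have : ∀ᶠ q in 𝓝 p, C.R (some m) < |bet C (some m) q| :=
      (isOpen_lt continuous_const (cb _)).mem_nhds hm
    filter_upwards [this] with q hq _ using hq
  · push Not at hm
    by_cases hmo : (some m : Option (Fin N)) = o
    · filter_upwards with q h4
      rw [hmo] at h4; exact absurd h4 (lt_irrefl _)
    have h5 : tau C (some m) p ≤ tau C o p := by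
      by_contra hcon
      push Not at hcon
      exact absurd (h m hcon) (not_lt.2 hm)
    have h7 := sep_tau0 C hmo hm ho h5
    have := alp_nonneg C o p
    have := alp_nonneg C (some m) p
    have := C.dpos
    have h8 : tau C (some m) p < tau C o p := by linarith
    have : ∀ᶠ q in 𝓝 p, tau C (some m) q < tau C o q :=
      (isOpen_lt (ct _) (ct _)).mem_nhds h8
    filter_upwards [this] with q hq h9
    exact absurd h9 (not_lt.2 hq.le)

end Pool.Agent.Work.MP_5c1620_co
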