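import Pool.Agent.Work.MP_5c1620_co.Leaf3

/-!
# M3, part 4: existence of stable leaves in the chart, escape version
-/

set_option autoImplicit false
open Real Set MeasureTheory Filter Topology

namespace Pool.Agent.Work.MP_5c1620_co

variable {N : ℕ}

lemma sgn_mul_self {σ : ℝ} (hσ : σ ^ 2 = 1) (n : ℕ) : (σ * (-1) ^ n) * (σ * (-1) ^ n) = 1 := by
  have := sgn_sq hσ n
  rw [sq] at this; exact this

lemma hd_bet_Lf (C : Cfg N) (o : Option (Fin N)) (w : List (Fin N)) (q0 : ℝ × ℝ) {σ : ℝ}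
    (hσ : σ ^ 2 = 1) (s : ℝ) (h : Path C o w (Lf C w q0 σ s)) (l : Option (Fin N)) :
    HasDerivAt (fun t => (σ * (-1) ^ w.length) * bet C l (Lf C w q0 σ t))
      ((PD C w (Lf C w q0 σ s)).2 - tau C l (Lf C w q0 σ s) * (PD C w (Lf C w q0 σ s)).1) s := by
  have h1 := hd_bet C l (hasDerivAt_Lf C o w q0 σ s h)
  refine (h1.const_mul (σ * (-1) ^ w.length)).congr_deriv ?_
  have e := sgn_mul_self hσ w.length
  linear_combination ((PD C w (Lf C w q0 σ s)).2 -
    tau C l (Lf C w q0 σ s) * (PD C w (Lf C w q0 σ s)).1) * e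

lemma hd_chart (C : Cfg N) (w : List (Fin N)) (q0 : ℝ × ℝ) {σ : ℝ}
    (hσ : σ ^ 2 = 1) (s : ℝ) (h : Path C none w (Lf C w q0 σ s)) :
    HasDerivAt (fun t => (σ * (-1) ^ w.length) * bet C none (Lf C w q0 σ t))
      (St C none w (Lf C w q0 σ s)) s := hd_bet_Lf C none w q0 hσ s h none

/-- The displacement function in the chart. -/
noncomputable def Xf (C : Cfg N) (w : List (Fin N)) (q0 : ℝ × ℝ) (σ : ℝ) (s : ℝ) : ℝ :=
  (σ * (-1) ^ w.length) * bet C none (Lf C w q0 σ s)

lemma continuous_Xf (C : Cfg N) (w : List (Fin N)) (q0 : ℝ × ℝ) (σ : ℝ) :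
    Continuous (Xf C w q0 σ) :=
  continuous_const.mul ((continuous_bet C none).comp (continuous_Lf C w q0 σ))

/-- Existence of stable leaves (3.6). -/
theorem leaf_exists {C : Cfg N} {w : List (Fin N)} {p : ℝ × ℝ} {σ h : ℝ} (hσ : σ ^ 2 = 1)
    (hh : 0 < h) (hhd : C.C1 * h ≤ C.d / 2) (hp : |bet C none p| + h ≤ C.R none)
    (hP : Path C none w p)
    (hK : ∀ j < w.length, ¬ Kill C j none (σ * (-1) ^ w.length) (2 * (C.C1 * (h / C.L ^ j))) p) :
    ∃ b, 0 < b ∧ C.L ^ w.length * b ≤ h ∧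
      (∀ s ∈ Icc 0 b, Path C none w (Lf C w (Sw C w p) σ s)) ∧
      Xf C w (Sw C w p) σ b - Xf C w (Sw C w p) σ 0 = h ∧
      Ctl C none w (Sw C w p) σ b (Xf C w (Sw C w p) σ) h := by
  set q0 := Sw C w p with hq0
  set F := Lf C w q0 σ with hF
  set X := Xf C w q0 σ with hX
  have hF0 : F 0 = p := by rw [hF, hq0, Lf_zero]
  have hXc : Continuous X := continuous_Xf C w q0 σ
  have hκ1 := abs_sgn hσ w.length
  have hdom : ∀ s, |X s - X 0| ≤ h → |bet C none (F s)| ≤ C.R none := by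
    intro s hs
    have e : |X s - X 0| = |bet C none (F s) - bet C none p| := by
      rw [hX]; unfold Xf
      rw [← mul_sub, abs_mul, hκ1, one_mul, ← hF, hF0]
    rw [e] at hs
    have := abs_sub_abs_le_abs_sub (bet C none (F s)) (bet C none p)
    linarith
  set G : Set ℝ := {s | s ∈ Icc 0 h ∧ ∀ s' ∈ Icc 0 s, Path C none w (F s') ∧ |X s' - X 0| ≤ h}
    with hG
  have h0G : (0 : ℝ) ∈ G := by
    refine ⟨⟨le_rfl, hh.le⟩, ?_⟩
    intro s' hs'
    have : s' = 0 := le_antisymm hs'.2 hs'.1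
    rw [this, hF0]
    exact ⟨hP, by simpa using hh.le⟩
  have hGb : BddAbove G := ⟨h, fun s hs => hs.1.2⟩
  set t := sSup G with ht
  have ht0 : 0 ≤ t := le_csSup hGb h0G
  have hth : t ≤ h := csSup_le ⟨0, h0G⟩ (fun s hs => hs.1.2)
  have c1 : ∀ s ∈ Ico 0 t, Path C none w (F s) ∧ |X s - X 0| ≤ h := by
    intro s hs
    obtain ⟨g, hg, hsg⟩ := exists_lt_of_lt_csSup ⟨0, h0G⟩ hs.2
    exact hg.2 s ⟨hs.1, hsg.le⟩
  have c2 : |X t - X 0| ≤ h := by
    rcases eq_or_lt_of_le ht0 with h1 | h1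
    · rw [← h1]; simpa using hh.le
    · have hcl : IsClosed {s : ℝ | |X s - X 0| ≤ h} :=
        isClosed_le ((hXc.sub continuous_const).abs) continuous_const
      have : t ∈ closure (Ico 0 t) := by
        rw [closure_Ico h1.ne]; exact ⟨ht0, le_rfl⟩
      exact hcl.closure_subset_iff.2 (fun s hs => (c1 s hs).2) this
  have c2' : ∀ s ∈ Icc 0 t, |X s - X 0| ≤ h := by
    intro s hs
    rcases eq_or_lt_of_le hs.2 with h1 | h1
    · rw [h1]; exact c2
    · exact (c1 s ⟨hs.1, h1⟩).2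
  have hctl : Ctl C none w q0 σ t X h :=
    { path := fun s hs => (c1 s hs).1
      dom := fun s hs => hdom s (c2' s hs)
      Xc := hXc.continuousOn
      Xd := fun s hs => ⟨_, hd_chart C w q0 hσ s (c1 s ⟨hs.1.le, hs.2⟩).1, le_rfl⟩
      Xl := (abs_le.1 c2).2 }
  have c3 : Path C none w (F t) := by
    rcases eq_or_lt_of_le ht0 with h1 | h1
    · rw [← h1, hF0]; exact hP
    · refine Ctl.persist hσ h1 w none X h hh hhd hctl ?_
      rw [← hF, hF0]; exact hK
  have hL := L_gt_one C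
  -- growth of X
  have hXg : C.L ^ w.length * t ≤ X t - X 0 := by
    have m : MonotoneOn (fun s => X s - C.L ^ w.length * s) (Icc 0 t) := by
      apply mono_of_hd ((hXc.sub (continuous_const.mul continuous_id)).continuousOn)
      intro s hs
      have hp' := (c1 s ⟨hs.1.le, hs.2⟩).1
      refine ⟨_, (hd_chart C w q0 hσ s hp').sub ((hasDerivAt_id s).const_mul _), ?_⟩
      have := pow_le_St (hctl.dom s ⟨hs.1.le, hs.2.le⟩) hp'
      linarith
    have := m (⟨le_rfl, ht0⟩ : (0 : ℝ) ∈ Icc 0 t) (⟨ht0, le_rfl⟩ : t ∈ Icc 0 t) ht0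
    simp only [mul_zero, sub_zero] at this
    linarith
  have hLp : 1 ≤ C.L ^ w.length := one_le_pow₀ hL.le
  have htX : t ≤ X t - X 0 := by nlinarith
  have c4 : X t - X 0 = h := by
    by_contra hne
    have hlt : X t - X 0 < h := lt_of_le_of_ne (abs_le.1 c2).2 hne
    have e1 : ∀ᶠ s in 𝓝 t, Path C none w (F s) :=
      (continuous_Lf C w q0 σ).continuousAt.eventually
        (Path_open (hctl.dom t ⟨ht0, le_rfl⟩) c3)
    have e2 : ∀ᶠ s in 𝓝 t, |X s - X 0| < h := by
      have : ContinuousAt (fun s => |X s - X 0|) t :=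
        ((hXc.sub continuous_const).abs).continuousAt
      apply this.eventually_lt_const
      show |X t - X 0| < h
      rw [abs_of_nonneg (by linarith)]; exact hlt
    obtain ⟨δ, hδ, hball⟩ := Metric.eventually_nhds_iff_ball.1 (e1.and e2)
    have hth' : t < h := by linarith
    set u := min h (t + δ / 2) with hu
    have hut : t < u := by rw [hu]; exact lt_min hth' (by linarith)
    have huG : u ∈ G := by
      refine ⟨⟨by linarith, min_le_left _ _⟩, ?_⟩
      intro s hs
      rcases lt_or_ge s t with h1 | h1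
      · exact c1 s ⟨hs.1, h1⟩
      · have hsb : s ∈ Metric.ball t δ := by
          rw [Metric.mem_ball, Real.dist_eq, abs_of_nonneg (by linarith)]
          have : u ≤ t + δ / 2 := min_le_right _ _
          linarith [hs.2]
        exact ⟨(hball s hsb).1, (hball s hsb).2.le⟩
    have := le_csSup hGb huG
    linarith
  refine ⟨t, ?_, ?_, ?_, c4, hctl⟩
  · rcases eq_or_lt_of_le ht0 with h1 | h1
    · rw [← h1] at c4; simp at c4; linarith
    · exact h1
  · linarith
  · intro s hs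
    rcases eq_or_lt_of_le hs.2 with h1 | h1
    · rw [h1]; exact c3
    · exact (c1 s ⟨hs.1, h1⟩).1

/-- persistence of free escape under parallel displacement -/
lemma Fr_persist {C : Cfg N} {o : Option (Fin N)} {q : ℝ × ℝ} {σ s c : ℝ} (hσ : σ ^ 2 = 1)
    (hs : 0 ≤ s) (hsc : s ≤ c) (h : Fr C o q) (hK : ¬ Kill C 0 o σ c q) :
    Fr C o (q.1, q.2 + σ * s) := by
  intro m hm
  have ht : ∀ l, tau C l (q.1, q.2 + σ * s) = tau C l q := fun l => tau_congr C l rfl
  rw [ht, ht] at hm
  have hb : bet C (some m) (q.1, q.2 + σ * s) = bet C (some m) q + σ * s :=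
    bet_add_snd C _ q _
  rw [hb]
  have h1 := h m hm
  have hmo : (some m : Option (Fin N)) ≠ o := by rintro rfl; exact lt_irrefl _ hm
  have hnk : c < |bet C (some m) q + σ * C.R (some m)| := by
    by_contra hcon
    refine hK ⟨m, hmo, hm.le, not_lt.1 hcon, ?_⟩
    intro m' ⟨a1, _, a3⟩
    exact absurd (h m' a1) (not_lt.2 a3.le)
  have hR := C.Rpos (some m)
  have hσ1 : σ = 1 ∨ σ = -1 := by
    have : (σ - 1) * (σ + 1) = 0 := by linear_combination hσ
    rcases mul_eq_zero.1 this with h2 | h2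
    · left; linarith
    · right; linarith
  rcases hσ1 with rfl | rfl
  · rcases lt_abs.1 h1 with h2 | h2
    · rw [lt_abs]; left; linarith
    · rcases lt_abs.1 hnk with h3 | h3
      · linarith
      · rw [lt_abs]; right; linarith
  · rcases lt_abs.1 h1 with h2 | h2
    · rcases lt_abs.1 hnk with h3 | h3
      · rw [lt_abs]; left; linarith
      · linarith
    · rw [lt_abs]; right; linarith

/-- kills at the end of a strict itinerary -/
lemma Kill_of_path {C : Cfg N} {w : List (Fin N)} {o : Option (Fin N)} {p : ℝ × ℝ} {σ ε : ℝ}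
    (hP : Path C o w p) (j : ℕ) (h : Kill C j (lst o w) σ ε (Sw C w p)) :
    Kill C (w.length + j) o (σ * (-1) ^ w.length) ε p := by
  induction w generalizing o p with
  | nil => simpa [lst, Sw] using h
  | cons k w ih =>
    have h1 := ih hP.2 h
    rw [List.length_cons, Nat.add_right_comm]
    refine ⟨k, hP.1.toW, ?_⟩
    rw [neg_sgn_cons]; exact h1

end Pool.Agent.Work.MP_5c1620_co
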