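import Pool.Agent.Work.MP_5c1620_co.Leaf4

/-!
# M3, part 5: escape version of the leaf lemma; one-sided distortion
-/

set_option autoImplicit false
open Real Set MeasureTheory Filter Topology

namespace Pool.Agent.Work.MP_5c1620_co

variable {N : ℕ}

/-- Existence of stable leaves, escape version (3.6 esc). -/
theorem leaf_exists_esc {C : Cfg N} {w : List (Fin N)} {p : ℝ × ℝ} {σ h : ℝ} (hσ : σ ^ 2 = 1)
    (hh : 0 < h) (hhd : C.C1 * h ≤ C.d / 2) (hp : |bet C none p| + h ≤ C.R none)
    (hP : Path C none w p) (hF : Fr C (lst none w) (Sw C w p))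
    (hK : ∀ j ≤ w.length, ¬ Kill C j none (σ * (-1) ^ w.length) (2 * (C.C1 * (h / C.L ^ j))) p) :
    ∃ b, 0 < b ∧ C.L ^ w.length * b ≤ h ∧
      (∀ s ∈ Icc 0 b, Path C none w (Lf C w (Sw C w p) σ s) ∧
        Fr C (lst none w) ((Sw C w p).1, (Sw C w p).2 + σ * s)) ∧
      Xf C w (Sw C w p) σ b - Xf C w (Sw C w p) σ 0 = h ∧
      Ctl C none w (Sw C w p) σ b (Xf C w (Sw C w p) σ) h := by
  obtain ⟨b, hb, hbl, h1, h2, h3⟩ := leaf_exists hσ hh hhd hp hP (fun j hj => hK j hj.le)
  refine ⟨b, hb, hbl, fun s hs => ⟨h1 s hs, ?_⟩, h2, h3⟩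
  have hL := L_gt_one C
  have hLp : 0 < C.L ^ w.length := by positivity
  have hC1 := C1_ge_one C
  refine Fr_persist hσ hs.1 (c := 2 * (C.C1 * (h / C.L ^ w.length))) ?_ hF ?_
  · have : b ≤ h / C.L ^ w.length := by rw [le_div_iff₀ hLp]; linarith
    have h0 : 0 ≤ h / C.L ^ w.length := by positivity
    have := hs.2
    nlinarith
  · intro hk
    have := Kill_of_path hP 0 hk
    exact hK _ le_rfl (by simpa using this)

/-! ## distortion -/

lemma dist_alg {E E' P P' α α' T T' q Q : ℝ} (hE : 0 < E) (hE' : 0 < E') (hP : 0 ≤ P)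
    (hα : 0 < α) (hα' : 0 < α') (hT : 0 ≤ T)
    (hP' : 0 ≤ P') (hq : 1 ≤ q) (h1 : P' * E ≤ q * (P * E')) (h2 : E' ≤ Q * E)
    (h3 : α ≤ q * α') (h4 : T' ≤ q * T) (h5 : T ≤ q * T') :
    (P' + 2 * E' / α') * (E + T * (P + 2 * E / α)) ≤
      q * (P + 2 * E / α) * (E' + T' * (P' + 2 * E' / α')) ∧
    E' + T' * (P' + 2 * E' / α') ≤ q ^ 2 * Q * (E + T * (P + 2 * E / α)) := by
  set z := P + 2 * E / α with hz
  set z' := P' + 2 * E' / α' with hz'
  have hz0 : 0 ≤ z := by positivity
  have hz0' : 0 ≤ z' := by positivity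
  have k1 : z' * E ≤ q * z * E' := by
    have e1 : z' * E = P' * E + 2 * E' * E * (1 / α') := by rw [hz']; ring
    have e2 : q * z * E' = q * (P * E') + 2 * E * E' * (q / α) := by rw [hz]; ring
    have k : 1 / α' ≤ q / α := by rw [div_le_div_iff₀ hα' hα]; linarith
    have := mul_le_mul_of_nonneg_left k (by positivity : 0 ≤ 2 * E' * E)
    rw [e1, e2]; linarith
  have hQ : 0 < Q := by
    by_contra hcon
    push Not at hcon
    nlinarith
  constructor
  · have : z' * (T * z) ≤ q * z * (T' * z') := by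
      have := mul_le_mul_of_nonneg_left h5 (mul_nonneg hz0 hz0')
      nlinarith
    linarith
  · have k2 : z' ≤ q * z * Q := by
      have : z' * E ≤ q * z * Q * E := by
        have := mul_le_mul_of_nonneg_left h2 (mul_nonneg (by linarith : 0 ≤ q) hz0)
        nlinarith
      exact le_of_mul_le_mul_right this hE
    have k3 : T' * z' ≤ q * T * (q * z * Q) := mul_le_mul h4 k2 hz0' (by positivity)
    have k4 : E' ≤ q ^ 2 * (Q * E) := by
      have : 1 ≤ q ^ 2 := one_le_pow₀ hq
      have h0 : 0 ≤ Q * E := by positivity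
      nlinarith
    calc E' + T' * z' ≤ q ^ 2 * (Q * E) + q * T * (q * z * Q) := by linarith
      _ = _ := by ring

lemma abs_alp_sub {C : Cfg N} {l : Option (Fin N)} {p p' : ℝ × ℝ} (h : |bet C l p| ≤ C.R l)
    (h' : |bet C l p'| ≤ C.R l) :
    |alp C l p' - alp C l p| ≤ √(2 * C.Rm * |bet C l p' - bet C l p|) := by
  apply le_sqrt_of_sq_le
  rw [sq_abs]
  have a := alp_nonneg C l p
  have a' := alp_nonneg C l p'
  have e := alp_sq C l h
  have e' := alp_sq C l h'
  have hR := R_le_Rm C l
  have k1 : |alp C l p' ^ 2 - alp C l p ^ 2| ≤ 2 * C.Rm * |bet C l p' - bet C l p| := by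
    rw [e, e', show C.R l ^ 2 - bet C l p' ^ 2 - (C.R l ^ 2 - bet C l p ^ 2) =
      -((bet C l p' + bet C l p) * (bet C l p' - bet C l p)) by ring, abs_neg, abs_mul]
    apply mul_le_mul_of_nonneg_right _ (abs_nonneg _)
    refine (abs_add_le _ _).trans (by linarith)
  refine le_trans ?_ k1
  rcases le_total (alp C l p) (alp C l p') with h1 | h1
  · rw [abs_of_nonneg (by nlinarith)]; nlinarith
  · rw [abs_of_nonpos (by nlinarith)]; nlinarith

noncomputable def Cfg.K2 (C : Cfg N) : ℝ := 2 * (C.Cm / C.d) + 2 * √(2 * C.Rm * C.C1)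
noncomputable def Cfg.K (C : Cfg N) : ℝ := 1 + C.K2 / C.d
noncomputable def Cfg.K' (C : Cfg N) : ℝ := C.K * C.lam / (C.lam - 1)

lemma K2_nonneg (C : Cfg N) : 0 ≤ C.K2 := by
  unfold Cfg.K2
  have := Cm_nonneg C
  have := C.dpos
  positivity

lemma K_ge_one (C : Cfg N) : 1 ≤ C.K := by
  unfold Cfg.K
  have := K2_nonneg C
  have := C.dpos
  have : 0 ≤ C.K2 / C.d := by positivity
  linarith

lemma K'_pos (C : Cfg N) : 0 < C.K' := by
  unfold Cfg.K'
  have := K_ge_one C
  have := lam_gt_one C
  apply div_pos (by positivity) (by linarith)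

lemma K'_eq (C : Cfg N) : C.K + C.K' / C.lam = C.K' := by
  unfold Cfg.K'
  have h1 := lam_gt_one C
  have h2 : C.lam - 1 ≠ 0 := by linarith
  field_simp
  ring

lemma pos_sub_le {C : Cfg N} {o : Option (Fin N)} {p p' : ℝ × ℝ} :
    |pos C o p' - pos C o p| ≤ |tau C o p' - tau C o p| + |alp C o p' - alp C o p| := by
  cases o with
  | none => simp [pos]
  | some i =>
    simp only [pos]
    rw [show tau C (some i) p' + alp C (some i) p' - (tau C (some i) p + alp C (some i) p) =
      (tau C (some i) p' - tau C (some i) p) + (alp C (some i) p' - alp C (some i) p) by ring]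
    exact abs_add_le _ _

lemma chord_ratio {R u u' A A' η : ℝ} (hη : 0 < η) (hη1 : η ≤ 1) (hu1 : |u| < R)
    (hu1' : |u'| < R) (e1 : A ^ 2 = R ^ 2 - u ^ 2) (e2 : A' ^ 2 = R ^ 2 - u' ^ 2)
    (hA' : 0 ≤ A') (h1 : u' ≤ u) (h2 : u - u' ≤ η / 2 * (u + R)) : A ≤ (1 + η) * A' := by
  have hRu : 0 < R - u := by linarith [(abs_lt.1 hu1).2]
  have hRu2 : 0 < R + u := by linarith [(abs_lt.1 hu1).1]
  have hRu3 : 0 < R - u' := by linarith [(abs_lt.1 hu1').2]
  have k1 : (1 - η / 2) * A ^ 2 ≤ A' ^ 2 := by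
    rw [e1, e2]
    have f1 : R ^ 2 - u' ^ 2 = (R - u') * (R + u') := by ring
    have f2 : R ^ 2 - u ^ 2 = (R - u) * (R + u) := by ring
    rw [f1, f2]
    have g1 : (1 - η / 2) * (R + u) ≤ R + u' := by linarith
    have g0 : 0 ≤ (1 - η / 2) * (R + u) := mul_nonneg (by linarith) hRu2.le
    calc (1 - η / 2) * ((R - u) * (R + u))
        = (R - u) * ((1 - η / 2) * (R + u)) := by ring
      _ ≤ (R - u') * (R + u') := mul_le_mul (by linarith) g1 g0 hRu3.le
  have k2 : 1 ≤ (1 + η) ^ 2 * (1 - η / 2) := by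
    have e : (1 + η) ^ 2 * (1 - η / 2) = 1 + η * (3 / 2 - η ^ 2 / 2) := by ring
    have : 0 ≤ η * (3 / 2 - η ^ 2 / 2) := by
      apply mul_nonneg hη.le
      nlinarith
    linarith
  have k3 : A ^ 2 ≤ ((1 + η) * A') ^ 2 := by
    rw [mul_pow]
    have h0 := sq_nonneg A
    calc A ^ 2 ≤ (1 + η) ^ 2 * (1 - η / 2) * A ^ 2 := by nlinarith
      _ = (1 + η) ^ 2 * ((1 - η / 2) * A ^ 2) := by ring
      _ ≤ _ := mul_le_mul_of_nonneg_left k1 (by positivity)
  exact le_of_sq_le_sq k3 (by positivity)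

set_option maxHeartbeats 1000000 in
/-- One-sided distortion (3.7). -/
theorem Ctl.dist {C : Cfg N} {q0 : ℝ × ℝ} {σ b h : ℝ} (hσ : σ ^ 2 = 1) (hb : 0 ≤ b)
    (hh : 0 < h) (hh1 : h ≤ 1) (w : List (Fin N)) :
    ∀ (o : Option (Fin N)) (X : ℝ → ℝ) (ℓ η : ℝ), 0 < η → η ≤ 1 → ℓ ≤ η ^ 2 * h →
    Ctl C o w q0 σ b X ℓ → Path C o w (Lf C w q0 σ b) →
    (∀ j < w.length, ¬ Kill C j o (σ * (-1) ^ w.length) (2 * (C.C1 * (η * h / C.lam ^ j)))
      (Lf C w q0 σ 0)) →
    (PD C w (Lf C w q0 σ b)).1 * St C o w (Lf C w q0 σ 0) ≤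
      (1 + C.K * η) * ((PD C w (Lf C w q0 σ 0)).1 * St C o w (Lf C w q0 σ b)) ∧
    St C o w (Lf C w q0 σ b) ≤ exp (2 * C.K' * η) * St C o w (Lf C w q0 σ 0) := by
  have hK1 := K_ge_one C
  have hK' := K'_pos C
  rcases eq_or_lt_of_le hb with hb0 | hb0
  · subst hb0
    intro o X ℓ η hη _ _ hc hP _
    have hdm := hc.dom 0 ⟨le_rfl, le_rfl⟩
    have h1 := one_le_St hdm hP
    have h2 := Psi_nonneg hdm hP
    constructor
    · have h3 : 0 ≤ (PD C w (Lf C w q0 σ 0)).1 * St C o w (Lf C w q0 σ 0) := by positivity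
      have h4 : 0 ≤ C.K * η := mul_nonneg (by linarith) hη.le
      have h5 := mul_nonneg h4 h3
      linarith
    · have : 1 ≤ exp (2 * C.K' * η) := one_le_exp (by positivity)
      nlinarith
  induction w with
  | nil =>
    intro o X ℓ η hη _ _ hc hP _
    rw [St_nil, St_nil]
    simp only [PD, mul_one]
    refine ⟨by simp, one_le_exp (by positivity)⟩
  | cons k w ih =>
    intro o X ℓ η hη hη1 hℓ hc hP hK
    have hd := C.dpos
    have hlam := lam_gt_one C
    have hlam0 : 0 < C.lam := by linarith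
    have hlam2 := lam_sq C
    have hC1 := C1_ge_one C
    have hRm := Rm_pos C
    have hnx := hc.next hP.1.2.1
    have h0m : (0 : ℝ) ∈ Icc 0 b := ⟨le_rfl, hb⟩
    have hbm : b ∈ Icc 0 b := ⟨hb, le_rfl⟩
    have hP0 : Path C o (k :: w) (Lf C (k :: w) q0 σ 0) := hc.path 0 ⟨le_rfl, hb0⟩
    have hP2 := hP.2
    rw [S_Lf_cons] at hP2
    obtain ⟨i1, i2⟩ := ih (some k) _ _ (η / C.lam) (by positivity)
      (by rw [div_le_iff₀ hlam0]; nlinarith)
      (by
        rw [div_pow, hlam2, div_mul_eq_mul_div]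
        exact div_le_div_of_nonneg_right hℓ (by linarith [L_gt_one C]))
      hnx hP2 (by
        intro j hj hkj
        apply hK (j + 1) (by simpa using hj)
        refine ⟨k, hP0.1.toW, ?_⟩
        rw [S_Lf_cons, List.length_cons, neg_sgn_cons]
        have e : η * h / C.lam ^ (j + 1) = η / C.lam * h / C.lam ^ j := by
          rw [pow_succ]; field_simp
        rw [e]; exact hkj)
    set p := Lf C (k :: w) q0 σ 0 with hp
    set p' := Lf C (k :: w) q0 σ b with hp'
    have hS : Lf C w q0 σ 0 = S C k p := by rw [hp, S_Lf_cons]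
    have hS' : Lf C w q0 σ b = S C k p' := by rw [hp', S_Lf_cons]
    rw [hS, hS'] at i1 i2
    -- facts
    have hk0 := hP0.1.2.1
    have hk1 := hP.1.2.1
    have hℓ0 : 0 ≤ ℓ := le_trans (hc.nonneg hbm) hc.Xl
    have hXle : X b - X 0 ≤ ℓ := hc.Xl
    have hℓη : ℓ ≤ η ^ 2 := hℓ.trans (by nlinarith [sq_nonneg η])
    have hbet : ∀ l, |bet C l p' - bet C l p| ≤ C.C1 * ℓ := by
      intro l
      refine (hc.abs_bet hσ l h0m hbm hb).trans ?_
      exact mul_le_mul_of_nonneg_left hXle (by linarith)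
    have htau : ∀ l, |tau C l p' - tau C l p| ≤ C.Cm / C.d * η := by
      intro l
      refine (hc.abs_tau hσ l h0m hbm hb).trans ?_
      apply mul_le_mul_of_nonneg_left _ (div_nonneg (Cm_nonneg C) hd.le)
      nlinarith
    have halp : ∀ l, |bet C l p| ≤ C.R l → |bet C l p'| ≤ C.R l →
        |alp C l p' - alp C l p| ≤ √(2 * C.Rm * C.C1) * η := by
      intro l h1 h2
      refine (abs_alp_sub h1 h2).trans ?_
      have e : √(2 * C.Rm * C.C1) * η = √(2 * C.Rm * C.C1 * η ^ 2) := by
        rw [sqrt_mul' _ (sq_nonneg η), sqrt_sq hη.le]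
      rw [e]
      apply sqrt_le_sqrt
      have := hbet l
      have : |bet C l p' - bet C l p| ≤ C.C1 * η ^ 2 :=
        this.trans (mul_le_mul_of_nonneg_left hℓη (by linarith))
      calc 2 * C.Rm * |bet C l p' - bet C l p| ≤ 2 * C.Rm * (C.C1 * η ^ 2) :=
            mul_le_mul_of_nonneg_left this (by linarith)
        _ = _ := by ring
    have hdo := hc.dom 0 h0m
    have hdo' := hc.dom b hbm
    rw [← hp] at hdo
    rw [← hp'] at hdo'
    have hT := hP0.1.flight hdo
    have hT' := hP.1.flight hdo'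
    -- flight length ratio
    set T := tau C (some k) p - alp C (some k) p - pos C o p with hTdef
    set T' := tau C (some k) p' - alp C (some k) p' - pos C o p' with hTdef'
    have hTd : C.d ≤ T := by rw [hTdef]; linarith
    have hTd' : C.d ≤ T' := by rw [hTdef']; linarith
    have hTT : |T' - T| ≤ C.K2 * η := by
      have a1 := htau (some k)
      have a2 := halp (some k) hk0.le hk1.le
      have a3 := htau o
      have a4 := halp o hdo hdo'
      have a5 := pos_sub_le (C := C) (o := o) (p := p) (p' := p')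
      have e : T' - T = (tau C (some k) p' - tau C (some k) p) -
        (alp C (some k) p' - alp C (some k) p) - (pos C o p' - pos C o p) := by
        rw [hTdef, hTdef']; ring
      rw [e]
      have b1 := abs_sub (tau C (some k) p' - tau C (some k) p -
        (alp C (some k) p' - alp C (some k) p)) (pos C o p' - pos C o p)
      have b2 := abs_sub (tau C (some k) p' - tau C (some k) p)
        (alp C (some k) p' - alp C (some k) p)
      have e2 : C.K2 * η = 2 * (C.Cm / C.d * η) + 2 * (√(2 * C.Rm * C.C1) * η) := by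
        unfold Cfg.K2; ring
      rw [e2]; linarith
    have hK2 := K2_nonneg C
    set q := 1 + C.K * η with hq
    have hKe : C.K * η = η + C.K2 * η / C.d := by unfold Cfg.K; ring
    have hrat : ∀ t, C.d ≤ t → C.K2 * η ≤ C.K2 * η / C.d * t := by
      intro t ht
      rw [div_mul_eq_mul_div, le_div_iff₀ hd]
      exact mul_le_mul_of_nonneg_left ht (by positivity)
    have hTq : T' ≤ q * T := by
      have a1 := (abs_le.1 hTT).2
      have a2 := hrat T hTd
      have a3 : 0 ≤ η * T := mul_nonneg hη.le (by linarith)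
      rw [hq, hKe]; nlinarith
    have hTq' : T ≤ q * T' := by
      have a1 := (abs_le.1 hTT).1
      have a2 := hrat T' hTd'
      have a3 : 0 ≤ η * T' := mul_nonneg hη.le (by linarith)
      rw [hq, hKe]; nlinarith
    -- half chord ratio
    have hαq : alp C (some k) p ≤ q * alp C (some k) p' := by
      have ha' := alp_pos C (some k) hk1
      have ha := alp_pos C (some k) hk0
      have key : alp C (some k) p ≤ (1 + η) * alp C (some k) p' := by
        set κ := σ * (-1) ^ (k :: w).length with hκ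
        have hκ2 : κ ^ 2 = 1 := sgn_sq hσ _
        have hκ1 : |κ| = 1 := abs_sgn hσ _
        have hanti := hc.anti_hit hσ h0m hbm hb
        simp only at hanti
        rw [← hκ, ← hp, ← hp'] at hanti
        have habsκ : ∀ x : ℝ, |κ * x| = |x| := by intro x; rw [abs_mul, hκ1, one_mul]
        set u := κ * bet C (some k) p with hu
        set u' := κ * bet C (some k) p' with hu'
        have hu1 : |u| < C.R (some k) := by rw [hu, habsκ]; exact hk0
        have hu1' : |u'| < C.R (some k) := by rw [hu', habsκ]; exact hk1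
        have huu : |u' - u| ≤ C.C1 * ℓ := by
          rw [hu, hu', ← mul_sub, habsκ]; exact hbet (some k)
        have e1 : alp C (some k) p ^ 2 = C.R (some k) ^ 2 - u ^ 2 := by
          rw [alp_sq C _ hk0.le, hu, mul_pow, hκ2, one_mul]
        have e2 : alp C (some k) p' ^ 2 = C.R (some k) ^ 2 - u' ^ 2 := by
          rw [alp_sq C _ hk1.le, hu', mul_pow, hκ2, one_mul]
        have hgap : 2 * (C.C1 * (η * h)) < u + C.R (some k) := by
          have hnk : 2 * (C.C1 * (η * h)) < |bet C (some k) p + κ * C.R (some k)| := by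
            by_contra hcon
            apply hK 0 (by simp)
            rw [pow_zero, div_one]
            exact ⟨k, hP0.1.ne, hP0.1.1.le, not_lt.1 hcon, hP0.1.toW.2.2.2⟩
          have e3 : κ * (bet C (some k) p + κ * C.R (some k)) = u + C.R (some k) := by
            rw [hu]; linear_combination C.R (some k) * hκ2
          rw [← habsκ, e3, abs_of_pos (by linarith [(abs_lt.1 hu1).1])] at hnk
          exact hnk
        have hΔ1 : 0 ≤ u - u' := by linarith
        have hΔ2 : u - u' ≤ C.C1 * (η ^ 2 * h) := by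
          have := (abs_le.1 huu).1
          have : C.C1 * ℓ ≤ C.C1 * (η ^ 2 * h) := mul_le_mul_of_nonneg_left hℓ (by linarith)
          linarith
        have hΔ3 : u - u' ≤ η / 2 * (u + C.R (some k)) := by
          have : η / 2 * (2 * (C.C1 * (η * h))) ≤ η / 2 * (u + C.R (some k)) :=
            mul_le_mul_of_nonneg_left hgap.le (by linarith)
          have e : η / 2 * (2 * (C.C1 * (η * h))) = C.C1 * (η ^ 2 * h) := by ring
          linarith
        exact chord_ratio hη hη1 hu1 hu1' e1 e2 ha'.le (by linarith) hΔ3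
      refine key.trans (mul_le_mul_of_nonneg_right ?_ ha'.le)
      rw [hq, hKe]
      have : 0 ≤ C.K2 * η / C.d := by positivity
      linarith
    -- assemble
    have hdk : |bet C (some k) (S C k p)| ≤ C.R (some k) := by rw [bet_S]; exact hk0.le
    have hdk' : |bet C (some k) (S C k p')| ≤ C.R (some k) := by rw [bet_S]; exact hk1.le
    have s1 := one_le_St hdk hP0.2
    have s2 := Psi_nonneg hdk hP0.2
    have s1' := one_le_St hdk' hP.2
    have s2' := Psi_nonneg hdk' hP.2
    have i1' : (PD C w (S C k p')).1 * St C (some k) w (S C k p) ≤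
        q * ((PD C w (S C k p)).1 * St C (some k) w (S C k p')) := by
      refine i1.trans (mul_le_mul_of_nonneg_right ?_ (by positivity))
      rw [hq]
      have : η / C.lam ≤ η := by rw [div_le_iff₀ hlam0]; nlinarith
      nlinarith
    have hq1 : 1 ≤ q := by rw [hq]; nlinarith
    obtain ⟨r1, r2⟩ := dist_alg (T := T) (T' := T') (by linarith) (by linarith) s2
      (alp_pos C _ hk0) (alp_pos C _ hk1) (by linarith) s2' hq1 i1' i2 hαq hTq hTq'
    have e1 : St C o (k :: w) p = St C (some k) w (S C k p) +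
        T * ((PD C w (S C k p)).1 + 2 * St C (some k) w (S C k p) / alp C (some k) p) := by
      rw [St_cons, PD_cons_fst]
    have e1' : St C o (k :: w) p' = St C (some k) w (S C k p') +
        T' * ((PD C w (S C k p')).1 + 2 * St C (some k) w (S C k p') / alp C (some k) p') := by
      rw [St_cons, PD_cons_fst]
    rw [← e1, ← e1'] at r1
    rw [← e1, ← e1'] at r2
    rw [← PD_cons_fst, ← PD_cons_fst] at r1
    refine ⟨by linarith, r2.trans ?_⟩
    apply mul_le_mul_of_nonneg_right _ (by linarith [one_le_St hdo hP0])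
    have hexp : q ^ 2 ≤ exp (2 * (C.K * η)) := by
      have : q ≤ exp (C.K * η) := by rw [hq]; linarith [add_one_le_exp (C.K * η)]
      calc q ^ 2 ≤ exp (C.K * η) ^ 2 := pow_le_pow_left₀ (by linarith) this 2
        _ = exp (2 * (C.K * η)) := by rw [← exp_nat_mul]; norm_num
    calc q ^ 2 * exp (2 * C.K' * (η / C.lam)) ≤
          exp (2 * (C.K * η)) * exp (2 * C.K' * (η / C.lam)) :=
          mul_le_mul_of_nonneg_right hexp (exp_pos _).le
      _ = exp (2 * C.K' * η) := by
          rw [← exp_add]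
          congr 1
          have := K'_eq C
          linear_combination 2 * η * this

end Pool.Agent.Work.MP_5c1620_co
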