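import Pool.Agent.Work.MP_5c1620_co.Meas1

/-!
# Measurability, generic lines, existence of itineraries
-/

set_option autoImplicit false
open Real Set MeasureTheory Function

namespace Pool.Agent.Work.MP_5c1620_co

variable {N : ℕ}

/-! ## measurability -/

lemma measurableSet_Nx (C : Cfg N) (o : Option (Fin N)) (k : Fin N) :
    MeasurableSet {p : ℝ × ℝ | Nx C o k p} := by
  have ht := fun o => (continuous_tau C o).measurable
  have hb := fun o => (continuous_bet C o).measurable.abs
  have h : {p : ℝ × ℝ | Nx C o k p} = {p | tau C o p < tau C (some k) p} ∩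
      ({p | |bet C (some k) p| < C.R (some k)} ∩ ⋂ m : Fin N,
        ({p | tau C o p < tau C (some m) p}ᶜ ∪ ({p | tau C (some m) p < tau C (some k) p}ᶜ ∪
          {p | C.R (some m) < |bet C (some m) p|}))) := by
    ext p
    simp only [Nx, mem_ofPred_eq, mem_inter_iff, mem_iInter, mem_union, mem_compl_iff]
    refine and_congr_right fun _ => and_congr_right fun _ => forall_congr' fun m => ?_
    tauto
  rw [h]
  refine (measurableSet_lt (ht _) (ht _)).inter ((measurableSet_lt (hb _) measurable_const).inter
    (MeasurableSet.iInter fun m => ?_))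
  exact (measurableSet_lt (ht _) (ht _)).compl.union ((measurableSet_lt (ht _) (ht _)).compl.union
    (measurableSet_lt measurable_const (hb _)))

lemma measurableSet_Path (C : Cfg N) (o : Option (Fin N)) (w : List (Fin N)) :
    MeasurableSet {p : ℝ × ℝ | Path C o w p} := by
  induction w generalizing o with
  | nil => simp only [Path]; exact MeasurableSet.univ
  | cons k w ih =>
    exact (measurableSet_Nx C o k).inter ((continuous_S C k).measurable (ih (some k)))

lemma measurableSet_Fr (C : Cfg N) (o : Option (Fin N)) :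
    MeasurableSet {p : ℝ × ℝ | Fr C o p} := by
  have ht := fun o => (continuous_tau C o).measurable
  have hb := fun o => (continuous_bet C o).measurable.abs
  have h : {p : ℝ × ℝ | Fr C o p} = ⋂ m : Fin N,
        ({p | tau C o p < tau C (some m) p}ᶜ ∪ {p | C.R (some m) < |bet C (some m) p|}) := by
    ext p
    simp only [Fr, mem_ofPred_eq, mem_iInter, mem_union, mem_compl_iff]
    refine forall_congr' fun m => ?_
    tauto
  rw [h]
  exact MeasurableSet.iInter fun m => (measurableSet_lt (ht _) (ht _)).compl.union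
    (measurableSet_lt measurable_const (hb _))

lemma measurableSet_Esc (C : Cfg N) (o : Option (Fin N)) :
    MeasurableSet {p : ℝ × ℝ | Esc C o p} := by
  have h : {p : ℝ × ℝ | Esc C o p} = ⋃ w : List (Fin N), ({p | Path C o w p} ∩
      Sw C w ⁻¹' {p | Fr C (lst o w) p}) := by
    ext p
    simp only [Esc, mem_ofPred_eq, mem_iUnion, mem_inter_iff, mem_preimage]
  rw [h]
  exact MeasurableSet.iUnion fun w => (measurableSet_Path C o w).inter
    ((continuous_Sw C w).measurable (measurableSet_Fr C _))

/-- the domain of an object -/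
def dom (C : Cfg N) (o : Option (Fin N)) : Set (ℝ × ℝ) := {p | |bet C o p| < C.R o}

lemma measurableSet_dom (C : Cfg N) (o : Option (Fin N)) : MeasurableSet (dom C o) :=
  measurableSet_lt (continuous_bet C o).measurable.abs measurable_const

lemma per_dom (C : Cfg N) (o : Option (Fin N)) : Per (dom C o) := by
  intro p; simp only [dom, mem_ofPred_eq, bet_shift]

lemma per_Esc (C : Cfg N) (o : Option (Fin N)) : Per {p | Esc C o p} := fun p => Esc_shift C o p

lemma per_Path (C : Cfg N) (o : Option (Fin N)) (w : List (Fin N)) :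
    Per {p | Path C o w p} := fun p => Path_shift C o w p

lemma per_Nx (C : Cfg N) (o : Option (Fin N)) (k : Fin N) :
    Per {p | Nx C o k p} := fun p => Nx_shift C o k p

lemma per_W (C : Cfg N) (o : Option (Fin N)) (k : Fin N) :
    Per {p | W C o k p} := fun p => W_shift C o k p

lemma per_Fr (C : Cfg N) (o : Option (Fin N)) : Per {p | Fr C o p} := fun p => Fr_shift C o p

lemma per_Kill (C : Cfg N) (j : ℕ) (o : Option (Fin N)) (e ε : ℝ) :
    Per {p | Kill C j o e ε p} := fun p => Kill_shift C j o e ε p

/-! ## closedness of the kill sets -/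

lemma isClosed_Free (C : Cfg N) (o l : Option (Fin N)) : IsClosed {p : ℝ × ℝ | Free C o l p} := by
  have ht := continuous_tau C
  have hb := fun o => (continuous_bet C o).abs
  have h : {p : ℝ × ℝ | Free C o l p} = ⋂ m : Fin N, ({p | tau C o p < tau C (some m) p} ∩
      ({p | tau C (some m) p < tau C l p} ∩ {p | |bet C (some m) p| < C.R (some m)}))ᶜ := by
    ext p
    simp only [Free, mem_ofPred_eq, mem_iInter, mem_compl_iff, mem_inter_iff]
  rw [h]
  refine isClosed_iInter fun m => ?_
  rw [isClosed_compl_iff]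
  exact (isOpen_lt (ht _) (ht _)).inter ((isOpen_lt (ht _) (ht _)).inter
    (isOpen_lt (hb _) continuous_const))

lemma isClosed_W (C : Cfg N) (o : Option (Fin N)) (k : Fin N) :
    IsClosed {p : ℝ × ℝ | W C o k p} := by
  have ht := continuous_tau C
  have hb := fun o => (continuous_bet C o).abs
  by_cases hk : some k ≠ o
  · have h : {p : ℝ × ℝ | W C o k p} = {p | tau C o p ≤ tau C (some k) p} ∩
        ({p | |bet C (some k) p| ≤ C.R (some k)} ∩ {p | Free C o (some k) p}) := by
      ext p
      simp only [W, mem_ofPred_eq, mem_inter_iff, hk, ne_eq, not_false_eq_true, true_and]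
    rw [h]
    exact (isClosed_le (ht _) (ht _)).inter ((isClosed_le (hb _) continuous_const).inter
      (isClosed_Free C _ _))
  · have h : {p : ℝ × ℝ | W C o k p} = ∅ := by
      ext p
      simp only [W, mem_ofPred_eq, mem_empty_iff_false, iff_false]
      exact fun h => hk h.1
    rw [h]
    exact isClosed_empty

/-- the kill condition is closed in the line and in the tolerance -/
lemma isClosed_Kill (C : Cfg N) (j : ℕ) (o : Option (Fin N)) (e : ℝ) :
    IsClosed {q : (ℝ × ℝ) × ℝ | Kill C j o e q.2 q.1} := by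
  induction j generalizing o e with
  | zero =>
    have ht := fun o => (continuous_tau C o).comp (continuous_fst (X := ℝ × ℝ) (Y := ℝ))
    have hb := fun o => (continuous_bet C o).comp (continuous_fst (X := ℝ × ℝ) (Y := ℝ))
    have h : {q : (ℝ × ℝ) × ℝ | Kill C 0 o e q.2 q.1} = ⋃ l : Fin N,
        ({q | some l ≠ o} ∩ ({q | tau C o q.1 ≤ tau C (some l) q.1} ∩
          ({q | |bet C (some l) q.1 + e * C.R (some l)| ≤ q.2} ∩
            Prod.fst ⁻¹' {p | Free C o (some l) p}))) := by
      ext q
      simp only [Kill, mem_ofPred_eq, mem_iUnion, mem_inter_iff, mem_preimage]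
    rw [h]
    refine isClosed_iUnion_of_finite fun l => ?_
    refine IsClosed.inter ?_ ((isClosed_le (ht _) (ht _)).inter
      ((isClosed_le ((hb _).add continuous_const).abs continuous_snd).inter
        ((isClosed_Free C _ _).preimage continuous_fst)))
    by_cases hl : some l ≠ o
    · simp only [hl, ne_eq, not_false_eq_true]; exact isClosed_univ
    · simp only [hl]; exact isClosed_empty
  | succ j ih =>
    have h : {q : (ℝ × ℝ) × ℝ | Kill C (j + 1) o e q.2 q.1} = ⋃ k : Fin N,
        (Prod.fst ⁻¹' {p | W C o k p} ∩ (fun q : (ℝ × ℝ) × ℝ => (S C k q.1, q.2)) ⁻¹'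
          {q : (ℝ × ℝ) × ℝ | Kill C j (some k) (-e) q.2 q.1}) := by
      ext q
      simp only [Kill, mem_ofPred_eq, mem_iUnion, mem_inter_iff, mem_preimage]
    rw [h]
    refine isClosed_iUnion_of_finite fun k => ?_
    refine ((isClosed_W C o k).preimage continuous_fst).inter ((ih (some k) (-e)).preimage ?_)
    exact ((continuous_S C k).comp continuous_fst).prodMk continuous_snd

lemma isClosed_Kill' (C : Cfg N) (j : ℕ) (o : Option (Fin N)) (e ε : ℝ) :
    IsClosed {p : ℝ × ℝ | Kill C j o e ε p} :=
  (isClosed_Kill C j o e).preimage (Continuous.prodMk continuous_id continuous_const)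

lemma measurableSet_Kill (C : Cfg N) (j : ℕ) (o : Option (Fin N)) (e ε : ℝ) :
    MeasurableSet {p : ℝ × ℝ | Kill C j o e ε p} := (isClosed_Kill' C j o e ε).measurableSet

lemma measurableSet_W (C : Cfg N) (o : Option (Fin N)) (k : Fin N) :
    MeasurableSet {p : ℝ × ℝ | W C o k p} := (isClosed_W C o k).measurableSet

/-! ## strips of small width -/

/-- measure of a slab in the coordinates (angle, distance from the centre of o) -/
lemma volume_slab (C : Cfg N) (o : Option (Fin N)) (a : ℝ) (B : Set ℝ) (hB : MeasurableSet B) :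
    volume ({p | bet C o p ∈ B} ∩ strip a) = ENNReal.ofReal (2 * π) * volume B := by
  have h : {p | bet C o p ∈ B} ∩ strip a =
      (fun p : ℝ × ℝ => (p.1, bet C o p)) ⁻¹' (Ioc a (a + 2 * π) ×ˢ B) := by
    ext p
    simp only [mem_inter_iff, mem_ofPred_eq, strip, mem_preimage, mem_prod]
    exact and_comm
  rw [h, (mp_bet C o).measure_preimage (measurableSet_Ioc.prod hB).nullMeasurableSet,
    Measure.volume_eq_prod, Measure.prod_prod, Real.volume_Ioc]
  congr 2
  ring

lemma volume_dom (C : Cfg N) (o : Option (Fin N)) (a : ℝ) :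
    volume (dom C o ∩ strip a) = ENNReal.ofReal (2 * π) * ENNReal.ofReal (2 * C.R o) := by
  have h : dom C o = {p | bet C o p ∈ Ioo (-C.R o) (C.R o)} := by
    ext p
    simp only [dom, mem_ofPred_eq, mem_Ioo, abs_lt]
  rw [h, volume_slab C o a _ measurableSet_Ioo, Real.volume_Ioo]
  congr 2
  ring

lemma volume_dom_ne_top (C : Cfg N) (o : Option (Fin N)) (a : ℝ) :
    volume (dom C o ∩ strip a) ≠ ⊤ := by
  rw [volume_dom]
  exact ENNReal.mul_ne_top ENNReal.ofReal_ne_top ENNReal.ofReal_ne_top

lemma volume_near (C : Cfg N) (o : Option (Fin N)) (a c ε : ℝ) :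
    volume ({p | |bet C o p + c| ≤ ε} ∩ strip a) =
      ENNReal.ofReal (2 * π) * ENNReal.ofReal (2 * ε) := by
  have h : {p | |bet C o p + c| ≤ ε} = {p | bet C o p ∈ Icc (-c - ε) (-c + ε)} := by
    ext p
    simp only [mem_ofPred_eq, mem_Icc, abs_le]
    constructor
    · rintro ⟨h1, h2⟩; constructor <;> linarith
    · rintro ⟨h1, h2⟩; constructor <;> linarith
  rw [h, volume_slab C o a _ measurableSet_Icc, Real.volume_Icc]
  congr 2
  ring

/-- lines at a given distance form a null set -/
lemma volume_bet_eq (C : Cfg N) (o : Option (Fin N)) (c : ℝ) :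
    volume {p | bet C o p = c} = 0 := by
  have hper : Per {p | bet C o p = c} := by
    intro p; simp only [mem_ofPred_eq, bet_shift]
  apply hper.null 0
  have := volume_slab C o 0 {c} (measurableSet_singleton c)
  simpa using this

/-! ## generic lines -/

/-- a line is generic if its images under all words of reflections are tangent to no mirror -/
def Gen (C : Cfg N) (p : ℝ × ℝ) : Prop :=
  ∀ (w : List (Fin N)) (l : Fin N), |bet C (some l) (Sw C w p)| ≠ C.R (some l)

lemma Gen.S {C : Cfg N} {p : ℝ × ℝ} (h : Gen C p) (k : Fin N) : Gen C (S C k p) :=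
  fun w l => h (k :: w) l

lemma Gen.bet_ne {C : Cfg N} {p : ℝ × ℝ} (h : Gen C p) (l : Fin N) :
    |bet C (some l) p| ≠ C.R (some l) := h [] l

lemma ae_generic (C : Cfg N) : ∀ᵐ p : ℝ × ℝ, Gen C p := by
  unfold Gen
  rw [ae_all_iff]
  intro w
  rw [ae_all_iff]
  intro l
  have h1 : ∀ c : ℝ, ∀ᵐ p : ℝ × ℝ, bet C (some l) (Sw C w p) ≠ c := by
    intro c
    have h2 : ∀ᵐ p : ℝ × ℝ, bet C (some l) p ≠ c := by
      rw [ae_iff]
      simpa using volume_bet_eq C (some l) c
    exact (mp_Sw C w).quasiMeasurePreserving.ae h2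
  filter_upwards [h1 (C.R (some l)), h1 (-C.R (some l))] with p p1 p2 h
  rcases abs_eq (C.Rpos (some l)).le |>.1 h with h | h
  · exact p1 h
  · exact p2 h

/-- a generic line leaving an object either leaves for good or hits a next mirror strictly -/
lemma Fr_or_Nx {C : Cfg N} {o : Option (Fin N)} {p : ℝ × ℝ}
    (hg : ∀ l : Fin N, |bet C (some l) p| ≠ C.R (some l)) : Fr C o p ∨ ∃ k, Nx C o k p := by
  classical
  by_cases hF : Fr C o p
  · exact Or.inl hF
  · right
    have hne : (Finset.univ.filter fun l : Fin N => tau C o p < tau C (some l) p ∧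
        |bet C (some l) p| < C.R (some l)).Nonempty := by
      simp only [Fr, not_forall] at hF
      obtain ⟨l, h1, h2⟩ := hF
      exact ⟨l, by simp only [Finset.mem_filter, Finset.mem_univ, true_and]
                   exact ⟨h1, lt_of_le_of_ne (not_lt.1 h2) (hg l)⟩⟩
    obtain ⟨k, hk, hmin⟩ := Finset.exists_min_image _ (fun l => tau C (some l) p) hne
    simp only [Finset.mem_filter, Finset.mem_univ, true_and] at hk hmin
    refine ⟨k, hk.1, hk.2, ?_⟩
    intro m m1 m2
    by_contra hcon
    have := hmin m ⟨m1, lt_of_le_of_ne (not_lt.1 hcon) (hg m)⟩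
    linarith

lemma exists_Nx_of_not_esc {C : Cfg N} {o : Option (Fin N)} {p : ℝ × ℝ} (hg : Gen C p)
    (h : ¬ Esc C o p) : ∃ k, Nx C o k p := by
  rcases Fr_or_Nx (o := o) (fun l => hg.bet_ne l) with h1 | h1
  · exact absurd ⟨[], trivial, h1⟩ h
  · exact h1

lemma Esc.cons {C : Cfg N} {o : Option (Fin N)} {k : Fin N} {p : ℝ × ℝ} (hN : Nx C o k p)
    (h : Esc C (some k) (S C k p)) : Esc C o p := by
  obtain ⟨w, h1, h2⟩ := h
  exact ⟨k :: w, ⟨hN, h1⟩, h2⟩

/-- a generic non-escaping line has itineraries of every length -/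
lemma exists_path_of_not_esc {C : Cfg N} {o : Option (Fin N)} {p : ℝ × ℝ} (hg : Gen C p)
    (h : ¬ Esc C o p) (n : ℕ) : ∃ w, w.length = n ∧ Path C o w p := by
  induction n generalizing o p with
  | zero => exact ⟨[], rfl, trivial⟩
  | succ n ih =>
    obtain ⟨k, hk⟩ := exists_Nx_of_not_esc hg h
    obtain ⟨w, hw1, hw2⟩ := ih (hg.S k) (fun h' => h (h'.cons hk))
    exact ⟨k :: w, by simp [hw1], hk, hw2⟩

/-! ## uniqueness of itineraries -/

/-- the strict next mirror is unique -/
lemma Nx_unique {C : Cfg N} {o : Option (Fin N)} {k k' : Fin N} {p : ℝ × ℝ}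
    (h : Nx C o k p) (h' : Nx C o k' p) : k = k' := by
  by_contra hne
  have hd := C.dpos
  have key : ∀ a b : Fin N, a ≠ b → Nx C o a p → Nx C o b p →
      tau C (some a) p ≤ tau C (some b) p → False := by
    intro a b hab Na Nb hle
    have hs := sep_tau0 C (p := p) (o := some a) (o' := some b) (by simpa using hab) Na.2.1.le
      Nb.2.1.le hle
    have n1 := alp_nonneg C (some a) p
    have n2 := alp_nonneg C (some b) p
    have := Nb.2.2 a Na.1 (by linarith)
    exact absurd Na.2.1 (not_lt.2 this.le)
  rcases le_total (tau C (some k) p) (tau C (some k') p) with h1 | h1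
  · exact key k k' hne h h' h1
  · exact key k' k (Ne.symm hne) h' h h1

lemma not_Nx_of_Fr {C : Cfg N} {o : Option (Fin N)} {k : Fin N} {p : ℝ × ℝ} (h : Fr C o p) :
    ¬ Nx C o k p := fun h' => absurd h'.2.1 (not_lt.2 (h k h'.1).le)

/-- a path which has itineraries of all lengths does not escape -/
lemma not_esc_of_paths {C : Cfg N} {o : Option (Fin N)} {p : ℝ × ℝ}
    (h : ∀ n : ℕ, ∃ w, w.length = n ∧ Path C o w p) : ¬ Esc C o p := by
  rintro ⟨w, h1, h2⟩
  induction w generalizing o p with
  | nil =>
    obtain ⟨w', hw', hp'⟩ := h 1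
    match w', hw', hp' with
    | [k], _, hp' => exact not_Nx_of_Fr h2 hp'.1
  | cons k w ih =>
    refine ih (o := some k) (p := S C k p) ?_ h1.2 h2
    intro n
    obtain ⟨w', hw', hp'⟩ := h (n + 1)
    match w', hw', hp' with
    | k' :: w'', hw', hp' =>
      have hk := Nx_unique h1.1 hp'.1
      subst hk
      exact ⟨w'', by simpa using hw', hp'.2⟩

end Pool.Agent.Work.MP_5c1620_co
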