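import Pool.Agent.Work.MP_5c1620_co.Leaf1
import Pool.Agent.Work.MP_5c1620_co.Meas2

/-!
# M5, part 1: countability of multiple tangencies
-/

set_option autoImplicit false
open Real Set MeasureTheory Topology

namespace Pool.Agent.Work.MP_5c1620_co

variable {N : ℕ}

/-! ## the unstable cone -/

/-- the vector v at a line leaving o is in the unstable cone -/
def Cone (C : Cfg N) (o : Option (Fin N)) (p v : ℝ × ℝ) : Prop :=
  ∃ s : ℝ, 0 ≤ s * (v.2 + pos C o p * v.1) ∧ 0 < s * v.1

lemma Cone.step {C : Cfg N} {o : Option (Fin N)} {k : Fin N} {F : ℝ → ℝ × ℝ} {a b s : ℝ}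
    (hF : HasDerivAt F (a, b) s) (hc : Cone C o (F s) (a, b)) (ho : |bet C o (F s)| ≤ C.R o)
    (hN : Nx C o k (F s)) :
    ∃ v, HasDerivAt (fun t => S C k (F t)) v s ∧ Cone C (some k) (S C k (F s)) v := by
  obtain ⟨σ, h1, h2⟩ := hc
  have hk := hN.2.1
  have ha := alp_pos C (some k) hk
  have hT := hN.flight ho
  have hd := C.dpos
  simp only at h1 h2
  refine ⟨_, hd_S C k hF hk, -σ, ?_, ?_⟩
  · have e : pos C (some k) (S C k (F s)) =
        tau C (some k) (S C k (F s)) + alp C (some k) (F s) := by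
      simp only [pos, alp_S]
    simp only
    rw [e]
    have e2 : -σ * (b + tau C (some k) (F s) * a -
        tau C (some k) (S C k (F s)) *
          (a - 2 * ((b + tau C (some k) (F s) * a) / alp C (some k) (F s))) +
        (tau C (some k) (S C k (F s)) + alp C (some k) (F s)) *
          (a - 2 * ((b + tau C (some k) (F s) * a) / alp C (some k) (F s)))) =
        σ * (b + pos C o (F s) * a) +
          (tau C (some k) (F s) - alp C (some k) (F s) - pos C o (F s)) * (σ * a) := by
      field_simp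
      ring
    rw [e2]
    have : 0 ≤ (tau C (some k) (F s) - alp C (some k) (F s) - pos C o (F s)) * (σ * a) :=
      mul_nonneg (by linarith) h2.le
    linarith
  · simp only
    have e2 : -σ * (a - 2 * ((b + tau C (some k) (F s) * a) / alp C (some k) (F s))) =
        σ * a + 2 * (σ * (b + pos C o (F s) * a) +
          (tau C (some k) (F s) - alp C (some k) (F s) - pos C o (F s)) * (σ * a)) /
            alp C (some k) (F s) := by
      field_simp
      ring
    rw [e2]
    have h3 : 0 ≤ (tau C (some k) (F s) - alp C (some k) (F s) - pos C o (F s)) * (σ * a) :=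
      mul_nonneg (by linarith) h2.le
    have h4 : 0 ≤ 2 * (σ * (b + pos C o (F s) * a) +
          (tau C (some k) (F s) - alp C (some k) (F s) - pos C o (F s)) * (σ * a)) /
            alp C (some k) (F s) := by positivity
    linarith

lemma Cone.word {C : Cfg N} {o : Option (Fin N)} {w : List (Fin N)} {F : ℝ → ℝ × ℝ} {v : ℝ × ℝ}
    {s : ℝ} (hF : HasDerivAt F v s) (hc : Cone C o (F s) v) (ho : |bet C o (F s)| ≤ C.R o)
    (hP : Path C o w (F s)) :
    ∃ v', HasDerivAt (fun t => Sw C w (F t)) v' s ∧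
      Cone C (lst o w) (Sw C w (F s)) v' ∧
      |bet C (lst o w) (Sw C w (F s))| ≤ C.R (lst o w) := by
  induction w generalizing o F v with
  | nil => exact ⟨v, hF, hc, ho⟩
  | cons k w ih =>
    obtain ⟨hN, hP⟩ := hP
    obtain ⟨v1, h1, h2⟩ := Cone.step (a := v.1) (b := v.2) hF hc ho hN
    exact ih h1 h2 (by rw [bet_S]; exact hN.2.1.le) hP

lemma Cone.bet_ne {C : Cfg N} {o : Option (Fin N)} {p v : ℝ × ℝ} (hc : Cone C o p v)
    (ho : |bet C o p| ≤ C.R o) {l : Fin N} (hl : some l ≠ o)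
    (ht : tau C o p ≤ tau C (some l) p) (hb : |bet C (some l) p| ≤ C.R (some l)) :
    v.2 + tau C (some l) p * v.1 ≠ 0 := by
  obtain ⟨σ, h1, h2⟩ := hc
  have h3 := flight_le C hl ho hb ht
  have h4 := alp_nonneg C (some l) p
  have hd := C.dpos
  intro h0
  have e : σ * (v.2 + tau C (some l) p * v.1) = σ * (v.2 + pos C o p * v.1) +
    (tau C (some l) p - pos C o p) * (σ * v.1) := by ring
  rw [h0, mul_zero] at e
  have : 0 < (tau C (some l) p - pos C o p) * (σ * v.1) := mul_pos (by linarith) h2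
  linarith

lemma cone_mk (C : Cfg N) (o : Option (Fin N)) (a b : ℝ) :
    HasDerivAt (fun a => mk C o a b) (1, - tau C o (mk C o a b)) a ∧
      Cone C o (mk C o a b) (1, - tau C o (mk C o a b)) := by
  constructor
  · have := hd_mk C o (hasDerivAt_id a) (hasDerivAt_const a b)
    refine this.congr_deriv ?_
    simp
  · refine ⟨1, ?_, ?_⟩
    · simp only [one_mul, mul_one]
      have := tau_le_pos C o (mk C o a b)
      linarith
    · norm_num

/-! ## isolated sets -/

lemma countable_of_isolated {A : Set ℝ} (h : ∀ a ∈ A, ∀ᶠ z in 𝓝[≠] a, z ∉ A) :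
    A.Countable := by
  have hd : DiscreteTopology A := by
    rw [discreteTopology_subtype_iff]
    intro x hx
    rw [← disjoint_iff, Filter.disjoint_principal_right]
    exact h x hx
  exact TopologicalSpace.separableSpace_iff_countable.1 inferInstance

/-! ## strict itineraries to tangencies -/

/-- from a kill condition of tolerance 0 one gets a strict itinerary to a tangency -/
lemma strictify {C : Cfg N} (j : ℕ) {o : Option (Fin N)} {e : ℝ} {p : ℝ × ℝ}
    (he : e = 1 ∨ e = -1) (ho : |bet C o p| ≤ C.R o) (h : Kill C j o e 0 p) :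
    ∃ (w : List (Fin N)) (l : Fin N), Path C o w p ∧ some l ≠ lst o w ∧
      tau C (lst o w) (Sw C w p) ≤ tau C (some l) (Sw C w p) ∧
      |bet C (some l) (Sw C w p)| = C.R (some l) := by
  induction j generalizing o e p with
  | zero =>
    obtain ⟨l, h1, h2, h3, _⟩ := h
    refine ⟨[], l, trivial, h1, h2, ?_⟩
    have h4 : bet C (some l) p + e * C.R (some l) = 0 := abs_eq_zero.1 (le_antisymm h3 (abs_nonneg _))
    have h5 : bet C (some l) p = - (e * C.R (some l)) := by linarith
    have hR := C.Rpos (some l)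
    simp only [Sw]
    rw [h5, abs_neg]
    rcases he with rfl | rfl
    · rw [one_mul, abs_of_pos hR]
    · rw [neg_one_mul, abs_neg, abs_of_pos hR]
  | succ j ih =>
    obtain ⟨k, hW, hK⟩ := h
    by_cases ht : ∃ l : Fin N, some l ≠ o ∧ tau C o p ≤ tau C (some l) p ∧
        |bet C (some l) p| = C.R (some l)
    · obtain ⟨l, h1, h2, h3⟩ := ht
      exact ⟨[], l, trivial, h1, h2, h3⟩
    · push Not at ht
      have hk : |bet C (some k) p| < C.R (some k) :=
        lt_of_le_of_ne hW.2.2.1 (ht k hW.1 hW.2.1)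
      have hs := sep_tau0 C hW.1.symm ho hk.le hW.2.1
      have n1 := alp_nonneg C o p
      have n2 := alp_nonneg C (some k) p
      have hd := C.dpos
      have hN : Nx C o k p := by
        refine ⟨by linarith, hk, ?_⟩
        intro m m1 m2
        by_contra hcon
        push Not at hcon
        rcases eq_or_lt_of_le hcon with h5 | h5
        · refine ht m ?_ m1.le h5
          rintro rfl
          exact lt_irrefl _ m1
        · exact hW.2.2.2 m ⟨m1, m2, h5⟩
      obtain ⟨w, l, h1, h2, h3, h4⟩ := ih (o := some k) (e := -e) (p := S C k p)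
        (by rcases he with rfl | rfl <;> simp) (by rw [bet_S]; exact hk.le) hK
      exact ⟨k :: w, l, ⟨hN, h1⟩, h2, h3, h4⟩

/-- in a pencil of lines through an object the lines leading to a tangency are countable -/
lemma countable_kill (C : Cfg N) (o : Option (Fin N)) (b : ℝ) (hb : |b| ≤ C.R o) :
    {a : ℝ | ∃ (j : ℕ) (e : ℝ), (e = 1 ∨ e = -1) ∧ Kill C j o e 0 (mk C o a b)}.Countable := by
  set A : List (Fin N) → Fin N → Set ℝ := fun w l =>
    {a | Path C o w (mk C o a b) ∧ some l ≠ lst o w ∧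
      tau C (lst o w) (Sw C w (mk C o a b)) ≤ tau C (some l) (Sw C w (mk C o a b)) ∧
      |bet C (some l) (Sw C w (mk C o a b))| = C.R (some l)} with hA
  have hsub : {a : ℝ | ∃ (j : ℕ) (e : ℝ), (e = 1 ∨ e = -1) ∧ Kill C j o e 0 (mk C o a b)} ⊆
      ⋃ w, ⋃ l, A w l := by
    rintro a ⟨j, e, he, h⟩
    obtain ⟨w, l, h1⟩ := strictify j he (by rw [bet_mk]; exact hb) h
    exact mem_iUnion.2 ⟨w, mem_iUnion.2 ⟨l, h1⟩⟩
  refine Set.Countable.mono hsub ?_
  refine countable_iUnion fun w => countable_iUnion fun l => ?_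
  apply countable_of_isolated
  rintro a ⟨h1, h2, h3, h4⟩
  obtain ⟨c1, c2⟩ := cone_mk C o a b
  obtain ⟨v, d1, d2, d3⟩ := Cone.word c1 c2 (by rw [bet_mk]; exact hb) h1
  have d4 := d2.bet_ne d3 h2 h3 h4.le
  have d5 := hd_bet C (some l) (a := v.1) (b := v.2) d1
  have d6 := d5.eventually_ne (c := C.R (some l)) d4
  have d7 := d5.eventually_ne (c := -C.R (some l)) d4
  filter_upwards [d6, d7] with z z1 z2 hz
  rcases (abs_eq (C.Rpos (some l)).le).1 hz.2.2.2 with h | h
  · exact z1 h
  · exact z2 h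

/-- the fan of the centre of the chart disk -/
lemma countable_fan (C : Cfg N) :
    {a : ℝ | ∃ (j : ℕ) (e : ℝ), (e = 1 ∨ e = -1) ∧ Kill C j none e 0 (mk C none a 0)}.Countable :=
  countable_kill C none 0 (by simpa using (C.Rpos none).le)

/-! ## double tangencies -/

/-- lines tangent to a mirror l which, leaving l, lead to another tangency -/
def TT (C : Cfg N) : Set (ℝ × ℝ) :=
  {p | ∃ l : Fin N, |bet C (some l) p| = C.R (some l) ∧
    ∃ (j : ℕ) (e : ℝ), (e = 1 ∨ e = -1) ∧ Kill C j (some l) e 0 p}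

lemma countable_TT (C : Cfg N) : (TT C).Countable := by
  have hsub : TT C ⊆ ⋃ l : Fin N,
      ((fun a => mk C (some l) a (C.R (some l))) '' {a : ℝ | ∃ (j : ℕ) (e : ℝ), (e = 1 ∨ e = -1) ∧
        Kill C j (some l) e 0 (mk C (some l) a (C.R (some l)))} ∪
      (fun a => mk C (some l) a (-C.R (some l))) '' {a : ℝ | ∃ (j : ℕ) (e : ℝ),
        (e = 1 ∨ e = -1) ∧ Kill C j (some l) e 0 (mk C (some l) a (-C.R (some l)))}) := by
    rintro p ⟨l, h1, h2⟩
    refine mem_iUnion.2 ⟨l, ?_⟩
    rcases (abs_eq (C.Rpos (some l)).le).1 h1 with h | h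
    · left
      have e1 : mk C (some l) p.1 (C.R (some l)) = p := by rw [← h, mk_bet]
      refine ⟨p.1, ?_, e1⟩
      rw [mem_ofPred_eq, e1]; exact h2
    · right
      have e1 : mk C (some l) p.1 (-C.R (some l)) = p := by rw [← h, mk_bet]
      refine ⟨p.1, ?_, e1⟩
      rw [mem_ofPred_eq, e1]; exact h2
  refine Set.Countable.mono hsub (countable_iUnion fun l => ?_)
  have hR := C.Rpos (some l)
  exact (Set.Countable.image (countable_kill C (some l) _ (by rw [abs_of_pos hR])) _).union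
    (Set.Countable.image (countable_kill C (some l) _ (by rw [abs_neg, abs_of_pos hR])) _)

lemma abs_of_kill0 {C : Cfg N} {l : Fin N} {p : ℝ × ℝ} {e : ℝ} (he : e = 1 ∨ e = -1)
    (h : |bet C (some l) p + e * C.R (some l)| ≤ 0) :
    bet C (some l) p = - (e * C.R (some l)) ∧ |bet C (some l) p| = C.R (some l) := by
  have h4 : bet C (some l) p + e * C.R (some l) = 0 := abs_eq_zero.1 (le_antisymm h (abs_nonneg _))
  have h5 : bet C (some l) p = - (e * C.R (some l)) := by linarith
  have hR := C.Rpos (some l)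
  refine ⟨h5, ?_⟩
  rw [h5, abs_neg]
  rcases he with rfl | rfl
  · rw [one_mul, abs_of_pos hR]
  · rw [neg_one_mul, abs_neg, abs_of_pos hR]

lemma Free.mono_left {C : Cfg N} {o o' l : Option (Fin N)} {p : ℝ × ℝ} (h : Free C o l p)
    (ho : tau C o p ≤ tau C o' p) : Free C o' l p := by
  rintro m ⟨m1, m2, m3⟩
  exact h m ⟨lt_of_le_of_lt ho m1, m2, m3⟩

/-- a mirror tangent to the line, ahead of o and before the weak target, is hit weakly -/
lemma tau_lt_of_ahead {C : Cfg N} {o : Option (Fin N)} {k : Fin N} {p : ℝ × ℝ}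
    (ho : |bet C o p| ≤ C.R o) (hk : some k ≠ o) (ht : tau C o p ≤ tau C (some k) p)
    (hb : |bet C (some k) p| ≤ C.R (some k)) : tau C o p < tau C (some k) p := by
  have hs := sep_tau0 C hk.symm ho hb ht
  have n1 := alp_nonneg C o p
  have n2 := alp_nonneg C (some k) p
  have hd := C.dpos
  linarith

lemma tau_ne {C : Cfg N} {k l : Fin N} {p : ℝ × ℝ} (hkl : k ≠ l)
    (hk : |bet C (some k) p| ≤ C.R (some k)) (hl : |bet C (some l) p| ≤ C.R (some l)) :
    tau C (some k) p ≠ tau C (some l) p := by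
  intro h
  have hs := sep_tau0 C (o := some k) (o' := some l) (by simpa using hkl) hk hl h.le
  have n1 := alp_nonneg C (some k) p
  have n2 := alp_nonneg C (some l) p
  have hd := C.dpos
  linarith

/-- two kills of opposite signs in the future give a double tangency -/
lemma FF {C : Cfg N} (n : ℕ) : ∀ {j1 j2 : ℕ} {o : Option (Fin N)} {e : ℝ} {p : ℝ × ℝ},
    j1 + j2 = n → (e = 1 ∨ e = -1) → |bet C o p| ≤ C.R o → Kill C j1 o e 0 p →
    Kill C j2 o (-e) 0 p → ∃ w, Sw C w p ∈ TT C := by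
  induction n using Nat.strong_induction_on with
  | _ n ih =>
  intro j1 j2 o e p hn he ho h1 h2
  have he' : -e = 1 ∨ -e = -1 := by rcases he with rfl | rfl <;> simp
  -- the case where one of the kills is immediate
  have imm : ∀ {j : ℕ} {e : ℝ}, (e = 1 ∨ e = -1) → Kill C 0 o e 0 p → Kill C (j + 1) o (-e) 0 p →
      ∃ w, Sw C w p ∈ TT C := by
    intro j e he h1 h2
    obtain ⟨l, l1, l2, l3, l4⟩ := h1
    obtain ⟨l5, l6⟩ := abs_of_kill0 he l3
    obtain ⟨k, hW, hK⟩ := h2
    rw [neg_neg] at hK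
    by_cases hkl : k = l
    · subst hkl
      refine ⟨[k], k, ?_, j, e, he, hK⟩
      simp only [Sw, bet_S]; exact l6
    · rcases lt_or_gt_of_ne (tau_ne hkl hW.2.2.1 l6.le) with h3 | h3
      · -- k before l : k is tangent
        have h4 : |bet C (some k) p| = C.R (some k) := by
          by_contra hne
          exact l4 k ⟨tau_lt_of_ahead ho hW.1 hW.2.1 hW.2.2.1, h3, lt_of_le_of_ne hW.2.2.1 hne⟩
        refine ⟨[k], k, ?_, j, e, he, hK⟩
        simp only [Sw, bet_S]; exact h4
      · -- l before k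
        refine ⟨[], l, l6, j + 1, -e, ?_, k, ⟨?_, h3.le, hW.2.2.1, hW.2.2.2.mono_left l2⟩, ?_⟩
        · rcases he with rfl | rfl <;> simp
        · simpa using hkl
        · rw [neg_neg]; exact hK
  rcases j1 with _ | j1
  · rcases j2 with _ | j2
    · obtain ⟨l, l1, l2, l3, l4⟩ := h1
      obtain ⟨k, k1, k2, k3, k4⟩ := h2
      obtain ⟨l5, l6⟩ := abs_of_kill0 he l3
      obtain ⟨k5, k6⟩ := abs_of_kill0 he' k3
      have hkl : k ≠ l := by
        rintro rfl
        have hR := C.Rpos (some k)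
        rw [k5] at l5
        rcases he with rfl | rfl <;> linarith
      rcases lt_or_gt_of_ne (tau_ne hkl k6.le l6.le) with h3 | h3
      · refine ⟨[], k, k6, 0, e, he, l, ?_, h3.le, l3, l4.mono_left k2⟩
        simpa using (Ne.symm hkl)
      · refine ⟨[], l, l6, 0, -e, he', k, ?_, h3.le, k3, k4.mono_left l2⟩
        simpa using hkl
    · exact imm he h1 h2
  · rcases j2 with _ | j2
    · exact imm (e := -e) he' h2 (by rw [neg_neg]; exact h1)
    · obtain ⟨k, hW, hK⟩ := h1
      obtain ⟨l, hW', hK'⟩ := h2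
      rw [neg_neg] at hK'
      by_cases hkl : k = l
      · subst hkl
        obtain ⟨w, hw⟩ := ih (j1 + j2) (by omega) (o := some k) (p := S C k p) rfl he'
          (by rw [bet_S]; exact hW.2.2.1) hK (by rw [neg_neg]; exact hK')
        exact ⟨k :: w, hw⟩
      · rcases lt_or_gt_of_ne (tau_ne hkl hW.2.2.1 hW'.2.2.1) with h3 | h3
        · have h4 : |bet C (some k) p| = C.R (some k) := by
            by_contra hne
            exact hW'.2.2.2 k ⟨tau_lt_of_ahead ho hW.1 hW.2.1 hW.2.2.1, h3,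
              lt_of_le_of_ne hW.2.2.1 hne⟩
          refine ⟨[k], k, ?_, j1, -e, he', hK⟩
          simp only [Sw, bet_S]; exact h4
        · have h4 : |bet C (some l) p| = C.R (some l) := by
            by_contra hne
            exact hW.2.2.2 l ⟨tau_lt_of_ahead ho hW'.1 hW'.2.1 hW'.2.2.1, h3,
              lt_of_le_of_ne hW'.2.2.1 hne⟩
          refine ⟨[l], l, ?_, j2, e, he, hK'⟩
          simp only [Sw, bet_S]; exact h4

/-- a kill in the future and a kill in the past of a reflection give a double tangency -/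
lemma FP_aux {C : Cfg N} (j1 : ℕ) : ∀ {j2 : ℕ} {k : Fin N} {e e' : ℝ} {p : ℝ × ℝ},
    (e = 1 ∨ e = -1) → (e' = 1 ∨ e' = -1) → |bet C (some k) p| ≤ C.R (some k) →
    Kill C j1 (some k) e 0 (S C k p) → Kill C j2 (some k) e' 0 (rev p) →
    ∃ w, Sw C w p ∈ TT C ∨ rev (Sw C w p) ∈ TT C := by
  induction j1 with
  | zero =>
    intro j2 k e e' p he he' hk h1 h2
    obtain ⟨l, l1, l2, l3, l4⟩ := h1
    obtain ⟨l5, l6⟩ := abs_of_kill0 he l3
    have hW : W C (some k) l (S C k p) := ⟨l1, l2, l6.le, l4⟩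
    have hW' := W_rev hW (by rw [bet_S]; exact hk)
    refine ⟨[k], Or.inr ⟨l, ?_, j2 + 1, -e', ?_, k, hW', ?_⟩⟩
    · simp only [Sw, bet_rev, abs_neg]; exact l6
    · rcases he' with rfl | rfl <;> simp
    · rw [neg_neg, show Sw C [k] p = S C k p from rfl, S_rev_S]
      exact (Kill_shift C j2 (some k) e' 0 (rev p)).2 h2
  | succ j1 ih =>
    intro j2 k e e' p he he' hk h1 h2
    obtain ⟨l, hW, hK⟩ := h1
    have hW' := W_rev hW (by rw [bet_S]; exact hk)
    obtain ⟨w, hw⟩ := ih (j2 := j2 + 1) (k := l) (e := -e) (e' := -e') (p := S C k p)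
      (by rcases he with rfl | rfl <;> simp) (by rcases he' with rfl | rfl <;> simp)
      hW.2.2.1 hK ⟨k, hW', by
        rw [neg_neg, S_rev_S]
        exact (Kill_shift C j2 (some k) e' 0 (rev p)).2 h2⟩
    exact ⟨k :: w, hw⟩

/-- no mirror is touched inside the chart disk -/
lemma free_through {C : Cfg N} {k : Fin N} {l : Fin N} {p : ℝ × ℝ} (hp : |bet C none p| < C.R none)
    (hk : Free C none (some k) p) (hl : Free C none (some l) (rev p)) :
    Free C (some k) (some l) (rev p) := by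
  rintro m ⟨m1, m2, m3⟩
  rw [bet_rev, abs_neg] at m3
  rw [tau_rev, tau_rev] at m1 m2
  rcases lt_trichotomy (tau C none p) (tau C (some m) p) with h1 | h1 | h1
  · exact hk m ⟨h1, by linarith, m3⟩
  · have hs := sep_tau0 C (p := p) (o := none) (o' := some m) (by simp) hp.le m3.le h1.le
    have n1 := alp_nonneg C none p
    have n2 := alp_nonneg C (some m) p
    have hd := C.dpos
    linarith
  · refine hl m ⟨?_, ?_, ?_⟩
    · rw [tau_rev, tau_rev]; linarith
    · rw [tau_rev, tau_rev]; linarith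
    · rw [bet_rev, abs_neg]; exact m3

/-- kills in the past of the chart disk are kills in the past of the next mirror -/
lemma kill_back {C : Cfg N} {k : Fin N} {p : ℝ × ℝ} {j : ℕ} {e ε : ℝ}
    (hp : |bet C none p| < C.R none) (hk1 : tau C none p < tau C (some k) p)
    (hk2 : Free C none (some k) p)
    (h : Kill C j none e ε (rev p)) : Kill C j (some k) e ε (rev p) := by
  cases j with
  | zero =>
    obtain ⟨l, l1, l2, l3, l4⟩ := h
    rw [tau_rev, tau_rev] at l2
    refine ⟨l, ?_, ?_, l3, free_through hp hk2 l4⟩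
    · intro h; rw [Option.some.injEq] at h; subst h; linarith
    · rw [tau_rev, tau_rev]; linarith
  | succ j =>
    obtain ⟨l, ⟨l1, l2, l3, l4⟩, hK⟩ := h
    rw [tau_rev, tau_rev] at l2
    refine ⟨l, ⟨?_, ?_, l3, free_through hp hk2 l4⟩, hK⟩
    · intro h; rw [Option.some.injEq] at h; subst h; linarith
    · rw [tau_rev, tau_rev]; linarith

lemma FP {C : Cfg N} {j1 j2 : ℕ} {e e' : ℝ} {p : ℝ × ℝ}
    (he : e = 1 ∨ e = -1) (he' : e' = 1 ∨ e' = -1) (hp : |bet C none p| < C.R none)
    (h1 : Kill C j1 none e 0 p) (h2 : Kill C j2 none e' 0 (rev p)) :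
    ∃ w, Sw C w p ∈ TT C ∨ rev (Sw C w p) ∈ TT C := by
  cases j1 with
  | zero =>
    obtain ⟨l, l1, l2, l3, l4⟩ := h1
    obtain ⟨l5, l6⟩ := abs_of_kill0 he l3
    have h3 := kill_back hp (tau_lt_of_ahead hp.le l1 l2 l6.le) l4 h2
    refine ⟨[], Or.inr ⟨l, ?_, j2, e', he', h3⟩⟩
    simp only [Sw, bet_rev, abs_neg]; exact l6
  | succ j1 =>
    obtain ⟨k, hW, hK⟩ := h1
    have h3 := kill_back hp (tau_lt_of_ahead hp.le hW.1 hW.2.1 hW.2.2.1) hW.2.2.2 h2
    exact FP_aux j1 (by rcases he with rfl | rfl <;> simp) he' hW.2.2.1 hK h3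

/-- the line leads to a tangency -/
def Tan (C : Cfg N) (p : ℝ × ℝ) (e : ℝ) : Prop := ∃ j, Kill C j none e 0 p

/-- lines through the chart disk with two tangencies -/
def DD (C : Cfg N) : Set (ℝ × ℝ) :=
  {p | |bet C none p| < C.R none ∧ (Tan C (rev p) (-1) ∨ Tan C p (-1)) ∧
    (Tan C p 1 ∨ Tan C (rev p) 1)}

lemma Sw_injective (C : Cfg N) (w : List (Fin N)) : Function.Injective (Sw C w) :=
  Function.LeftInverse.injective (Siw_Sw C w)

lemma Siw_injective (C : Cfg N) (w : List (Fin N)) : Function.Injective (Siw C w) :=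
  Function.LeftInverse.injective (Sw_Siw C w)

lemma rev_injective : Function.Injective rev := Function.LeftInverse.injective unrev_rev

lemma countable_DD (C : Cfg N) : (DD C).Countable := by
  have hT := countable_TT C
  have hsub : DD C ⊆ ⋃ w : List (Fin N), (Sw C w ⁻¹' TT C ∪ (fun p => rev (Sw C w p)) ⁻¹' TT C ∪
      (fun p => Sw C w (rev p)) ⁻¹' TT C) := by
    rintro p ⟨hp, h1 | h1, h2 | h2⟩
    · obtain ⟨j1, h1⟩ := h1
      obtain ⟨j2, h2⟩ := h2
      obtain ⟨w, hw⟩ := FP (Or.inl rfl) (Or.inr rfl) hp h2 h1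
      refine mem_iUnion.2 ⟨w, Or.inl ?_⟩
      exact hw
    · obtain ⟨j1, h1⟩ := h1
      obtain ⟨j2, h2⟩ := h2
      obtain ⟨w, hw⟩ := FF (C := C) (j2 + j1) (o := none) (e := 1) (p := rev p) rfl (Or.inl rfl)
        (by rw [bet_rev, abs_neg]; exact hp.le) h2 h1
      exact mem_iUnion.2 ⟨w, Or.inr hw⟩
    · obtain ⟨j1, h1⟩ := h1
      obtain ⟨j2, h2⟩ := h2
      obtain ⟨w, hw⟩ := FF (C := C) (j2 + j1) (o := none) (e := 1) (p := p) rfl (Or.inl rfl)
        hp.le h2 h1
      exact mem_iUnion.2 ⟨w, Or.inl (Or.inl hw)⟩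
    · obtain ⟨j1, h1⟩ := h1
      obtain ⟨j2, h2⟩ := h2
      obtain ⟨w, hw⟩ := FP (Or.inr rfl) (Or.inl rfl) hp h1 h2
      exact mem_iUnion.2 ⟨w, Or.inl hw⟩
  refine Set.Countable.mono hsub (countable_iUnion fun w => ?_)
  refine ((hT.preimage_of_injOn (Sw_injective C w).injOn).union
    (hT.preimage_of_injOn ?_)).union (hT.preimage_of_injOn ?_)
  · exact (rev_injective.comp (Sw_injective C w)).injOn
  · exact ((Sw_injective C w).comp rev_injective).injOn

end Pool.Agent.Work.MP_5c1620_co
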