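import Pool.Agent.Work.MP_5c1620_co.Low1
import Pool.Agent.Work.MP_5c1620_co.Meas3
import Pool.Agent.Work.MP_5c1620_co.Leaf3

/-!
# M5, part 2: sets of lines close to two tangencies of low age are small
-/

set_option autoImplicit false
open Real Set MeasureTheory Topology Filter

namespace Pool.Agent.Work.MP_5c1620_co

variable {N : ℕ}

/-! ## functions which are o(h) -/

/-- f(h) = o(h) as h → 0+ -/
def SmallO (f : ℝ → ENNReal) : Prop :=
  ∀ ε : ℝ, 0 < ε → ∃ h0 : ℝ, 0 < h0 ∧ ∀ h : ℝ, 0 < h → h < h0 → f h ≤ ENNReal.ofReal (ε * h)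

lemma SmallO.mono {f g : ℝ → ENNReal} (hg : SmallO g) {h1 : ℝ} (hh1 : 0 < h1)
    (hfg : ∀ h, 0 < h → h < h1 → f h ≤ g h) : SmallO f := by
  intro ε hε
  obtain ⟨h0, h00, hh⟩ := hg ε hε
  refine ⟨min h0 h1, lt_min h00 hh1, fun h hp hl => ?_⟩
  exact (hfg h hp (hl.trans_le (min_le_right _ _))).trans (hh h hp (hl.trans_le (min_le_left _ _)))

lemma SmallO.add {f g : ℝ → ENNReal} (hf : SmallO f) (hg : SmallO g) :
    SmallO (fun h => f h + g h) := by
  intro ε hε
  obtain ⟨h0, h00, hh⟩ := hf (ε / 2) (by positivity)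
  obtain ⟨h1, h10, hh'⟩ := hg (ε / 2) (by positivity)
  refine ⟨min h0 h1, lt_min h00 h10, fun h hp hl => ?_⟩
  have e : ε * h = ε / 2 * h + ε / 2 * h := by ring
  rw [e, ENNReal.ofReal_add (by positivity) (by positivity)]
  exact add_le_add (hh h hp (hl.trans_le (min_le_left _ _)))
    (hh' h hp (hl.trans_le (min_le_right _ _)))

lemma SmallO.zero : SmallO (fun _ => 0) := fun _ _ => ⟨1, one_pos, fun _ _ _ => zero_le⟩

lemma SmallO.sum {ι : Type*} (s : Finset ι) {f : ι → ℝ → ENNReal} (hf : ∀ i ∈ s, SmallO (f i)) :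
    SmallO (fun h => ∑ i ∈ s, f i h) := by
  classical
  induction s using Finset.induction_on with
  | empty => simpa using SmallO.zero
  | insert a s ha ih =>
    have h1 := (hf a (Finset.mem_insert_self _ _)).add
      (ih (fun i hi => hf i (Finset.mem_insert_of_mem hi)))
    refine h1.mono one_pos (fun h _ _ => ?_)
    rw [Finset.sum_insert ha]

/-! ## the basic estimate -/

/-- The set of lines at distance at most B h of a given pencil satisfying a closed condition which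
at h = 0 holds only for countably many lines of the pencil has measure o(h). -/
lemma thin (C : Cfg N) (o : Option (Fin N)) (a0 c B : ℝ) (hB : 0 ≤ B) (K : Set ((ℝ × ℝ) × ℝ))
    (hK : IsClosed K) (hc : {a : ℝ | (mk C o a (-c), 0) ∈ K}.Countable) :
    SmallO (fun h => volume ({q | |bet C o q + c| ≤ B * h ∧ (q, h) ∈ K} ∩ strip a0)) := by
  -- angles
  set T : ℝ → Set (ℝ × ℝ × ℝ) := fun h => {x | x.1 ∈ Icc a0 (a0 + 2 * π) ∧ x.2.1 ∈ Icc 0 h ∧
    x.2.2 ∈ Icc (-c - B * h) (-c + B * h) ∧ |x.2.2 + c| ≤ B * x.2.1 ∧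
      (mk C o x.1 x.2.2, x.2.1) ∈ K} with hT
  have hmkc : Continuous (fun x : ℝ × ℝ × ℝ => ((mk C o x.1 x.2.2, x.2.1) : (ℝ × ℝ) × ℝ)) := by
    refine Continuous.prodMk ?_ (by fun_prop)
    exact (continuous_mk C o).comp (by fun_prop : Continuous fun x : ℝ × ℝ × ℝ => (x.1, x.2.2))
  have hTc : ∀ h, IsCompact (T h) := by
    intro h
    have e : T h = (Icc a0 (a0 + 2 * π) ×ˢ (Icc 0 h ×ˢ Icc (-c - B * h) (-c + B * h))) ∩
        ({x | |x.2.2 + c| ≤ B * x.2.1} ∩
          (fun x : ℝ × ℝ × ℝ => ((mk C o x.1 x.2.2, x.2.1) : (ℝ × ℝ) × ℝ)) ⁻¹' K) := by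
      ext x
      simp only [hT, mem_ofPred_eq, mem_inter_iff, mem_prod, mem_preimage]
      tauto
    rw [e]
    refine (isCompact_Icc.prod (isCompact_Icc.prod isCompact_Icc)).inter_right ?_
    refine IsClosed.inter ?_ (hK.preimage hmkc)
    exact isClosed_le (by fun_prop) (by fun_prop)
  set A : ℕ → Set ℝ := fun n => Prod.fst '' T (1 / (n + 1 : ℝ)) with hA
  have hAc : ∀ n, IsCompact (A n) := fun n => (hTc _).image continuous_fst
  have hTm : ∀ {h h'}, h ≤ h' → T h ⊆ T h' := by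
    rintro h h' hh x ⟨x1, x2, x3, x4, x5⟩
    have : B * h ≤ B * h' := mul_le_mul_of_nonneg_left hh hB
    exact ⟨x1, ⟨x2.1, x2.2.trans hh⟩, ⟨by linarith [x3.1], by linarith [x3.2]⟩, x4, x5⟩
  have hAm : Antitone A := by
    intro n m hnm
    apply image_mono
    apply hTm
    apply one_div_le_one_div_of_le (by positivity)
    have : (n : ℝ) ≤ m := by exact_mod_cast hnm
    linarith
  have hAi : (⋂ n, A n) ⊆ {a : ℝ | (mk C o a (-c), 0) ∈ K} := by
    intro a ha
    rw [mem_iInter] at ha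
    choose x hx hxa using ha
    have l1 : Tendsto (fun n : ℕ => 1 / ((n : ℝ) + 1)) atTop (𝓝 0) :=
      tendsto_one_div_add_atTop_nhds_zero_nat
    have l2 : Tendsto (fun n => (x n).2.1) atTop (𝓝 0) := by
      refine tendsto_of_tendsto_of_tendsto_of_le_of_le tendsto_const_nhds l1 ?_ ?_
      · intro n; exact (hx n).2.1.1
      · intro n; exact (hx n).2.1.2
    have l3 : Tendsto (fun n => (x n).2.2) atTop (𝓝 (-c)) := by
      have l4 : Tendsto (fun n => (x n).2.2 + c) atTop (𝓝 0) := by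
        rw [tendsto_zero_iff_abs_tendsto_zero]
        refine tendsto_of_tendsto_of_tendsto_of_le_of_le tendsto_const_nhds
          (by simpa using l2.const_mul B) ?_ ?_
        · intro n; exact abs_nonneg _
        · intro n; exact (hx n).2.2.2.1
      have := l4.add_const (-c)
      simpa using this
    have l5 : Tendsto (fun n => (((x n).1, (x n).2.2, (x n).2.1) : ℝ × ℝ × ℝ)) atTop
        (𝓝 (a, -c, 0)) := by
      have : ∀ n, (x n).1 = a := hxa
      simp only [this]
      exact tendsto_const_nhds.prodMk_nhds (l3.prodMk_nhds l2)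
    have hcont : Continuous (fun y : ℝ × ℝ × ℝ => ((mk C o y.1 y.2.1, y.2.2) : (ℝ × ℝ) × ℝ)) := by
      refine Continuous.prodMk ?_ (by fun_prop)
      exact (continuous_mk C o).comp (by fun_prop : Continuous fun x : ℝ × ℝ × ℝ => (x.1, x.2.1))
    have l6 := (hcont.tendsto (a, -c, 0)).comp l5
    exact hK.mem_of_tendsto l6 (Eventually.of_forall fun n => (hx n).2.2.2.2)
  have h0 : volume (⋂ n, A n) = 0 := (hc.mono hAi).measure_zero _
  have hlim : Tendsto (volume ∘ A) atTop (𝓝 0) := by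
    rw [← h0]
    exact tendsto_measure_iInter_atTop (fun n => (hAc n).isClosed.measurableSet.nullMeasurableSet)
      hAm ⟨0, (hAc 0).measure_ne_top⟩
  intro ε hε
  have hpos : (0 : ENNReal) < ENNReal.ofReal (ε / (2 * B + 1)) := by
    rw [ENNReal.ofReal_pos]; positivity
  obtain ⟨n, hn⟩ := (hlim.eventually (gt_mem_nhds hpos)).exists
  refine ⟨1 / (n + 1 : ℝ), by positivity, fun h hh1 hh2 => ?_⟩
  have hsub : {q | |bet C o q + c| ≤ B * h ∧ (q, h) ∈ K} ∩ strip a0 ⊆
      (fun p : ℝ × ℝ => (p.1, bet C o p)) ⁻¹' (A n ×ˢ Icc (-c - B * h) (-c + B * h)) := by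
    rintro q ⟨⟨h1, h2⟩, h3⟩
    have h4 := abs_le.1 h1
    have h5 : bet C o q ∈ Icc (-c - B * h) (-c + B * h) := ⟨by linarith, by linarith⟩
    refine ⟨?_, h5⟩
    refine ⟨(q.1, h, bet C o q), ?_, rfl⟩
    apply hTm hh2.le
    refine ⟨⟨h3.1.le, h3.2⟩, ⟨hh1.le, le_rfl⟩, h5, h1, ?_⟩
    simp only [mk_bet]
    exact h2
  calc volume ({q | |bet C o q + c| ≤ B * h ∧ (q, h) ∈ K} ∩ strip a0)
      ≤ volume ((fun p : ℝ × ℝ => (p.1, bet C o p)) ⁻¹' (A n ×ˢ Icc (-c - B * h) (-c + B * h))) :=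
        measure_mono hsub
    _ = volume (A n) * ENNReal.ofReal (2 * B * h) := by
        rw [(mp_bet C o).measure_preimage
          ((hAc n).isClosed.measurableSet.prod measurableSet_Icc).nullMeasurableSet,
          Measure.volume_eq_prod, Measure.prod_prod, Real.volume_Icc]
        congr 2
        ring
    _ ≤ ENNReal.ofReal (ε / (2 * B + 1)) * ENNReal.ofReal (2 * B * h) := by
        gcongr
        exact hn.le
    _ = ENNReal.ofReal (ε / (2 * B + 1) * (2 * B * h)) :=
        (ENNReal.ofReal_mul (by positivity : (0 : ℝ) ≤ ε / (2 * B + 1))).symm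
    _ ≤ ENNReal.ofReal (ε * h) := by
        apply ENNReal.ofReal_le_ofReal
        have e : ε / (2 * B + 1) * (2 * B * h) = ε * h * (2 * B / (2 * B + 1)) := by
          field_simp
        rw [e]
        have : 2 * B / (2 * B + 1) ≤ 1 := by
          rw [div_le_one (by positivity)]; linarith
        have h6 : 0 ≤ ε * h := by positivity
        nlinarith

/-! ## moving families of maps -/

/-- A family of measure preserving bijections commuting with full turns. -/
structure GM (φ φi : ℝ → ℝ × ℝ → ℝ × ℝ) : Prop where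
  mp : ∀ h, MeasurePreserving (φ h)
  comm : ∀ h, Comm2 (φ h)
  commi : ∀ h, Comm2 (φi h)
  cont : Continuous (fun q : (ℝ × ℝ) × ℝ => φ q.2 q.1)
  conti : Continuous (fun q : (ℝ × ℝ) × ℝ => φi q.2 q.1)
  li : ∀ h p, φi h (φ h p) = p
  ri : ∀ h p, φ h (φi h p) = p

lemma GM.S {φ φi : ℝ → ℝ × ℝ → ℝ × ℝ} (h : GM φ φi) (C : Cfg N) (k : Fin N) :
    GM (fun t p => S C k (φ t p)) (fun t p => φi t (Si C k p)) where
  mp := fun t => (mp_S C k).comp (h.mp t)
  comm := fun t => (comm_S C k).comp (h.comm t)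
  commi := fun t => (h.commi t).comp (comm_Si C k)
  cont := (continuous_S C k).comp h.cont
  conti := h.conti.comp (((continuous_Si C k).comp continuous_fst).prodMk continuous_snd)
  li := fun t p => by rw [Si_S, h.li]
  ri := fun t p => by rw [h.ri, S_Si]

lemma GM_id : GM (fun _ p => p) (fun _ p => p) where
  mp := fun _ => MeasurePreserving.id _
  comm := fun _ _ => rfl
  commi := fun _ _ => rfl
  cont := continuous_fst
  conti := continuous_fst
  li := fun _ _ => rfl
  ri := fun _ _ => rfl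

lemma GM_rev : GM (fun _ => rev) (fun _ => unrev) where
  mp := fun _ => mp_rev
  comm := fun _ => comm_rev
  commi := fun _ => comm_unrev
  cont := continuous_rev.comp continuous_fst
  conti := continuous_unrev.comp continuous_fst
  li := fun _ p => unrev_rev p
  ri := fun _ p => rev_unrev p

lemma GM_add : GM (fun t p => (p.1, p.2 + t)) (fun t p => (p.1, p.2 - t)) where
  mp := fun t => mp_add_snd t
  comm := fun t => comm_add_snd t
  commi := fun t => comm_add_snd (-t)
  cont := by fun_prop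
  conti := by fun_prop
  li := fun t p => by simp
  ri := fun t p => by simp

lemma GM_rev_add : GM (fun t p => rev (p.1, p.2 + t))
    (fun t p => ((unrev p).1, (unrev p).2 - t)) where
  mp := fun t => mp_rev.comp (mp_add_snd t)
  comm := fun t => comm_rev.comp (comm_add_snd t)
  commi := fun t => (comm_add_snd (-t)).comp comm_unrev
  cont := continuous_rev.comp (by fun_prop)
  conti := by
    have : Continuous (fun q : (ℝ × ℝ) × ℝ => unrev q.1) := continuous_unrev.comp continuous_fst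
    exact (continuous_fst.comp this).prodMk ((continuous_snd.comp this).sub continuous_snd)
  li := fun t p => by simp
  ri := fun t p => by simp

/-! ## low ages -/

/-- one kill of given age, restricted to a closed condition with countable limit, is o(h) -/
lemma low_aux (C : Cfg N) (a B : ℝ) (hB : 0 ≤ B) (E : Set ((ℝ × ℝ) × ℝ)) (hE : IsClosed E)
    (hEp : ∀ h, Per {l | (l, h) ∈ E}) (hE0 : {l : ℝ × ℝ | (l, 0) ∈ E}.Countable) (j : ℕ) :
    ∀ (o : Option (Fin N)) (e : ℝ) (φ φi : ℝ → ℝ × ℝ → ℝ × ℝ), GM φ φi →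
      SmallO (fun h => volume ({l | Kill C j o e (B * h) (φ h l) ∧ (l, h) ∈ E} ∩ strip a)) := by
  induction j with
  | zero =>
    intro o e φ φi hg
    -- the pieces
    have hpiece : ∀ m : Fin N, SmallO (fun h =>
        volume ({l | |bet C (some m) (φ h l) + e * C.R (some m)| ≤ B * h ∧ (l, h) ∈ E} ∩
          strip a)) := by
      intro m
      set K : Set ((ℝ × ℝ) × ℝ) := (fun q => (φi q.2 q.1, q.2)) ⁻¹' E with hKdef
      have hK : IsClosed K := hE.preimage (hg.conti.prodMk continuous_snd)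
      have hKc : {b : ℝ | (mk C (some m) b (-(e * C.R (some m))), (0 : ℝ)) ∈ K}.Countable := by
        have hinj : Function.Injective
            (fun b : ℝ => φi 0 (mk C (some m) b (-(e * C.R (some m))))) := by
          intro b b' hb
          simp only at hb
          have := congrArg (φ 0) hb
          rw [hg.ri, hg.ri] at this
          exact congrArg Prod.fst this
        exact hE0.preimage_of_injOn hinj.injOn
      refine (thin C (some m) a (e * C.R (some m)) B hB K hK hKc).mono one_pos ?_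
      intro h hp _
      refine le_of_eq ?_
      have hQper : Per {q | |bet C (some m) q + e * C.R (some m)| ≤ B * h ∧ (q, h) ∈ K} := by
        intro q
        simp only [mem_ofPred_eq, bet_shift, hKdef, mem_preimage]
        rw [hg.commi h q]
        exact and_congr_right fun _ => hEp h (φi h q)
      have hQm : MeasurableSet {q | |bet C (some m) q + e * C.R (some m)| ≤ B * h ∧
          (q, h) ∈ K} := by
        have h1 : IsClosed {q | |bet C (some m) q + e * C.R (some m)| ≤ B * h} :=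
          isClosed_le ((continuous_bet C _).add continuous_const).abs continuous_const
        have h2 : IsClosed {q : ℝ × ℝ | (q, h) ∈ K} :=
          hK.preimage (continuous_id.prodMk continuous_const)
        exact (h1.inter h2).measurableSet
      rw [← hQper.preimage_strip hQm (hg.mp h) (hg.comm h) a a]
      congr 2
      ext l
      simp only [mem_ofPred_eq, mem_preimage, hKdef, hg.li]
    refine (SmallO.sum Finset.univ (fun m _ => hpiece m)).mono one_pos ?_
    intro h hp _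
    refine le_trans (measure_mono ?_) (measure_iUnion_fintype_le _ _)
    rintro l ⟨⟨⟨m, _, _, h3, _⟩, h5⟩, h6⟩
    exact mem_iUnion.2 ⟨m, ⟨h3, h5⟩, h6⟩
  | succ j ih =>
    intro o e φ φi hg
    refine (SmallO.sum Finset.univ (fun k _ =>
      ih (some k) (-e) (fun t p => S C k (φ t p)) _ (hg.S C k))).mono one_pos ?_
    intro h hp _
    refine le_trans (measure_mono ?_) (measure_iUnion_fintype_le _ _)
    rintro l ⟨⟨⟨k, _, h3⟩, h5⟩, h6⟩
    exact mem_iUnion.2 ⟨k, ⟨h3, h5⟩, h6⟩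

/-- closedness of a kill condition along a moving family -/
lemma isClosed_kill_move (C : Cfg N) {φ φi : ℝ → ℝ × ℝ → ℝ × ℝ} (hg : GM φ φi) (j : ℕ)
    (o : Option (Fin N)) (e B : ℝ) :
    IsClosed {q : (ℝ × ℝ) × ℝ | Kill C j o e (B * q.2) (φ q.2 q.1)} :=
  (isClosed_Kill C j o e).preimage
    (f := fun q : (ℝ × ℝ) × ℝ => ((φ q.2 q.1, B * q.2) : (ℝ × ℝ) × ℝ))
    (hg.cont.prodMk (by fun_prop))

/-- two kills of given ages of opposite signs: o(h) -/
lemma low_pair (C : Cfg N) (a B : ℝ) (hB : 0 ≤ B) (j1 j2 : ℕ) {φ φi ψ ψi : ℝ → ℝ × ℝ → ℝ × ℝ}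
    (hφ : GM φ φi) (hψ : GM ψ ψi)
    (h0 : ∀ p, |bet C none p| < C.R none → Kill C j1 none (-1) 0 (φ 0 p) →
      Kill C j2 none 1 0 (ψ 0 p) → p ∈ DD C) :
    SmallO (fun h => volume ({l | |bet C none l| ≤ C.R none / 2 ∧
      Kill C j1 none (-1) (B * h) (φ h l) ∧ Kill C j2 none 1 (B * h) (ψ h l)} ∩ strip a)) := by
  set E : Set ((ℝ × ℝ) × ℝ) := {q | |bet C none q.1| ≤ C.R none / 2} ∩
    ({q | Kill C j1 none (-1) (B * q.2) (φ q.2 q.1)} ∩
      {q | Kill C j2 none 1 (B * q.2) (ψ q.2 q.1)}) with hE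
  have hEc : IsClosed E := by
    refine IsClosed.inter ?_ ((isClosed_kill_move C hφ j1 none (-1) B).inter
      (isClosed_kill_move C hψ j2 none 1 B))
    exact isClosed_le ((continuous_bet C none).comp continuous_fst).abs continuous_const
  have hEp : ∀ h, Per {l | (l, h) ∈ E} := by
    intro h p
    simp only [hE, mem_inter_iff, mem_ofPred_eq, bet_shift]
    rw [hφ.comm h p, hψ.comm h p]
    rw [Kill_shift, Kill_shift]
  have hE0 : {l : ℝ × ℝ | (l, 0) ∈ E}.Countable := by
    refine (countable_DD C).mono ?_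
    rintro p ⟨h1, h2, h3⟩
    simp only [mem_ofPred_eq, mul_zero] at h1 h2 h3
    have hR := C.Rpos none
    exact h0 p (by linarith) h2 h3
  refine (low_aux C a B hB E hEc hEp hE0 j1 none (-1) φ φi hφ).mono one_pos ?_
  intro h hp _
  refine measure_mono ?_
  rintro l ⟨⟨h1, h2, h3⟩, h4⟩
  exact ⟨⟨h2, h1, h2, h3⟩, h4⟩

/-- low ages -/
lemma low (C : Cfg N) (a B : ℝ) (hB : 0 ≤ B) (n0 : ℕ) :
    SmallO (fun h => volume ({l | |bet C none l| ≤ C.R none / 2 ∧
      ((∃ j ≤ n0, Kill C j none (-1) (B * h) (rev l)) ∨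
        (∃ j ≤ n0, Kill C j none (-1) (B * h) (l.1, l.2 + h))) ∧
      ((∃ j ≤ n0, Kill C j none 1 (B * h) l) ∨
        (∃ j ≤ n0, Kill C j none 1 (B * h) (rev (l.1, l.2 + h))))} ∩ strip a)) := by
  have e0 : ∀ p : ℝ × ℝ, ((p.1, p.2 + 0) : ℝ × ℝ) = p := fun p => by simp
  have c1 : ∀ j1 j2 : ℕ, SmallO (fun h => volume ({l | |bet C none l| ≤ C.R none / 2 ∧
      Kill C j1 none (-1) (B * h) (rev l) ∧ Kill C j2 none 1 (B * h) l} ∩ strip a)) :=
    fun j1 j2 => low_pair C a B hB j1 j2 GM_rev GM_id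
      (fun p hp k1 k2 => ⟨hp, Or.inl ⟨j1, k1⟩, Or.inl ⟨j2, k2⟩⟩)
  have c2 : ∀ j1 j2 : ℕ, SmallO (fun h => volume ({l | |bet C none l| ≤ C.R none / 2 ∧
      Kill C j1 none (-1) (B * h) (rev l) ∧
        Kill C j2 none 1 (B * h) (rev (l.1, l.2 + h))} ∩ strip a)) :=
    fun j1 j2 => low_pair C a B hB j1 j2 GM_rev GM_rev_add
      (fun p hp k1 k2 => ⟨hp, Or.inl ⟨j1, k1⟩, Or.inr ⟨j2, by rwa [e0] at k2⟩⟩)
  have c3 : ∀ j1 j2 : ℕ, SmallO (fun h => volume ({l | |bet C none l| ≤ C.R none / 2 ∧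
      Kill C j1 none (-1) (B * h) (l.1, l.2 + h) ∧ Kill C j2 none 1 (B * h) l} ∩ strip a)) :=
    fun j1 j2 => low_pair C a B hB j1 j2 GM_add GM_id
      (fun p hp k1 k2 => ⟨hp, Or.inr ⟨j1, by rwa [e0] at k1⟩, Or.inl ⟨j2, k2⟩⟩)
  have c4 : ∀ j1 j2 : ℕ, SmallO (fun h => volume ({l | |bet C none l| ≤ C.R none / 2 ∧
      Kill C j1 none (-1) (B * h) (l.1, l.2 + h) ∧
        Kill C j2 none 1 (B * h) (rev (l.1, l.2 + h))} ∩ strip a)) :=
    fun j1 j2 => low_pair C a B hB j1 j2 GM_add GM_rev_add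
      (fun p hp k1 k2 => ⟨hp, Or.inr ⟨j1, by rwa [e0] at k1⟩, Or.inr ⟨j2, by rwa [e0] at k2⟩⟩)
  have hs := SmallO.sum (Finset.range (n0 + 1) ×ˢ Finset.range (n0 + 1))
    (fun j _ => ((c1 j.1 j.2).add (c2 j.1 j.2)).add ((c3 j.1 j.2).add (c4 j.1 j.2)))
  refine hs.mono one_pos ?_
  intro h hp _
  refine le_trans (measure_mono (t := ⋃ j ∈ Finset.range (n0 + 1) ×ˢ Finset.range (n0 + 1),
    ((({l | |bet C none l| ≤ C.R none / 2 ∧
      Kill C j.1 none (-1) (B * h) (rev l) ∧ Kill C j.2 none 1 (B * h) l} ∩ strip a) ∪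
      ({l | |bet C none l| ≤ C.R none / 2 ∧
      Kill C j.1 none (-1) (B * h) (rev l) ∧
        Kill C j.2 none 1 (B * h) (rev (l.1, l.2 + h))} ∩ strip a)) ∪
      (({l | |bet C none l| ≤ C.R none / 2 ∧
      Kill C j.1 none (-1) (B * h) (l.1, l.2 + h) ∧ Kill C j.2 none 1 (B * h) l} ∩ strip a) ∪
      ({l | |bet C none l| ≤ C.R none / 2 ∧
      Kill C j.1 none (-1) (B * h) (l.1, l.2 + h) ∧
        Kill C j.2 none 1 (B * h) (rev (l.1, l.2 + h))} ∩ strip a)))) ?_)
    ((measure_biUnion_finset_le _ _).trans (Finset.sum_le_sum fun j _ =>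
      (measure_union_le _ _).trans (add_le_add (measure_union_le _ _) (measure_union_le _ _))))
  rintro l ⟨⟨h1, h2, h3⟩, h4⟩
  rcases h2 with ⟨j1, hj1, k1⟩ | ⟨j1, hj1, k1⟩ <;> rcases h3 with ⟨j2, hj2, k2⟩ | ⟨j2, hj2, k2⟩ <;>
    refine mem_biUnion (x := (j1, j2)) (by simp; omega) ?_
  · exact Or.inl (Or.inl ⟨⟨h1, k1, k2⟩, h4⟩)
  · exact Or.inl (Or.inr ⟨⟨h1, k1, k2⟩, h4⟩)
  · exact Or.inr (Or.inl ⟨⟨h1, k1, k2⟩, h4⟩)
  · exact Or.inr (Or.inr ⟨⟨h1, k1, k2⟩, h4⟩)

/-- low ages for the fan of the centre of the chart disk -/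
lemma low_fan (C : Cfg N) (a B : ℝ) (n0 : ℕ) :
    SmallO (fun h => volume ({l | |bet C none l| ≤ h ∧
      (∃ j ≤ n0, Kill C j none (-1) (B * h) (rev l))} ∩ strip a)) := by
  have c1 : ∀ j : ℕ, SmallO (fun h => volume ({l | |bet C none l| ≤ h ∧
      Kill C j none (-1) (B * h) (rev l)} ∩ strip a)) := by
    intro j
    have hc : {b : ℝ | ((mk C none b (-0), (0 : ℝ)) : (ℝ × ℝ) × ℝ) ∈
        {q : (ℝ × ℝ) × ℝ | Kill C j none (-1) (B * q.2) (rev q.1)}}.Countable := by
      have h1 : {b : ℝ | ((mk C none b (-0), (0 : ℝ)) : (ℝ × ℝ) × ℝ) ∈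
          {q : (ℝ × ℝ) × ℝ | Kill C j none (-1) (B * q.2) (rev q.1)}} ⊆
          (fun b : ℝ => b + π) ⁻¹' {a : ℝ | ∃ (j : ℕ) (e : ℝ), (e = 1 ∨ e = -1) ∧
            Kill C j none e 0 (mk C none a 0)} := by
        intro b hb
        simp only [mem_ofPred_eq, mul_zero] at hb
        refine ⟨j, -1, Or.inr rfl, ?_⟩
        have e : rev (mk C none b (-0)) = mk C none (b + π) 0 := by
          apply eq_of_fst_bet C none
          · rfl
          · rw [bet_rev, bet_mk, bet_mk]; simp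
        rwa [e] at hb
      refine Set.Countable.mono h1 ((countable_fan C).preimage_of_injOn ?_)
      exact (add_left_injective π).injOn
    have := thin C none a 0 1 zero_le_one _ (isClosed_kill_move C GM_rev j none (-1) B) hc
    refine this.mono one_pos ?_
    intro h hp _
    refine measure_mono ?_
    rintro l ⟨⟨h1, h2⟩, h3⟩
    exact ⟨⟨by simpa using h1, h2⟩, h3⟩
  refine (SmallO.sum (Finset.range (n0 + 1)) (fun j _ => c1 j)).mono one_pos ?_
  intro h hp _
  refine le_trans (measure_mono ?_) (measure_biUnion_finset_le _ _)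
  rintro l ⟨⟨h1, j, hj, h2⟩, h3⟩
  exact mem_biUnion (x := j) (by simp; omega) ⟨⟨h1, h2⟩, h3⟩

end Pool.Agent.Work.MP_5c1620_co
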