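import Pool.Agent.Work.MP_5c1620_co.Low2

/-!
# M6.1: lines close to two tangencies of arbitrary age
-/

set_option autoImplicit false
open Real Set MeasureTheory Topology Filter

namespace Pool.Agent.Work.MP_5c1620_co

variable {N : ℕ}

/-- the line is not killed at scale h -/
def Unk (C : Cfg N) (p : ℝ × ℝ) (e h : ℝ) : Prop :=
  ∀ j : ℕ, ¬ Kill C j none e (2 * (C.C1 * (h / C.lam ^ j))) p

lemma kill_bound_move (C : Cfg N) : ∃ CM : ℝ, 0 < CM ∧ ∀ (a : ℝ) (j : ℕ) (e ε r h : ℝ)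
    (χ χi : ℝ → ℝ × ℝ → ℝ × ℝ), GM χ χi → 0 < ε →
    (∀ l, |bet C none l| ≤ r → |bet C none (χ h l)| < C.R none) →
    volume ({l | |bet C none l| ≤ r ∧ Kill C j none e ε (χ h l)} ∩ strip a) ≤
      ENNReal.ofReal (CM * ε) := by
  obtain ⟨CM, h1, h2⟩ := kill_bound C
  refine ⟨CM, h1, ?_⟩
  intro a j e ε r h χ χi hχ hε hdom
  have hP : Per (dom C none ∩ {p | Kill C j none e ε p}) :=
    (per_dom C none).inter (per_Kill C j none e ε)
  have hm : MeasurableSet (dom C none ∩ {p | Kill C j none e ε p}) :=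
    (measurableSet_dom C none).inter (measurableSet_Kill C j none e ε)
  calc volume ({l | |bet C none l| ≤ r ∧ Kill C j none e ε (χ h l)} ∩ strip a)
      ≤ volume (χ h ⁻¹' (dom C none ∩ {p | Kill C j none e ε p}) ∩ strip a) := by
        apply measure_mono
        rintro l ⟨⟨k1, k2⟩, k3⟩
        exact ⟨⟨hdom l k1, k2⟩, k3⟩
    _ = volume ((dom C none ∩ {p | Kill C j none e ε p}) ∩ strip a) :=
        hP.preimage_strip hm (hχ.mp h) (hχ.comm h) a a
    _ ≤ ENNReal.ofReal (CM * ε) := by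
        refine le_trans (measure_mono ?_) (h2 a j e ε hε)
        rintro p ⟨⟨k1, k2⟩, k3⟩
        exact ⟨k3, k1, k2⟩

/-- the sum over high ages -/
lemma high_sum {c q : ℝ} (hc : 0 ≤ c) (hq0 : 0 ≤ q) (hq1 : q < 1) :
    ∑' n : ℕ, ENNReal.ofReal (c * q ^ n) = ENNReal.ofReal (c / (1 - q)) := by
  rw [← ENNReal.ofReal_tsum_of_nonneg (fun n => by positivity)
    ((summable_geometric_of_lt_one hq0 hq1).mul_left c), tsum_mul_left,
    tsum_geometric_of_lt_one hq0 hq1]
  rfl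

/-- the union over high ages of a kill condition along a moving family -/
lemma high (C : Cfg N) : ∃ CH : ℝ, 0 < CH ∧ ∀ (a : ℝ) (n0 : ℕ) (e r h : ℝ)
    (χ χi : ℝ → ℝ × ℝ → ℝ × ℝ), GM χ χi → 0 < h →
    (∀ l, |bet C none l| ≤ r → |bet C none (χ h l)| < C.R none) →
    volume ({l | |bet C none l| ≤ r ∧
      ∃ j, n0 ≤ j ∧ Kill C j none e (2 * (C.C1 * (h / C.lam ^ j))) (χ h l)} ∩ strip a) ≤
      ENNReal.ofReal (CH * (1 / C.lam) ^ n0 * h) := by
  obtain ⟨CM, h1, h2⟩ := kill_bound_move C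
  have hlam := lam_gt_one C
  have hC1 := C1_ge_one C
  set q := 1 / C.lam with hq
  have hq0 : 0 < q := by rw [hq]; positivity
  have hq1 : q < 1 := by rw [hq, div_lt_one (by linarith)]; exact hlam
  have hq2 : 0 < 1 - q := by linarith
  refine ⟨CM * (2 * C.C1) / (1 - q), by positivity, ?_⟩
  intro a n0 e r h χ χi hχ hh hdom
  calc volume ({l | |bet C none l| ≤ r ∧
        ∃ j, n0 ≤ j ∧ Kill C j none e (2 * (C.C1 * (h / C.lam ^ j))) (χ h l)} ∩ strip a)
      ≤ volume (⋃ n : ℕ, ({l | |bet C none l| ≤ r ∧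
          Kill C (n0 + n) none e (2 * (C.C1 * (h / C.lam ^ (n0 + n)))) (χ h l)} ∩ strip a)) := by
        apply measure_mono
        rintro l ⟨⟨k1, j, hj, k2⟩, k3⟩
        obtain ⟨n, rfl⟩ := Nat.exists_eq_add_of_le hj
        exact mem_iUnion.2 ⟨n, ⟨k1, k2⟩, k3⟩
    _ ≤ ∑' n : ℕ, volume ({l | |bet C none l| ≤ r ∧
          Kill C (n0 + n) none e (2 * (C.C1 * (h / C.lam ^ (n0 + n)))) (χ h l)} ∩ strip a) :=
        measure_iUnion_le _
    _ ≤ ∑' n : ℕ, ENNReal.ofReal ((CM * (2 * C.C1) * q ^ n0 * h) * q ^ n) := by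
        refine ENNReal.tsum_le_tsum fun n => ?_
        have hpos : 0 < 2 * (C.C1 * (h / C.lam ^ (n0 + n))) := by positivity
        refine (h2 a (n0 + n) e _ r h χ χi hχ hpos hdom).trans (le_of_eq ?_)
        congr 1
        rw [hq, pow_add, one_div, inv_pow, inv_pow]
        field_simp
    _ = ENNReal.ofReal (CM * (2 * C.C1) / (1 - q) * q ^ n0 * h) := by
        rw [high_sum (by positivity) hq0.le hq1]
        congr 1
        field_simp

/-- lines close to two tangencies of opposite signs: o(h) -/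
lemma two_kills (C : Cfg N) (a : ℝ) :
    SmallO (fun h => volume ({l | |bet C none l| ≤ C.R none / 2 ∧
      (¬ Unk C (rev l) (-1) h ∨ ¬ Unk C (l.1, l.2 + h) (-1) h) ∧
      (¬ Unk C l 1 h ∨ ¬ Unk C (rev (l.1, l.2 + h)) 1 h)} ∩ strip a)) := by
  obtain ⟨CH, hCH, hh⟩ := high C
  have hlam := lam_gt_one C
  have hC1 := C1_ge_one C
  have hR := C.Rpos none
  intro ε hε
  have hlim : Tendsto (fun n : ℕ => 4 * (CH * (1 / C.lam) ^ n)) atTop (𝓝 0) := by
    have := (tendsto_pow_atTop_nhds_zero_of_lt_one (r := 1 / C.lam) (by positivity)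
      (by rw [div_lt_one (by linarith)]; exact hlam)).const_mul CH |>.const_mul 4
    simpa using this
  obtain ⟨n0, hn0⟩ := (hlim.eventually (gt_mem_nhds (by positivity : (0 : ℝ) < ε / 2))).exists
  obtain ⟨h0, hh0, hlow⟩ := low C a (2 * C.C1) (by positivity) n0 (ε / 2) (by positivity)
  refine ⟨min h0 (C.R none / 2), lt_min hh0 (by positivity), fun h hp hl => ?_⟩
  have hl1 : h < h0 := hl.trans_le (min_le_left _ _)
  have hl2 : h < C.R none / 2 := hl.trans_le (min_le_right _ _)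
  have d1 : ∀ l, |bet C none l| ≤ C.R none / 2 → |bet C none l| < C.R none := fun l hl => by
    linarith
  have d2 : ∀ l : ℝ × ℝ, |bet C none l| ≤ C.R none / 2 →
      |bet C none (l.1, l.2 + h)| < C.R none := by
    intro l hl
    rw [bet_add_snd]
    have := abs_add_le (bet C none l) h
    rw [abs_of_pos hp] at this
    linarith
  have H1 := hh a n0 (-1) (C.R none / 2) h _ _ GM_rev hp
    (fun l hl => by rw [bet_rev, abs_neg]; exact d1 l hl)
  have H2 := hh a n0 (-1) (C.R none / 2) h _ _ GM_add hp d2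
  have H3 := hh a n0 1 (C.R none / 2) h _ _ GM_id hp d1
  have H4 := hh a n0 1 (C.R none / 2) h _ _ GM_rev_add hp
    (fun l hl => by rw [bet_rev, abs_neg]; exact d2 l hl)
  have HL := hlow h hp hl1
  have key : ∀ (e : ℝ) (χ : ℝ × ℝ), ¬ Unk C χ e h →
      (∃ j ≤ n0, Kill C j none e (2 * C.C1 * h) χ) ∨
        ∃ j, n0 ≤ j ∧ Kill C j none e (2 * (C.C1 * (h / C.lam ^ j))) χ := by
    intro e χ hU
    simp only [Unk, not_forall, not_not] at hU
    obtain ⟨j, hj⟩ := hU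
    rcases le_total j n0 with h1 | h1
    · left
      refine ⟨j, h1, Kill_mono C j none e ?_ _ hj⟩
      have h2 : h / C.lam ^ j ≤ h := by
        apply div_le_self hp.le
        exact one_le_pow₀ hlam.le
      have h3 : C.C1 * (h / C.lam ^ j) ≤ C.C1 * h := mul_le_mul_of_nonneg_left h2 (by linarith)
      linarith
    · right
      exact ⟨j, h1, hj⟩
  set S0 := {l : ℝ × ℝ | |bet C none l| ≤ C.R none / 2 ∧
      ((∃ j ≤ n0, Kill C j none (-1) (2 * C.C1 * h) (rev l)) ∨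
        (∃ j ≤ n0, Kill C j none (-1) (2 * C.C1 * h) (l.1, l.2 + h))) ∧
      ((∃ j ≤ n0, Kill C j none 1 (2 * C.C1 * h) l) ∨
        (∃ j ≤ n0, Kill C j none 1 (2 * C.C1 * h) (rev (l.1, l.2 + h))))} ∩ strip a
  set S1 := {l : ℝ × ℝ | |bet C none l| ≤ C.R none / 2 ∧
      ∃ j, n0 ≤ j ∧ Kill C j none (-1) (2 * (C.C1 * (h / C.lam ^ j))) (rev l)} ∩ strip a
  set S2 := {l : ℝ × ℝ | |bet C none l| ≤ C.R none / 2 ∧
      ∃ j, n0 ≤ j ∧ Kill C j none (-1) (2 * (C.C1 * (h / C.lam ^ j))) (l.1, l.2 + h)} ∩ strip a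
  set S3 := {l : ℝ × ℝ | |bet C none l| ≤ C.R none / 2 ∧
      ∃ j, n0 ≤ j ∧ Kill C j none 1 (2 * (C.C1 * (h / C.lam ^ j))) l} ∩ strip a
  set S4 := {l : ℝ × ℝ | |bet C none l| ≤ C.R none / 2 ∧
      ∃ j, n0 ≤ j ∧ Kill C j none 1 (2 * (C.C1 * (h / C.lam ^ j))) (rev (l.1, l.2 + h))} ∩ strip a
  have hsub : {l | |bet C none l| ≤ C.R none / 2 ∧
      (¬ Unk C (rev l) (-1) h ∨ ¬ Unk C (l.1, l.2 + h) (-1) h) ∧
      (¬ Unk C l 1 h ∨ ¬ Unk C (rev (l.1, l.2 + h)) 1 h)} ∩ strip a ⊆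
      S0 ∪ ((S1 ∪ S2) ∪ (S3 ∪ S4)) := by
    rintro l ⟨⟨k1, k2, k3⟩, k4⟩
    have f1 : l ∈ S1 ∪ S2 ∨ ((∃ j ≤ n0, Kill C j none (-1) (2 * C.C1 * h) (rev l)) ∨
        (∃ j ≤ n0, Kill C j none (-1) (2 * C.C1 * h) (l.1, l.2 + h))) := by
      rcases k2 with k2 | k2
      · rcases key _ _ k2 with k5 | k5
        · exact Or.inr (Or.inl k5)
        · exact Or.inl (Or.inl ⟨⟨k1, k5⟩, k4⟩)
      · rcases key _ _ k2 with k5 | k5
        · exact Or.inr (Or.inr k5)
        · exact Or.inl (Or.inr ⟨⟨k1, k5⟩, k4⟩)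
    have f2 : l ∈ S3 ∪ S4 ∨ ((∃ j ≤ n0, Kill C j none 1 (2 * C.C1 * h) l) ∨
        (∃ j ≤ n0, Kill C j none 1 (2 * C.C1 * h) (rev (l.1, l.2 + h)))) := by
      rcases k3 with k3 | k3
      · rcases key _ _ k3 with k5 | k5
        · exact Or.inr (Or.inl k5)
        · exact Or.inl (Or.inl ⟨⟨k1, k5⟩, k4⟩)
      · rcases key _ _ k3 with k5 | k5
        · exact Or.inr (Or.inr k5)
        · exact Or.inl (Or.inr ⟨⟨k1, k5⟩, k4⟩)
    rcases f1 with f1 | f1
    · exact Or.inr (Or.inl f1)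
    · rcases f2 with f2 | f2
      · exact Or.inr (Or.inr f2)
      · exact Or.inl ⟨⟨k1, f1, f2⟩, k4⟩
  calc _ ≤ volume (S0 ∪ ((S1 ∪ S2) ∪ (S3 ∪ S4))) := measure_mono hsub
    _ ≤ volume S0 + ((volume S1 + volume S2) + (volume S3 + volume S4)) :=
        (measure_union_le _ _).trans (add_le_add le_rfl ((measure_union_le _ _).trans
          (add_le_add (measure_union_le _ _) (measure_union_le _ _))))
    _ ≤ ENNReal.ofReal (ε / 2 * h) + ((ENNReal.ofReal (CH * (1 / C.lam) ^ n0 * h) +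
          ENNReal.ofReal (CH * (1 / C.lam) ^ n0 * h)) +
          (ENNReal.ofReal (CH * (1 / C.lam) ^ n0 * h) +
          ENNReal.ofReal (CH * (1 / C.lam) ^ n0 * h))) :=
        add_le_add HL (add_le_add (add_le_add H1 H2) (add_le_add H3 H4))
    _ = ENNReal.ofReal (ε / 2 * h + ((CH * (1 / C.lam) ^ n0 * h + CH * (1 / C.lam) ^ n0 * h) +
          (CH * (1 / C.lam) ^ n0 * h + CH * (1 / C.lam) ^ n0 * h))) := by
        have : 0 ≤ CH * (1 / C.lam) ^ n0 * h := by positivity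
        rw [ENNReal.ofReal_add (by positivity) (by positivity),
          ENNReal.ofReal_add (by positivity) (by positivity),
          ENNReal.ofReal_add this this]
    _ ≤ ENNReal.ofReal (ε * h) := by
        apply ENNReal.ofReal_le_ofReal
        nlinarith

/-- lines near the fan of the centre which are killed: o(h) -/
lemma fan_kills (C : Cfg N) (a : ℝ) :
    SmallO (fun h => volume ({l | |bet C none l| ≤ h ∧ ¬ Unk C (rev l) (-1) h} ∩ strip a)) := by
  obtain ⟨CH, hCH, hh⟩ := high C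
  have hlam := lam_gt_one C
  have hC1 := C1_ge_one C
  have hR := C.Rpos none
  intro ε hε
  have hlim : Tendsto (fun n : ℕ => CH * (1 / C.lam) ^ n) atTop (𝓝 0) := by
    have := (tendsto_pow_atTop_nhds_zero_of_lt_one (r := 1 / C.lam) (by positivity)
      (by rw [div_lt_one (by linarith)]; exact hlam)).const_mul CH
    simpa using this
  obtain ⟨n0, hn0⟩ := (hlim.eventually (gt_mem_nhds (by positivity : (0 : ℝ) < ε / 2))).exists
  obtain ⟨h0, hh0, hlow⟩ := low_fan C a (2 * C.C1) n0 (ε / 2) (by positivity)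
  refine ⟨min h0 (C.R none), lt_min hh0 hR, fun h hp hl => ?_⟩
  have hl1 : h < h0 := hl.trans_le (min_le_left _ _)
  have hl2 : h < C.R none := hl.trans_le (min_le_right _ _)
  have H1 := hh a n0 (-1) h h _ _ GM_rev hp
    (fun l hl => by rw [bet_rev, abs_neg]; linarith)
  have HL := hlow h hp hl1
  have hsub : {l | |bet C none l| ≤ h ∧ ¬ Unk C (rev l) (-1) h} ∩ strip a ⊆
      ({l | |bet C none l| ≤ h ∧
        (∃ j ≤ n0, Kill C j none (-1) (2 * C.C1 * h) (rev l))} ∩ strip a) ∪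
      ({l : ℝ × ℝ | |bet C none l| ≤ h ∧
      ∃ j, n0 ≤ j ∧ Kill C j none (-1) (2 * (C.C1 * (h / C.lam ^ j))) (rev l)} ∩ strip a) := by
    rintro l ⟨⟨k1, k2⟩, k4⟩
    simp only [Unk, not_forall, not_not] at k2
    obtain ⟨j, hj⟩ := k2
    rcases le_total j n0 with h1 | h1
    · left
      refine ⟨⟨k1, j, h1, Kill_mono C j none (-1) ?_ _ hj⟩, k4⟩
      have h2 : h / C.lam ^ j ≤ h := by
        apply div_le_self hp.le
        exact one_le_pow₀ hlam.le
      have h3 : C.C1 * (h / C.lam ^ j) ≤ C.C1 * h := mul_le_mul_of_nonneg_left h2 (by linarith)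
      linarith
    · right
      exact ⟨⟨k1, j, h1, hj⟩, k4⟩
  refine (measure_mono hsub).trans ((measure_union_le _ _).trans ((add_le_add HL H1).trans ?_))
  have : 0 ≤ CH * (1 / C.lam) ^ n0 * h := by positivity
  rw [← ENNReal.ofReal_add (by positivity) this]
  apply ENNReal.ofReal_le_ofReal
  nlinarith

end Pool.Agent.Work.MP_5c1620_co
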