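import Pool.Agent.Work.MP_5c1620_co.Per

/-!
# Measure preserving maps and periodic sets
-/

set_option autoImplicit false
open Real Set MeasureTheory Function

namespace Pool.Agent.Work.MP_5c1620_co

variable {N : ℕ}

/-! ## shears -/

lemma mp_shear2 {g : ℝ → ℝ} (hg : Measurable g) :
    MeasurePreserving (fun p : ℝ × ℝ => (p.1, p.2 + g p.1)) :=
  MeasurePreserving.skew_product (f := id) (MeasurePreserving.id (volume : Measure ℝ))
    (g := fun a b => b + g a) (by fun_prop)
    (Filter.Eventually.of_forall fun a => (measurePreserving_add_right volume (g a)).map_eq)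

lemma mp_swap : MeasurePreserving (Prod.swap : ℝ × ℝ → ℝ × ℝ) :=
  Measure.measurePreserving_swap

lemma mp_shear1 {g : ℝ → ℝ} (hg : Measurable g) :
    MeasurePreserving (fun p : ℝ × ℝ => (p.1 + g p.2, p.2)) :=
  mp_swap.comp ((mp_shear2 hg).comp mp_swap)

lemma mp_bet (C : Cfg N) (o : Option (Fin N)) :
    MeasurePreserving (fun p : ℝ × ℝ => (p.1, bet C o p)) := by
  have h : (fun p : ℝ × ℝ => (p.1, bet C o p)) =
      fun p : ℝ × ℝ => (p.1, p.2 + (fun a => C.cx o * sin a - C.cy o * cos a) p.1) := by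
    funext p
    simp only [bet]
    rw [add_sub_assoc]
  rw [h]
  exact mp_shear2 (g := fun a => C.cx o * sin a - C.cy o * cos a) (by fun_prop)

lemma mp_mk (C : Cfg N) (o : Option (Fin N)) :
    MeasurePreserving (fun p : ℝ × ℝ => mk C o p.1 p.2) := by
  have h : (fun p : ℝ × ℝ => mk C o p.1 p.2) =
      fun p : ℝ × ℝ => (p.1, p.2 + (fun a => - C.cx o * sin a + C.cy o * cos a) p.1) := by
    funext p
    simp only [mk]
    refine Prod.ext rfl ?_
    simp only
    ring
  rw [h]
  exact mp_shear2 (g := fun a => - C.cx o * sin a + C.cy o * cos a) (by fun_prop)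

lemma mp_S (C : Cfg N) (k : Fin N) : MeasurePreserving (S C k) := by
  have h : S C k = (fun p : ℝ × ℝ => mk C (some k) p.1 p.2) ∘
      (fun p : ℝ × ℝ => (p.1 + (fun b => π - 2 * arcsin (b / C.R (some k))) p.2, p.2)) ∘
      (fun p : ℝ × ℝ => (p.1, bet C (some k) p)) := by
    funext p
    simp only [S, comp_apply]
    congr 1
    ring
  rw [h]
  refine (mp_mk C (some k)).comp
    ((mp_shear1 (g := fun b => π - 2 * arcsin (b / C.R (some k))) ?_).comp (mp_bet C (some k)))
  exact measurable_const.sub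
    (measurable_const.mul (measurable_arcsin.comp (measurable_id.div_const _)))

lemma mp_Si (C : Cfg N) (k : Fin N) : MeasurePreserving (Si C k) := by
  have h : Si C k = (fun p : ℝ × ℝ => mk C (some k) p.1 p.2) ∘
      (fun p : ℝ × ℝ => (p.1 + (fun b => - π + 2 * arcsin (b / C.R (some k))) p.2, p.2)) ∘
      (fun p : ℝ × ℝ => (p.1, bet C (some k) p)) := by
    funext p
    simp only [Si, comp_apply]
    congr 1
    ring
  rw [h]
  refine (mp_mk C (some k)).comp
    ((mp_shear1 (g := fun b => - π + 2 * arcsin (b / C.R (some k))) ?_).comp (mp_bet C (some k)))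
  exact measurable_const.add
    (measurable_const.mul (measurable_arcsin.comp (measurable_id.div_const _)))

lemma mp_Sw (C : Cfg N) (w : List (Fin N)) : MeasurePreserving (Sw C w) := by
  induction w with
  | nil => exact MeasurePreserving.id _
  | cons k w ih => exact ih.comp (mp_S C k)

lemma mp_Siw (C : Cfg N) (w : List (Fin N)) : MeasurePreserving (Siw C w) := by
  induction w with
  | nil => exact MeasurePreserving.id _
  | cons k w ih => exact (mp_Si C k).comp ih

lemma mp_neg_real : MeasurePreserving (fun x : ℝ => - x) :=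
  Measure.measurePreserving_neg volume

lemma mp_rev : MeasurePreserving rev :=
  (measurePreserving_add_right (volume : Measure ℝ) π).prod mp_neg_real

lemma mp_unrev : MeasurePreserving unrev := by
  have h : unrev = Prod.map (fun x : ℝ => x + (-π)) (fun x : ℝ => - x) := by
    funext p
    simp only [unrev, sub_eq_add_neg]
    rfl
  rw [h]
  exact (measurePreserving_add_right (volume : Measure ℝ) (-π)).prod mp_neg_real

lemma mp_add_snd (h : ℝ) : MeasurePreserving (fun p : ℝ × ℝ => (p.1, p.2 + h)) :=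
  mp_shear2 (g := fun _ => h) measurable_const

lemma mp_add_fst (h : ℝ) : MeasurePreserving (fun p : ℝ × ℝ => (p.1 + h, p.2)) :=
  mp_shear1 (g := fun _ => h) measurable_const

/-! ## the strip -/

/-- lines with angle in a given fundamental interval -/
def strip (a : ℝ) : Set (ℝ × ℝ) := {p | p.1 ∈ Ioc a (a + 2 * π)}

lemma measurableSet_strip (a : ℝ) : MeasurableSet (strip a) :=
  measurable_fst measurableSet_Ioc

/-- invariance of a set under full turns -/
def Per (A : Set (ℝ × ℝ)) : Prop := ∀ p : ℝ × ℝ, (p.1 + 2 * π, p.2) ∈ A ↔ p ∈ A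

/-- the group of full turns -/
noncomputable abbrev GG : AddSubgroup (ℝ × ℝ) := AddSubgroup.zmultiples ((2 * π, 0) : ℝ × ℝ)

instance : Countable GG := by
  have : Function.Surjective (fun n : ℤ => (⟨n • ((2 * π, 0) : ℝ × ℝ),
      AddSubgroup.mem_zmultiples_iff.2 ⟨n, rfl⟩⟩ : GG)) := by
    rintro ⟨g, hg⟩
    obtain ⟨n, hn⟩ := AddSubgroup.mem_zmultiples_iff.1 hg
    exact ⟨n, Subtype.ext hn⟩
  exact this.countable

lemma GG_vadd (g : GG) (p : ℝ × ℝ) : g +ᵥ p = (g : ℝ × ℝ) + p := rfl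

lemma fd_strip (a : ℝ) : IsAddFundamentalDomain GG (strip a) (volume : Measure (ℝ × ℝ)) := by
  refine IsAddFundamentalDomain.mk' (measurableSet_strip a).nullMeasurableSet fun x => ?_
  have hT : (0 : ℝ) < 2 * π := by positivity
  have hinj : Injective (fun n : ℤ => n • ((2 * π, 0) : ℝ × ℝ)) := by
    intro n m h
    have h1 : (n : ℝ) * (2 * π) = (m : ℝ) * (2 * π) := by
      have := congrArg Prod.fst h
      simpa using this
    have h2 := mul_right_cancel₀ hT.ne' h1
    exact_mod_cast h2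
  have hb : Bijective (codRestrict (fun n : ℤ => n • ((2 * π, 0) : ℝ × ℝ)) (GG : Set (ℝ × ℝ))
      (fun n => AddSubgroup.mem_zmultiples_iff.2 ⟨n, rfl⟩)) :=
    (Equiv.ofInjective (fun n : ℤ => n • ((2 * π, 0) : ℝ × ℝ)) hinj).bijective
  refine hb.existsUnique_iff.2 ?_
  obtain ⟨n, hn, hu⟩ := existsUnique_add_zsmul_mem_Ioc hT x.1 a
  refine ⟨n, ?_, ?_⟩
  · show (n • (2 * π)) + x.1 ∈ Ioc a (a + 2 * π)
    rw [add_comm (n • (2 * π)) x.1]; exact hn
  · intro m hm
    apply hu
    have h1 : (m • (2 * π)) + x.1 ∈ Ioc a (a + 2 * π) := hm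
    show x.1 + m • (2 * π) ∈ Ioc a (a + 2 * π)
    rw [add_comm x.1]; exact h1

lemma Per.int {A : Set (ℝ × ℝ)} (hA : Per A) (n : ℤ) (p : ℝ × ℝ) :
    (p.1 + n * (2 * π), p.2) ∈ A ↔ p ∈ A := shift_int (P := (· ∈ A)) hA n p

lemma Per.gg {A : Set (ℝ × ℝ)} (hA : Per A) (g : GG) : (fun x => g +ᵥ x) ⁻¹' A = A := by
  ext p
  obtain ⟨g, hg⟩ := g
  obtain ⟨n, rfl⟩ := AddSubgroup.mem_zmultiples_iff.1 hg
  rw [mem_preimage, GG_vadd]
  rw [← hA.int n p]
  have e : (n • ((2 * π, 0) : ℝ × ℝ)) + p = (p.1 + n * (2 * π), p.2) := by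
    refine Prod.ext ?_ ?_
    · simp [add_comm]
    · simp
  simp only [e]

/-- the measure of a periodic set in a strip does not depend on the strip -/
lemma Per.strip_eq {A : Set (ℝ × ℝ)} (hA : Per A) (hm : MeasurableSet A) (a b : ℝ) :
    volume (A ∩ strip a) = volume (A ∩ strip b) :=
  (fd_strip a).measure_set_eq (fd_strip b) hm hA.gg

/-- a map commuting with full turns -/
def Comm2 (f : ℝ × ℝ → ℝ × ℝ) : Prop :=
  ∀ p : ℝ × ℝ, f (p.1 + 2 * π, p.2) = ((f p).1 + 2 * π, (f p).2)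

/-- a map anticommuting with full turns -/
def Anti2 (f : ℝ × ℝ → ℝ × ℝ) : Prop :=
  ∀ p : ℝ × ℝ, f (p.1 + 2 * π, p.2) = ((f p).1 - 2 * π, (f p).2)

lemma Comm2.int {f : ℝ × ℝ → ℝ × ℝ} (hf : Comm2 f) (n : ℤ) (p : ℝ × ℝ) :
    f (p.1 + n * (2 * π), p.2) = ((f p).1 + n * (2 * π), (f p).2) := by
  induction n using Int.induction_on with
  | zero => simp
  | succ n ih =>
    have h1 := hf (p.1 + (n : ℤ) * (2 * π), p.2)
    have e : p.1 + (((n : ℤ) + 1 : ℤ) : ℝ) * (2 * π) = p.1 + ((n : ℤ) : ℝ) * (2 * π) + 2 * π := by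
      push_cast; ring
    simp only [e]
    rw [h1, ih]
    refine Prod.ext ?_ rfl
    simp only
    push_cast; ring
  | pred n ih =>
    have h1 := hf (p.1 + ((-(n : ℤ) - 1 : ℤ) : ℝ) * (2 * π), p.2)
    have e : p.1 + ((-(n : ℤ) - 1 : ℤ) : ℝ) * (2 * π) + 2 * π =
        p.1 + ((-(n : ℤ) : ℤ) : ℝ) * (2 * π) := by
      push_cast; ring
    simp only [e] at h1
    rw [ih] at h1
    have h2 := congrArg Prod.fst h1
    have h3 := congrArg Prod.snd h1
    refine Prod.ext ?_ h3.symm
    simp only at h2 ⊢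
    push_cast at h2 ⊢
    linarith

/-- the measure of a periodic set is preserved -/
lemma Per.preimage_strip {A : Set (ℝ × ℝ)} (hA : Per A) (hm : MeasurableSet A)
    {f : ℝ × ℝ → ℝ × ℝ} (hf : MeasurePreserving f) (hc : Comm2 f) (a b : ℝ) :
    volume (f ⁻¹' A ∩ strip a) = volume (A ∩ strip b) := by
  have hfd : IsAddFundamentalDomain GG (f ⁻¹' strip b) (volume : Measure (ℝ × ℝ)) := by
    refine (fd_strip b).preimage_of_equiv hf.quasiMeasurePreserving (e := id) bijective_id ?_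
    intro g p
    obtain ⟨g, hg⟩ := g
    obtain ⟨n, rfl⟩ := AddSubgroup.mem_zmultiples_iff.1 hg
    simp only [id_eq, GG_vadd]
    have e : ∀ q : ℝ × ℝ, (n • ((2 * π, 0) : ℝ × ℝ)) + q = (q.1 + n * (2 * π), q.2) := by
      intro q
      refine Prod.ext ?_ ?_
      · simp [add_comm]
      · simp
    rw [e, e, hc.int]
  have hPf : Per (f ⁻¹' A) := by
    intro p
    rw [mem_preimage, hc p, mem_preimage, hA]
  rw [(fd_strip a).measure_set_eq hfd (hf.measurable hm) hPf.gg, ← preimage_inter,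
    hf.measure_preimage (hm.inter (measurableSet_strip b)).nullMeasurableSet]

lemma comm_S (C : Cfg N) (k : Fin N) : Comm2 (S C k) := S_shift C k
lemma comm_Si (C : Cfg N) (k : Fin N) : Comm2 (Si C k) := Si_shift C k
lemma comm_Sw (C : Cfg N) (w : List (Fin N)) : Comm2 (Sw C w) := Sw_shift C w
lemma comm_Siw (C : Cfg N) (w : List (Fin N)) : Comm2 (Siw C w) := Siw_shift C w
lemma comm_rev : Comm2 rev := rev_shift
lemma comm_unrev : Comm2 unrev := unrev_shift
lemma comm_add_snd (h : ℝ) : Comm2 (fun p : ℝ × ℝ => (p.1, p.2 + h)) := fun _ => rfl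
lemma Comm2.comp {f g : ℝ × ℝ → ℝ × ℝ} (hf : Comm2 f) (hg : Comm2 g) : Comm2 (f ∘ g) := by
  intro p
  simp only [comp_apply]
  rw [hg p, hf (g p)]

lemma Per.preimage {A : Set (ℝ × ℝ)} (hA : Per A) {f : ℝ × ℝ → ℝ × ℝ} (hc : Comm2 f) :
    Per (f ⁻¹' A) := by
  intro p
  rw [mem_preimage, hc p, mem_preimage, hA]

lemma Per.inter {A B : Set (ℝ × ℝ)} (hA : Per A) (hB : Per B) : Per (A ∩ B) := by
  intro p; rw [mem_inter_iff, mem_inter_iff, hA, hB]

lemma Per.union {A B : Set (ℝ × ℝ)} (hA : Per A) (hB : Per B) : Per (A ∪ B) := by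
  intro p; rw [mem_union, mem_union, hA, hB]

lemma Per.compl {A : Set (ℝ × ℝ)} (hA : Per A) : Per Aᶜ := by
  intro p; rw [mem_compl_iff, mem_compl_iff, hA]

lemma Per.iUnion {ι : Sort*} {A : ι → Set (ℝ × ℝ)} (hA : ∀ i, Per (A i)) : Per (⋃ i, A i) := by
  intro p; simp only [mem_iUnion]; exact exists_congr fun i => hA i p

lemma Per.iInter {ι : Sort*} {A : ι → Set (ℝ × ℝ)} (hA : ∀ i, Per (A i)) : Per (⋂ i, A i) := by
  intro p; simp only [mem_iInter]; exact forall_congr' fun i => hA i p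

/-- a periodic set which is null in one strip is null -/
lemma Per.null {A : Set (ℝ × ℝ)} (hA : Per A) (a : ℝ) (h : volume (A ∩ strip a) = 0) :
    volume A = 0 :=
  (fd_strip a).measure_zero_of_invariant A (fun g => by
    have := hA.gg (-g)
    ext p
    rw [mem_vadd_set_iff_neg_vadd_mem]
    exact (Set.ext_iff.1 this p)) h

end Pool.Agent.Work.MP_5c1620_co
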