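import Pool.Agent.Work.MP_5c1620_co.Geo

/-!
# Periodicity under full turns, reversal of flights
-/

set_option autoImplicit false
open Real Set MeasureTheory

namespace Pool.Agent.Work.MP_5c1620_co

variable {N : ℕ}

/-! ## full turns -/

lemma bet_shift (C : Cfg N) (o : Option (Fin N)) (p : ℝ × ℝ) :
    bet C o (p.1 + 2 * π, p.2) = bet C o p := by simp [bet]

lemma tau_shift (C : Cfg N) (o : Option (Fin N)) (p : ℝ × ℝ) :
    tau C o (p.1 + 2 * π, p.2) = tau C o p := by simp [tau]

lemma alp_shift (C : Cfg N) (o : Option (Fin N)) (p : ℝ × ℝ) :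
    alp C o (p.1 + 2 * π, p.2) = alp C o p := by simp only [alp, bet_shift]

lemma pos_shift (C : Cfg N) (o : Option (Fin N)) (p : ℝ × ℝ) :
    pos C o (p.1 + 2 * π, p.2) = pos C o p := by
  cases o with
  | none => simp only [pos, tau_shift]
  | some i => simp only [pos, tau_shift, alp_shift]

lemma mk_shift (C : Cfg N) (o : Option (Fin N)) (a b : ℝ) :
    mk C o (a + 2 * π) b = ((mk C o a b).1 + 2 * π, (mk C o a b).2) := by
  simp [mk]

lemma S_shift (C : Cfg N) (k : Fin N) (p : ℝ × ℝ) :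
    S C k (p.1 + 2 * π, p.2) = ((S C k p).1 + 2 * π, (S C k p).2) := by
  unfold S
  rw [bet_shift, ← mk_shift]
  congr 1
  ring

lemma Si_shift (C : Cfg N) (k : Fin N) (p : ℝ × ℝ) :
    Si C k (p.1 + 2 * π, p.2) = ((Si C k p).1 + 2 * π, (Si C k p).2) := by
  unfold Si
  rw [bet_shift, ← mk_shift]
  congr 1
  ring

lemma Sw_shift (C : Cfg N) (w : List (Fin N)) (p : ℝ × ℝ) :
    Sw C w (p.1 + 2 * π, p.2) = ((Sw C w p).1 + 2 * π, (Sw C w p).2) := by
  induction w generalizing p with
  | nil => rfl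
  | cons k w ih => simp only [Sw]; rw [S_shift, ih]

lemma Siw_shift (C : Cfg N) (w : List (Fin N)) (p : ℝ × ℝ) :
    Siw C w (p.1 + 2 * π, p.2) = ((Siw C w p).1 + 2 * π, (Siw C w p).2) := by
  induction w generalizing p with
  | nil => rfl
  | cons k w ih => simp only [Siw]; rw [ih, Si_shift]

lemma rev_shift (p : ℝ × ℝ) : rev (p.1 + 2 * π, p.2) = ((rev p).1 + 2 * π, (rev p).2) := by
  simp only [rev]; refine Prod.ext ?_ rfl; simp only; ring

lemma unrev_shift (p : ℝ × ℝ) :
    unrev (p.1 + 2 * π, p.2) = ((unrev p).1 + 2 * π, (unrev p).2) := by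
  simp only [unrev]; refine Prod.ext ?_ rfl; simp only; ring

lemma rev_eq_unrev_shift (p : ℝ × ℝ) : rev p = ((unrev p).1 + 2 * π, (unrev p).2) := by
  simp only [unrev, rev]; refine Prod.ext ?_ rfl; simp only; ring

lemma Free_shift (C : Cfg N) (o l : Option (Fin N)) (p : ℝ × ℝ) :
    Free C o l (p.1 + 2 * π, p.2) ↔ Free C o l p := by
  simp only [Free, tau_shift, bet_shift]

lemma W_shift (C : Cfg N) (o : Option (Fin N)) (k : Fin N) (p : ℝ × ℝ) :
    W C o k (p.1 + 2 * π, p.2) ↔ W C o k p := by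
  simp only [W, tau_shift, bet_shift, Free_shift]

lemma Nx_shift (C : Cfg N) (o : Option (Fin N)) (k : Fin N) (p : ℝ × ℝ) :
    Nx C o k (p.1 + 2 * π, p.2) ↔ Nx C o k p := by
  simp only [Nx, tau_shift, bet_shift]

lemma Fr_shift (C : Cfg N) (o : Option (Fin N)) (p : ℝ × ℝ) :
    Fr C o (p.1 + 2 * π, p.2) ↔ Fr C o p := by
  simp only [Fr, tau_shift, bet_shift]

lemma Kill_shift (C : Cfg N) (j : ℕ) (o : Option (Fin N)) (e ε : ℝ) (p : ℝ × ℝ) :
    Kill C j o e ε (p.1 + 2 * π, p.2) ↔ Kill C j o e ε p := by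
  induction j generalizing o e p with
  | zero => simp only [Kill, tau_shift, bet_shift, Free_shift]
  | succ j ih =>
    simp only [Kill, W_shift, S_shift]
    refine exists_congr fun k => and_congr_right fun _ => ?_
    exact ih (some k) (-e) (S C k p)

lemma Path_shift (C : Cfg N) (o : Option (Fin N)) (w : List (Fin N)) (p : ℝ × ℝ) :
    Path C o w (p.1 + 2 * π, p.2) ↔ Path C o w p := by
  induction w generalizing o p with
  | nil => simp only [Path]
  | cons k w ih =>
    simp only [Path, Nx_shift, S_shift]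
    exact and_congr_right fun _ => ih (some k) (S C k p)

lemma Esc_shift (C : Cfg N) (o : Option (Fin N)) (p : ℝ × ℝ) :
    Esc C o (p.1 + 2 * π, p.2) ↔ Esc C o p := by
  simp only [Esc, Path_shift, Sw_shift]
  refine exists_congr fun w => and_congr_right fun _ => ?_
  exact Fr_shift C _ (Sw C w p)

lemma PD_shift (C : Cfg N) (w : List (Fin N)) (p : ℝ × ℝ) :
    PD C w (p.1 + 2 * π, p.2) = PD C w p := by
  induction w generalizing p with
  | nil => simp only [PD]
  | cons k w ih =>
    have h := ih (S C k p)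
    have h2 := pos_shift C (some k) (S C k p)
    simp only [PD, S_shift, h, h2, alp_shift, tau_shift]

lemma St_shift (C : Cfg N) (o : Option (Fin N)) (w : List (Fin N)) (p : ℝ × ℝ) :
    St C o w (p.1 + 2 * π, p.2) = St C o w p := by
  simp only [St, PD_shift, pos_shift]

/-! ### multiples of full turns -/

/-- A predicate invariant under a full turn is invariant under all multiples. -/
lemma shift_int {P : ℝ × ℝ → Prop} (h : ∀ p : ℝ × ℝ, P (p.1 + 2 * π, p.2) ↔ P p) (n : ℤ)
    (p : ℝ × ℝ) : P (p.1 + n * (2 * π), p.2) ↔ P p := by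
  induction n using Int.induction_on with
  | zero => simp
  | succ n ih =>
    have h1 := h (p.1 + (n : ℤ) * (2 * π), p.2)
    rw [← ih, ← h1]
    have e : p.1 + (((n : ℤ) + 1 : ℤ) : ℝ) * (2 * π) = p.1 + ((n : ℤ) : ℝ) * (2 * π) + 2 * π := by
      push_cast; ring
    rw [e]
  | pred n ih =>
    have h1 := h (p.1 + ((-(n : ℤ) - 1 : ℤ) : ℝ) * (2 * π), p.2)
    rw [← ih, ← h1]
    have e : p.1 + ((-(n : ℤ) - 1 : ℤ) : ℝ) * (2 * π) + 2 * π =
        p.1 + ((-(n : ℤ) : ℤ) : ℝ) * (2 * π) := by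
      push_cast; ring
    simp only [e]

/-! ## reversal of flights and reflections -/

/-- reflecting, reversing and reflecting again gives the reversed line, up to a full turn -/
lemma S_rev_S (C : Cfg N) (k : Fin N) (p : ℝ × ℝ) :
    S C k (rev (S C k p)) = ((rev p).1 + 2 * π, (rev p).2) := by
  apply eq_of_fst_bet C (some k)
  · rw [S_fst, bet_rev, bet_S]
    simp only [rev, S_fst, neg_div, arcsin_neg]
    ring
  · rw [bet_S, bet_rev, bet_S, bet_shift, bet_rev]

lemma S_rev (C : Cfg N) (k : Fin N) (p : ℝ × ℝ) :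
    S C k (rev p) = ((rev (Si C k p)).1 + 2 * π, (rev (Si C k p)).2) := by
  have := S_rev_S C k (Si C k p)
  rwa [S_Si] at this

lemma Nx_rev {C : Cfg N} {i k : Fin N} {p : ℝ × ℝ} (h : Nx C (some i) k p)
    (hi : |bet C (some i) p| < C.R (some i)) : Nx C (some k) i (rev p) := by
  refine ⟨?_, ?_, ?_⟩
  · rw [tau_rev, tau_rev]; exact neg_lt_neg h.1
  · rw [bet_rev, abs_neg]; exact hi
  · intro m h1 h2
    rw [tau_rev, tau_rev] at h1 h2
    rw [bet_rev, abs_neg]
    exact h.2.2 m (neg_lt_neg_iff.1 h2) (neg_lt_neg_iff.1 h1)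

lemma W_rev {C : Cfg N} {i k : Fin N} {p : ℝ × ℝ} (h : W C (some i) k p)
    (hi : |bet C (some i) p| ≤ C.R (some i)) : W C (some k) i (rev p) := by
  obtain ⟨h0, h1, h2, h3⟩ := h
  refine ⟨?_, ?_, ?_, ?_⟩
  · exact fun h => h0 h.symm
  · rw [tau_rev, tau_rev]; exact neg_le_neg h1
  · rw [bet_rev, abs_neg]; exact hi
  · rintro m ⟨m1, m2, m3⟩
    rw [tau_rev, tau_rev] at m1 m2
    rw [bet_rev, abs_neg] at m3
    exact h3 m ⟨neg_lt_neg_iff.1 m2, neg_lt_neg_iff.1 m1, m3⟩

lemma W.toNx {C : Cfg N} {o : Option (Fin N)} {k : Fin N} {p : ℝ × ℝ} (h : W C o k p)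
    (ho : |bet C o p| ≤ C.R o) (hg : ∀ m : Fin N, |bet C (some m) p| ≠ C.R (some m)) :
    Nx C o k p := by
  obtain ⟨h0, h1, h2, h3⟩ := h
  have hd := C.dpos
  have hs := sep_tau0 C h0.symm ho h2 h1
  have n1 := alp_nonneg C o p
  have n2 := alp_nonneg C (some k) p
  refine ⟨by linarith, lt_of_le_of_ne h2 (hg k), ?_⟩
  intro m m1 m2
  by_contra hcon
  push Not at hcon
  exact h3 m ⟨m1, m2, lt_of_le_of_ne hcon (hg m)⟩

/-- two strictly hit mirrors cannot both be the last one before `k` -/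
lemma W_unique {C : Cfg N} {i i' k : Fin N} {p : ℝ × ℝ}
    (hi : |bet C (some i) p| < C.R (some i)) (hi' : |bet C (some i') p| < C.R (some i'))
    (h : W C (some i) k p) (h' : W C (some i') k p) : i = i' := by
  by_contra hne
  have hd := C.dpos
  have key : ∀ a b : Fin N, a ≠ b → |bet C (some a) p| < C.R (some a) →
      |bet C (some b) p| < C.R (some b) → W C (some a) k p → W C (some b) k p →
      tau C (some a) p ≤ tau C (some b) p → False := by
    intro a b hab ha hb Wa Wb hle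
    have hs := sep_tau0 C (p := p) (o := some a) (o' := some b) (by simpa using hab) ha.le hb.le hle
    have hs' := sep_tau0 C (p := p) (o := some b) (o' := some k) (Ne.symm Wb.1) hb.le Wb.2.2.1
      Wb.2.1
    have n1 := alp_nonneg C (some a) p
    have n2 := alp_nonneg C (some b) p
    have n3 := alp_nonneg C (some k) p
    exact Wa.2.2.2 b ⟨by linarith, by linarith, hb⟩
  rcases le_total (tau C (some i) p) (tau C (some i') p) with h1 | h1
  · exact key i i' hne hi hi' h h' h1
  · exact key i' i (Ne.symm hne) hi' hi h' h h1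

end Pool.Agent.Work.MP_5c1620_co
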